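import Pool.Agent.SelfCover.MTBasic

open scoped unitInterval Topology NNReal
open Set

noncomputable section

namespace SelfCover

namespace MTorus

variable {Z : Type*} [TopologicalSpace Z] (a : C(Z, Z))

/-- The fractional part of a nonnegative real, as a point of `[0,1]`. -/
def fr (τ : ℝ≥0) : I := Set.projIcc 0 1 zero_le_one ((τ : ℝ) - ⌊τ⌋₊)

lemma coe_fr (τ : ℝ≥0) : (fr τ : ℝ) = (τ : ℝ) - ⌊τ⌋₊ := by
  unfold fr
  rw [Set.projIcc_of_mem]
  constructor
  · have := Nat.floor_le (a := τ) zero_le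
    have : ((⌊τ⌋₊ : ℝ≥0) : ℝ) ≤ τ := by exact_mod_cast this
    simpa using this
  · have := (Nat.lt_floor_add_one τ).le
    have : (τ : ℝ) ≤ ((⌊τ⌋₊ : ℝ≥0) : ℝ) + 1 := by exact_mod_cast this
    simp at this
    linarith

/-- The upward ray starting at `(z,0)`: `τ ↦ (a^n z, τ - n)` for `n = ⌊τ⌋`. -/
def rayFun (p : Z × ℝ≥0) : MTorus a := mk a (a^[⌊p.2⌋₊] p.1, fr p.2)

lemma rayFun_of_mem (n : ℕ) (z : Z) (τ : ℝ≥0) (h1 : (n : ℝ) ≤ τ) (h2 : (τ : ℝ) ≤ n + 1) :
    rayFun a (z, τ) = mk a (a^[n] z, Set.projIcc 0 1 zero_le_one ((τ : ℝ) - n)) := by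
  rcases h2.lt_or_eq with h | h
  · have hf : ⌊τ⌋₊ = n := by
      rw [Nat.floor_eq_iff zero_le]
      constructor
      · exact_mod_cast h1
      · exact_mod_cast h
    unfold rayFun fr
    rw [hf]
  · have hf : ⌊τ⌋₊ = n + 1 := by
      rw [Nat.floor_eq_iff zero_le]
      constructor
      · have : ((n + 1 : ℕ) : ℝ) ≤ τ := by push_cast; linarith
        exact_mod_cast this
      · have : (τ : ℝ) < ((n + 1 : ℕ) : ℝ) + 1 := by push_cast; linarith
        exact_mod_cast this
    unfold rayFun fr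
    simp only
    rw [hf, h]
    have e1 : (n : ℝ) + 1 - ((n + 1 : ℕ) : ℝ) = 0 := by push_cast; ring
    have e2 : (n : ℝ) + 1 - n = 1 := by ring
    rw [e1, e2, Set.projIcc_left, Set.projIcc_right, Function.iterate_succ_apply']
    exact (mk_one a _).symm

lemma continuous_rayFun : Continuous (rayFun a) := by
  let f : ℕ → Set (Z × ℝ≥0) := fun n => {p | (n : ℝ) ≤ p.2 ∧ (p.2 : ℝ) ≤ n + 1}
  have hlf : LocallyFinite f := by
    intro p
    refine ⟨{q | (q.2 : ℝ) < p.2 + 1}, ?_, ?_⟩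
    · apply IsOpen.mem_nhds
      · exact isOpen_lt (by fun_prop) continuous_const
      · simp
    · refine (Set.finite_Iic (⌊(p.2 : ℝ) + 1⌋₊)).subset ?_
      rintro n ⟨q, ⟨h1, -⟩, h2⟩
      rw [mem_Iic]
      apply Nat.le_floor
      exact h1.trans (le_of_lt h2)
  have hcont2 : Continuous (fun p : Z × ℝ≥0 => (p.2 : ℝ)) := by fun_prop
  refine hlf.continuous ?_ ?_ ?_
  · rw [Set.iUnion_eq_univ_iff]
    intro p
    refine ⟨⌊p.2⌋₊, ?_, ?_⟩
    · have := Nat.floor_le (a := p.2) zero_le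
      exact_mod_cast this
    · have := (Nat.lt_floor_add_one p.2).le
      exact_mod_cast this
  · intro n
    exact (isClosed_le continuous_const hcont2).inter (isClosed_le hcont2 continuous_const)
  · intro n
    have hc : Continuous (fun p : Z × ℝ≥0 =>
        mk a (a^[n] p.1, Set.projIcc 0 1 zero_le_one ((p.2 : ℝ) - n))) := by
      have := a.continuous.iterate n
      fun_prop
    refine hc.continuousOn.congr ?_
    rintro ⟨z, τ⟩ ⟨h1, h2⟩
    exact rayFun_of_mem a n z τ h1 h2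

/-- The upward ray, as a continuous map. -/
def ray : C(Z × ℝ≥0, MTorus a) := ⟨rayFun a, continuous_rayFun a⟩

/-- A point of `[0,1]` as a nonnegative real. -/
def toNN (t : I) : ℝ≥0 := ⟨t, t.2.1⟩

@[fun_prop] lemma continuous_toNN : Continuous toNN := by
  unfold toNN; exact continuous_subtype_val.subtype_mk _

@[simp] lemma coe_toNN (t : I) : ((toNN t : ℝ≥0) : ℝ) = t := rfl
@[simp] lemma toNN_zero : toNN 0 = 0 := rfl
@[simp] lemma toNN_one : toNN 1 = 1 := rfl

lemma ray_toNN (z : Z) (t : I) : ray a (z, toNN t) = mk a (z, t) := by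
  show rayFun a (z, toNN t) = _
  rw [rayFun_of_mem a 0 z (toNN t) (by simpa using t.2.1) (by simpa using t.2.2)]
  simp

lemma ray_zero (z : Z) : ray a (z, 0) = base a z := ray_toNN a z 0

lemma ray_add_one (z : Z) (τ : ℝ≥0) : ray a (z, τ + 1) = ray a (a z, τ) := by
  show rayFun a (z, τ + 1) = rayFun a (a z, τ)
  have hfr : fr (τ + 1) = fr τ := by
    apply Subtype.ext
    rw [coe_fr, coe_fr, Nat.floor_add_one zero_le]
    push_cast
    ring
  unfold rayFun
  simp only
  rw [Nat.floor_add_one zero_le, Function.iterate_succ_apply, hfr]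

lemma ray_add_nat (n : ℕ) (z : Z) (τ : ℝ≥0) : ray a (z, τ + n) = ray a (a^[n] z, τ) := by
  induction n generalizing z with
  | zero => simp
  | succ n ih =>
    have : τ + ((n + 1 : ℕ) : ℝ≥0) = (τ + n) + 1 := by push_cast; ring
    rw [this, ray_add_one, ih, Function.iterate_succ_apply]

lemma ray_nat (n : ℕ) (z : Z) : ray a (z, (n : ℝ≥0)) = base a (a^[n] z) := by
  have := ray_add_nat a n z 0
  rw [zero_add] at this
  rw [this, ray_zero]

/-- every point on a ray is in normal position -/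
lemma ray_eq (z : Z) (τ : ℝ≥0) : ray a (z, τ) = mk a (a^[⌊τ⌋₊] z, fr τ) := rfl

@[simp] lemma pr_ray (z : Z) (τ : ℝ≥0) : pr a (ray a (z, τ)) = ((τ : ℝ) : UnitAddCircle) := by
  rw [ray_eq, pr_mk, coe_fr]
  have : ((⌊τ⌋₊ : ℝ) : UnitAddCircle) = 0 := by
    rw [AddCircle.coe_eq_zero_iff]
    exact ⟨⌊τ⌋₊, by simp⟩
  rw [AddCircle.coe_sub, this, sub_zero]

/-- auxiliary map for the flow -/
def flowAux : C((Z × I) × ℝ≥0, MTorus a) :=
  ⟨fun p => ray a (p.1.1, toNN p.1.2 + p.2), by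
    have := (ray a).continuous
    fun_prop⟩

lemma flowAux_apply (p : Z × I) (s : ℝ≥0) : flowAux a (p, s) = ray a (p.1, toNN p.2 + s) := rfl

lemma flowAux_nf (p : Z × I) (s : ℝ≥0) : flowAux a (nf a p, s) = flowAux a (p, s) := by
  by_cases hp : p.2 = 1
  · obtain ⟨z, t⟩ := p
    simp only at hp
    subst hp
    rw [nf_one, flowAux_apply, flowAux_apply]
    simp only [toNN_zero, toNN_one, zero_add]
    rw [add_comm, ray_add_one]
  · rw [nf_of_ne a hp]

lemma exists_ray (y : MTorus a) : ∃ (z : Z) (t : I), y = ray a (z, toNN t) := by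
  obtain ⟨⟨z, t⟩, rfl⟩ := mk_surjective a y
  exact ⟨z, t, (ray_toNN a z t).symm⟩

variable [CompactSpace Z] [T2Space Z]

lemma flowAux_compat : ∀ p q : (Z × I) × ℝ≥0, Prod.map (mk a) (id : ℝ≥0 → ℝ≥0) p =
    Prod.map (mk a) id q → flowAux a p = flowAux a q := by
  rintro ⟨p, s⟩ ⟨q, s'⟩ hpq
  simp only [Prod.map_apply, id, Prod.mk.injEq] at hpq
  obtain ⟨h1, rfl⟩ := hpq
  rw [mk_eq_iff] at h1
  rw [← flowAux_nf, ← flowAux_nf a q, h1]

/-- The upward semiflow on the mapping torus. -/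
def flow : C(MTorus a × ℝ≥0, MTorus a) :=
  (isQuotientMap_mk_prod a ℝ≥0).lift (f := ⟨Prod.map (mk a) id, by fun_prop⟩)
    (flowAux a) (flowAux_compat a)

lemma flow_mk (z : Z) (t : I) (s : ℝ≥0) : flow a (mk a (z, t), s) = ray a (z, toNN t + s) := by
  have := Topology.IsQuotientMap.lift_comp (isQuotientMap_mk_prod a ℝ≥0)
    (f := ⟨Prod.map (mk a) id, by fun_prop⟩) (flowAux a) (flowAux_compat a)
  exact congrArg (fun f : C((Z × I) × ℝ≥0, MTorus a) => f ((z, t), s)) this

@[simp] lemma flow_ray (z : Z) (τ s : ℝ≥0) : flow a (ray a (z, τ), s) = ray a (z, τ + s) := by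
  rw [ray_eq, flow_mk]
  have h : τ = toNN (fr τ) + ⌊τ⌋₊ := by
    apply NNReal.coe_injective
    push_cast
    rw [coe_toNN, coe_fr]
    ring
  conv_rhs => rw [h, add_right_comm, ray_add_nat]

@[simp] lemma flow_base (z : Z) (s : ℝ≥0) : flow a (base a z, s) = ray a (z, s) := by
  rw [← ray_zero, flow_ray, zero_add]

@[simp] lemma flow_zero (y : MTorus a) : flow a (y, 0) = y := by
  obtain ⟨z, t, rfl⟩ := exists_ray a y
  rw [flow_ray, add_zero]

lemma flow_flow (y : MTorus a) (s s' : ℝ≥0) : flow a (flow a (y, s), s') = flow a (y, s + s') := by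
  obtain ⟨z, t, rfl⟩ := exists_ray a y
  rw [flow_ray, flow_ray, flow_ray, add_assoc]

@[simp] lemma pr_flow (y : MTorus a) (s : ℝ≥0) :
    pr a (flow a (y, s)) = pr a y + ((s : ℝ) : UnitAddCircle) := by
  obtain ⟨z, t, rfl⟩ := exists_ray a y
  rw [flow_ray, pr_ray, pr_ray]
  push_cast
  rfl

lemma flow_base_nat (z : Z) (n : ℕ) : flow a (base a z, (n : ℝ≥0)) = base a (a^[n] z) := by
  rw [flow_base, ray_nat]

lemma flow_base_one (z : Z) : flow a (base a z, 1) = base a (a z) := by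
  simpa using flow_base_nat a z 1

/-- Flow a family of points with lifted heights `r ≤ N` up to level `N` (an integer). -/
lemma exists_ret {K : Type*} [TopologicalSpace K] (N : ℤ) (F : C(K, MTorus a)) (r : C(K, ℝ))
    (h : ∀ k, pr a (F k) = ((r k : ℝ) : UnitAddCircle)) (hN : ∀ k, r k ≤ N) :
    ∃ g : C(K, Z), ∀ k, base a (g k) = flow a (F k, Real.toNNReal (N - r k)) := by
  have hex : ∀ k, ∃ z, flow a (F k, Real.toNNReal (N - r k)) = base a z := by
    intro k
    apply exists_base_of_pr_eq_zero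
    rw [pr_flow, h, Real.coe_toNNReal _ (by linarith [hN k]), ← AddCircle.coe_add,
      AddCircle.coe_eq_zero_iff]
    exact ⟨N, by simp⟩
  choose g hg using hex
  refine ⟨⟨g, ?_⟩, fun k => (hg k).symm⟩
  rw [(isClosedEmbedding_base a).isInducing.continuous_iff]
  have : (base a) ∘ g = fun k => flow a (F k, Real.toNNReal (N - r k)) := by
    funext k; exact (hg k).symm
  rw [this]
  fun_prop

/-- Flow a family of points with lifted heights `r ≤ N` up to level `N` (an integer). -/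
def ret {K : Type*} [TopologicalSpace K] (N : ℤ) (F : C(K, MTorus a)) (r : C(K, ℝ))
    (h : ∀ k, pr a (F k) = ((r k : ℝ) : UnitAddCircle)) (hN : ∀ k, r k ≤ N) : C(K, Z) :=
  (exists_ret a N F r h hN).choose

lemma base_ret {K : Type*} [TopologicalSpace K] (N : ℤ) (F : C(K, MTorus a)) (r : C(K, ℝ))
    (h : ∀ k, pr a (F k) = ((r k : ℝ) : UnitAddCircle)) (hN : ∀ k, r k ≤ N) (k : K) :
    base a (ret a N F r h hN k) = flow a (F k, Real.toNNReal (N - r k)) :=
  (exists_ret a N F r h hN).choose_spec k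

/-- At an integer height `n ≤ N`, `ret` is the iterate `a^(N-n)`. -/
lemma ret_eq_of_base {K : Type*} [TopologicalSpace K] (N : ℤ) (F : C(K, MTorus a)) (r : C(K, ℝ))
    (h : ∀ k, pr a (F k) = ((r k : ℝ) : UnitAddCircle)) (hN : ∀ k, r k ≤ N) (k : K)
    (z : Z) (hz : F k = base a z) (n : ℕ) (hn : r k + n = N) :
    ret a N F r h hN k = a^[n] z := by
  apply base_injective a
  rw [base_ret, hz, ← flow_base_nat]
  congr 2
  rw [← hn]
  simp

end MTorus

end SelfCover
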