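import Pool.Agent.SelfCover.MBasic
import Pool.Agent.SelfCover.MTFlow

/-!
The finite complexes `P` (mapping torus of the doubling map of the circle), `Z0 = P ∨ MSp`
and the self-map `a0` of `Z0`.
-/

open scoped unitInterval Topology
open Set

noncomputable section

namespace SelfCover

/-- The doubling map of the circle. -/
def sq : C(UnitAddCircle, UnitAddCircle) := ⟨fun θ => θ + θ, by fun_prop⟩

/-- `P`, the mapping torus of the doubling map; a `K(BS(1,2),1)`. -/
abbrev P : Type := MTorus sq

/-- The base point of `P`. -/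
def p0 : P := MTorus.base sq 0

/-- The wedge of `P` and `MSp`, as a subspace of the product. -/
def Wdg (P : Type) [TopologicalSpace P] (p₀ : P) : Type := {x : P × MSp // x.1 = p₀ ∨ x.2 = mpt}

instance (P : Type) [TopologicalSpace P] (p₀ : P) : TopologicalSpace (Wdg P p₀) :=
  inferInstanceAs (TopologicalSpace {x : P × MSp // x.1 = p₀ ∨ x.2 = mpt})

instance (P : Type) [TopologicalSpace P] [T2Space P] (p₀ : P) : T2Space (Wdg P p₀) :=
  inferInstanceAs (T2Space {x : P × MSp // x.1 = p₀ ∨ x.2 = mpt})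

instance (P : Type) [TopologicalSpace P] [T2Space P] [CompactSpace P] (p₀ : P) :
    CompactSpace (Wdg P p₀) := by
  have h : IsClosed {x : P × MSp | x.1 = p₀ ∨ x.2 = mpt} :=
    (isClosed_eq continuous_fst continuous_const).union
      (isClosed_eq continuous_snd continuous_const)
  exact isCompact_iff_compactSpace.mp h.isCompact

/-- `Z0 = P ∨ MSp`. -/
abbrev Z0 : Type := Wdg P p0

/-- The inclusion `P → Z0`. -/
def incl : C(P, Z0) := ⟨fun p => ⟨(p, mpt), Or.inr rfl⟩, by
  exact Continuous.subtype_mk (by fun_prop) _⟩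

/-- The base point of `Z0`. -/
def z0 : Z0 := incl p0

/-- The inclusion `MSp → Z0`, a pointed map. -/
def iota : PM Z0 z0 := ⟨⟨fun m => ⟨(p0, m), Or.inl rfl⟩,
  by exact Continuous.subtype_mk (by fun_prop) _⟩, rfl⟩

/-- The `P`-component of a point of `Z0`. -/
def toP : C(Z0, P) := ⟨fun z => z.1.1, by
  exact continuous_fst.comp continuous_subtype_val⟩

/-- The `MSp`-component of a point of `Z0`. -/
def toM : C(Z0, MSp) := ⟨fun z => z.1.2, by
  exact continuous_snd.comp continuous_subtype_val⟩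

@[simp] lemma toP_incl (p : P) : toP (incl p) = p := rfl
@[simp] lemma toM_incl (p : P) : toM (incl p) = mpt := rfl
@[simp] lemma toP_iota (m : MSp) : toP (iota.1 m) = p0 := rfl
@[simp] lemma toM_iota (m : MSp) : toM (iota.1 m) = m := rfl

lemma Z0.ext {z z' : Z0} (h1 : toP z = toP z') (h2 : toM z = toM z') : z = z' :=
  Subtype.ext (Prod.ext h1 h2)

lemma toP_or_toM (z : Z0) : toP z = p0 ∨ toM z = mpt := z.2

lemma eq_incl_of_toM {z : Z0} (h : toM z = mpt) : z = incl (toP z) := Z0.ext rfl h
lemma eq_iota_of_toP {z : Z0} (h : toP z = p0) : z = iota.1 (toM z) := Z0.ext h rfl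

/-- The self-map of `Z0` which is the identity on `P` and `f` on `MSp`. -/
def extFun (f : MSp → Z0) (z : Z0) : Z0 :=
  open Classical in if toM z = mpt then z else f (toM z)

lemma extFun_incl (f : MSp → Z0) (p : P) : extFun f (incl p) = incl p := by
  unfold extFun; simp

lemma extFun_of_toP (f : MSp → Z0) (hf : f mpt = z0) (z : Z0) (h : toP z = p0) :
    extFun f z = f (toM z) := by
  unfold extFun
  split_ifs with h2
  · rw [h2, hf]; exact Z0.ext h h2
  · rfl

lemma continuous_extFun {Y : Type*} [TopologicalSpace Y] (f : MSp × Y → Z0) (hf : Continuous f)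
    (h : ∀ τ, f (mpt, τ) = z0) :
    Continuous (fun p : Z0 × Y => extFun (fun m => f (m, p.2)) p.1) := by
  have hF : Continuous (fun p : Z0 × Y => f (toM p.1, p.2)) := by fun_prop
  have c2 : IsClosed {p : Z0 × Y | toM p.1 = mpt} :=
    isClosed_eq (by fun_prop) continuous_const
  have c1 : IsClosed {p : Z0 × Y | toP p.1 = p0} :=
    isClosed_eq (by fun_prop) continuous_const
  rw [← continuousOn_univ]
  have hu : (univ : Set (Z0 × Y)) = {p | toM p.1 = mpt} ∪ {p | toP p.1 = p0} := by
    ext p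
    rcases toP_or_toM p.1 with h | h <;> simp [h]
  rw [hu]
  refine ContinuousOn.union_of_isClosed ?_ ?_ c2 c1
  · refine continuous_fst.continuousOn.congr fun p hp => ?_
    rw [eq_incl_of_toM (show toM p.1 = mpt from hp)]
    exact extFun_incl _ _
  · exact hF.continuousOn.congr fun p hp => extFun_of_toP _ (h _) _ hp

/-- The self-map of `Z0` which is the identity on `P` and `f` on `MSp`. -/
def ext (f : PM Z0 z0) : C(Z0, Z0) := ⟨extFun f.1, by
  have h1 := continuous_extFun (Y := Unit) (fun p => f.1 p.1)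
      (f.1.continuous.comp continuous_fst) (fun _ => f.2)
  have h2 : Continuous fun m : Z0 => (m, ()) := by fun_prop
  have h3 := h1.comp h2
  simpa only [Function.comp_def] using h3⟩

@[simp] lemma ext_incl (f : PM Z0 z0) (p : P) : ext f (incl p) = incl p := extFun_incl _ _
@[simp] lemma ext_iota (f : PM Z0 z0) (m : MSp) : ext f (iota.1 m) = f.1 m :=
  extFun_of_toP _ f.2 _ rfl
lemma ext_z0 (f : PM Z0 z0) : ext f z0 = z0 := extFun_incl _ _

/-- the 3-skeleton of `MSp` -/
def msk3 : Set MSp := mproj '' {y | y 3 = 0}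

/-- Neighbourhood-deformation data making `MSp` well pointed. -/
structure NDR where
  δ : C(MSp × I, MSp)
  ρ : C(MSp, I)
  δ_one : ∀ m, δ (m, 1) = m
  δ_pt : ∀ τ, δ (mpt, τ) = mpt
  ρ_pt : ρ mpt = 1
  ρ_or : ∀ m, ρ m = 0 ∨ δ (m, 0) = mpt
  δ_sk : ∀ m τ, m ∈ msk3 → δ (m, τ) ∈ msk3

/-- The pointed map `MSp → Z0` which represents `x^e · ι`: first a whisker running `e` times
around the circle `x ⊂ P`, then `MSp`. -/
def gmap (N : NDR) (e : ℕ) : PM Z0 z0 :=
  ⟨⟨fun m => ⟨(MTorus.base sq (((e : ℝ) * (1 - (N.ρ m : ℝ)) : ℝ) : UnitAddCircle), N.δ (m, 0)), by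
      rcases N.ρ_or m with h | h
      · left
        show MTorus.base sq _ = MTorus.base sq 0
        congr 1
        rw [h]
        simp only [Set.Icc.coe_zero, sub_zero, mul_one]
        rw [AddCircle.coe_eq_zero_iff]
        exact ⟨e, by simp⟩
      · right; exact h⟩, by
    refine Continuous.subtype_mk ?_ _
    fun_prop⟩, by
    apply Z0.ext
    · show MTorus.base sq _ = MTorus.base sq 0
      rw [N.ρ_pt]; simp
    · exact N.δ_pt 0⟩

/-- The pointed map `(1 + x)² ι = ι + x ι + x ι + x² ι`. -/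
def fa (N : NDR) : PM Z0 z0 :=
  PM.add (PM.add (gmap N 0) (gmap N 1)) (PM.add (gmap N 1) (gmap N 2))

/-- The self-map `a0` of `Z0 = P ∨ MSp`: the identity on `P` and `(1+x)² ι` on `MSp`. -/
def a0 (N : NDR) : C(Z0, Z0) := ext (fa N)

end SelfCover
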