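import Pool.Agent.SelfCover.Hsharp
import Pool.Agent.SelfCover.Space

open scoped unitInterval Topology NNReal ContinuousMap
open Set

noncomputable section

namespace SelfCover

open MTorus

variable (N : NDR)

lemma a0_incl (p : P) : a0 N (incl p) = incl p := ext_incl _ _

lemma a0_z0 : a0 N z0 = z0 := a0_incl N p0

lemma a0_iterate_incl (n : ℕ) (p : P) : (a0 N)^[n] (incl p) = incl p :=
  Function.iterate_fixed (a0_incl N p) n

lemma a0_iterate_z0 (n : ℕ) : (a0 N)^[n] z0 = z0 := Function.iterate_fixed (a0_z0 N) n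

lemma incl_p0 : incl p0 = z0 := rfl

lemma toP_z0 : toP z0 = p0 := rfl

/-- The homomorphism `π₁(P) → π₁(X)`. -/
def kP : FundamentalGroup P p0 →* FundamentalGroup (MTorus (a0 N)) (base (a0 N) z0) :=
  (baseStar (a0 N) z0).comp (FundamentalGroup.mapOfEq incl incl_p0)

lemma kP_injective : Function.Injective (kP N) := by
  rw [injective_iff_map_eq_one]
  intro g hg
  obtain ⟨γ, rfl⟩ := cls_surjective g
  have h1 : baseStar (a0 N) z0 (cls (pushLoop incl incl_p0 γ)) = 1 := by
    rw [← mapOfEq_cls incl incl_p0 γ]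
    exact hg
  obtain ⟨n, H, h0, h1, h2, h3⟩ := exists_iterate_eq_one (a0 N) (pushLoop incl incl_p0 γ) h1
  rw [← cls_refl, cls_eq_iff]
  refine ⟨⟨⟨⟨fun p => toP (H p), by fun_prop⟩, ?_, ?_⟩, ?_⟩⟩
  · intro t
    show toP (H (0, t)) = γ t
    rw [h0, pushLoop_apply, a0_iterate_incl, toP_incl]
  · intro t
    show toP (H (1, t)) = p0
    rw [h1, a0_iterate_z0, toP_z0]
  · rintro τ t (rfl | ht)
    · show toP (H (τ, 0)) = γ 0
      rw [h2, a0_iterate_z0, toP_z0, γ.source]
    · rw [mem_singleton_iff] at ht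
      subst ht
      show toP (H (τ, 1)) = γ 1
      rw [h3, a0_iterate_z0, toP_z0, γ.target]

lemma sLoop_comm (g : FundamentalGroup P p0) :
    cls (sLoop (a0 N) (a0_z0 N)) * kP N g = kP N g * cls (sLoop (a0 N) (a0_z0 N)) := by
  unfold kP
  rw [MonoidHom.comp_apply, sLoop_rel]
  congr 2
  obtain ⟨γ, rfl⟩ := cls_surjective g
  rw [mapOfEq_cls]
  show FundamentalGroup.mapOfEq (a0 N) (a0_z0 N) _ = _
  rw [mapOfEq_cls]
  congr 1
  ext t
  exact a0_incl N _

lemma range_kP (hsurj : Function.Surjective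
    (FundamentalGroup.mapOfEq incl incl_p0)) :
    (kP N).range = (tdeg (a0 N) z0).ker := by
  apply le_antisymm
  · rintro _ ⟨g, rfl⟩
    rw [MonoidHom.mem_ker]
    exact tdeg_baseStar (a0 N) _
  · intro g hg
    obtain ⟨n, β, hβ⟩ := exists_conj (a0 N) (a0_z0 N) g hg
    obtain ⟨g', rfl⟩ := hsurj β
    have hcomm : cls (sLoop (a0 N) (a0_z0 N)) ^ n * kP N g' =
        kP N g' * cls (sLoop (a0 N) (a0_z0 N)) ^ n := by
      have h : Commute (cls (sLoop (a0 N) (a0_z0 N))) (kP N g') := sLoop_comm N g'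
      exact h.pow_left n
    refine ⟨g', ?_⟩
    have h2 : cls (sLoop (a0 N) (a0_z0 N)) ^ n * g = cls (sLoop (a0 N) (a0_z0 N)) ^ n * kP N g' := by
      rw [hcomm, hβ]
      rfl
    exact (mul_left_cancel h2).symm

theorem isFinitelyPresented_ker
    (hP : Group.IsFinitelyPresented (FundamentalGroup P p0))
    (hsurj : Function.Surjective (FundamentalGroup.mapOfEq incl incl_p0)) :
    Group.IsFinitelyPresented (tdeg (a0 N) z0).ker := by
  rw [← range_kP N hsurj]
  exact Group.IsFinitelyPresented.equiv (MonoidHom.ofInjective (kP_injective N))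

end SelfCover
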