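import Pool.Agent.SelfCover.RelA
import Pool.Agent.SelfCover.KerP

/-!
The relation `a0 a0 b ≃ b a0`.
-/

open scoped unitInterval Topology Topology.Homotopy
open Set unitInterval

noncomputable section

namespace SelfCover

open MTorus

variable (N : NDR)

/-! ### Composition with `ext` -/

/-- `ext u ∘ f` as a pointed map. -/
def extc (u f : PM Z0 z0) : PM Z0 z0 := ⟨(ext u).comp f.1, by
  rw [ContinuousMap.comp_apply, f.2, ext_z0]⟩

lemma PM.ext {B : Type*} [TopologicalSpace B] {b : B} {f g : PM B b} (h : ∀ m, f.1 m = g.1 m) :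
    f = g := Subtype.ext (ContinuousMap.ext h)

lemma extc_apply (u f : PM Z0 z0) (m : MSp) : (extc u f).1 m = ext u (f.1 m) := rfl

lemma extc_iota (u : PM Z0 z0) : extc u iota = u := PM.ext fun m => ext_iota u m

lemma extc_add (u f g : PM Z0 z0) : extc u (PM.add f g) = PM.add (extc u f) (extc u g) := by
  refine PM.ext fun m => ?_
  rw [extc_apply, PM.add_apply, PM.add_apply]
  unfold addFun
  split_ifs <;> rfl

lemma extc_wh (u f : PM Z0 z0) (γ : Path z0 z0) (hγ : ∀ t, ∃ p, γ t = incl p) :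
    extc u (PM.wh N γ f) = PM.wh N γ (extc u f) := by
  refine PM.ext fun m => ?_
  rw [extc_apply]
  show ext u (whFun N f.1 γ m) = whFun N (extc u f).1 γ m
  unfold whFun
  split_ifs
  · rfl
  · obtain ⟨p, hp⟩ := hγ (σ (N.ρ m))
    rw [hp, ext_incl]

lemma extc_congr (u : PM Z0 z0) {f g : PM Z0 z0} (h : PM.Htpy f g) :
    PM.Htpy (extc u f) (extc u g) := by
  obtain ⟨H⟩ := h
  refine PM.htpy_mk (fun p => ext u (H (p.2, p.1))) (by fun_prop) (fun m => ?_) (fun m => ?_)
    (fun τ => ?_)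
  · rw [H.apply_zero]; rfl
  · rw [H.apply_one]; rfl
  · rw [H.eq_fst τ (mem_singleton mpt), f.2, ext_z0]

lemma ext_extc (u f : PM Z0 z0) : ext (extc u f) = (ext u).comp (ext f) := by
  ext1 z
  rw [ContinuousMap.comp_apply]
  rcases toP_or_toM z with h | h
  · rw [eq_iota_of_toP h, ext_iota, ext_iota]; rfl
  · rw [eq_incl_of_toM h, ext_incl, ext_incl, ext_incl]

lemma ext_iota_eq : ext iota = ContinuousMap.id Z0 := by
  ext1 z
  rcases toP_or_toM z with h | h
  · rw [eq_iota_of_toP h, ext_iota]; rfl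
  · rw [eq_incl_of_toM h, ext_incl]; rfl

lemma ext_congr {f g : PM Z0 z0} (h : PM.Htpy f g) :
    (ext f).HomotopicRel (ext g) (range incl) := by
  obtain ⟨H⟩ := h
  have hpt : ∀ τ, H (τ, mpt) = z0 := fun τ => by
    rw [H.eq_fst τ (mem_singleton mpt), f.2]
  have hc := continuous_extFun (Y := I) (fun p => H (p.2, p.1)) (by fun_prop) hpt
  obtain ⟨G, hG⟩ : ∃ G : C(Z0 × I, Z0), ∀ z τ,
      G (z, τ) = extFun (fun m => H (τ, m)) z := ⟨⟨_, hc⟩, fun _ _ => rfl⟩
  refine ⟨⟨⟨⟨fun p => G (p.2, p.1), by fun_prop⟩, ?_, ?_⟩, ?_⟩⟩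
  · intro z
    show G (z, 0) = extFun f.1 z
    rw [hG]
    simp only [H.apply_zero]
  · intro z
    show G (z, 1) = extFun g.1 z
    rw [hG]
    simp only [H.apply_one]
  · rintro τ _ ⟨p, rfl⟩
    show G (incl p, τ) = ext f (incl p)
    rw [hG, extFun_incl, ext_incl]

/-! ### Loops in `P` -/

/-- the loop running `e` times around the circle `x` -/
def xLoop (e : ℕ) : Path z0 z0 where
  toFun t := incl (base sq (((e : ℝ) * (t : ℝ) : ℝ) : UnitAddCircle))
  continuous_toFun := by fun_prop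
  source' := by
    show incl (base sq _) = incl (base sq 0)
    simp
  target' := by
    show incl (base sq _) = incl (base sq 0)
    have : (((e : ℝ) * ((1 : I) : ℝ) : ℝ) : UnitAddCircle) = 0 := by
      rw [AddCircle.coe_eq_zero_iff]
      exact ⟨e, by simp⟩
    rw [this]

/-- the loop `s` -/
def sPath : Path z0 z0 where
  toFun t := incl (mk sq (0, t))
  continuous_toFun := by fun_prop
  source' := rfl
  target' := by
    rw [mk_one]
    show incl (base sq (0 + 0)) = incl (base sq 0)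
    rw [add_zero]

lemma xLoop_incl (e : ℕ) (t : I) : ∃ p, xLoop e t = incl p := ⟨_, rfl⟩
lemma sPath_incl (t : I) : ∃ p, sPath t = incl p := ⟨_, rfl⟩
lemma sPath_symm_incl (t : I) : ∃ p, sPath.symm t = incl p := ⟨_, rfl⟩

lemma gmap_eq (e : ℕ) : gmap N e = PM.wh N (xLoop e) iota := by
  refine PM.ext fun m => ?_
  show _ = whFun N iota.1 (xLoop e) m
  unfold whFun
  split_ifs with h
  · apply Z0.ext
    · show base sq (((e : ℝ) * (1 - (N.ρ m : ℝ)) : ℝ) : UnitAddCircle) = base sq 0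
      congr 1
      rw [h, AddCircle.coe_eq_zero_iff]
      exact ⟨e, by simp⟩
    · rfl
  · have h2 : N.δ (m, 0) = mpt := (N.ρ_or m).resolve_left h
    apply Z0.ext
    · rfl
    · exact h2

/-- a loop in `P` coming from a path in `ℝ` with integral end point -/
lemma real_path_htpy {a c : ℝ} (p q : Path a c) (ha : incl (base sq ((a : ℝ) : UnitAddCircle)) = z0)
    (hc : incl (base sq ((c : ℝ) : UnitAddCircle)) = z0) (P Q : Path z0 z0)
    (hP : ∀ t, P t = incl (base sq ((p t : ℝ) : UnitAddCircle)))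
    (hQ : ∀ t, Q t = incl (base sq ((q t : ℝ) : UnitAddCircle))) : P.Homotopic Q := by
  have h : p.Homotopic q := by
    refine ⟨⟨⟨⟨fun x => (1 - (x.1 : ℝ)) * p x.2 + (x.1 : ℝ) * q x.2, by fun_prop⟩, ?_, ?_⟩, ?_⟩⟩
    · intro t; simp
    · intro t; simp
    · rintro t y (rfl | hy)
      · show (1 - (t : ℝ)) * p 0 + (t : ℝ) * q 0 = p 0
        rw [p.source, q.source]; ring
      · rw [mem_singleton_iff] at hy
        subst hy
        show (1 - (t : ℝ)) * p 1 + (t : ℝ) * q 1 = p 1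
        rw [p.target, q.target]; ring
  have h1 := h.map (⟨fun r => incl (base sq ((r : ℝ) : UnitAddCircle)), by fun_prop⟩ : C(ℝ, Z0))
  have h2 := h1.pathCast ha.symm hc.symm
  convert h2 using 1
  · ext t; exact hP t
  · ext t; exact hQ t

lemma coe_nat_circle (n : ℕ) : ((n : ℝ) : UnitAddCircle) = 0 := by
  rw [AddCircle.coe_eq_zero_iff]
  exact ⟨n, by simp⟩

lemma xLoop_trans (e f : ℕ) : ((xLoop e).trans (xLoop f)).Homotopic (xLoop (e + f)) := by
  let p1 : Path (0 : ℝ) (e : ℝ) := ⟨⟨fun t => (e : ℝ) * (t : ℝ), by fun_prop⟩, by simp, by simp⟩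
  let p2 : Path (e : ℝ) ((e + f : ℕ) : ℝ) :=
    ⟨⟨fun t => (e : ℝ) + (f : ℝ) * (t : ℝ), by fun_prop⟩, by simp, by simp⟩
  let q : Path (0 : ℝ) ((e + f : ℕ) : ℝ) :=
    ⟨⟨fun t => ((e + f : ℕ) : ℝ) * (t : ℝ), by fun_prop⟩, by simp, by simp⟩
  refine real_path_htpy (p1.trans p2) q ?_ ?_ _ _ ?_ ?_
  · show incl (base sq ((0 : ℝ) : UnitAddCircle)) = incl (base sq 0)
    simp
  · show incl (base sq (((e + f : ℕ) : ℝ) : UnitAddCircle)) = incl (base sq 0)
    rw [coe_nat_circle]
  · intro t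
    rw [Path.trans_apply, Path.trans_apply]
    split_ifs
    · rfl
    · show incl (base sq _) = incl (base sq (((e : ℝ) + (f : ℝ) * _ : ℝ) : UnitAddCircle))
      rw [AddCircle.coe_add, coe_nat_circle, zero_add]
  · intro t; rfl

lemma xs_htpy (e : ℕ) :
    ((xLoop e).trans sPath).Homotopic (sPath.trans (xLoop (2 * e))) := by
  let γ : Path (0 : UnitAddCircle) ((e : ℝ) : UnitAddCircle) :=
    ⟨⟨fun t => (((e : ℝ) * (t : ℝ) : ℝ) : UnitAddCircle), by fun_prop⟩, by simp, by simp⟩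
  have h := (Path.Homotopic.map_trans_evalAt (baseHtpy sq) γ).map incl
  have h2 := h.pathCast (x₂ := z0) (x₃ := z0) rfl (by
    show z0 = incl (base sq (sq ((e : ℝ) : UnitAddCircle)))
    rw [coe_nat_circle]
    show incl (base sq 0) = incl (base sq (0 + 0))
    rw [add_zero])
  convert h2 using 1
  · ext t
    show ((xLoop e).trans sPath) t = incl (((γ.map (map_continuous (base sq))).trans
      ((baseHtpy sq).evalAt ((e : ℝ) : UnitAddCircle))) t)
    rw [Path.trans_apply, Path.trans_apply]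
    split_ifs with ht
    · rfl
    · show incl (mk sq (0, _)) = incl (mk sq (((e : ℝ) : UnitAddCircle), _))
      rw [coe_nat_circle]
  · ext t
    show (sPath.trans (xLoop (2 * e))) t = incl ((((baseHtpy sq).evalAt 0).trans
      (γ.map (map_continuous ((base sq).comp sq)))) t)
    rw [Path.trans_apply, Path.trans_apply]
    split_ifs with ht
    · rfl
    · show incl (base sq ((((2 * e : ℕ) : ℝ) * _ : ℝ) : UnitAddCircle)) =
        incl (base sq ((((e : ℝ) * _ : ℝ) : UnitAddCircle) + (((e : ℝ) * _ : ℝ) : UnitAddCircle)))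
      rw [← AddCircle.coe_add]
      congr 3
      push_cast
      ring

/-! ### The relation -/

lemma cls_eq_of {B : Type*} [TopologicalSpace B] {b : B} {f g : PM B b} (h : PM.Htpy f g) :
    f.cls = g.cls := (PM.htpy_iff_cls f g).mp h

/-- `4 f = 0` in terms of classes -/
lemma cls_pow_four {B : Type*} [TopologicalSpace B] {b : B} (f : PM B b) : f.cls ^ 4 = 1 := by
  have h := cls_eq_of (PM.four_htpy f)
  rw [PM.cls_add, PM.cls_add, PM.cls_const] at h
  rw [← h]
  simp only [pow_succ, pow_zero, one_mul, mul_assoc]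

/-- the translate of `gmap` by `x^e` -/
lemma wh_x_gmap (e f : ℕ) : PM.Htpy (PM.wh N (xLoop e) (gmap N f)) (gmap N (e + f)) := by
  rw [gmap_eq, gmap_eq]
  exact (PM.wh_wh N _ _ _).trans (PM.wh_congr_path N (xLoop_trans e f) _)

/-- `ext fa ∘ gmap e` -/
lemma extc_fa_gmap (e : ℕ) : (extc (fa N) (gmap N e)).cls =
    (gmap N e).cls * (gmap N (e + 1)).cls ^ 2 * (gmap N (e + 2)).cls := by
  have h1 : extc (fa N) (gmap N e) = PM.wh N (xLoop e) (fa N) := by
    rw [gmap_eq N e, extc_wh N _ _ _ (xLoop_incl e), extc_iota]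
  have h2 : PM.Htpy (PM.wh N (xLoop e) (fa N))
      (PM.add (PM.add (gmap N (e + 0)) (gmap N (e + 1)))
        (PM.add (gmap N (e + 1)) (gmap N (e + 2)))) :=
    (PM.wh_add N _ _ _).trans (PM.add_congr
      ((PM.wh_add N _ _ _).trans (PM.add_congr (wh_x_gmap N e 0) (wh_x_gmap N e 1)))
      ((PM.wh_add N _ _ _).trans (PM.add_congr (wh_x_gmap N e 1) (wh_x_gmap N e 2))))
  rw [h1, cls_eq_of h2, PM.cls_add, PM.cls_add, PM.cls_add, add_zero, pow_two]
  simp only [mul_assoc]

/-- `ext fa ∘ fa` represents `(1 + x)^4 ι = (1 + 2 x² + x⁴) ι`. -/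
lemma extc_fa_fa : (extc (fa N) (fa N)).cls =
    (gmap N 0).cls * (gmap N 2).cls ^ 2 * (gmap N 4).cls := by
  have h : (extc (fa N) (fa N)).cls =
      ((extc (fa N) (gmap N 0)).cls * (extc (fa N) (gmap N 1)).cls) *
        ((extc (fa N) (gmap N 1)).cls * (extc (fa N) (gmap N 2)).cls) := by
    conv_lhs => rw [fa, extc_add, extc_add, extc_add]
    rw [PM.cls_add, PM.cls_add, PM.cls_add]
    rfl
  rw [h, extc_fa_gmap, extc_fa_gmap, extc_fa_gmap]
  have h1 := cls_pow_four (gmap N 1)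
  have h2 := cls_pow_four (gmap N 2)
  have h3 := cls_pow_four (gmap N 3)
  simp only [zero_add, Nat.reduceAdd]
  generalize (gmap N 0).cls = g0 at *
  generalize (gmap N 1).cls = g1 at *
  generalize (gmap N 2).cls = g2 at *
  generalize (gmap N 3).cls = g3 at *
  generalize (gmap N 4).cls = g4 at *
  calc g0 * g1 ^ 2 * g2 * (g1 * g2 ^ 2 * g3) * (g1 * g2 ^ 2 * g3 * (g2 * g3 ^ 2 * g4))
      = (g0 * g2 ^ 2 * g4) * (g1 ^ 4 * g2 ^ 4 * g3 ^ 4) := by
        simp only [pow_succ, pow_zero, one_mul]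
        simp only [mul_comm, mul_left_comm]
    _ = g0 * g2 ^ 2 * g4 := by rw [h1, h2, h3]; simp

/-- the translate by `s` of `gmap` -/
lemma extc_sh_gmap (e : ℕ) : PM.Htpy (extc (PM.wh N sPath iota) (gmap N e))
    (PM.wh N sPath (gmap N (2 * e))) := by
  rw [gmap_eq N e, extc_wh N _ _ _ (xLoop_incl e), extc_iota, gmap_eq N (2 * e)]
  exact (PM.wh_wh N _ _ _).trans ((PM.wh_congr_path N (xs_htpy e) _).trans
    (PM.wh_wh N _ _ _).symm)

theorem exists_relation : ∃ b b' : C(Z0, Z0),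
    (∀ p, b (incl p) = incl p) ∧ (∀ p, b' (incl p) = incl p) ∧
    (b'.comp b).HomotopicRel (ContinuousMap.id Z0) (range incl) ∧
    (b.comp b').HomotopicRel (ContinuousMap.id Z0) (range incl) ∧
    ((a0 N).comp ((a0 N).comp b)).HomotopicRel (b.comp (a0 N)) (range incl) := by
  refine ⟨ext (PM.wh N sPath iota), ext (PM.wh N sPath.symm iota), fun p => ext_incl _ p,
    fun p => ext_incl _ p, ?_, ?_, ?_⟩
  · rw [← ext_extc, ← ext_iota_eq]
    apply ext_congr
    rw [extc_wh N _ _ _ sPath_incl, extc_iota]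
    refine (PM.wh_wh N _ _ _).trans ((PM.wh_congr_path N ?_ _).trans (PM.wh_refl N _))
    exact ⟨(Path.Homotopy.reflTransSymm sPath).symm⟩
  · rw [← ext_extc, ← ext_iota_eq]
    apply ext_congr
    rw [extc_wh N _ _ _ sPath_symm_incl, extc_iota]
    refine (PM.wh_wh N _ _ _).trans ((PM.wh_congr_path N ?_ _).trans (PM.wh_refl N _))
    exact ⟨(Path.Homotopy.reflSymmTrans sPath).symm⟩
  · unfold a0
    rw [← ext_extc, ← ext_extc, ← ext_extc]
    apply ext_congr
    -- left hand side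
    have e1 : extc (fa N) (extc (fa N) (PM.wh N sPath iota)) =
        PM.wh N sPath (extc (fa N) (fa N)) := by
      rw [extc_wh N _ _ _ sPath_incl, extc_iota, extc_wh N _ _ _ sPath_incl]
    rw [e1]
    -- both sides are `s # ((1 + 2 x² + x⁴) ι)`
    have e2 : PM.Htpy (extc (fa N) (fa N)) (PM.add (PM.add (gmap N 0) (gmap N 2))
        (PM.add (gmap N 2) (gmap N 4))) := by
      rw [PM.htpy_iff_cls, extc_fa_fa, PM.cls_add, PM.cls_add, PM.cls_add, pow_two]
      simp only [mul_assoc]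
    have e3 : PM.Htpy (extc (PM.wh N sPath iota) (fa N))
        (PM.add (PM.add (PM.wh N sPath (gmap N 0)) (PM.wh N sPath (gmap N 2)))
          (PM.add (PM.wh N sPath (gmap N 2)) (PM.wh N sPath (gmap N 4)))) := by
      conv_lhs => rw [fa, extc_add, extc_add, extc_add]
      exact PM.add_congr (PM.add_congr (extc_sh_gmap N 0) (extc_sh_gmap N 1))
        (PM.add_congr (extc_sh_gmap N 1) (extc_sh_gmap N 2))
    have e4 : PM.Htpy (PM.wh N sPath (PM.add (PM.add (gmap N 0) (gmap N 2))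
        (PM.add (gmap N 2) (gmap N 4))))
        (PM.add (PM.add (PM.wh N sPath (gmap N 0)) (PM.wh N sPath (gmap N 2)))
          (PM.add (PM.wh N sPath (gmap N 2)) (PM.wh N sPath (gmap N 4)))) :=
      (PM.wh_add N _ _ _).trans (PM.add_congr (PM.wh_add N _ _ _) (PM.wh_add N _ _ _))
    exact (PM.wh_congr N sPath e2).trans (e4.trans e3.symm)

end SelfCover
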