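/-
Module BS (helper86): groups generated by `x, s` with `s x s⁻¹ = x²`, `x` of infinite order, and a
homomorphism to `ℤ` killing `x` and sending `s` to `1` are finitely presented.
-/
import Mathlib

open Set

namespace SelfCover

namespace BSaux

variable {P : Type*} [Group P] {X S : P}

theorem conj_pow (hr : S * X * S⁻¹ = X ^ 2) (k : ℕ) (j : ℤ) :
    S ^ k * X ^ j * (S ^ k)⁻¹ = X ^ (2 ^ k * j) := by
  induction k generalizing j with
  | zero => simp
  | succ k ih =>
    have h1 : S * X ^ j * S⁻¹ = X ^ (2 * j) := by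
      rw [← conj_zpow, hr, zpow_mul]
      norm_cast
    calc S ^ (k + 1) * X ^ j * (S ^ (k + 1))⁻¹
        = S ^ k * (S * X ^ j * S⁻¹) * (S ^ k)⁻¹ := by
          rw [pow_succ]; group
      _ = X ^ (2 ^ (k + 1) * j) := by
          rw [h1, ih, pow_succ, mul_assoc]

/-- normal forms -/
def NF (X S : P) : Set P := {g | ∃ (i : ℕ) (j k : ℤ), g = (S ^ i)⁻¹ * X ^ j * S ^ k}

theorem nf_mul_S (g : P) (hg : g ∈ NF X S) (e : ℤ) : g * S ^ e ∈ NF X S := by
  obtain ⟨i, j, k, rfl⟩ := hg
  exact ⟨i, j, k + e, by rw [zpow_add, mul_assoc _ (S ^ k)]⟩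

theorem nf_mul_X (hr : S * X * S⁻¹ = X ^ 2) (g : P) (hg : g ∈ NF X S) (e : ℤ) :
    g * X ^ e ∈ NF X S := by
  obtain ⟨i, j, k, rfl⟩ := hg
  obtain ⟨m, rfl | rfl⟩ := k.eq_nat_or_neg
  · refine ⟨i, j + 2 ^ m * e, m, ?_⟩
    have h := conj_pow hr m e
    have h2 : S ^ m * X ^ e = X ^ (2 ^ m * e) * S ^ m := by
      rw [← h]; group
    rw [zpow_natCast, zpow_add, mul_assoc, h2]
    simp only [mul_assoc]
  · refine ⟨i + m, 2 ^ m * j + e, 0, ?_⟩
    have h := conj_pow hr m j
    have h2 : X ^ j * (S ^ m)⁻¹ = (S ^ m)⁻¹ * X ^ (2 ^ m * j) := by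
      rw [← h]; group
    rw [zpow_neg, zpow_natCast, mul_assoc (S ^ i)⁻¹, h2, zpow_add, pow_add, zpow_zero, mul_one,
      mul_inv_rev]
    have h3 : (S ^ i)⁻¹ * (S ^ m)⁻¹ = (S ^ m)⁻¹ * (S ^ i)⁻¹ := by
      rw [← mul_inv_rev, ← mul_inv_rev, ← pow_add, ← pow_add, add_comm]
    rw [← h3]
    simp only [mul_assoc]

theorem nf_all (hr : S * X * S⁻¹ = X ^ 2) (hgen : Subgroup.closure {X, S} = ⊤) (g : P) :
    g ∈ NF X S := by
  have hg : g ∈ Subgroup.closure {X, S} := by rw [hgen]; trivial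
  induction hg using Subgroup.closure_induction_right with
  | one => exact ⟨0, 0, 0, by simp⟩
  | mul_right a _ y hy ih =>
    rcases hy with rfl | hy
    · simpa using nf_mul_X hr a ih 1
    · rw [Set.mem_singleton_iff] at hy
      subst hy
      simpa using nf_mul_S a ih 1
  | mul_inv_cancel a _ y hy ih =>
    rcases hy with rfl | hy
    · simpa using nf_mul_X hr a ih (-1)
    · rw [Set.mem_singleton_iff] at hy
      subst hy
      simpa using nf_mul_S a ih (-1)

end BSaux

open BSaux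

/-- groups generated by x, s with s x s⁻¹ = x², x of infinite order, and a hom D to ℤ with D x = 0,
D s = 1 are finitely presented. -/
theorem isFinitelyPresented_of_bs {Γ : Type*} [Group Γ] (x s : Γ)
    (hgen : Subgroup.closure {x, s} = ⊤) (hrel : s * x * s⁻¹ = x ^ 2)
    (D : Γ →* Multiplicative ℤ) (hDx : D x = 1) (hDs : D s = Multiplicative.ofAdd 1)
    (hx : ∀ n : ℕ, x ^ n = 1 → n = 0) : Group.IsFinitelyPresented Γ := by
  set r : FreeGroup (Fin 2) :=
    FreeGroup.of 1 * FreeGroup.of 0 * (FreeGroup.of 1)⁻¹ * ((FreeGroup.of 0) ^ 2)⁻¹ with hr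
  set gens : Fin 2 → Γ := ![x, s] with hgens
  have hrels : ∀ w ∈ ({r} : Set (FreeGroup (Fin 2))), FreeGroup.lift gens w = 1 := by
    intro w hw
    rw [Set.mem_singleton_iff] at hw
    rw [hw, hr]
    simp only [map_mul, map_inv, map_pow, FreeGroup.lift_apply_of, hgens, Matrix.cons_val_one,
      Matrix.cons_val_zero]
    rw [hrel, mul_inv_cancel]
  let φ : PresentedGroup ({r} : Set (FreeGroup (Fin 2))) →* Γ := PresentedGroup.toGroup hrels
  have hφ0 : φ (PresentedGroup.of 0) = x := PresentedGroup.toGroup.of hrels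
  have hφ1 : φ (PresentedGroup.of 1) = s := PresentedGroup.toGroup.of hrels
  have hP : (PresentedGroup.of 1 : PresentedGroup ({r} : Set (FreeGroup (Fin 2)))) *
      PresentedGroup.of 0 * (PresentedGroup.of 1)⁻¹ = (PresentedGroup.of 0) ^ 2 := by
    have h1 : PresentedGroup.mk ({r} : Set (FreeGroup (Fin 2))) r = 1 :=
      PresentedGroup.one_of_mem rfl
    rw [hr] at h1
    simp only [map_mul, map_inv, map_pow] at h1
    rw [mul_inv_eq_one] at h1
    exact h1
  have hPgen : Subgroup.closure ({PresentedGroup.of 0, PresentedGroup.of 1} :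
      Set (PresentedGroup ({r} : Set (FreeGroup (Fin 2))))) = ⊤ := by
    rw [← PresentedGroup.closure_range_of]
    congr 1
    ext y
    constructor
    · rintro (rfl | rfl)
      · exact ⟨0, rfl⟩
      · exact ⟨1, rfl⟩
    · rintro ⟨i, rfl⟩
      fin_cases i
      · left; rfl
      · right; rfl
  have hinj : Function.Injective φ := by
    rw [injective_iff_map_eq_one]
    intro g hg
    obtain ⟨i, j, k, hgf⟩ := nf_all hP hPgen g
    rw [hgf] at hg
    simp only [map_mul, map_inv, map_pow, map_zpow, hφ0, hφ1] at hg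
    have h1 := congrArg D hg
    simp only [map_mul, map_inv, map_pow, map_zpow, hDx, hDs, one_zpow, mul_one, map_one] at h1
    have h2 : k = (i : ℤ) := by
      have := congrArg Multiplicative.toAdd h1
      simp only [toAdd_mul, toAdd_inv, toAdd_pow, toAdd_zpow, toAdd_ofAdd, toAdd_one,
        smul_eq_mul, mul_one, nsmul_eq_mul] at this
      omega
    rw [h2, zpow_natCast] at hg
    have h3 : x ^ j = 1 := by
      have h4 : x ^ j = s ^ i * ((s ^ i)⁻¹ * x ^ j * s ^ i) * (s ^ i)⁻¹ := by group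
      rw [h4, hg]; group
    have h5 : j = 0 := by
      obtain ⟨m, rfl | rfl⟩ := j.eq_nat_or_neg
      · rw [zpow_natCast] at h3
        rw [hx m h3]; rfl
      · rw [zpow_neg, zpow_natCast, inv_eq_one] at h3
        rw [hx m h3]; rfl
    rw [hgf, h2, h5]
    simp
  have hsurj : Function.Surjective φ := by
    rw [← MonoidHom.range_eq_top, eq_top_iff, ← hgen, Subgroup.closure_le]
    rintro y (rfl | hy)
    · exact ⟨_, hφ0⟩
    · rw [Set.mem_singleton_iff] at hy
      subst hy
      exact ⟨_, hφ1⟩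
  exact Group.IsFinitelyPresented.equiv (MulEquiv.ofBijective φ ⟨hinj, hsurj⟩)

end SelfCover
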