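import Pool.Agent.SelfCover.CellsB
import Pool.Agent.SelfCover.Space

/-!
# Finite cell decompositions: the circle, and the wedge with `MSp`
-/

open scoped unitInterval Topology
open Set Metric

noncomputable section

namespace SelfCover

namespace CellDecomp

/-! ### The circle -/

/-- characteristic maps of the circle -/
def circΦ : (s : Unit ⊕ Unit) → (Fin (Sum.elim (fun _ => 0) (fun _ => 1) s) → ℝ) → UnitAddCircle
  | Sum.inl _ => fun _ => 0
  | Sum.inr _ => fun (x : Fin 1 → ℝ) => (((x 0 + 1) / 2 : ℝ) : UnitAddCircle)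

lemma circ_inj {r s : ℝ} (hr : |r| < 1) (hs : |s| < 1)
    (h : (((r + 1) / 2 : ℝ) : UnitAddCircle) = (((s + 1) / 2 : ℝ) : UnitAddCircle)) : r = s := by
  rw [abs_lt] at hr hs
  rw [AddCircle.coe_eq_coe_iff_of_mem_Ico (a := 0) (p := (1 : ℝ)) ⟨by linarith, by linarith⟩
    ⟨by linarith, by linarith⟩] at h
  linarith

lemma circ_ne {r : ℝ} (hr : |r| < 1) : (((r + 1) / 2 : ℝ) : UnitAddCircle) ≠ 0 := by
  intro h
  rw [abs_lt] at hr
  have h0 : (0 : UnitAddCircle) = ((0 : ℝ) : UnitAddCircle) := rfl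
  rw [h0, AddCircle.coe_eq_coe_iff_of_mem_Ico (a := 0) (p := (1 : ℝ)) ⟨by linarith, by linarith⟩
    ⟨by linarith, by linarith⟩] at h
  linarith

lemma circ_end {r : ℝ} (hr : |r| = 1) :
    (0 : UnitAddCircle) = (((r + 1) / 2 : ℝ) : UnitAddCircle) := by
  rcases (abs_eq zero_le_one).1 hr with h | h
  · rw [h, show ((1 : ℝ) + 1) / 2 = 1 by norm_num]
    exact (AddCircle.coe_period (1 : ℝ)).symm
  · rw [h, show ((-1 : ℝ) + 1) / 2 = 0 by norm_num]
    rfl

/-- the cell decomposition of the circle -/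
def circ : CellDecomp UnitAddCircle where
  ι := Unit ⊕ Unit
  fin := inferInstance
  dim := Sum.elim (fun _ => 0) (fun _ => 1)
  Φ := circΦ
  cont := by
    rintro (i | i)
    · exact continuousOn_const
    · have h1 : Continuous fun x : Fin 1 → ℝ => (((x 0 + 1) / 2 : ℝ) : UnitAddCircle) :=
        (AddCircle.continuous_mk' (1 : ℝ)).comp (by fun_prop)
      exact h1.continuousOn
  inj := by
    rintro (i | i) x hx y hy hxy
    · funext k
      exact k.elim0
    · replace hx := (mem_ball_iff' (d := 1) x).1 hx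
      replace hy := (mem_ball_iff' (d := 1) y).1 hy
      have h1 := circ_inj (hx 0) (hy 0) hxy
      funext k
      have hk : k = (0 : Fin 1) := Subsingleton.elim (α := Fin 1) _ _
      rw [hk]
      exact h1
  disj := by
    rintro (i | i) (j | j) x hx y hy hxy
    · rfl
    · replace hy := (mem_ball_iff' (d := 1) y).1 hy
      exact absurd hxy.symm (circ_ne (hy 0))
    · replace hx := (mem_ball_iff' (d := 1) x).1 hx
      exact absurd hxy (circ_ne (hx 0))
    · rfl
  bdry := by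
    rintro (i | i) x hx
    · obtain ⟨-, k, -⟩ := (mem_sphere_iff' (d := 0) x).1 hx
      exact k.elim0
    · obtain ⟨-, k, hk⟩ := (mem_sphere_iff' (d := 1) x).1 hx
      have hk0 : k = (0 : Fin 1) := Subsingleton.elim (α := Fin 1) _ _
      rw [hk0] at hk
      refine ⟨Sum.inl (), zero_lt_one, 0, mem_closedBall_self zero_le_one, ?_⟩
      exact circ_end hk
  cover := by
    intro θ
    obtain ⟨t, ht, rfl⟩ : θ ∈ (QuotientAddGroup.mk : ℝ → UnitAddCircle) '' Ico (0 : ℝ) (0 + 1) := by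
      have h1 := AddCircle.coe_image_Ico_eq (1 : ℝ) 0
      exact h1 ▸ mem_univ θ
    refine ⟨Sum.inr (), (fun _ => 2 * t - 1 : Fin 1 → ℝ), ?_, ?_⟩
    · refine (mem_closedBall_iff' (d := 1) _).2 fun k => ?_
      rw [abs_le]
      constructor <;> linarith [ht.1, ht.2]
    · change ((((2 * t - 1) + 1) / 2 : ℝ) : UnitAddCircle) = _
      congr 1
      ring

/-- the circle, with its 0-cell {0} and one 1-cell -/
theorem _root_.SelfCover.exists_cellDecomp_circle : ∃ D : CellDecomp UnitAddCircle,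
    D.sk 0 = {0} ∧ D.sk 1 = univ ∧ ∀ n, 1 ≤ n → D.sk n = univ := by
  have key : ∀ n, 1 ≤ n → circ.sk n = univ := by
    intro n hn
    rw [eq_univ_iff_forall]
    intro x
    obtain ⟨i, hi⟩ := circ.cover x
    refine ⟨i, ?_, hi⟩
    rcases i with i | i
    · exact Nat.zero_le _
    · exact hn
  refine ⟨circ, ?_, key 1 le_rfl, key⟩
  ext θ
  constructor
  · rintro ⟨i | i, hi, x, hx, rfl⟩
    · rfl
    · exact absurd hi (by change ¬ (1 ≤ 0); omega)
  · intro h
    rw [mem_singleton_iff] at h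
    exact ⟨Sum.inl (), le_rfl, 0, mem_closedBall_self zero_le_one, h.symm⟩

end CellDecomp

/-! ### The wedge -/

namespace CellDecomp

/-- `t ↦ t / 2` -/
def halfI (t : I) : I := projIcc 0 1 zero_le_one ((t : ℝ) / 2)

@[fun_prop] lemma continuous_halfI : Continuous halfI := by unfold halfI; fun_prop

lemma coe_halfI (t : I) : (halfI t : ℝ) = t / 2 := by
  unfold halfI
  rw [projIcc_of_mem zero_le_one (x := (t : ℝ) / 2) ⟨by linarith [t.2.1], by linarith [t.2.2]⟩]

/-- the point of the 4-cube of the 3-cell -/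
def q3 (x : Fin 3 → ℝ) : Fin 4 → I := ![toI (x 0), toI (x 1), halfI (toI (x 2)), 0]

/-- the point of the 4-cube of the 4-cell -/
def q4 (x : Fin 4 → ℝ) : Fin 4 → I := fun k => toI (x k)

lemma continuous_q3 : Continuous q3 := by
  refine continuous_pi fun j => ?_
  fin_cases j
  · change Continuous fun x : Fin 3 → ℝ => toI (x 0)
    fun_prop
  · change Continuous fun x : Fin 3 → ℝ => toI (x 1)
    fun_prop
  · change Continuous fun x : Fin 3 → ℝ => halfI (toI (x 2))
    fun_prop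
  · exact continuous_const

lemma continuous_q4 : Continuous q4 := by unfold q4; fun_prop

lemma q3_three (x : Fin 3 → ℝ) : q3 x 3 = 0 := rfl

lemma q3_not_base {x : Fin 3 → ℝ} (hx : ∀ k, |x k| < 1) : ¬ IsBase (q3 x) := by
  have e2 : (q3 x 2 : ℝ) = (toI (x 2) : ℝ) / 2 := coe_halfI _
  have hc := coe_toI (hx 2).le
  have h2 := hx 2
  rw [abs_lt] at h2
  rintro (h | h | h | h | h | h | h | ⟨-, h⟩)
  · exact toI_ne_zero (hx 0) h
  · exact toI_ne_one (hx 0) h
  · exact toI_ne_zero (hx 1) h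
  · exact toI_ne_one (hx 1) h
  · have h' : (q3 x 2 : ℝ) = 0 := congrArg Subtype.val h
    rw [h', hc] at e2
    linarith
  · have h' : (q3 x 2 : ℝ) = 1 := congrArg Subtype.val h
    rw [h', hc] at e2
    linarith
  · exact zero_ne_one h
  · rw [h, hc] at e2
    linarith

lemma q4_not_base {x : Fin 4 → ℝ} (hx : ∀ k, |x k| < 1) : ¬ IsBase (q4 x) := by
  rintro (h | h | h | h | h | h | h | ⟨h, -⟩)
  · exact toI_ne_zero (hx 0) h
  · exact toI_ne_one (hx 0) h
  · exact toI_ne_zero (hx 1) h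
  · exact toI_ne_one (hx 1) h
  · exact toI_ne_zero (hx 2) h
  · exact toI_ne_one (hx 2) h
  · exact toI_ne_one (hx 3) h
  · exact toI_ne_zero (hx 3) h

lemma q3_inj {x y : Fin 3 → ℝ} (hx : ∀ k, |x k| < 1) (hy : ∀ k, |y k| < 1)
    (h : mproj (q3 x) = mproj (q3 y)) : x = y := by
  have e2 : (q3 x 2 : ℝ) = (toI (x 2) : ℝ) / 2 := coe_halfI _
  have e2' : (q3 y 2 : ℝ) = (toI (y 2) : ℝ) / 2 := coe_halfI _
  have hc := coe_toI (hx 2).le
  have hc' := coe_toI (hy 2).le
  rcases (mproj_eq_iff _ _).1 h with h | ⟨h, -⟩ | ⟨-, -, -, -, h⟩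
  · have h0 := toI_inj (hx 0).le (hy 0).le (congrFun h 0)
    have h1 := toI_inj (hx 1).le (hy 1).le (congrFun h 1)
    have h2 : x 2 = y 2 := by
      have h3 : (q3 x 2 : ℝ) = (q3 y 2 : ℝ) := congrArg Subtype.val (congrFun h 2)
      rw [e2, e2', hc, hc'] at h3
      linarith
    funext k
    fin_cases k
    · exact h0
    · exact h1
    · exact h2
  · exact absurd h (q3_not_base hx)
  · exfalso
    rw [e2, e2', hc, hc'] at h
    have h2 := hx 2
    have h3 := hy 2
    rw [abs_lt] at h2 h3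
    rcases (abs_eq (by norm_num)).1 h with h | h <;> linarith

lemma q4_inj {x y : Fin 4 → ℝ} (hx : ∀ k, |x k| < 1) (hy : ∀ k, |y k| < 1)
    (h : mproj (q4 x) = mproj (q4 y)) : x = y := by
  rcases (mproj_eq_iff _ _).1 h with h | ⟨h, -⟩ | ⟨-, -, h, -, -⟩
  · funext k
    exact toI_inj (hx k).le (hy k).le (congrFun h k)
  · exact absurd h (q4_not_base hx)
  · exact absurd h (toI_ne_zero (hx 3))

lemma q3_ne_q4 {x : Fin 3 → ℝ} {y : Fin 4 → ℝ} (hy : ∀ k, |y k| < 1) :
    mproj (q3 x) ≠ mproj (q4 y) := by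
  intro h
  rcases (mproj_eq_iff _ _).1 h with h | ⟨-, h⟩ | ⟨-, -, -, h, -⟩
  · exact toI_ne_zero (hy 3) (congrFun h 3).symm
  · exact absurd h (q4_not_base hy)
  · exact absurd h (toI_ne_zero (hy 3))

lemma q3_base {x : Fin 3 → ℝ} {k : Fin 3} (hk : |x k| = 1) : mproj (q3 x) = mpt := by
  rw [mproj_eq_mpt_iff]
  have e2 : (q3 x 2 : ℝ) = (toI (x 2) : ℝ) / 2 := coe_halfI _
  have hk2 : x k = 1 ∨ x k = -1 := (abs_eq zero_le_one).1 hk
  fin_cases k
  · rcases hk2 with h | h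
    · exact Or.inr (Or.inl ((congrArg toI h).trans toI_one))
    · exact Or.inl ((congrArg toI h).trans toI_neg_one)
  · rcases hk2 with h | h
    · exact Or.inr (Or.inr (Or.inr (Or.inl ((congrArg toI h).trans toI_one))))
    · exact Or.inr (Or.inr (Or.inl ((congrArg toI h).trans toI_neg_one)))
  · rcases hk2 with h | h
    · refine Or.inr (Or.inr (Or.inr (Or.inr (Or.inr (Or.inr (Or.inr ⟨rfl, ?_⟩))))))
      have h' : toI (x 2) = 1 := (congrArg toI h).trans toI_one
      rw [e2, h']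
      simp
    · refine Or.inr (Or.inr (Or.inr (Or.inr (Or.inl (Subtype.ext ?_)))))
      have h' : toI (x 2) = 0 := (congrArg toI h).trans toI_neg_one
      rw [e2, h']
      simp

/-- every point of the face `t = 0` is in the closed 3-cell -/
lemma exists_q3 (y : Fin 4 → I) (hy : y 3 = 0) :
    ∃ x : Fin 3 → ℝ, (∀ k, |x k| ≤ 1) ∧ mproj (q3 x) = mproj y := by
  obtain ⟨r0, hr0, h0⟩ := toI_surj (y 0)
  obtain ⟨r1, hr1, h1⟩ := toI_surj (y 1)
  have b0 := (y 2).2.1
  have b1 := (y 2).2.2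
  rcases le_total (y 2 : ℝ) (1 / 2) with h | h
  · refine ⟨![r0, r1, 4 * (y 2 : ℝ) - 1], fun k => ?_, ?_⟩
    · fin_cases k
      · exact hr0
      · exact hr1
      · change |4 * (y 2 : ℝ) - 1| ≤ 1
        rw [abs_le]; constructor <;> linarith
    · congr 1
      funext k
      fin_cases k
      · exact h0
      · exact h1
      · apply Subtype.ext
        change (halfI (toI (4 * (y 2 : ℝ) - 1)) : ℝ) = y 2
        rw [coe_halfI, coe_toI (by rw [abs_le]; constructor <;> linarith)]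
        ring
      · exact hy.symm
  · refine ⟨![r0, r1, 4 * (y 2 : ℝ) - 3], fun k => ?_, ?_⟩
    · fin_cases k
      · exact hr0
      · exact hr1
      · change |4 * (y 2 : ℝ) - 3| ≤ 1
        rw [abs_le]; constructor <;> linarith
    · rw [mproj_eq_iff]
      refine Or.inr (Or.inr ⟨h0, h1, rfl, hy, ?_⟩)
      change |(halfI (toI (4 * (y 2 : ℝ) - 3)) : ℝ) - y 2| = 1 / 2
      rw [coe_halfI, coe_toI (by rw [abs_le]; constructor <;> linarith)]
      rw [show (4 * (y 2 : ℝ) - 3 + 1) / 2 / 2 - y 2 = -(1 / 2) by ring, abs_neg]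
      norm_num

lemma exists_q4 (y : Fin 4 → I) : ∃ x : Fin 4 → ℝ, (∀ k, |x k| ≤ 1) ∧ q4 x = y := by
  choose r hr1 hr2 using fun k => toI_surj (y k)
  exact ⟨r, hr1, funext hr2⟩

lemma q4_bdry {x : Fin 4 → ℝ} {k : Fin 4} (hk : |x k| = 1) :
    mproj (q4 x) = mpt ∨ ∃ x' : Fin 3 → ℝ, (∀ k, |x' k| ≤ 1) ∧ mproj (q3 x') = mproj (q4 x) := by
  have hk2 : x k = 1 ∨ x k = -1 := (abs_eq zero_le_one).1 hk
  have e : q4 x k = 1 ∨ q4 x k = 0 := by
    rcases hk2 with h | h
    · exact Or.inl ((congrArg toI h).trans toI_one)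
    · exact Or.inr ((congrArg toI h).trans toI_neg_one)
  rw [mproj_eq_mpt_iff]
  unfold IsBase
  fin_cases k
  · left
    rcases e with e | e
    · exact Or.inr (Or.inl e)
    · exact Or.inl e
  · left
    rcases e with e | e
    · exact Or.inr (Or.inr (Or.inr (Or.inl e)))
    · exact Or.inr (Or.inr (Or.inl e))
  · left
    rcases e with e | e
    · exact Or.inr (Or.inr (Or.inr (Or.inr (Or.inr (Or.inl e)))))
    · exact Or.inr (Or.inr (Or.inr (Or.inr (Or.inl e))))
  · rcases e with e | e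
    · left
      exact Or.inr (Or.inr (Or.inr (Or.inr (Or.inr (Or.inr (Or.inl e))))))
    · right
      exact exists_q3 _ e

section wdg

variable {P : Type} [TopologicalSpace P] (D : CellDecomp P) (p₀ : P)

/-- characteristic maps of the wedge -/
def wdgΦ : (s : D.ι ⊕ (Unit ⊕ Unit)) →
    (Fin (Sum.elim D.dim (Sum.elim (fun _ => 3) (fun _ => 4)) s) → ℝ) → Wdg P p₀
  | Sum.inl i => fun x => ⟨(D.Φ i x, mpt), Or.inr rfl⟩
  | Sum.inr (Sum.inl _) => fun x => ⟨(p₀, mproj (q3 x)), Or.inl rfl⟩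
  | Sum.inr (Sum.inr _) => fun x => ⟨(p₀, mproj (q4 x)), Or.inl rfl⟩

lemma wdgΦ_inl (i : D.ι) (x : Fin (D.dim i) → ℝ) :
    (D.wdgΦ p₀ (Sum.inl i) x).1 = (D.Φ i x, mpt) := rfl

lemma wdgΦ_q3 (i : Unit) (x : Fin 3 → ℝ) :
    (D.wdgΦ p₀ (Sum.inr (Sum.inl i)) x).1 = (p₀, mproj (q3 x)) := rfl

lemma wdgΦ_q4 (i : Unit) (x : Fin 4 → ℝ) :
    (D.wdgΦ p₀ (Sum.inr (Sum.inr i)) x).1 = (p₀, mproj (q4 x)) := rfl

lemma wdg_cont_inl (i : D.ι) : ContinuousOn (D.wdgΦ p₀ (Sum.inl i)) (closedBall 0 1) := by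
  have h1 : ContinuousOn (fun x => (D.Φ i x, mpt)) (closedBall 0 1) :=
    (D.cont i).prodMk continuousOn_const
  have h2 : Topology.IsInducing (Subtype.val : {x : P × MSp // x.1 = p₀ ∨ x.2 = mpt} → P × MSp) :=
    Topology.IsInducing.subtypeVal
  exact h2.continuousOn_iff.2 h1

lemma wdg_cont_q3 (i : Unit) :
    ContinuousOn (D.wdgΦ p₀ (Sum.inr (Sum.inl i))) (closedBall (0 : Fin 3 → ℝ) 1) := by
  have h1 : Continuous fun x : Fin 3 → ℝ => (p₀, mproj (q3 x)) :=
    continuous_const.prodMk (mproj.continuous.comp continuous_q3)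
  exact (h1.subtype_mk fun _ => Or.inl rfl).continuousOn

lemma wdg_cont_q4 (i : Unit) :
    ContinuousOn (D.wdgΦ p₀ (Sum.inr (Sum.inr i))) (closedBall (0 : Fin 4 → ℝ) 1) := by
  have h1 : Continuous fun x : Fin 4 → ℝ => (p₀, mproj (q4 x)) :=
    continuous_const.prodMk (mproj.continuous.comp continuous_q4)
  exact (h1.subtype_mk fun _ => Or.inl rfl).continuousOn

/-- the cell decomposition of the wedge -/
def wdg (h0 : p₀ ∈ D.sk 0) : CellDecomp (Wdg P p₀) where
  ι := D.ι ⊕ (Unit ⊕ Unit)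
  fin := by
    have := D.fin
    infer_instance
  dim := Sum.elim D.dim (Sum.elim (fun _ => 3) (fun _ => 4))
  Φ := D.wdgΦ p₀
  cont := by
    rintro (i | i | i)
    · exact D.wdg_cont_inl p₀ i
    · exact D.wdg_cont_q3 p₀ i
    · exact D.wdg_cont_q4 p₀ i
  inj := by
    rintro (i | i | i) x hx y hy hxy
    · have h1 : (D.Φ i x, mpt) = (D.Φ i y, mpt) := congrArg Subtype.val hxy
      exact D.inj i hx hy (Prod.mk.inj h1).1
    · have h1 : (p₀, mproj (q3 x)) = (p₀, mproj (q3 y)) := congrArg Subtype.val hxy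
      exact q3_inj ((mem_ball_iff' (d := 3) x).1 hx) ((mem_ball_iff' (d := 3) y).1 hy)
        (Prod.mk.inj h1).2
    · have h1 : (p₀, mproj (q4 x)) = (p₀, mproj (q4 y)) := congrArg Subtype.val hxy
      exact q4_inj ((mem_ball_iff' (d := 4) x).1 hx) ((mem_ball_iff' (d := 4) y).1 hy)
        (Prod.mk.inj h1).2
  disj := by
    rintro (i | i | i) (j | j | j) x hx y hy hxy
    · have h1 : (D.Φ i x, mpt) = (D.Φ j y, mpt) := congrArg Subtype.val hxy
      rw [D.disj i j x hx y hy (Prod.mk.inj h1).1]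
    · have h1 : (D.Φ i x, mpt) = (p₀, mproj (q3 y)) := congrArg Subtype.val hxy
      exact absurd ((mproj_eq_mpt_iff _).1 (Prod.mk.inj h1).2.symm)
        (q3_not_base ((mem_ball_iff' (d := 3) y).1 hy))
    · have h1 : (D.Φ i x, mpt) = (p₀, mproj (q4 y)) := congrArg Subtype.val hxy
      exact absurd ((mproj_eq_mpt_iff _).1 (Prod.mk.inj h1).2.symm)
        (q4_not_base ((mem_ball_iff' (d := 4) y).1 hy))
    · have h1 : (p₀, mproj (q3 x)) = (D.Φ j y, mpt) := congrArg Subtype.val hxy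
      exact absurd ((mproj_eq_mpt_iff _).1 (Prod.mk.inj h1).2)
        (q3_not_base ((mem_ball_iff' (d := 3) x).1 hx))
    · rfl
    · have h1 : (p₀, mproj (q3 x)) = (p₀, mproj (q4 y)) := congrArg Subtype.val hxy
      exact absurd (Prod.mk.inj h1).2
        (q3_ne_q4 ((mem_ball_iff' (d := 4) y).1 hy))
    · have h1 : (p₀, mproj (q4 x)) = (D.Φ j y, mpt) := congrArg Subtype.val hxy
      exact absurd ((mproj_eq_mpt_iff _).1 (Prod.mk.inj h1).2)
        (q4_not_base ((mem_ball_iff' (d := 4) x).1 hx))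
    · have h1 : (p₀, mproj (q4 x)) = (p₀, mproj (q3 y)) := congrArg Subtype.val hxy
      exact absurd (Prod.mk.inj h1).2.symm
        (q3_ne_q4 ((mem_ball_iff' (d := 4) x).1 hx))
    · rfl
  bdry := by
    obtain ⟨i0, hi0, x0, hx0, hxp⟩ := h0
    have hbase : ∀ w : Wdg P p₀, w.1 = (p₀, mpt) → D.wdgΦ p₀ (Sum.inl i0) x0 = w := by
      intro w hw
      apply Subtype.ext
      rw [hw, wdgΦ_inl, hxp]
    rintro (i | i | i) x hx
    · obtain ⟨j, hj, y, hy, hxy⟩ := D.bdry i x hx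
      refine ⟨Sum.inl j, hj, y, hy, ?_⟩
      apply Subtype.ext
      rw [wdgΦ_inl, hxy]
      rfl
    · obtain ⟨h1, k, hk⟩ := (mem_sphere_iff' (d := 3) x).1 hx
      refine ⟨Sum.inl i0, ?_, x0, hx0, ?_⟩
      · change D.dim i0 < 3
        omega
      · apply hbase
        exact (D.wdgΦ_q3 p₀ i x).trans (by rw [q3_base hk])
    · obtain ⟨h1, k, hk⟩ := (mem_sphere_iff' (d := 4) x).1 hx
      rcases q4_bdry hk with h | ⟨x', hx1, hx2⟩
      · refine ⟨Sum.inl i0, ?_, x0, hx0, ?_⟩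
        · change D.dim i0 < 4
          omega
        · apply hbase
          exact (D.wdgΦ_q4 p₀ i x).trans (by rw [h])
      · refine ⟨Sum.inr (Sum.inl ()), ?_, x', (mem_closedBall_iff' (d := 3) _).2 hx1, ?_⟩
        · change 3 < 4
          omega
        · apply Subtype.ext
          rw [wdgΦ_q3, hx2]
          exact (D.wdgΦ_q4 p₀ i x).symm
  cover := by
    rintro ⟨⟨p, m⟩, h⟩
    by_cases hm : m = mpt
    · obtain ⟨i, x, hx, hxp⟩ := D.cover p
      refine ⟨Sum.inl i, x, hx, ?_⟩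
      apply Subtype.ext
      exact (D.wdgΦ_inl p₀ i x).trans (Prod.ext hxp hm.symm)
    · have hp : p = p₀ := h.resolve_right hm
      obtain ⟨y, rfl⟩ := mproj_surjective m
      obtain ⟨x, hx, rfl⟩ := exists_q4 y
      refine ⟨Sum.inr (Sum.inr ()), x, (mem_closedBall_iff' (d := 4) _).2 hx, ?_⟩
      apply Subtype.ext
      exact (D.wdgΦ_q4 p₀ () x).trans (Prod.ext hp.symm rfl)

theorem _root_.SelfCover.exists_cellDecomp_wdg {P : Type} [TopologicalSpace P] [T2Space P]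
    (D : CellDecomp P) (p₀ : P)
    (h0 : p₀ ∈ D.sk 0) (h2 : ∀ p, p ∈ D.sk 2) : ∃ D' : CellDecomp (Wdg P p₀),
      (∀ n ≤ 2, D'.sk n = {x | x.1.2 = mpt ∧ x.1.1 ∈ D.sk n}) ∧
      D'.sk 3 = {x | x.1.2 = mpt ∨ x.1.2 ∈ mproj '' {y | y 3 = 0}} ∧
      (∀ n ≥ 4, D'.sk n = univ) := by
  refine ⟨D.wdg p₀ h0, ?_, ?_, ?_⟩
  · intro n hn
    ext w
    constructor
    · rintro ⟨i | i | i, hi, x, hx, rfl⟩
      · exact ⟨rfl, i, hi, x, hx, rfl⟩
      · exfalso
        change 3 ≤ n at hi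
        omega
      · exfalso
        change 4 ≤ n at hi
        omega
    · rintro ⟨h1, i, hi, x, hx, hxp⟩
      refine ⟨Sum.inl i, hi, x, hx, ?_⟩
      apply Subtype.ext
      exact (D.wdgΦ_inl p₀ i x).trans (Prod.ext hxp h1.symm)
  · ext w
    constructor
    · rintro ⟨i | i | i, hi, x, hx, rfl⟩
      · exact Or.inl rfl
      · exact Or.inr ⟨q3 x, q3_three x, rfl⟩
      · exfalso
        change 4 ≤ 3 at hi
        omega
    · intro h1
      by_cases hm : w.1.2 = mpt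
      · obtain ⟨i, hi, x, hx, hxp⟩ := h2 w.1.1
        refine ⟨Sum.inl i, by change D.dim i ≤ 3; omega, x, hx, ?_⟩
        apply Subtype.ext
        exact (D.wdgΦ_inl p₀ i x).trans (Prod.ext hxp hm.symm)
      · have hp : w.1.1 = p₀ := w.2.resolve_right hm
        obtain ⟨y, hy, hym⟩ := h1.resolve_left hm
        obtain ⟨x, hx1, hx2⟩ := exists_q3 y hy
        refine ⟨Sum.inr (Sum.inl ()), le_rfl, x, (mem_closedBall_iff' (d := 3) _).2 hx1, ?_⟩
        apply Subtype.ext
        exact (D.wdgΦ_q3 p₀ () x).trans (Prod.ext hp.symm (hx2.trans hym))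
  · intro n hn
    rw [eq_univ_iff_forall]
    intro w
    by_cases hm : w.1.2 = mpt
    · obtain ⟨i, hi, x, hx, hxp⟩ := h2 w.1.1
      refine ⟨Sum.inl i, by change D.dim i ≤ n; omega, x, hx, ?_⟩
      apply Subtype.ext
      exact (D.wdgΦ_inl p₀ i x).trans (Prod.ext hxp hm.symm)
    · have hp : w.1.1 = p₀ := w.2.resolve_right hm
      obtain ⟨y, hy⟩ := mproj_surjective w.1.2
      obtain ⟨x, hx, hxy⟩ := exists_q4 y
      refine ⟨Sum.inr (Sum.inr ()), hn, x, (mem_closedBall_iff' (d := 4) _).2 hx, ?_⟩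
      apply Subtype.ext
      exact (D.wdgΦ_q4 p₀ () x).trans (Prod.ext hp.symm (by rw [hxy]; exact hy))

end wdg

end CellDecomp

end SelfCover
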