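import Pool.Agent.SelfCover.MBasic

/-!
# Finite cell decompositions: the CW structure of a finite cell decomposition
-/

open scoped unitInterval Topology
open Set Metric

noncomputable section

namespace SelfCover

/-- A finite cell decomposition of `X` (characteristic maps on cubes `[-1,1]^d`). -/
structure CellDecomp (X : Type) [TopologicalSpace X] where
  ι : Type
  fin : Finite ι
  dim : ι → ℕ
  Φ : (i : ι) → (Fin (dim i) → ℝ) → X
  cont : ∀ i, ContinuousOn (Φ i) (Metric.closedBall 0 1)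
  inj : ∀ i, InjOn (Φ i) (Metric.ball 0 1)
  disj : ∀ i j, ∀ x ∈ Metric.ball 0 1, ∀ y ∈ Metric.ball 0 1, Φ i x = Φ j y → i = j
  bdry : ∀ i, ∀ x ∈ Metric.sphere 0 1, ∃ j, dim j < dim i ∧ Φ i x ∈ Φ j '' Metric.closedBall 0 1
  cover : ∀ x, ∃ i, x ∈ Φ i '' Metric.closedBall 0 1

/-- the union of the closed cells of dimension ≤ n -/
def CellDecomp.sk {X : Type} [TopologicalSpace X] (D : CellDecomp X) (n : ℕ) : Set X :=
  {x | ∃ i, D.dim i ≤ n ∧ x ∈ D.Φ i '' Metric.closedBall 0 1}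

namespace CellDecomp

variable {X : Type} [TopologicalSpace X] (D : CellDecomp X)

lemma mem_open (n : ℕ) : ∀ i, D.dim i = n → ∀ x ∈ closedBall (0 : Fin (D.dim i) → ℝ) 1,
    ∃ j, D.dim j ≤ D.dim i ∧ D.Φ i x ∈ D.Φ j '' ball 0 1 := by
  induction n using Nat.strong_induction_on with
  | _ n ih =>
    intro i hi x hx
    rw [← sphere_union_ball] at hx
    rcases hx with hx | hx
    · obtain ⟨j, hj, y, hy, hxy⟩ := D.bdry i x hx
      obtain ⟨k, hk, hk2⟩ := ih (D.dim j) (hi ▸ hj) j rfl y hy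
      exact ⟨k, hk.trans hj.le, hxy ▸ hk2⟩
    · exact ⟨i, le_rfl, x, hx, rfl⟩

lemma sphere_notMem (i : D.ι) (x : Fin (D.dim i) → ℝ) (hx : x ∈ sphere (0 : Fin (D.dim i) → ℝ) 1)
    (y : Fin (D.dim i) → ℝ) (hy : y ∈ ball (0 : Fin (D.dim i) → ℝ) 1) : D.Φ i x ≠ D.Φ i y := by
  intro h
  obtain ⟨j, hj, z, hz, hxz⟩ := D.bdry i x hx
  obtain ⟨k, hk, w, hw, hw2⟩ := D.mem_open _ j rfl z hz
  have : k = i := D.disj k i w hw y hy (by rw [hw2, hxz, h])
  subst this
  omega

/-- the partial equivalence of a cell -/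
def pe (i : D.ι) : PartialEquiv (Fin (D.dim i) → ℝ) X :=
  InjOn.toPartialEquiv (D.Φ i) (ball 0 1) (D.inj i)

lemma pe_source (i : D.ι) : (D.pe i).source = ball 0 1 := rfl
lemma pe_coe (i : D.ι) : (D.pe i : (Fin (D.dim i) → ℝ) → X) = D.Φ i := rfl
lemma pe_target (i : D.ι) : (D.pe i).target = D.Φ i '' ball 0 1 := rfl

lemma continuousOn_pe_symm [T2Space X] (i : D.ι) :
    ContinuousOn (D.pe i).symm (D.pe i).target := by
  rw [continuousOn_iff_isClosed]
  intro t ht
  refine ⟨D.Φ i '' (closedBall 0 1 ∩ t), ?_, ?_⟩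
  · refine IsCompact.isClosed (((isCompact_closedBall _ _).inter_right ht).image_of_continuousOn
      ((D.cont i).mono inter_subset_left))
  · rw [pe_target]
    ext z
    constructor
    · rintro ⟨h1, x, hx, rfl⟩
      have h2 : (D.pe i).symm (D.Φ i x) = x := (D.pe i).left_inv hx
      rw [mem_preimage, h2] at h1
      exact ⟨⟨x, ⟨ball_subset_closedBall hx, h1⟩, rfl⟩, x, hx, rfl⟩
    · rintro ⟨⟨x, ⟨hx1, hx2⟩, hxz⟩, y, hy, rfl⟩
      refine ⟨?_, y, hy, rfl⟩
      have h2 : (D.pe i).symm (D.Φ i y) = y := (D.pe i).left_inv hy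
      rw [mem_preimage, h2]
      rw [← sphere_union_ball] at hx1
      rcases hx1 with hx1 | hx1
      · exact absurd hxz (D.sphere_notMem i x hx1 y hy)
      · rwa [← D.inj i hx1 hy hxz]

/-- the cells of dimension `n` -/
def cellN (n : ℕ) : Type := {i : D.ι // D.dim i = n}

/-- the characteristic map -/
def mapN (n : ℕ) (i : D.cellN n) : PartialEquiv (Fin n → ℝ) X := i.2 ▸ D.pe i.1

lemma mapN_mk (i : D.ι) : D.mapN (D.dim i) ⟨i, rfl⟩ = D.pe i := rfl

lemma mapN_image (n : ℕ) (i : D.cellN n) : D.mapN n i '' closedBall 0 1 =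
    D.Φ i.1 '' closedBall 0 1 := by
  obtain ⟨i, rfl⟩ := i
  rfl

lemma mapN_image_ball (n : ℕ) (i : D.cellN n) : D.mapN n i '' ball 0 1 =
    D.Φ i.1 '' ball 0 1 := by
  obtain ⟨i, rfl⟩ := i
  rfl

/-- the CW structure -/
@[instance_reducible]
def cw [T2Space X] : Topology.CWComplex (univ : Set X) :=
  Topology.CWComplex.mkFinite (univ : Set X) D.cellN D.mapN
    (by
      have := D.fin
      obtain ⟨N, hN⟩ := (Set.finite_range D.dim).bddAbove
      filter_upwards [Filter.eventually_gt_atTop N] with n hn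
      refine ⟨fun i => ?_⟩
      have := hN ⟨i.1, i.2⟩
      omega)
    (by
      have := D.fin
      exact fun n => Subtype.finite)
    (by
      rintro n ⟨i, rfl⟩
      exact D.pe_source i)
    (by
      rintro n ⟨i, rfl⟩
      exact D.cont i)
    (by
      rintro n ⟨i, rfl⟩
      exact D.continuousOn_pe_symm i)
    (by
      rintro ⟨n, i, rfl⟩ - ⟨m, j, rfl⟩ - hne
      rw [Function.onFun, Set.disjoint_left]
      rintro _ ⟨x, hx, rfl⟩ ⟨y, hy, hxy⟩
      apply hne
      have : j = i := D.disj j i y hy x hx hxy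
      subst this
      rfl)
    (by
      rintro n ⟨i, rfl⟩ x hx
      obtain ⟨j, hj, hj2⟩ := D.bdry i x hx
      simp only [mem_iUnion]
      exact ⟨D.dim j, hj, ⟨j, rfl⟩, hj2⟩)
    (by
      rw [eq_univ_iff_forall]
      intro x
      obtain ⟨i, hi⟩ := D.cover x
      simp only [mem_iUnion]
      exact ⟨D.dim i, ⟨i, rfl⟩, hi⟩)

/-- a finite cell decomposition of a Hausdorff space is a finite CW structure in Mathlib's sense -/
theorem exists_cw {X : Type} [TopologicalSpace X] [T2Space X] (D : CellDecomp X) :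
    ∃ C : Topology.CWComplex (univ : Set X), letI := C
      Topology.RelCWComplex.Finite (univ : Set X) ∧
      ∀ n : ℕ, (Topology.RelCWComplex.skeleton (univ : Set X) (n : ℕ∞) : Set X) = D.sk n := by
  refine ⟨D.cw, Topology.CWComplex.finite_mkFinite _ _ _ _ _ _ _ _ _ _ _, ?_⟩
  intro n
  letI := D.cw
  ext x
  rw [Topology.RelCWComplex.skeleton, Topology.RelCWComplex.coe_skeletonLT, empty_union]
  simp only [mem_iUnion]
  constructor
  · rintro ⟨m, hm, ⟨i, rfl⟩, hi⟩
    refine ⟨i, ?_, hi⟩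
    have h1 : ((D.dim i : ℕ) : ℕ∞) < ((n + 1 : ℕ) : ℕ∞) := by exact_mod_cast hm
    have h2 : D.dim i < n + 1 := by exact_mod_cast h1
    omega
  · rintro ⟨i, hi, hi2⟩
    refine ⟨D.dim i, ?_, ⟨i, rfl⟩, hi2⟩
    have h2 : D.dim i < n + 1 := by omega
    exact_mod_cast h2

end CellDecomp

end SelfCover
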