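import Pool.Agent.SelfCover.CellsA

/-!
# Finite cell decompositions: mapping tori
-/

open scoped unitInterval Topology
open Set Metric

noncomputable section

namespace SelfCover

namespace CellDecomp

lemma mem_closedBall_iff' {d : ℕ} (x : Fin d → ℝ) :
    x ∈ closedBall (0 : Fin d → ℝ) 1 ↔ ∀ k, |x k| ≤ 1 := by
  rw [mem_closedBall_zero_iff, pi_norm_le_iff_of_nonneg zero_le_one]
  rfl

lemma mem_ball_iff' {d : ℕ} (x : Fin d → ℝ) :
    x ∈ ball (0 : Fin d → ℝ) 1 ↔ ∀ k, |x k| < 1 := by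
  rw [mem_ball_zero_iff, pi_norm_lt_iff zero_lt_one]
  rfl

lemma mem_sphere_iff' {d : ℕ} (x : Fin d → ℝ) :
    x ∈ sphere (0 : Fin d → ℝ) 1 ↔ (∀ k, |x k| ≤ 1) ∧ ∃ k, |x k| = 1 := by
  have h1 : x ∈ sphere (0 : Fin d → ℝ) 1 ↔
      x ∈ closedBall (0 : Fin d → ℝ) 1 ∧ x ∉ ball (0 : Fin d → ℝ) 1 := by
    rw [mem_sphere, mem_closedBall, mem_ball, not_lt, le_antisymm_iff]
  rw [h1, mem_closedBall_iff', mem_ball_iff']
  constructor
  · rintro ⟨h2, h3⟩
    push Not at h3
    obtain ⟨k, hk⟩ := h3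
    exact ⟨h2, k, le_antisymm (h2 k) hk⟩
  · rintro ⟨h2, k, hk⟩
    exact ⟨h2, fun h => (h k).ne hk⟩

/-- the affine map from `[-1,1]` to `[0,1]` -/
def toI (r : ℝ) : I := projIcc 0 1 zero_le_one ((r + 1) / 2)

@[fun_prop] lemma continuous_toI : Continuous toI := by unfold toI; fun_prop

lemma coe_toI {r : ℝ} (h : |r| ≤ 1) : (toI r : ℝ) = (r + 1) / 2 := by
  rw [abs_le] at h
  unfold toI
  rw [projIcc_of_mem zero_le_one (x := (r + 1) / 2) ⟨by linarith, by linarith⟩]

lemma toI_ne_one {r : ℝ} (h : |r| < 1) : toI r ≠ 1 := by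
  intro h1
  have h2 := coe_toI h.le
  rw [h1] at h2
  rw [abs_lt] at h
  simp only [Icc.coe_one] at h2
  linarith

lemma toI_ne_zero {r : ℝ} (h : |r| < 1) : toI r ≠ 0 := by
  intro h1
  have h2 := coe_toI h.le
  rw [h1] at h2
  rw [abs_lt] at h
  simp only [Icc.coe_zero] at h2
  linarith

lemma toI_inj {r s : ℝ} (hr : |r| ≤ 1) (hs : |s| ≤ 1) (h : toI r = toI s) : r = s := by
  have h1 := coe_toI hr
  have h2 := coe_toI hs
  rw [h] at h1
  linarith

lemma toI_surj (t : I) : ∃ r : ℝ, |r| ≤ 1 ∧ toI r = t := by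
  have h0 := t.2.1
  have h1 := t.2.2
  refine ⟨2 * t - 1, by rw [abs_le]; constructor <;> linarith, ?_⟩
  apply Subtype.ext
  rw [coe_toI (by rw [abs_le]; constructor <;> linarith)]
  ring

lemma toI_one : toI 1 = 1 := Subtype.ext (by rw [coe_toI (by simp)]; norm_num)
lemma toI_neg_one : toI (-1) = 0 := Subtype.ext (by rw [coe_toI (by simp)]; norm_num)

section mtorus

variable {Z : Type} [TopologicalSpace Z] (D : CellDecomp Z) (a : C(Z, Z))

lemma mk_eq_iff (p q : Z × I) : MTorus.mk a p = MTorus.mk a q ↔ nf a p = nf a q :=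
  Quotient.eq (r := mtSetoid a)

lemma nf_of_ne {p : Z × I} (h : p.2 ≠ 1) : nf a p = p := by
  unfold nf; rw [if_neg h]

lemma nf_one (z : Z) : nf a (z, 1) = (a z, 0) := by
  unfold nf; rw [if_pos rfl]

lemma mk_inj {z z' : Z} {t t' : I} (ht : t ≠ 1) (ht' : t' ≠ 1)
    (h : MTorus.mk a (z, t) = MTorus.mk a (z', t')) : z = z' ∧ t = t' := by
  rw [mk_eq_iff, nf_of_ne a ht, nf_of_ne a ht', Prod.mk_inj] at h
  exact h

lemma mk_one' (z : Z) : MTorus.mk a (z, 1) = MTorus.mk a (a z, 0) := by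
  rw [mk_eq_iff, nf_one, nf_of_ne a (p := (a z, 0))]
  exact zero_ne_one

/-- the characteristic map of the cell `e × [0,1]` -/
def prism (i : D.ι) (x : Fin (D.dim i + 1) → ℝ) : MTorus a :=
  MTorus.mk a (D.Φ i (fun k => x k.castSucc), toI (x (Fin.last _)))

/-- the characteristic maps of the mapping torus -/
def mtΦ : (s : D.ι ⊕ D.ι) → (Fin (Sum.elim D.dim (fun i => D.dim i + 1) s) → ℝ) → MTorus a
  | Sum.inl i => fun x => MTorus.mk a (D.Φ i x, 0)
  | Sum.inr i => fun x => D.prism a i x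

/-- the cell decomposition of the mapping torus -/
def mtorus (ha : ∀ n, ∀ z ∈ D.sk n, a z ∈ D.sk n) : CellDecomp (MTorus a) where
  ι := D.ι ⊕ D.ι
  fin := by
    have := D.fin
    infer_instance
  dim := Sum.elim D.dim (fun i => D.dim i + 1)
  Φ := D.mtΦ a
  cont := by
    rintro (i | i)
    · have h1 : ContinuousOn (fun x => (D.Φ i x, (0 : I))) (closedBall 0 1) :=
        (D.cont i).prodMk continuousOn_const
      exact (MTorus.mk a).continuous.comp_continuousOn h1
    · have h0 : MapsTo (fun (x : Fin (D.dim i + 1) → ℝ) (k : Fin (D.dim i)) => x k.castSucc)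
          (closedBall 0 1) (closedBall 0 1) := by
        intro x hx
        rw [mem_closedBall_iff'] at hx ⊢
        exact fun k => hx _
      have h1 : ContinuousOn (fun x : Fin (D.dim i + 1) → ℝ =>
          (D.Φ i (fun k => x k.castSucc), toI (x (Fin.last _)))) (closedBall 0 1) := by
        refine ContinuousOn.prodMk ?_ (Continuous.continuousOn (by fun_prop))
        exact (D.cont i).comp (Continuous.continuousOn (by fun_prop)) h0
      exact (MTorus.mk a).continuous.comp_continuousOn h1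
  inj := by
    rintro (i | i) x hx y hy hxy
    · exact D.inj i hx hy (mk_inj a zero_ne_one zero_ne_one hxy).1
    · replace hx := (mem_ball_iff' (d := D.dim i + 1) x).1 hx
      replace hy := (mem_ball_iff' (d := D.dim i + 1) y).1 hy
      obtain ⟨h1, h2⟩ := mk_inj a (toI_ne_one (hx (Fin.last _))) (toI_ne_one (hy (Fin.last _))) hxy
      have h3 := D.inj i ((mem_ball_iff' _).2 fun k => hx k.castSucc)
        ((mem_ball_iff' _).2 fun k => hy k.castSucc) h1
      have h4 := toI_inj (hx (Fin.last _)).le (hy (Fin.last _)).le h2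
      funext k
      refine Fin.lastCases ?_ (fun k => ?_) k
      · exact h4
      · exact congrFun h3 k
  disj := by
    rintro (i | i) (j | j) x hx y hy hxy
    · rw [D.disj i j x hx y hy (mk_inj a zero_ne_one zero_ne_one hxy).1]
    · exfalso
      rw [mem_ball_iff'] at hy
      exact toI_ne_zero (hy (Fin.last _))
        (mk_inj a zero_ne_one (toI_ne_one (hy (Fin.last _))) hxy).2.symm
    · exfalso
      rw [mem_ball_iff'] at hx
      exact toI_ne_zero (hx (Fin.last _))
        (mk_inj a (toI_ne_one (hx (Fin.last _))) zero_ne_one hxy).2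
    · rw [mem_ball_iff'] at hx hy
      rw [D.disj i j _ ((mem_ball_iff' _).2 fun k => hx k.castSucc) _
        ((mem_ball_iff' _).2 fun k => hy k.castSucc)
        (mk_inj a (toI_ne_one (hx (Fin.last _))) (toI_ne_one (hy (Fin.last _))) hxy).1]
  bdry := by
    rintro (i | i) x hx
    · obtain ⟨j, hj, y, hy, hxy⟩ := D.bdry i x hx
      refine ⟨Sum.inl j, hj, y, hy, ?_⟩
      change MTorus.mk a (D.Φ j y, 0) = MTorus.mk a (D.Φ i x, 0)
      rw [hxy]
    · change Fin (D.dim i + 1) → ℝ at x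
      change x ∈ sphere (0 : Fin (D.dim i + 1) → ℝ) 1 at hx
      rw [mem_sphere_iff'] at hx
      obtain ⟨h1, k, hk⟩ := hx
      have h2 : (fun k : Fin (D.dim i) => x k.castSucc) ∈ closedBall (0 : Fin (D.dim i) → ℝ) 1 :=
        (mem_closedBall_iff' _).2 fun k => h1 _
      by_cases hl : |x (Fin.last _)| = 1
      · rcases (abs_eq zero_le_one).1 hl with hl | hl
        · obtain ⟨j, hj, y, hy, hxy⟩ := ha (D.dim i) (D.Φ i (fun k => x k.castSucc))
            ⟨i, le_rfl, _, h2, rfl⟩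
          refine ⟨Sum.inl j, Nat.lt_succ_of_le hj, y, hy, ?_⟩
          change MTorus.mk a (D.Φ j y, 0) =
            MTorus.mk a (D.Φ i (fun k => x k.castSucc), toI (x (Fin.last _)))
          rw [hl, toI_one, mk_one', hxy]
        · refine ⟨Sum.inl i, Nat.lt_succ_self _, _, h2, ?_⟩
          change MTorus.mk a (D.Φ i (fun k => x k.castSucc), 0) =
            MTorus.mk a (D.Φ i (fun k => x k.castSucc), toI (x (Fin.last _)))
          rw [hl, toI_neg_one]
      · have h3 : ∃ k : Fin (D.dim i), |x k.castSucc| = 1 := by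
          revert hk
          refine Fin.lastCases ?_ (fun k => ?_) k
          · exact fun h => absurd h hl
          · exact fun h => ⟨k, h⟩
        obtain ⟨j, hj, y, hy, hxy⟩ := D.bdry i (fun k => x k.castSucc)
          ((mem_sphere_iff' _).2 ⟨fun k => h1 _, h3⟩)
        refine ⟨Sum.inr j, Nat.succ_lt_succ hj, (Fin.snoc y (x (Fin.last _)) : Fin (D.dim j + 1) → ℝ),
          ?_, ?_⟩
        · rw [mem_closedBall_iff'] at hy
          refine (mem_closedBall_iff' _).2 fun k => ?_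
          refine Fin.lastCases ?_ (fun k => ?_) k
          · rw [Fin.snoc_last]; exact h1 _
          · rw [Fin.snoc_castSucc]; exact hy k
        · change MTorus.mk a (D.Φ j (fun k => (Fin.snoc y (x (Fin.last _)) :
              Fin (D.dim j + 1) → ℝ) k.castSucc), toI ((Fin.snoc y (x (Fin.last _)) :
              Fin (D.dim j + 1) → ℝ) (Fin.last _))) =
            MTorus.mk a (D.Φ i (fun k => x k.castSucc), toI (x (Fin.last _)))
          simp only [Fin.snoc_last, Fin.snoc_castSucc]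
          rw [hxy]
  cover := by
    intro p
    obtain ⟨⟨z, t⟩, rfl⟩ : ∃ q, MTorus.mk a q = p := Quotient.exists_rep p
    obtain ⟨i, y, hy, rfl⟩ := D.cover z
    obtain ⟨r, hr, rfl⟩ := toI_surj t
    refine ⟨Sum.inr i, (Fin.snoc y r : Fin (D.dim i + 1) → ℝ), ?_, ?_⟩
    · rw [mem_closedBall_iff'] at hy
      refine (mem_closedBall_iff' _).2 fun k => ?_
      refine Fin.lastCases ?_ (fun k => ?_) k
      · rw [Fin.snoc_last]; exact hr
      · rw [Fin.snoc_castSucc]; exact hy k
    · change MTorus.mk a (D.Φ i (fun k => (Fin.snoc y r :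
              Fin (D.dim i + 1) → ℝ) k.castSucc), toI ((Fin.snoc y r :
              Fin (D.dim i + 1) → ℝ) (Fin.last _))) = _
      simp only [Fin.snoc_last, Fin.snoc_castSucc]

/-- mapping torus of a cellular map -/
theorem _root_.SelfCover.exists_cellDecomp_mtorus {Z : Type} [TopologicalSpace Z]
    (D : CellDecomp Z) (a : C(Z, Z)) (ha : ∀ n, ∀ z ∈ D.sk n, a z ∈ D.sk n) :
    ∃ D' : CellDecomp (MTorus a), ∀ n, D'.sk n =
      {p | ∃ z ∈ D.sk n, p = MTorus.mk a (z, 0)} ∪
      {p | 1 ≤ n ∧ ∃ z ∈ D.sk (n - 1), ∃ t : I, p = MTorus.mk a (z, t)} := by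
  refine ⟨D.mtorus a ha, fun n => ?_⟩
  ext p
  constructor
  · rintro ⟨i | i, hi, x, hx, rfl⟩
    · exact Or.inl ⟨D.Φ i x, ⟨i, hi, x, hx, rfl⟩, rfl⟩
    · have hi' : D.dim i + 1 ≤ n := hi
      refine Or.inr ⟨by omega, _, ⟨i, by omega, _, ?_, rfl⟩, _, rfl⟩
      have hx' := (mem_closedBall_iff' (d := D.dim i + 1) x).1 hx
      exact (mem_closedBall_iff' _).2 fun k => hx' _
  · rintro (⟨z, ⟨i, hi, x, hx, rfl⟩, rfl⟩ | ⟨hn, z, ⟨i, hi, y, hy, rfl⟩, t, rfl⟩)
    · exact ⟨Sum.inl i, hi, x, hx, rfl⟩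
    · obtain ⟨r, hr, rfl⟩ := toI_surj t
      refine ⟨Sum.inr i, by change D.dim i + 1 ≤ n; omega,
        (Fin.snoc y r : Fin (D.dim i + 1) → ℝ), ?_, ?_⟩
      · rw [mem_closedBall_iff'] at hy
        refine (mem_closedBall_iff' _).2 fun k => ?_
        refine Fin.lastCases ?_ (fun k => ?_) k
        · rw [Fin.snoc_last]; exact hr
        · rw [Fin.snoc_castSucc]; exact hy k
      · change MTorus.mk a (D.Φ i (fun k => (Fin.snoc y r :
                Fin (D.dim i + 1) → ℝ) k.castSucc), toI ((Fin.snoc y r :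
                Fin (D.dim i + 1) → ℝ) (Fin.last _))) = _
        simp only [Fin.snoc_last, Fin.snoc_castSucc]

end mtorus

end CellDecomp

end SelfCover
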