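import Pool.Agent.SelfCover.Dbl

/-!
The infinite cyclic cover `Cov a` of the mapping torus `MTorus a`.
-/

open scoped unitInterval Topology NNReal
open Set

noncomputable section

namespace SelfCover

namespace MTorus

variable {Z : Type*} [TopologicalSpace Z] (a : C(Z, Z))

/-- The infinite cyclic cover of the mapping torus: the pullback of `ℝ → ℝ/ℤ` along
`pr : MTorus a → ℝ/ℤ`. -/
def Cov : Type _ := {p : MTorus a × ℝ // pr a p.1 = ((p.2 : ℝ) : UnitAddCircle)}

instance : TopologicalSpace (Cov a) :=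
  inferInstanceAs (TopologicalSpace {p : MTorus a × ℝ // pr a p.1 = ((p.2 : ℝ) : UnitAddCircle)})

/-- The covering projection. -/
def Cov.p : C(Cov a, MTorus a) := ⟨fun x => x.1.1, continuous_fst.comp continuous_subtype_val⟩

/-- The height on the infinite cyclic cover. -/
def Cov.ht : C(Cov a, ℝ) := ⟨fun x => x.1.2, continuous_snd.comp continuous_subtype_val⟩

lemma Cov.ext {x x' : Cov a} (h1 : Cov.p a x = Cov.p a x') (h2 : Cov.ht a x = Cov.ht a x') :
    x = x' := Subtype.ext (Prod.ext h1 h2)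

lemma Cov.pr_p (x : Cov a) : pr a (Cov.p a x) = ((Cov.ht a x : ℝ) : UnitAddCircle) := x.2

/-- The point of the infinite cyclic cover at height `n` above `base a z`. -/
def Cov.pt (n : ℤ) (z : Z) : Cov a := ⟨(base a z, (n : ℝ)), by
  rw [pr_base, eq_comm, AddCircle.coe_eq_zero_iff]
  exact ⟨n, by simp⟩⟩

@[simp] lemma Cov.p_pt (n : ℤ) (z : Z) : Cov.p a (Cov.pt a n z) = base a z := rfl
@[simp] lemma Cov.ht_pt (n : ℤ) (z : Z) : Cov.ht a (Cov.pt a n z) = n := rfl

lemma Cov.continuous_pt (n : ℤ) : Continuous (Cov.pt a n) :=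
  Continuous.subtype_mk (by fun_prop) _

instance [CompactSpace Z] [T2Space Z] : T2Space (Cov a) :=
  inferInstanceAs (T2Space {p : MTorus a × ℝ // pr a p.1 = ((p.2 : ℝ) : UnitAddCircle)})

end MTorus

end SelfCover
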