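import Pool.Agent.SelfCover.Pi1

open scoped unitInterval Topology NNReal ContinuousMap
open Set

noncomputable section

namespace SelfCover

namespace MTorus

variable {Z : Type*} [TopologicalSpace Z] (a : C(Z, Z)) {z₀ : Z}

/-- The degree of loops in the mapping torus. -/
abbrev tdeg (z₀ : Z) : FundamentalGroup (MTorus a) (base a z₀) →* Multiplicative ℤ :=
  deg (pr a) (pr_base a z₀)

/-- The loop in the circle direction. -/
def sLoop (ha : a z₀ = z₀) : Path (base a z₀) (base a z₀) where
  toFun t := mk a (z₀, t)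
  continuous_toFun := by fun_prop
  source' := rfl
  target' := by rw [mk_one, ha]; rfl

@[simp] lemma sLoop_apply (ha : a z₀ = z₀) (t : I) : sLoop a ha t = mk a (z₀, t) := rfl

/-- The homomorphism induced by the level-zero embedding. -/
abbrev baseStar (z₀ : Z) : FundamentalGroup Z z₀ →* FundamentalGroup (MTorus a) (base a z₀) :=
  FundamentalGroup.mapOfEq (base a) rfl

/-- The homomorphism induced by the self-map. -/
abbrev aStar (ha : a z₀ = z₀) : FundamentalGroup Z z₀ →* FundamentalGroup Z z₀ :=
  FundamentalGroup.mapOfEq a ha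

lemma tdeg_sLoop (ha : a z₀ = z₀) : tdeg a z₀ (cls (sLoop a ha)) = Multiplicative.ofAdd 1 := by
  have h := deg_cls (pr a) (pr_base a z₀) (sLoop a ha) ⟨fun t => (t : ℝ), by fun_prop⟩ rfl
    (by intro t; rw [sLoop_apply, pr_mk]; rfl)
  apply Multiplicative.toAdd.injective
  have h2 : (((deg (pr a) (pr_base a z₀) (cls (sLoop a ha))).toAdd : ℤ) : ℝ) = 1 := by
    rw [h]; rfl
  exact_mod_cast h2

lemma tdeg_baseStar (β : FundamentalGroup Z z₀) : tdeg a z₀ (baseStar a z₀ β) = 1 := by
  obtain ⟨γ, rfl⟩ := cls_surjective β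
  rw [mapOfEq_cls, deg_cls_eq_one_iff (pr a) (pr_base a z₀) _ (ContinuousMap.const _ 0) rfl]
  · rfl
  · intro t
    rw [pushLoop_apply, pr_base]
    rfl

/-- The homotopy from `base` to `base ∘ a`. -/
def baseHtpy : ContinuousMap.Homotopy (base a) ((base a).comp a) where
  toFun p := mk a (p.2, p.1)
  continuous_toFun := by fun_prop
  map_zero_left := fun z => rfl
  map_one_left := fun z => mk_one a z

/-- The defining relation of the mapping torus. -/
lemma sLoop_rel (ha : a z₀ = z₀) (β : FundamentalGroup Z z₀) :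
    cls (sLoop a ha) * baseStar a z₀ β = baseStar a z₀ (aStar a ha β) * cls (sLoop a ha) := by
  obtain ⟨γ, rfl⟩ := cls_surjective β
  rw [mapOfEq_cls, mapOfEq_cls, mapOfEq_cls, cls_mul, cls_mul, cls_eq_iff]
  have h := Path.Homotopic.map_trans_evalAt (baseHtpy a) γ
  have h' := h.pathCast rfl (by show base a z₀ = base a (a z₀); rw [ha])
  convert h' using 1
  · ext t
    simp only [Path.trans_apply, Path.cast_coe]
    split_ifs <;> rfl
  · ext t
    simp only [Path.trans_apply, Path.cast_coe]
    split_ifs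
    · rfl
    · rfl

/-- The loop running `N` times in the circle direction. -/
def rayLoop (ha : a z₀ = z₀) (N : ℕ) : Path (base a z₀) (base a z₀) where
  toFun t := ray a (z₀, toNN t * N)
  continuous_toFun := by fun_prop
  source' := by rw [toNN_zero, zero_mul, ray_zero]
  target' := by
    rw [toNN_one, one_mul, ray_nat]
    rw [Function.iterate_fixed ha]

lemma rayLoop_apply (ha : a z₀ = z₀) (N : ℕ) (t : I) :
    rayLoop a ha N t = ray a (z₀, toNN t * N) := rfl

lemma cls_rayLoop (ha : a z₀ = z₀) (N : ℕ) : cls (rayLoop a ha N) = cls (sLoop a ha) ^ N := by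
  induction N with
  | zero =>
    rw [pow_zero, ← cls_refl, cls_eq_iff]
    have : rayLoop a ha 0 = Path.refl _ := by
      ext t
      rw [rayLoop_apply]
      simp [ray_zero]
    rw [this]
  | succ N ih =>
    rw [pow_succ', ← ih, cls_mul, cls_eq_iff]
    let p1 : Path (0 : ℝ≥0) (N : ℝ≥0) := ⟨⟨fun t => toNN t * N, by fun_prop⟩, by simp, by simp⟩
    let p2 : Path (N : ℝ≥0) ((N + 1 : ℕ) : ℝ≥0) :=
      ⟨⟨fun t => toNN t + N, by fun_prop⟩, by simp, by
        show toNN 1 + (N : ℝ≥0) = _
        rw [toNN_one]; push_cast; ring⟩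
    let q : Path (0 : ℝ≥0) ((N + 1 : ℕ) : ℝ≥0) :=
      ⟨⟨fun t => toNN t * ((N + 1 : ℕ) : ℝ≥0), by fun_prop⟩, by simp, by simp⟩
    have hq : q.Homotopic (p1.trans p2) := by
      refine ⟨⟨⟨⟨fun p => toNN (unitInterval.symm p.1) * q p.2 + toNN p.1 * (p1.trans p2) p.2,
        by fun_prop⟩, ?_, ?_⟩, ?_⟩⟩
      · intro t; simp
      · intro t; simp
      · have hadd : ∀ (t : I) (v : ℝ≥0), toNN (unitInterval.symm t) * v + toNN t * v = v := by
          intro t v
          rw [← add_mul]
          have : toNN (unitInterval.symm t) + toNN t = 1 := by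
            apply NNReal.coe_injective
            push_cast
            rw [coe_toNN, coe_toNN, unitInterval.coe_symm_eq]
            ring
          rw [this, one_mul]
        rintro t y (rfl | hy)
        · show toNN (unitInterval.symm t) * q 0 + toNN t * (p1.trans p2) 0 = q 0
          rw [Path.source, Path.source, hadd]
        · rw [mem_singleton_iff] at hy
          subst hy
          show toNN (unitInterval.symm t) * q 1 + toNN t * (p1.trans p2) 1 = q 1
          rw [Path.target, Path.target, hadd]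
    have hmap := hq.map (⟨fun τ => ray a (z₀, τ), by fun_prop⟩ : C(ℝ≥0, MTorus a))
    have h' := hmap.pathCast (x₂ := base a z₀) (x₃ := base a z₀) (by
      show base a z₀ = ray a (z₀, 0)
      rw [ray_zero]) (by
      show base a z₀ = ray a (z₀, ((N + 1 : ℕ) : ℝ≥0))
      rw [ray_nat, Function.iterate_fixed ha])
    convert h' using 1
    · ext t
      rfl
    · ext t
      simp only [Path.trans_apply, Path.cast_coe, Path.map_coe, Function.comp,
        ContinuousMap.coe_mk]
      split_ifs with ht
      · rfl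
      · show mk a (z₀, _) = ray a (z₀, toNN _ + (N : ℝ≥0))
        rw [ray_add_nat, Function.iterate_fixed ha, ray_toNN]

variable [CompactSpace Z] [T2Space Z]

/-- Every loop of degree zero is conjugate, by a power of the circle loop, to a loop at level
zero. -/
lemma exists_conj (ha : a z₀ = z₀) (g : FundamentalGroup (MTorus a) (base a z₀))
    (hg : tdeg a z₀ g = 1) : ∃ (N : ℕ) (β : FundamentalGroup Z z₀),
      cls (sLoop a ha) ^ N * g = baseStar a z₀ β * cls (sLoop a ha) ^ N := by
  obtain ⟨γ, rfl⟩ := cls_surjective g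
  obtain ⟨r, h1, h2⟩ := exists_lift (pr a) (pr_base a z₀) γ
  have h3 : r 1 = 0 := (deg_cls_eq_one_iff (pr a) (pr_base a z₀) γ r h1 h2).mp hg
  obtain ⟨M, hM⟩ : ∃ M : ℝ, ∀ t, r t ≤ M := by
    obtain ⟨x, -, hx⟩ := isCompact_univ.exists_isMaxOn univ_nonempty r.continuous.continuousOn
    exact ⟨r x, fun t => hx (mem_univ t)⟩
  obtain ⟨N, hN⟩ := exists_nat_ge M
  have hrN : ∀ t, r t ≤ ((N : ℤ) : ℝ) := fun t => by
    push_cast; exact (hM t).trans hN
  let F : C(I, MTorus a) := ⟨γ, by fun_prop⟩
  let β0 : C(I, Z) := ret a N F r (fun k => (h2 k).symm) hrN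
  have hβ : ∀ k, base a (β0 k) = flow a (γ k, Real.toNNReal ((N : ℤ) - r k)) :=
    base_ret a N F r (fun k => (h2 k).symm) hrN
  have hend : ∀ k, γ k = base a z₀ → r k = 0 → β0 k = z₀ := by
    intro k hk hk'
    apply base_injective a
    rw [hβ, hk, hk', sub_zero]
    have : Real.toNNReal (((N : ℤ) : ℝ)) = (N : ℝ≥0) := by simp
    rw [this, flow_base_nat, Function.iterate_fixed ha]
  let β : Path z₀ z₀ := ⟨β0, hend 0 γ.source h1, hend 1 γ.target h3⟩
  refine ⟨N, cls β, ?_⟩
  rw [← cls_rayLoop, mapOfEq_cls, cls_mul, cls_mul, cls_eq_iff]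
  let G : ContinuousMap.Homotopy F ((base a).comp β0) :=
    { toFun := fun p => flow a (γ p.2, toNN p.1 * Real.toNNReal ((N : ℤ) - r p.2))
      continuous_toFun := by fun_prop
      map_zero_left := fun t => by
        show flow a (γ t, toNN 0 * _) = γ t
        rw [toNN_zero, zero_mul, flow_zero]
      map_one_left := fun t => by
        show flow a (γ t, toNN 1 * _) = base a (β0 t)
        rw [toNN_one, one_mul, hβ] }
  have h := Path.Homotopic.map_trans_evalAt G unitInterval.path01
  have h' := h.pathCast (x₂ := base a z₀) (x₃ := base a z₀) (by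
    show _ = γ 0
    rw [γ.source]) (by
    show _ = base a (β0 1)
    rw [hend 1 γ.target h3])
  have hG : ∀ (k : I) (t : I), γ k = base a z₀ → r k = 0 →
      G (t, k) = ray a (z₀, toNN t * N) := by
    intro k t hk hk'
    show flow a (γ k, toNN t * Real.toNNReal ((N : ℤ) - r k)) = _
    rw [hk, hk', sub_zero]
    have : Real.toNNReal (((N : ℤ) : ℝ)) = (N : ℝ≥0) := by simp
    rw [this, flow_base]
  convert h' using 1
  · ext t
    simp only [Path.trans_apply, Path.cast_coe]
    split_ifs
    · rfl
    · exact (hG 1 _ γ.target h3).symm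
  · ext t
    simp only [Path.trans_apply, Path.cast_coe]
    split_ifs
    · exact (hG 0 _ γ.source h1).symm
    · rfl

/-- A loop at level zero which is null-homotopic in the mapping torus is killed by an iterate. -/
lemma exists_iterate_eq_one (β : Path z₀ z₀) (h : baseStar a z₀ (cls β) = 1) :
    ∃ (N : ℕ) (H : C(I × I, Z)), (∀ t, H (0, t) = a^[N] (β t)) ∧ (∀ t, H (1, t) = a^[N] z₀) ∧
      (∀ τ, H (τ, 0) = a^[N] z₀) ∧ (∀ τ, H (τ, 1) = a^[N] z₀) := by
  rw [mapOfEq_cls, ← cls_refl, cls_eq_iff] at h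
  obtain ⟨K⟩ := h
  -- lift the height
  have hz : ∀ t : I, ((pr a).comp K.toContinuousMap) (0, t) =
      (((ContinuousMap.const I (0 : ℝ)) t : ℝ) : UnitAddCircle) := by
    intro t
    show pr a (K (0, t)) = _
    rw [K.apply_zero]
    show pr a (base a (β t)) = _
    rw [pr_base]; rfl
  let r := covR.liftHomotopy ((pr a).comp K.toContinuousMap) (ContinuousMap.const I (0 : ℝ)) hz
  have hr : ∀ p, ((r p : ℝ) : UnitAddCircle) = pr a (K p) := fun p =>
    congrFun (covR.liftHomotopy_lifts ((pr a).comp K.toContinuousMap)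
      (ContinuousMap.const I (0 : ℝ)) hz) p
  have hr0 : ∀ t, r (0, t) = 0 := fun t =>
    covR.liftHomotopy_zero ((pr a).comp K.toContinuousMap) (ContinuousMap.const I (0 : ℝ)) hz t
  -- the lift is constant along paths on which `K` has constant projection
  have hconst : ∀ (c : C(I, I × I)), (∀ t, pr a (K (c t)) = 0) → ∀ t, r (c t) = r (c 0) := by
    intro c hc t
    have := covR.const_of_comp (g := fun t => r (c t)) (by fun_prop) (fun t t' => by
      show ((r (c t) : ℝ) : UnitAddCircle) = ((r (c t') : ℝ) : UnitAddCircle)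
      rw [hr, hr, hc, hc]) t 0
    exact this
  have hr_left : ∀ τ, r (τ, 0) = 0 := by
    intro τ
    have := hconst ⟨fun τ => (τ, 0), by fun_prop⟩ (fun τ => by
      show pr a (K (τ, 0)) = 0
      rw [K.source, pr_base]) τ
    exact this.trans (hr0 0)
  have hr_right : ∀ τ, r (τ, 1) = 0 := by
    intro τ
    have := hconst ⟨fun τ => (τ, 1), by fun_prop⟩ (fun τ => by
      show pr a (K (τ, 1)) = 0
      rw [K.target, pr_base]) τ
    exact this.trans (hr0 1)
  have hr_top : ∀ t, r (1, t) = 0 := by
    intro t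
    have := hconst ⟨fun t => (1, t), by fun_prop⟩ (fun t => by
      show pr a (K (1, t)) = 0
      rw [K.apply_one]
      exact pr_base a z₀) t
    exact this.trans (hr_left 1)
  obtain ⟨M, hM⟩ : ∃ M : ℝ, ∀ t, r t ≤ M := by
    obtain ⟨x, -, hx⟩ := isCompact_univ.exists_isMaxOn univ_nonempty r.continuous.continuousOn
    exact ⟨r x, fun t => hx (mem_univ t)⟩
  obtain ⟨N, hN⟩ := exists_nat_ge M
  have hrN : ∀ t, r t ≤ ((N : ℤ) : ℝ) := fun t => by
    push_cast; exact (hM t).trans hN
  let H := ret a N K.toContinuousMap r (fun k => (hr k).symm) hrN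
  have hH : ∀ k z, K k = base a z → r k = 0 → H k = a^[N] z := by
    intro k z hk hk'
    exact ret_eq_of_base a N K.toContinuousMap r (fun k => (hr k).symm) hrN k z hk N
      (by rw [hk']; simp)
  refine ⟨N, H, fun t => ?_, fun t => ?_, fun τ => ?_, fun τ => ?_⟩
  · exact hH _ _ (K.apply_zero t) (hr0 t)
  · exact hH _ _ (K.apply_one t) (hr_top t)
  · exact hH _ _ (K.source τ) (hr_left τ)
  · exact hH _ _ (K.target τ) (hr_right τ)

end MTorus

end SelfCover
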