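/-
Module Covers (helper86): covering maps, path connectedness and the subgroup of the infinite cyclic
cover.
-/
import Pool.Agent.SelfCover.CovDef
import Pool.Agent.SelfCover.Pi1Torus
import Pool.Agent.SelfCover.Space

open scoped unitInterval Topology NNReal ContinuousMap
open Set

noncomputable section

namespace SelfCover

open MTorus

/-- the pullback of a covering map is a covering map -/
theorem isCoveringMap_pullback {A B C : Type*} [TopologicalSpace A] [TopologicalSpace B]
    [TopologicalSpace C] {p : B → C} (hp : IsCoveringMap p) {f : A → C} (hf : Continuous f) :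
    IsCoveringMap (fun x : {x : A × B // f x.1 = p x.2} => x.1.1) := by
  intro a
  obtain ⟨hI, U, haU, hU, hpU, H, hH⟩ := hp (f a)
  have hcont : Continuous (fun x : {x : A × B // f x.1 = p x.2} => x.1.1) :=
    continuous_fst.comp continuous_subtype_val
  have key : IsEvenlyCovered (fun x : {x : A × B // f x.1 = p x.2} => x.1.1) a (p ⁻¹' {f a}) := by
    refine ⟨hI, f ⁻¹' U, haU, hU.preimage hf, (hU.preimage hf).preimage hcont, ?_, ?_⟩
    · exact
      { toFun := fun e => (⟨e.1.1.1, e.2⟩, (H ⟨e.1.1.2, by
          have h1 : f e.1.1.1 ∈ U := e.2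
          rw [e.1.2] at h1
          exact h1⟩).2)
        invFun := fun x => ⟨⟨(x.1.1, (H.symm (⟨f x.1.1, x.1.2⟩, x.2)).1), by
          have h1 := hH (H.symm (⟨f x.1.1, x.1.2⟩, x.2))
          rw [H.apply_symm_apply] at h1
          exact h1⟩, x.1.2⟩
        left_inv := by
          rintro ⟨⟨⟨a', b⟩, h⟩, h'⟩
          apply Subtype.ext
          apply Subtype.ext
          simp only [Prod.mk.injEq, true_and]
          have hb : p b ∈ U := by rw [← h]; exact h'
          have h1 : ((⟨f a', h'⟩ : U), (H ⟨b, hb⟩).2) = H ⟨b, hb⟩ := by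
            apply Prod.ext
            · apply Subtype.ext
              rw [hH]
              exact h
            · rfl
          show (H.symm ((⟨f a', h'⟩ : U), (H ⟨b, hb⟩).2)).1 = b
          rw [h1, H.symm_apply_apply]
        right_inv := by
          rintro ⟨⟨a', h'⟩, i⟩
          apply Prod.ext
          · rfl
          · show (H ⟨(H.symm (⟨f a', h'⟩, i)).1, _⟩).2 = i
            have h1 : (⟨(H.symm (⟨f a', h'⟩, i)).1, (H.symm (⟨f a', h'⟩, i)).2⟩ : p ⁻¹' U) =
              H.symm (⟨f a', h'⟩, i) := rfl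
            rw [h1, H.apply_symm_apply]
        continuous_toFun := by
          refine Continuous.prodMk ?_ ?_
          · exact Continuous.subtype_mk (hcont.comp continuous_subtype_val) _
          · refine continuous_snd.comp (H.continuous.comp ?_)
            exact Continuous.subtype_mk (continuous_snd.comp
              (continuous_subtype_val.comp continuous_subtype_val)) _
        continuous_invFun := by
          refine Continuous.subtype_mk (Continuous.subtype_mk ?_ _) _
          refine Continuous.prodMk (continuous_subtype_val.comp continuous_fst) ?_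
          refine continuous_subtype_val.comp (H.symm.continuous.comp ?_)
          refine Continuous.prodMk ?_ continuous_snd
          exact Continuous.subtype_mk (hf.comp (continuous_subtype_val.comp continuous_fst)) _ }
    · intro x
      rfl
  exact key.to_isEvenlyCovered_preimage

theorem isCoveringMap_double : IsCoveringMap (fun w : UnitAddCircle => w + w) := by
  have h := (AddCircle.isAddQuotientCoveringMap_nsmul_of_ne_zero (1 : ℝ) 2).isCoveringMap
  convert h using 2 with w
  exact (two_nsmul w).symm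

theorem isCoveringMap_q {Z : Type*} [TopologicalSpace Z] (a : C(Z, Z)) :
    IsCoveringMap (Dbl.q a) :=
  isCoveringMap_pullback (p := fun w : UnitAddCircle => w + w) isCoveringMap_double
    (f := pr a) (pr a).continuous

theorem isCoveringMap_p {Z : Type*} [TopologicalSpace Z] (a : C(Z, Z)) :
    IsCoveringMap (Cov.p a) :=
  isCoveringMap_pullback (p := ((↑) : ℝ → UnitAddCircle)) covR (f := pr a) (pr a).continuous

theorem card_fiber_q {Z : Type*} [TopologicalSpace Z] (a : C(Z, Z)) (y : MTorus a) :
    Nat.card (Dbl.q a ⁻¹' {y}) = 2 := by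
  obtain ⟨t, ht⟩ := QuotientAddGroup.mk_surjective (pr a y)
  have ht' : ((t : ℝ) : UnitAddCircle) = pr a y := ht
  have e0 : pr a y = (((t / 2 : ℝ)) : UnitAddCircle) + ((t / 2 : ℝ) : UnitAddCircle) := by
    rw [← AddCircle.coe_add, add_halves, ht']
  have e1 : pr a y = (((t / 2 + 1 / 2 : ℝ)) : UnitAddCircle) +
      ((t / 2 + 1 / 2 : ℝ) : UnitAddCircle) := by
    rw [← AddCircle.coe_add]
    have : t / 2 + 1 / 2 + (t / 2 + 1 / 2) = t + 1 := by ring
    rw [this, AddCircle.coe_add, AddCircle.coe_period, add_zero, ht']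
  let x0 : Dbl a := ⟨(y, ((t / 2 : ℝ) : UnitAddCircle)), e0⟩
  let x1 : Dbl a := ⟨(y, ((t / 2 + 1 / 2 : ℝ) : UnitAddCircle)), e1⟩
  have hne : x0 ≠ x1 := by
    intro h
    have h1 : ((t / 2 : ℝ) : UnitAddCircle) = ((t / 2 + 1 / 2 : ℝ) : UnitAddCircle) :=
      congrArg (Dbl.w a) h
    rw [AddCircle.coe_add, left_eq_add, AddCircle.coe_eq_zero_iff] at h1
    obtain ⟨n, hn⟩ := h1
    simp only [zsmul_eq_mul, mul_one] at hn
    have h2 : ((2 * n : ℤ) : ℝ) = ((1 : ℤ) : ℝ) := by push_cast; linarith
    have h3 : 2 * n = 1 := by exact_mod_cast h2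
    omega
  have hset : Dbl.q a ⁻¹' {y} = {x0, x1} := by
    ext x
    constructor
    · intro hx
      have hx1 : Dbl.q a x = y := hx
      have h2 : (Dbl.w a x - ((t / 2 : ℝ) : UnitAddCircle)) +
          (Dbl.w a x - ((t / 2 : ℝ) : UnitAddCircle)) = 0 := by
        have h3 := Dbl.pr_q a x
        rw [hx1, e0] at h3
        have : (Dbl.w a x - ((t / 2 : ℝ) : UnitAddCircle)) +
          (Dbl.w a x - ((t / 2 : ℝ) : UnitAddCircle)) = (Dbl.w a x + Dbl.w a x) -
          (((t / 2 : ℝ) : UnitAddCircle) + ((t / 2 : ℝ) : UnitAddCircle)) := by abel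
        rw [this, h3, sub_self]
      rcases MTorus.half_eq_zero _ h2 with h4 | h4
      · left
        exact Dbl.ext a hx1 (sub_eq_zero.mp h4)
      · right
        refine Dbl.ext a hx1 ?_
        rw [sub_eq_iff_eq_add] at h4
        rw [h4, ← AddCircle.coe_add, add_comm]
        rfl
    · rintro (rfl | rfl) <;> rfl
  rw [hset]
  have := Set.ncard_pair hne
  rw [← Nat.card_coe_set_eq] at this
  exact this

instance instPathConnectedSpaceI : PathConnectedSpace I :=
  isPathConnected_iff_pathConnectedSpace.mp
    ((convex_Icc (0 : ℝ) 1).isPathConnected ⟨0, by simp⟩)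

theorem pathConnectedSpace_mtorus {Z : Type*} [TopologicalSpace Z] [PathConnectedSpace Z]
    (a : C(Z, Z)) : PathConnectedSpace (MTorus a) :=
  (mk_surjective a).pathConnectedSpace (mk a).continuous

/-- A homotopy joins the values. -/
lemma joined_of_homotopic {X Y : Type*} [TopologicalSpace X] [TopologicalSpace Y] {f g : C(X, Y)}
    (h : f.Homotopic g) (x : X) : Joined (f x) (g x) := by
  obtain ⟨H⟩ := h
  exact ⟨⟨⟨fun t => H (t, x), by fun_prop⟩, H.apply_zero x, H.apply_one x⟩⟩

theorem pathConnectedSpace_dbl {Z : Type*} [TopologicalSpace Z] [PathConnectedSpace Z]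
    [CompactSpace Z] [T2Space Z] (a : C(Z, Z)) : PathConnectedSpace (Dbl a) := by
  have hpc : PathConnectedSpace (MTorus (a.comp a)) := pathConnectedSpace_mtorus _
  obtain ⟨y0⟩ := hpc.nonempty
  refine ⟨⟨toDbl a y0⟩, fun x y => ?_⟩
  have h1 : ∀ x : Dbl a, Joined (toDbl a (ofDbl a x)) x := fun x =>
    joined_of_homotopic (toDbl_comp_ofDbl a) x
  have h2 : Joined (toDbl a (ofDbl a x)) (toDbl a (ofDbl a y)) :=
    (hpc.joined (ofDbl a x) (ofDbl a y)).map (toDbl a).continuous
  exact ((h1 x).symm.trans h2).trans (h1 y)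

theorem pathConnectedSpace_cov {Z : Type*} [TopologicalSpace Z] [PathConnectedSpace Z]
    (a : C(Z, Z)) : PathConnectedSpace (Cov a) := by
  obtain ⟨z0⟩ := (inferInstance : Nonempty Z)
  -- moving up from height `n + t`
  have up : ∀ (z : Z) (t : I) (n : ℤ) (x : Cov a), Cov.p a x = mk a (z, t) →
      Cov.ht a x = n + t → Joined x (Cov.pt a (n + 1) (a z)) := by
    intro z t n x h1 h2
    let F : I → Cov a := fun s => ⟨(mk a (z, s), (n : ℝ) + s), by
      show pr a (mk a (z, s)) = (((n : ℝ) + s : ℝ) : UnitAddCircle)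
      rw [pr_mk, AddCircle.coe_add]
      have : ((n : ℝ) : UnitAddCircle) = 0 := by
        rw [AddCircle.coe_eq_zero_iff]; exact ⟨n, by simp⟩
      rw [this, zero_add]⟩
    have hF : Continuous F := Continuous.subtype_mk (by fun_prop) _
    have e1 : F t = x := Cov.ext a h1.symm h2.symm
    have e2 : F 1 = Cov.pt a (n + 1) (a z) := by
      apply Cov.ext
      · show mk a (z, 1) = base a (a z)
        rw [mk_one]; rfl
      · show (n : ℝ) + ((1 : I) : ℝ) = ((n + 1 : ℤ) : ℝ)
        push_cast; simp
    rw [← e1, ← e2]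
    exact (PathConnectedSpace.joined t 1).map hF
  have hor : ∀ (n : ℤ) (z z' : Z), Joined (Cov.pt a n z) (Cov.pt a n z') := fun n z z' =>
    (PathConnectedSpace.joined z z').map (Cov.continuous_pt a n)
  have step : ∀ n : ℤ, Joined (Cov.pt a n z0) (Cov.pt a (n + 1) z0) := fun n =>
    (up z0 0 n (Cov.pt a n z0) rfl (by simp)).trans (hor _ _ _)
  have steps : ∀ (n : ℤ) (k : ℕ), Joined (Cov.pt a n z0) (Cov.pt a (n + k) z0) := by
    intro n k
    induction k with
    | zero => simpa using Joined.refl _
    | succ k ih =>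
      have := step (n + k)
      have e : n + ((k + 1 : ℕ) : ℤ) = n + k + 1 := by push_cast; ring
      rw [e]
      exact ih.trans this
  have all : ∀ x : Cov a, ∃ n : ℤ, Joined x (Cov.pt a n z0) := by
    intro x
    obtain ⟨⟨z, t⟩, hz⟩ := mk_surjective a (Cov.p a x)
    have h1 := Cov.pr_p a x
    rw [← hz, pr_mk, eq_comm] at h1
    have h2 : ((Cov.ht a x - t : ℝ) : UnitAddCircle) = 0 := by
      rw [AddCircle.coe_sub, h1, sub_self]
    rw [AddCircle.coe_eq_zero_iff] at h2
    obtain ⟨n, hn⟩ := h2
    simp only [zsmul_eq_mul, mul_one] at hn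
    exact ⟨n + 1, (up z t n x hz.symm (by linarith)).trans (hor _ _ _)⟩
  refine ⟨⟨Cov.pt a 0 z0⟩, fun x y => ?_⟩
  obtain ⟨n, hn⟩ := all x
  obtain ⟨m, hm⟩ := all y
  have hnm : Joined (Cov.pt a n z0) (Cov.pt a m z0) := by
    rcases le_total n m with h | h
    · obtain ⟨k, rfl⟩ := Int.le.dest h
      exact steps n k
    · obtain ⟨k, rfl⟩ := Int.le.dest h
      exact (steps m k).symm
  exact (hn.trans hnm).trans hm.symm

theorem pathConnectedSpace_Z0 : PathConnectedSpace Z0 := by
  have hP : PathConnectedSpace P := pathConnectedSpace_mtorus sq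
  have hM : PathConnectedSpace MSp := by
    have hs : Function.Surjective mproj := by
      rintro ⟨_, y, rfl⟩
      exact ⟨y, rfl⟩
    exact hs.pathConnectedSpace mproj.continuous
  have key : ∀ z : Z0, Joined z z0 := by
    intro z
    rcases toP_or_toM z with h | h
    · rw [eq_iota_of_toP h]
      have := (hM.joined (toM z) mpt).map iota.1.continuous
      rwa [iota.2] at this
    · rw [eq_incl_of_toM h]
      exact (hP.joined (toP z) p0).map incl.continuous
  exact ⟨⟨z0⟩, fun x y => (key x).trans (key y).symm⟩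

/-- `Cov` is the cover belonging to the kernel of the degree -/
theorem range_mapOfEq_p {Z : Type*} [TopologicalSpace Z] (a : C(Z, Z)) (z₀ : Z) :
    (FundamentalGroup.mapOfEq (Cov.p a) (Cov.p_pt a 0 z₀)).range = (tdeg a z₀).ker := by
  ext g
  rw [MonoidHom.mem_range, MonoidHom.mem_ker]
  constructor
  · rintro ⟨g, rfl⟩
    obtain ⟨γ, rfl⟩ := cls_surjective g
    rw [mapOfEq_cls, deg_cls_eq_one_iff (pr a) (pr_base a z₀) _
      ⟨fun t => Cov.ht a (γ t), by fun_prop⟩]
    · show Cov.ht a (γ 1) = 0
      rw [γ.target]; simp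
    · show Cov.ht a (γ 0) = 0
      rw [γ.source]; simp
    · intro t
      rw [pushLoop_apply]
      exact (Cov.pr_p a (γ t)).symm
  · intro hg
    obtain ⟨γ, rfl⟩ := cls_surjective g
    obtain ⟨r, h1, h2⟩ := exists_lift (pr a) (pr_base a z₀) γ
    have h3 : r 1 = 0 := (deg_cls_eq_one_iff (pr a) (pr_base a z₀) γ r h1 h2).mp hg
    let γ' : Path (Cov.pt a 0 z₀) (Cov.pt a 0 z₀) :=
      { toFun := fun t => ⟨(γ t, r t), (h2 t).symm⟩
        continuous_toFun := Continuous.subtype_mk (by fun_prop) _
        source' := by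
          apply Cov.ext
          · exact γ.source
          · show r 0 = _
            rw [h1]; simp
        target' := by
          apply Cov.ext
          · exact γ.target
          · show r 1 = _
            rw [h3]; simp }
    refine ⟨cls γ', ?_⟩
    rw [mapOfEq_cls]
    congr 1

end SelfCover
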