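import Pool.Agent.SelfCover.MTEquiv

open scoped unitInterval Topology NNReal ContinuousMap
open Set

noncomputable section

namespace SelfCover

namespace MTorus

variable {Z : Type*} [TopologicalSpace Z] (a : C(Z, Z))

/-- The double cover of the mapping torus: pullback of the doubling map of the circle. -/
def Dbl : Type _ := {p : MTorus a × UnitAddCircle // pr a p.1 = p.2 + p.2}

instance : TopologicalSpace (Dbl a) :=
  inferInstanceAs (TopologicalSpace {p : MTorus a × UnitAddCircle // pr a p.1 = p.2 + p.2})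

/-- The covering projection. -/
def Dbl.q : C(Dbl a, MTorus a) := ⟨fun p => p.1.1, continuous_fst.comp continuous_subtype_val⟩

/-- The circle coordinate on the double cover. -/
def Dbl.w : C(Dbl a, UnitAddCircle) :=
  ⟨fun p => p.1.2, continuous_snd.comp continuous_subtype_val⟩

lemma Dbl.ext {p p' : Dbl a} (h1 : Dbl.q a p = Dbl.q a p') (h2 : Dbl.w a p = Dbl.w a p') :
    p = p' := Subtype.ext (Prod.ext h1 h2)

lemma Dbl.pr_q (p : Dbl a) : pr a (Dbl.q a p) = Dbl.w a p + Dbl.w a p := p.2

/-- The point of the double cover above the base point. -/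
def Dbl.pt (z : Z) : Dbl a := ⟨(base a z, 0), by simp⟩

variable [CompactSpace Z] [T2Space Z]

instance : T2Space (Dbl a) :=
  inferInstanceAs (T2Space {p : MTorus a × UnitAddCircle // pr a p.1 = p.2 + p.2})

instance : CompactSpace (Dbl a) := by
  have h : IsClosed {p : MTorus a × UnitAddCircle | pr a p.1 = p.2 + p.2} :=
    isClosed_eq (by fun_prop) (by fun_prop)
  exact isCompact_iff_compactSpace.mp h.isCompact

/-- Parametrisation of the double cover by two copies of `Z × [0,1]`. -/
def dblK : C((Z × I) × Bool, Dbl a) where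
  toFun p := ⟨(mk a p.1, (((p.1.2 : ℝ) + (if p.2 then 1 else 0)) / 2 : ℝ)), by
    rw [pr_mk, ← AddCircle.coe_add]
    cases p.2
    · simp
    · simp only [if_true, add_halves]
      rw [AddCircle.coe_add, AddCircle.coe_period, add_zero]⟩
  continuous_toFun := by
    refine Continuous.subtype_mk ?_ _
    have : Continuous (fun p : (Z × I) × Bool => ((if p.2 then (1 : ℝ) else 0))) :=
      (continuous_of_discreteTopology (f := fun b : Bool => if b then (1 : ℝ) else 0)).comp
        continuous_snd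
    fun_prop

lemma q_dblK (p : Z × I) (b : Bool) : Dbl.q a (dblK a (p, b)) = mk a p := rfl
lemma w_dblK (p : Z × I) (b : Bool) : Dbl.w a (dblK a (p, b)) =
  (((p.2 : ℝ) + (if b then 1 else 0)) / 2 : ℝ) := rfl

lemma half_eq_zero (x : UnitAddCircle) (h : x + x = 0) :
    x = 0 ∨ x = ((1 / 2 : ℝ) : UnitAddCircle) := by
  induction x using QuotientAddGroup.induction_on with
  | H r =>
    have h' : ((r + r : ℝ) : UnitAddCircle) = 0 := by rw [AddCircle.coe_add]; exact h
    rw [AddCircle.coe_eq_zero_iff] at h'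
    obtain ⟨n, hn⟩ := h'
    simp only [zsmul_eq_mul, mul_one] at hn
    rcases Int.even_or_odd' n with ⟨k, hk | hk⟩
    · left
      show ((r : ℝ) : UnitAddCircle) = 0
      rw [AddCircle.coe_eq_zero_iff]
      refine ⟨k, ?_⟩
      rw [hk] at hn
      push_cast at hn
      simp only [zsmul_eq_mul, mul_one]
      linarith
    · right
      show ((r : ℝ) : UnitAddCircle) = _
      rw [← sub_eq_zero, ← AddCircle.coe_sub, AddCircle.coe_eq_zero_iff]
      refine ⟨k, ?_⟩
      rw [hk] at hn
      push_cast at hn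
      simp only [zsmul_eq_mul, mul_one]
      linarith

lemma dblK_surjective : Function.Surjective (dblK a) := by
  intro x
  obtain ⟨p, hp⟩ := mk_surjective a (Dbl.q a x)
  have h := Dbl.pr_q a x
  rw [← hp, pr_mk] at h
  have h2 : (Dbl.w a x - (((p.2 : ℝ) / 2 : ℝ) : UnitAddCircle)) +
      (Dbl.w a x - (((p.2 : ℝ) / 2 : ℝ) : UnitAddCircle)) = 0 := by
    have : (Dbl.w a x - (((p.2 : ℝ) / 2 : ℝ) : UnitAddCircle)) +
      (Dbl.w a x - (((p.2 : ℝ) / 2 : ℝ) : UnitAddCircle)) =
      (Dbl.w a x + Dbl.w a x) - ((((p.2 : ℝ) / 2 : ℝ) : UnitAddCircle) +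
        (((p.2 : ℝ) / 2 : ℝ) : UnitAddCircle)) := by abel
    rw [this, ← AddCircle.coe_add, add_halves, ← h, sub_self]
  rcases half_eq_zero _ h2 with h3 | h3
  · refine ⟨(p, false), Dbl.ext a ?_ ?_⟩
    · rw [q_dblK, hp]
    · rw [w_dblK]
      simp only [Bool.false_eq_true, if_false, add_zero]
      exact (sub_eq_zero.mp h3).symm
  · refine ⟨(p, true), Dbl.ext a ?_ ?_⟩
    · rw [q_dblK, hp]
    · rw [w_dblK]
      simp only [if_true]
      rw [sub_eq_iff_eq_add] at h3
      rw [h3, ← AddCircle.coe_add]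
      congr 1
      ring

lemma isQuotientMap_dblK : Topology.IsQuotientMap (dblK a) :=
  Topology.IsQuotientMap.of_surjective_continuous (dblK_surjective a) (dblK a).continuous

/-- Map from the mapping torus of `a ∘ a` to the double cover. -/
def toDbl : C(MTorus (a.comp a), Dbl a) :=
  lift (a.comp a) ⟨fun p => ⟨(ray a (p.1, toNN p.2 + toNN p.2), ((p.2 : ℝ) : UnitAddCircle)), by
    rw [pr_ray, ← AddCircle.coe_add]
    rfl⟩, by
    refine Continuous.subtype_mk ?_ _
    fun_prop⟩ (fun z => by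
    apply Dbl.ext
    · show ray a (z, toNN 1 + toNN 1) = ray a (a (a z), toNN 0 + toNN 0)
      simp only [toNN_one, toNN_zero, add_zero]
      rw [ray_add_one]
      have := ray_add_one a (a z) 0
      rw [zero_add] at this
      exact this
    · show (((1 : I) : ℝ) : UnitAddCircle) = (((0 : I) : ℝ) : UnitAddCircle)
      simp)

lemma q_toDbl (z : Z) (t : I) :
    Dbl.q a (toDbl a (mk (a.comp a) (z, t))) = ray a (z, toNN t + toNN t) := by
  unfold toDbl; rw [lift_mk]; rfl

lemma w_toDbl (z : Z) (t : I) :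
    Dbl.w a (toDbl a (mk (a.comp a) (z, t))) = ((t : ℝ) : UnitAddCircle) := by
  unfold toDbl; rw [lift_mk]; rfl

/-- auxiliary map for `ofDbl` -/
def ofDblAux : C((Z × I) × Bool, MTorus (a.comp a)) where
  toFun p := if p.2 then base (a.comp a) (a p.1.1) else mk (a.comp a) p.1
  continuous_toFun := by
    rw [continuous_prod_of_discrete_right]
    intro b
    cases b
    · simp only [Bool.false_eq_true, if_false]
      fun_prop
    · simp only [if_true]
      fun_prop

lemma ofDblAux_false (p : Z × I) : ofDblAux a (p, false) = mk (a.comp a) p := by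
  simp [ofDblAux]

lemma ofDblAux_true (p : Z × I) : ofDblAux a (p, true) = base (a.comp a) (a p.1) := by
  simp [ofDblAux]

/-- normal form on `(Z × I) × Bool` -/
def nf2 (p : (Z × I) × Bool) : (Z × I) × Bool :=
  open Classical in if p.1.2 = 1 then ((a p.1.1, 0), !p.2) else p

lemma ofDblAux_nf2 (p : (Z × I) × Bool) : ofDblAux a (nf2 a p) = ofDblAux a p := by
  obtain ⟨⟨z, t⟩, b⟩ := p
  unfold nf2
  by_cases ht : t = 1
  · subst ht
    simp only [if_true]
    cases b
    · simp only [Bool.not_false]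
      rw [ofDblAux_true, ofDblAux_false, mk_one]
      rfl
    · simp only [Bool.not_true]
      rw [ofDblAux_true, ofDblAux_false]
      rfl
  · simp [ht]

lemma nf2_eq_of_dblK_eq (p p' : (Z × I) × Bool) (h : dblK a p = dblK a p') :
    nf2 a p = nf2 a p' := by
  obtain ⟨⟨z, t⟩, b⟩ := p
  obtain ⟨⟨z', t'⟩, b'⟩ := p'
  have h1 : nf a (z, t) = nf a (z', t') := by
    rw [← mk_eq_iff]; exact congrArg (Dbl.q a) h
  have h2 := congrArg (Dbl.w a) h
  rw [w_dblK, w_dblK] at h2
  -- the circle coordinate in terms of the normal form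
  have key : ∀ (z : Z) (t : I) (b : Bool),
      ((((t : ℝ) + (if b then 1 else 0)) / 2 : ℝ) : UnitAddCircle) =
        (((((nf2 a ((z, t), b)).1.2 : ℝ) + (if (nf2 a ((z, t), b)).2 then 1 else 0)) / 2 : ℝ) :
          UnitAddCircle) ∧ (nf2 a ((z, t), b)).1 = nf a (z, t) ∧
        (nf2 a ((z, t), b)).1.2 ≠ 1 := by
    intro z t b
    by_cases ht : t = 1
    · subst ht
      rw [nf_one]
      cases b
      · simp [nf2]
      · simp only [nf2, if_true, Bool.not_true, Bool.false_eq_true, if_false, true_and]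
        refine ⟨?_, by simp⟩
        have e1 : ((((1 : I) : ℝ) + 1) / 2 : ℝ) = 1 := by simp
        have e2 : ((((0 : I) : ℝ) + 0) / 2 : ℝ) = 0 := by simp
        rw [e1, e2, AddCircle.coe_period, AddCircle.coe_zero]
    · rw [nf_of_ne a (p := (z, t)) ht]
      simp [nf2, ht]
  obtain ⟨k1, k2, k3⟩ := key z t b
  obtain ⟨k1', k2', k3'⟩ := key z' t' b'
  simp only at h2
  rw [k1, k1'] at h2
  have e1 : (nf2 a ((z, t), b)).1 = (nf2 a ((z', t'), b')).1 := by rw [k2, k2', h1]
  generalize hP : nf2 a ((z, t), b) = P at *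
  generalize hP' : nf2 a ((z', t'), b') = P' at *
  obtain ⟨⟨w, u⟩, c⟩ := P
  obtain ⟨⟨w', u'⟩, c'⟩ := P'
  simp only [Prod.mk.injEq] at e1
  obtain ⟨rfl, rfl⟩ := e1
  simp only at h2 k3
  have hu : (u : ℝ) < 1 := lt_of_le_of_ne u.2.2 (fun h' => k3 (Subtype.ext h'))
  rw [AddCircle.coe_eq_coe_iff_of_mem_Ico (a := 0)] at h2
  · cases c <;> cases c'
    · rfl
    · exfalso; simp at h2
    · exfalso; simp at h2
    · rfl
  · have := u.2.1
    constructor
    · split_ifs <;> linarith
    · split_ifs <;> linarith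
  · have := u.2.1
    constructor
    · split_ifs <;> linarith
    · split_ifs <;> linarith

lemma ofDblAux_compat (p p' : (Z × I) × Bool) (h : dblK a p = dblK a p') :
    ofDblAux a p = ofDblAux a p' := by
  rw [← ofDblAux_nf2, ← ofDblAux_nf2 a p', nf2_eq_of_dblK_eq a p p' h]

/-- Map from the double cover to the mapping torus of `a ∘ a`. -/
def ofDbl : C(Dbl a, MTorus (a.comp a)) :=
  (isQuotientMap_dblK a).lift (ofDblAux a) (ofDblAux_compat a)

lemma ofDbl_dblK (p : (Z × I) × Bool) : ofDbl a (dblK a p) = ofDblAux a p := by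
  have := Topology.IsQuotientMap.lift_comp (isQuotientMap_dblK a) (ofDblAux a) (ofDblAux_compat a)
  exact congrArg (fun f : C((Z × I) × Bool, MTorus (a.comp a)) => f p) this

/-- The semiflow on the double cover. -/
def flow2 : C(Dbl a × ℝ≥0, Dbl a) where
  toFun p := ⟨(flow a (Dbl.q a p.1, p.2), Dbl.w a p.1 + (((p.2 : ℝ) / 2 : ℝ) : UnitAddCircle)), by
    rw [pr_flow, Dbl.pr_q]
    have : (((p.2 : ℝ) : ℝ) : UnitAddCircle) = (((p.2 : ℝ) / 2 : ℝ) : UnitAddCircle) +
        (((p.2 : ℝ) / 2 : ℝ) : UnitAddCircle) := by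
      rw [← AddCircle.coe_add, add_halves]
    rw [this]
    exact add_add_add_comm _ _ _ _⟩
  continuous_toFun := by
    refine Continuous.subtype_mk ?_ _
    fun_prop

lemma q_flow2 (x : Dbl a) (s : ℝ≥0) : Dbl.q a (flow2 a (x, s)) = flow a (Dbl.q a x, s) := rfl
lemma w_flow2 (x : Dbl a) (s : ℝ≥0) :
    Dbl.w a (flow2 a (x, s)) = Dbl.w a x + (((s : ℝ) / 2 : ℝ) : UnitAddCircle) := rfl

lemma flow2_zero (x : Dbl a) : flow2 a (x, 0) = x := by
  apply Dbl.ext
  · rw [q_flow2, flow_zero]
  · rw [w_flow2]; simp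

/-- the amount of flowing -/
def spd : C(Dbl a, ℝ≥0) := ⟨fun x => 2 * ‖Dbl.w a x‖₊, by fun_prop⟩

lemma norm_of_le_half {r : ℝ} (h0 : 0 ≤ r) (h1 : r ≤ 1 / 2) :
    ‖((r : ℝ) : UnitAddCircle)‖ = r := by
  have h := (AddCircle.norm_coe_eq_abs_iff (p := (1 : ℝ)) (x := r) one_ne_zero).mpr (by
    rw [abs_of_nonneg h0]; simpa using h1)
  rw [abs_of_nonneg h0] at h
  exact h

lemma norm_of_ge_half {r : ℝ} (h0 : 1 / 2 ≤ r) (h1 : r ≤ 1) :
    ‖((r : ℝ) : UnitAddCircle)‖ = 1 - r := by
  have e : ((r : ℝ) : UnitAddCircle) = - (((1 - r : ℝ)) : UnitAddCircle) := by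
    rw [AddCircle.coe_sub, AddCircle.coe_period, zero_sub, neg_neg]
  rw [e, norm_neg]
  exact norm_of_le_half (by linarith) (by linarith)

lemma spd_false (z : Z) (t : I) : spd a (dblK a ((z, t), false)) = toNN t := by
  apply NNReal.coe_injective
  show (2 : ℝ) * ‖Dbl.w a (dblK a ((z, t), false))‖ = t
  rw [w_dblK]
  simp only [Bool.false_eq_true, if_false, add_zero]
  rw [norm_of_le_half (by linarith [t.2.1]) (by linarith [t.2.2])]
  ring

lemma spd_true (z : Z) (t : I) : spd a (dblK a ((z, t), true)) = toNN (unitInterval.symm t) := by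
  apply NNReal.coe_injective
  show (2 : ℝ) * ‖Dbl.w a (dblK a ((z, t), true))‖ = _
  rw [w_dblK]
  simp only [if_true]
  rw [norm_of_ge_half (by linarith [t.2.1]) (by linarith [t.2.2])]
  rw [coe_toNN, unitInterval.coe_symm_eq]
  ring

lemma toDbl_ofDbl (x : Dbl a) : toDbl a (ofDbl a x) = flow2 a (x, spd a x) := by
  obtain ⟨⟨⟨z, t⟩, b⟩, rfl⟩ := dblK_surjective a x
  rw [ofDbl_dblK]
  cases b
  · rw [ofDblAux_false, spd_false]
    apply Dbl.ext
    · rw [q_toDbl, q_flow2, q_dblK, flow_mk]
    · rw [w_toDbl, w_flow2, w_dblK]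
      simp only [Bool.false_eq_true, if_false, add_zero]
      rw [← AddCircle.coe_add, coe_toNN, add_halves]
  · rw [ofDblAux_true, spd_true]
    have hs : toNN t + toNN (unitInterval.symm t) = 0 + 1 := by
      apply NNReal.coe_injective
      push_cast
      rw [coe_toNN, coe_toNN, unitInterval.coe_symm_eq]
      ring
    apply Dbl.ext
    · rw [base_apply, q_toDbl, q_flow2, q_dblK, flow_mk, hs, ray_add_one]
      simp
    · rw [base_apply, w_toDbl, w_flow2, w_dblK]
      simp only [if_true]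
      rw [← AddCircle.coe_add, coe_toNN, unitInterval.coe_symm_eq]
      have : ((t : ℝ) + 1) / 2 + (1 - t) / 2 = 1 := by ring
      rw [this, AddCircle.coe_period]
      simp

lemma toDbl_comp_ofDbl : ((toDbl a).comp (ofDbl a)).Homotopic (ContinuousMap.id (Dbl a)) := by
  refine ContinuousMap.Homotopic.symm ⟨⟨⟨fun p => flow2 a (p.2, toNN p.1 * spd a p.2), by fun_prop⟩,
    ?_, ?_⟩⟩
  · intro x
    show flow2 a (x, toNN 0 * spd a x) = x
    rw [toNN_zero, zero_mul, flow2_zero]
  · intro x
    show flow2 a (x, toNN 1 * spd a x) = toDbl a (ofDbl a x)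
    rw [toNN_one, one_mul, toDbl_ofDbl]

lemma ofDbl_toDbl (z : Z) (t : I) : ofDbl a (toDbl a (mk (a.comp a) (z, t))) =
    ray (a.comp a) (z, min (toNN t + toNN t) 1) := by
  rcases le_total (t : ℝ) (1 / 2) with h | h
  · have hx : toDbl a (mk (a.comp a) (z, t)) =
        dblK a ((z, ⟨2 * t, by constructor <;> linarith [t.2.1]⟩), false) := by
      apply Dbl.ext
      · rw [q_toDbl, q_dblK, ← ray_toNN]
        congr 2
        apply NNReal.coe_injective
        push_cast
        rw [coe_toNN, coe_toNN]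
        simp only
        ring
      · rw [w_toDbl, w_dblK]
        simp
    rw [hx, ofDbl_dblK, ofDblAux_false, ← ray_toNN]
    congr 2
    apply NNReal.coe_injective
    rw [NNReal.coe_min, coe_toNN]
    push_cast
    rw [coe_toNN, min_eq_left (by linarith)]
    ring
  · have hx : toDbl a (mk (a.comp a) (z, t)) =
        dblK a ((a z, ⟨2 * t - 1, by constructor <;> linarith [t.2.2]⟩), true) := by
      apply Dbl.ext
      · rw [q_toDbl, q_dblK, ← ray_toNN, ← ray_add_one]
        congr 2
        apply NNReal.coe_injective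
        push_cast
        rw [coe_toNN, coe_toNN]
        simp only
        ring
      · rw [w_toDbl, w_dblK]
        simp
    rw [hx, ofDbl_dblK, ofDblAux_true]
    have : min (toNN t + toNN t) 1 = (0 : ℝ≥0) + 1 := by
      apply NNReal.coe_injective
      rw [NNReal.coe_min]
      push_cast
      rw [coe_toNN, min_eq_right (by linarith)]
      ring
    rw [this, ray_add_one, ray_zero]
    rfl

lemma ofDbl_comp_toDbl : ((ofDbl a).comp (toDbl a)).Homotopic
    (ContinuousMap.id (MTorus (a.comp a))) := by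
  have h := homotopicRel_of_family (a.comp a) ((ofDbl a).comp (toDbl a))
    (ContinuousMap.id (MTorus (a.comp a)))
    ⟨fun p => ray (a.comp a) (p.1.1, toNN (unitInterval.symm p.2) *
      min (toNN p.1.2 + toNN p.1.2) 1 + toNN p.2 * toNN p.1.2), by fun_prop⟩ ?_ ?_ ?_ ∅ ?_
  · obtain ⟨H⟩ := h
    exact ⟨H.toHomotopy⟩
  · rintro ⟨z, t⟩
    rw [ContinuousMap.comp_apply, ofDbl_toDbl]
    show ray (a.comp a) (z, toNN (unitInterval.symm 0) *
      min (toNN t + toNN t) 1 + toNN 0 * toNN t) = _
    simp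
  · rintro ⟨z, t⟩
    show ray (a.comp a) (z, toNN (unitInterval.symm 1) *
      min (toNN t + toNN t) 1 + toNN 1 * toNN t) = mk (a.comp a) (z, t)
    rw [← ray_toNN]
    simp
  · intro z l
    show ray (a.comp a) (z, toNN (unitInterval.symm l) *
      min (toNN 1 + toNN 1) 1 + toNN l * toNN 1) = ray (a.comp a) ((a.comp a) z,
        toNN (unitInterval.symm l) * min (toNN 0 + toNN 0) 1 + toNN l * toNN 0)
    have e1 : toNN (unitInterval.symm l) * min (toNN 1 + toNN 1) 1 + toNN l * toNN 1 =
        (0 : ℝ≥0) + 1 := by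
      have : min ((1 : ℝ≥0) + 1) 1 = 1 := by
        apply min_eq_right
        simp
      rw [toNN_one, this]
      apply NNReal.coe_injective
      push_cast
      rw [coe_toNN, coe_toNN, unitInterval.coe_symm_eq]
      ring
    have e2 : toNN (unitInterval.symm l) * min (toNN 0 + toNN 0) 1 + toNN l * toNN 0 = 0 := by
      simp
    rw [e1, e2, ray_add_one]
  · intro p l hp
    exact absurd hp (by simp)

/-- `MTorus (a ∘ a)` is homotopy equivalent to the double cover of `MTorus a`. -/
def dblEquiv : MTorus (a.comp a) ≃ₕ Dbl a where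
  toFun := toDbl a
  invFun := ofDbl a
  left_inv := ofDbl_comp_toDbl a
  right_inv := toDbl_comp_ofDbl a

lemma w_comp_toDbl : (Dbl.w a).comp (toDbl a) = pr (a.comp a) := by
  ext y
  obtain ⟨⟨z, t⟩, rfl⟩ := mk_surjective _ y
  rw [ContinuousMap.comp_apply, w_toDbl, pr_mk]

lemma toDbl_base (z : Z) : toDbl a (base (a.comp a) z) = Dbl.pt a z := by
  rw [base_apply]
  apply Dbl.ext
  · rw [q_toDbl]
    simp [ray_zero]
    rfl
  · rw [w_toDbl]
    show (((0 : I) : ℝ) : UnitAddCircle) = 0
    simp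

/-- A homotopy of self-maps as a path in the mapping space. -/
lemma exists_path_of_homotopic {a a' : C(Z, Z)} (h : a.Homotopic a') : Nonempty (Path a a') := by
  obtain ⟨H⟩ := h
  exact ⟨⟨H.curry, by ext z; exact H.apply_zero z, by ext z; exact H.apply_one z⟩⟩

/-- The main equivalence: if `a² b ≃ b a` with `b` invertible up to homotopy, then the mapping
torus of `a` is homotopy equivalent to its own double cover. -/
theorem exists_equiv_dbl (a b b' : C(Z, Z)) (z₀ : Z) (ha : a z₀ = z₀) (hb : b z₀ = z₀)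
    (h1 : (b'.comp b).Homotopic (ContinuousMap.id Z))
    (h2 : (b.comp b').Homotopic (ContinuousMap.id Z))
    (h3 : (a.comp (a.comp b)).Homotopic (b.comp a)) :
    ∃ e : MTorus a ≃ₕ Dbl a, e.toFun (base a z₀) = Dbl.pt a z₀ ∧
      ((Dbl.w a).comp e.toFun).HomotopicRel (pr a) {base a z₀} := by
  have k1 : a.Homotopic (b'.comp (b.comp a)) :=
    (h1.comp (ContinuousMap.Homotopic.refl a)).symm
  have k2 : ((b.comp a).comp b').Homotopic (a.comp a) := by
    have t1 : ((b.comp a).comp b').Homotopic ((a.comp (a.comp b)).comp b') :=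
      h3.symm.comp (ContinuousMap.Homotopic.refl b')
    have t2 : ((a.comp a).comp (b.comp b')).Homotopic ((a.comp a).comp (ContinuousMap.id Z)) :=
      (ContinuousMap.Homotopic.refl (a.comp a)).comp h2
    exact t1.trans t2
  obtain ⟨p1⟩ := exists_path_of_homotopic k1
  obtain ⟨p2⟩ := exists_path_of_homotopic k2
  let e1 := comparEquiv p1
  let e2 := cycEquiv (b.comp a) b'
  let e3 := comparEquiv p2
  refine ⟨((e1.trans e2).trans e3).trans (dblEquiv a), ?_, ?_⟩
  · show toDbl a (compar p2.symm (cyc (b.comp a) b' (compar p1.symm (base a z₀)))) = _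
    rw [compar_base, base_apply, cyc_mk, ← base_apply, compar_base, toDbl_base]
    show Dbl.pt a (b (a z₀)) = _
    rw [ha, hb]
  · have w1 : (Dbl.w a).comp (((e1.trans e2).trans e3).trans (dblEquiv a)).toFun =
        ((pr (a.comp a)).comp (compar p2.symm)).comp
          ((cyc (b.comp a) b').comp (compar p1.symm)) := by
      rw [← w_comp_toDbl]
      rfl
    rw [w1]
    have s1 : (((pr (a.comp a)).comp (compar p2.symm)).comp
          ((cyc (b.comp a) b').comp (compar p1.symm))).HomotopicRel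
          ((pr ((b.comp a).comp b')).comp ((cyc (b.comp a) b').comp (compar p1.symm)))
          {base a z₀} := by
      obtain ⟨H⟩ := pr_compar p2.symm
      refine ⟨⟨H.toHomotopy.compContinuousMap ((cyc (b.comp a) b').comp (compar p1.symm)), ?_⟩⟩
      intro t x hx
      show H (t, ((cyc (b.comp a) b').comp (compar p1.symm)) x) = _
      refine H.prop t _ ?_
      rw [mem_singleton_iff] at hx
      rw [hx]
      refine ⟨b (a z₀), ?_⟩
      rw [ContinuousMap.comp_apply, compar_base, base_apply, base_apply, cyc_mk]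
      rfl
    have s2 : ((pr ((b.comp a).comp b')).comp ((cyc (b.comp a) b').comp (compar p1.symm))) =
        (pr (b'.comp (b.comp a))).comp (compar p1.symm) := by
      rw [← ContinuousMap.comp_assoc, pr_cyc]
    rw [s2] at s1
    refine s1.trans ?_
    obtain ⟨H⟩ := pr_compar p1.symm
    refine ⟨⟨H.toHomotopy, ?_⟩⟩
    intro t x hx
    refine H.prop t x ?_
    rw [mem_singleton_iff] at hx
    rw [hx]
    exact ⟨z₀, rfl⟩

end MTorus

end SelfCover
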