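import Mathlib

/-!
# MP_121bc0_gt: definitions shared by all modules

* `MTorus a`: the mapping torus of a self-map `a : Z → Z`.
* `MSp`: the space `S² ∧ (S¹ ∪₂ e²)` realised as a compact subset of `ℝ⁷`,
  a quotient of the `4`-cube by the map `mproj`.
-/

open scoped unitInterval Topology
open Set

noncomputable section

namespace SelfCover

/-! ### The mapping torus -/

section MTorus

variable {Z : Type*} [TopologicalSpace Z]

/-- Normal form of a point of `Z × [0,1]` in the mapping torus of `a`:
`(z,1)` is replaced by `(a z, 0)`. -/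
def nf (a : C(Z, Z)) (p : Z × I) : Z × I :=
  open Classical in if p.2 = 1 then (a p.1, 0) else p

/-- The equivalence relation on `Z × [0,1]` generated by `(z,1) ∼ (a z,0)`. -/
def mtSetoid (a : C(Z, Z)) : Setoid (Z × I) := Setoid.ker (nf a)

/-- The mapping torus of `a : Z → Z`: `Z × [0,1]` with `(z,1)` glued to `(a z,0)`. -/
def MTorus (a : C(Z, Z)) : Type _ := Quotient (mtSetoid a)

instance (a : C(Z, Z)) : TopologicalSpace (MTorus a) :=
  inferInstanceAs (TopologicalSpace (Quotient (mtSetoid a)))

/-- The quotient map `Z × [0,1] → MTorus a`. -/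
def MTorus.mk (a : C(Z, Z)) : C(Z × I, MTorus a) where
  toFun := Quotient.mk (mtSetoid a)
  continuous_toFun := continuous_quotient_mk'

end MTorus

/-! ### The space `MSp` -/

/-- A weight on the `4`-cube which vanishes exactly on the set `IsBase`. -/
def wt (y : Fin 4 → I) : ℝ :=
  (y 0 : ℝ) * (1 - y 0) * (y 1 * (1 - y 1)) *
    ((1 - y 3) * (y 3 * (y 2 * (1 - y 2)) + Real.sin (2 * Real.pi * y 2) ^ 2))

/-- The map from the `4`-cube to `ℝ⁷` whose image is `MSp`. -/
def psi (y : Fin 4 → I) : Fin 7 → ℝ :=
  ![wt y, wt y * y 0, wt y * y 1, wt y * y 3, wt y * (y 3 * y 2),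
    wt y * Real.cos (4 * Real.pi * y 2), wt y * Real.sin (4 * Real.pi * y 2)]

lemma continuous_wt : Continuous wt := by
  unfold wt; fun_prop

lemma continuous_psi : Continuous psi := by
  refine continuous_pi fun j => ?_
  have := continuous_wt
  fin_cases j <;> simp [psi] <;> fun_prop

/-- The space `S² ∧ (S¹ ∪₂ e²)`: the image of the `4`-cube in `ℝ⁷` under `psi`. -/
def MSp : Type := Set.range psi

instance : MetricSpace MSp := inferInstanceAs (MetricSpace (Set.range psi))

instance : CompactSpace MSp :=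
  isCompact_iff_compactSpace.mp (isCompact_range continuous_psi)

/-- The quotient map from the `4`-cube to `MSp`. -/
def mproj : C(Fin 4 → I, MSp) where
  toFun y := ⟨psi y, y, rfl⟩
  continuous_toFun := continuous_psi.subtype_mk _

/-- The points of the `4`-cube which `mproj` sends to the base point. -/
def IsBase (y : Fin 4 → I) : Prop :=
  y 0 = 0 ∨ y 0 = 1 ∨ y 1 = 0 ∨ y 1 = 1 ∨ y 2 = 0 ∨ y 2 = 1 ∨ y 3 = 1 ∨
    (y 3 = 0 ∧ (y 2 : ℝ) = 1 / 2)

/-- The base point of `MSp`. -/
def mpt : MSp := mproj 0

end SelfCover
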