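import Pool.Agent.SelfCover.MBasic
import Pool.Agent.SelfCover.Space

/-!
Tools about `MSp`: the stretch maps `lam1`, `lam2` are homotopic to the identity, `MSp` is well
pointed (`NDR`), maps from `MSp` to the circle lift to `ℝ`, and `MSp` has dimension at most `4`.
-/

open scoped unitInterval Topology
open Set

noncomputable section

namespace SelfCover

/-- Descend a continuous map of the product of the `4`-cube with `Y` to `MSp × Y`. -/
def mliftProd {Y B : Type*} [TopologicalSpace Y] [TopologicalSpace B]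
    (F : C((Fin 4 → I) × Y, B))
    (hb : ∀ y y' τ, IsBase y → IsBase y' → F (y, τ) = F (y', τ))
    (hh : ∀ y y' τ, IsHalf y y' → F (y, τ) = F (y', τ)) : C(MSp × Y, B) :=
  Topology.IsQuotientMap.lift (f := ⟨Prod.map mproj (id : Y → Y), by fun_prop⟩)
    (isQuotientMap_mproj_prod Y) F (by
    rintro ⟨y, τ⟩ ⟨y', τ'⟩ h
    have h1 : mproj y = mproj y' := congrArg Prod.fst h
    have h2 : τ = τ' := congrArg Prod.snd h
    subst h2
    rcases (mproj_eq_iff y y').mp h1 with h | ⟨h1, h2⟩ | h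
    · rw [h]
    · exact hb y y' τ h1 h2
    · exact hh y y' τ h)

lemma mliftProd_mproj {Y B : Type*} [TopologicalSpace Y] [TopologicalSpace B]
    (F : C((Fin 4 → I) × Y, B))
    (hb : ∀ y y' τ, IsBase y → IsBase y' → F (y, τ) = F (y', τ))
    (hh : ∀ y y' τ, IsHalf y y' → F (y, τ) = F (y', τ)) (y : Fin 4 → I) (τ : Y) :
    mliftProd F hb hh (mproj y, τ) = F (y, τ) := by
  have := Topology.IsQuotientMap.lift_comp
    (f := (⟨Prod.map mproj (id : Y → Y), by fun_prop⟩ : C((Fin 4 → I) × Y, MSp × Y)))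
    (isQuotientMap_mproj_prod Y) F (by
    rintro ⟨y, τ⟩ ⟨y', τ'⟩ h
    have h1 : mproj y = mproj y' := congrArg Prod.fst h
    have h2 : τ = τ' := congrArg Prod.snd h
    subst h2
    rcases (mproj_eq_iff y y').mp h1 with h | ⟨h1, h2⟩ | h
    · rw [h]
    · exact hb y y' τ h1 h2
    · exact hh y y' τ h)
  exact congrArg (fun f : C((Fin 4 → I) × Y, B) => f (y, τ)) this

/-! ### The stretch maps are homotopic to the identity -/

/-- A homotopy of the first coordinate. -/
def coordHomotopy (k : C(I × I, I)) (h0 : ∀ τ, k (0, τ) = 0) (h1 : ∀ τ, k (1, τ) = 1) :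
    C(MSp × I, MSp) :=
  mliftProd ⟨fun p => mproj (Function.update p.1 0 (k (p.1 0, p.2))), by fun_prop⟩
    (fun y y' τ hy hy' => by
      have key : ∀ z : Fin 4 → I, IsBase z →
          mproj (Function.update z 0 (k (z 0, τ))) = mpt := by
        intro z hz
        rw [mproj_eq_mpt_iff]
        apply isBase_update hz 0 (Or.inl rfl)
        rintro (h | h)
        · left; rw [h, h0]
        · right; rw [h, h1]
      exact (key y hy).trans (key y' hy').symm)
    (fun y y' τ h => by
      show mproj (Function.update y 0 (k (y 0, τ))) = mproj (Function.update y' 0 (k (y' 0, τ)))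
      rw [mproj_eq_iff]
      right; right
      rw [h.1]
      exact isHalf_update h 0 (Or.inl rfl) _)

lemma coordHomotopy_mproj (k : C(I × I, I)) (h0 : ∀ τ, k (0, τ) = 0) (h1 : ∀ τ, k (1, τ) = 1)
    (y : Fin 4 → I) (τ : I) :
    coordHomotopy k h0 h1 (mproj y, τ) = mproj (Function.update y 0 (k (y 0, τ))) :=
  mliftProd_mproj _ _ _ y τ

lemma homotopicRel_of_coord (k : C(I × I, I)) (h0 : ∀ τ, k (0, τ) = 0) (h1 : ∀ τ, k (1, τ) = 1)
    (f : C(MSp, MSp)) (hf : ∀ y, f (mproj y) = mproj (Function.update y 0 (k (y 0, 0))))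
    (hk : ∀ u, k (u, 1) = u) : f.HomotopicRel (ContinuousMap.id MSp) {mpt} := by
  have hpt : ∀ τ, coordHomotopy k h0 h1 (mpt, τ) = mpt := by
    intro τ
    unfold mpt
    rw [coordHomotopy_mproj]
    show _ = mpt
    rw [mproj_eq_mpt_iff]
    left
    simp [h0]
  refine ⟨⟨⟨⟨fun p => coordHomotopy k h0 h1 (p.2, p.1), by fun_prop⟩, ?_, ?_⟩, ?_⟩⟩
  · intro m
    obtain ⟨y, rfl⟩ := mproj_surjective m
    show coordHomotopy k h0 h1 (mproj y, 0) = f (mproj y)
    rw [coordHomotopy_mproj, hf]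
  · intro m
    obtain ⟨y, rfl⟩ := mproj_surjective m
    show coordHomotopy k h0 h1 (mproj y, 1) = mproj y
    rw [coordHomotopy_mproj, hk]
    simp
  · intro τ m hm
    rw [mem_singleton_iff] at hm
    subst hm
    show coordHomotopy k h0 h1 (mpt, τ) = f mpt
    rw [hpt τ]
    have := hf 0
    rw [← coordHomotopy_mproj k h0 h1] at this
    exact (hpt 0).symm.trans this.symm

theorem lam1_htpy : lam1.HomotopicRel (ContinuousMap.id MSp) {mpt} := by
  refine homotopicRel_of_coord
    ⟨fun p => Set.projIcc 0 1 zero_le_one ((2 - (p.2 : ℝ)) * p.1), by fun_prop⟩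
    ?_ ?_ lam1 ?_ ?_
  · intro τ
    show Set.projIcc 0 1 zero_le_one ((2 - (τ : ℝ)) * ((0 : I) : ℝ)) = 0
    rw [Set.projIcc_of_le_left]
    · rfl
    · simp
  · intro τ
    show Set.projIcc 0 1 zero_le_one ((2 - (τ : ℝ)) * ((1 : I) : ℝ)) = 1
    rw [Set.projIcc_of_right_le]
    · rfl
    · have := τ.2.2
      simp only [Set.Icc.coe_one, mul_one]
      linarith
  · intro y
    rw [lam1_mproj]
    congr 2
    show dbl1 (y 0) = Set.projIcc 0 1 zero_le_one ((2 - ((0 : I) : ℝ)) * (y 0))
    simp [dbl1]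
  · intro u
    show Set.projIcc 0 1 zero_le_one ((2 - ((1 : I) : ℝ)) * u) = u
    have : (2 - ((1 : I) : ℝ)) * u = u := by
      simp only [Set.Icc.coe_one]; ring
    rw [this, Set.projIcc_val]

theorem lam2_htpy : lam2.HomotopicRel (ContinuousMap.id MSp) {mpt} := by
  refine homotopicRel_of_coord
    ⟨fun p => Set.projIcc 0 1 zero_le_one ((2 - (p.2 : ℝ)) * p.1 - (1 - p.2)), by fun_prop⟩
    ?_ ?_ lam2 ?_ ?_
  · intro τ
    show Set.projIcc 0 1 zero_le_one ((2 - (τ : ℝ)) * ((0 : I) : ℝ) - (1 - τ)) = 0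
    rw [Set.projIcc_of_le_left]
    · rfl
    · have := τ.2.2
      simp only [Set.Icc.coe_zero, mul_zero]
      linarith
  · intro τ
    show Set.projIcc 0 1 zero_le_one ((2 - (τ : ℝ)) * ((1 : I) : ℝ) - (1 - τ)) = 1
    rw [Set.projIcc_of_right_le]
    · rfl
    · have := τ.2.2
      simp only [Set.Icc.coe_one, mul_one]
      linarith
  · intro y
    rw [lam2_mproj]
    congr 2
    show dbl2 (y 0) =
      Set.projIcc 0 1 zero_le_one ((2 - ((0 : I) : ℝ)) * (y 0) - (1 - ((0 : I) : ℝ)))
    simp [dbl2]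
  · intro u
    show Set.projIcc 0 1 zero_le_one ((2 - ((1 : I) : ℝ)) * u - (1 - ((1 : I) : ℝ))) = u
    have : (2 - ((1 : I) : ℝ)) * u - (1 - ((1 : I) : ℝ)) = u := by
      simp only [Set.Icc.coe_one]; ring
    rw [this, Set.projIcc_val]

theorem lam1_msk3 (m : MSp) (hm : m ∈ msk3) : lam1 m ∈ msk3 := by
  obtain ⟨y, hy, rfl⟩ := hm
  rw [lam1_mproj]
  refine ⟨_, ?_, rfl⟩
  simpa using hy

theorem lam2_msk3 (m : MSp) (hm : m ∈ msk3) : lam2 m ∈ msk3 := by
  obtain ⟨y, hy, rfl⟩ := hm
  rw [lam2_mproj]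
  refine ⟨_, ?_, rfl⟩
  simpa using hy

/-! ### `MSp` is well pointed -/

/-- `max 0 (min 1 (2 v - 1/2))` -/
def kap (v : ℝ) : ℝ := max 0 (min 1 (2 * v - 1 / 2))

lemma continuous_kap : Continuous kap := by unfold kap; fun_prop

lemma kap_nonneg (v : ℝ) : 0 ≤ kap v := le_max_left _ _
lemma kap_le_one (v : ℝ) : kap v ≤ 1 := max_le zero_le_one (min_le_left _ _)
lemma kap_of_le {v : ℝ} (h : v ≤ 1 / 4) : kap v = 0 := by
  unfold kap
  apply max_eq_left
  exact (min_le_right _ _).trans (by linarith)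
lemma kap_of_ge {v : ℝ} (h : 3 / 4 ≤ v) : kap v = 1 := by
  unfold kap
  rw [min_eq_left (by linarith)]
  exact max_eq_right zero_le_one

/-- the `1/2`-periodic version of `kap` -/
def kap2 (s : ℝ) : ℝ := (kap (2 * s) + kap (2 * s - 1)) / 2

lemma continuous_kap2 : Continuous kap2 := by
  have := continuous_kap
  unfold kap2; fun_prop

lemma kap2_nonneg (s : ℝ) : 0 ≤ kap2 s := by
  unfold kap2; linarith [kap_nonneg (2 * s), kap_nonneg (2 * s - 1)]
lemma kap2_le_one (s : ℝ) : kap2 s ≤ 1 := by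
  unfold kap2; linarith [kap_le_one (2 * s), kap_le_one (2 * s - 1)]
lemma kap2_of_le {s : ℝ} (h : s ≤ 1 / 8) : kap2 s = 0 := by
  unfold kap2; rw [kap_of_le (by linarith), kap_of_le (by linarith)]; norm_num
lemma kap2_of_ge {s : ℝ} (h : 7 / 8 ≤ s) : kap2 s = 1 := by
  unfold kap2; rw [kap_of_ge (by linarith), kap_of_ge (by linarith)]; norm_num
lemma kap2_of_mid {s : ℝ} (h : 3 / 8 ≤ s) (h' : s ≤ 5 / 8) : kap2 s = 1 / 2 := by
  unfold kap2; rw [kap_of_ge (by linarith), kap_of_le (by linarith)]; norm_num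
lemma kap2_add_half {s : ℝ} (h0 : 0 ≤ s) (h : s ≤ 1 / 2) : kap2 (s + 1 / 2) = kap2 s + 1 / 2 := by
  unfold kap2
  rw [kap_of_ge (v := 2 * (s + 1 / 2)) (by linarith), kap_of_le (v := 2 * s - 1) (by linarith)]
  have : 2 * (s + 1 / 2) - 1 = 2 * s := by ring
  rw [this]; ring

/-- `(1 - τ) f u + τ u` -/
def mixI (f : ℝ → ℝ) (hf0 : ∀ v, 0 ≤ f v) (hf1 : ∀ v, f v ≤ 1) (u τ : I) : I :=
  ⟨(1 - τ) * f u + τ * u, by
    have h1 := τ.2.1
    have h2 := τ.2.2
    have h3 := u.2.1
    have h4 := u.2.2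
    have h5 := hf0 u
    have h6 := hf1 u
    constructor
    · have : 0 ≤ (1 - (τ : ℝ)) := by linarith
      positivity
    · nlinarith⟩

lemma continuous_mixI (f : ℝ → ℝ) (hf0 : ∀ v, 0 ≤ f v) (hf1 : ∀ v, f v ≤ 1) (hf : Continuous f) :
    Continuous fun p : I × I => mixI f hf0 hf1 p.1 p.2 := by
  unfold mixI
  refine Continuous.subtype_mk ?_ _
  fun_prop

/-- the deformation on the cube -/
def delC (p : (Fin 4 → I) × I) : Fin 4 → I :=
  ![mixI kap kap_nonneg kap_le_one (p.1 0) p.2, mixI kap kap_nonneg kap_le_one (p.1 1) p.2,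
    mixI kap2 kap2_nonneg kap2_le_one (p.1 2) p.2, mixI kap kap_nonneg kap_le_one (p.1 3) p.2]

lemma continuous_delC : Continuous delC := by
  have h1 := continuous_mixI kap kap_nonneg kap_le_one continuous_kap
  have h2 := continuous_mixI kap2 kap2_nonneg kap2_le_one continuous_kap2
  refine continuous_pi fun j => ?_
  fin_cases j
  · exact h1.comp (by fun_prop : Continuous fun p : (Fin 4 → I) × I => (p.1 0, p.2))
  · exact h1.comp (by fun_prop : Continuous fun p : (Fin 4 → I) × I => (p.1 1, p.2))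
  · exact h2.comp (by fun_prop : Continuous fun p : (Fin 4 → I) × I => (p.1 2, p.2))
  · exact h1.comp (by fun_prop : Continuous fun p : (Fin 4 → I) × I => (p.1 3, p.2))

lemma mixI_zero (f : ℝ → ℝ) (hf0 : ∀ v, 0 ≤ f v) (hf1 : ∀ v, f v ≤ 1) (h : f 0 = 0) (τ : I) :
    mixI f hf0 hf1 0 τ = 0 := by
  apply Subtype.ext
  simp [mixI, h]

lemma mixI_one (f : ℝ → ℝ) (hf0 : ∀ v, 0 ≤ f v) (hf1 : ∀ v, f v ≤ 1) (h : f 1 = 1) (τ : I) :
    mixI f hf0 hf1 1 τ = 1 := by
  apply Subtype.ext
  simp [mixI, h]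

lemma isBase_delC {y : Fin 4 → I} (h : IsBase y) (τ : I) : IsBase (delC (y, τ)) := by
  have a0 : kap 0 = 0 := kap_of_le (by norm_num)
  have a1 : kap 1 = 1 := kap_of_ge (by norm_num)
  have b0 : kap2 0 = 0 := kap2_of_le (by norm_num)
  have b1 : kap2 1 = 1 := kap2_of_ge (by norm_num)
  have bh : kap2 (1 / 2) = 1 / 2 := kap2_of_mid (by norm_num) (by norm_num)
  rcases h with h | h | h | h | h | h | h | ⟨h, h'⟩
  · left; show mixI kap kap_nonneg kap_le_one (y 0) τ = 0; rw [h]; exact mixI_zero _ _ _ a0 τ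
  · right; left; show mixI kap kap_nonneg kap_le_one (y 0) τ = 1; rw [h]; exact mixI_one _ _ _ a1 τ
  · right; right; left; show mixI kap kap_nonneg kap_le_one (y 1) τ = 0; rw [h]; exact mixI_zero _ _ _ a0 τ
  · right; right; right; left; show mixI kap kap_nonneg kap_le_one (y 1) τ = 1; rw [h]; exact mixI_one _ _ _ a1 τ
  · right; right; right; right; left
    show mixI kap2 kap2_nonneg kap2_le_one (y 2) τ = 0; rw [h]; exact mixI_zero _ _ _ b0 τ
  · right; right; right; right; right; left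
    show mixI kap2 kap2_nonneg kap2_le_one (y 2) τ = 1; rw [h]; exact mixI_one _ _ _ b1 τ
  · right; right; right; right; right; right; left
    show mixI kap kap_nonneg kap_le_one (y 3) τ = 1; rw [h]; exact mixI_one _ _ _ a1 τ
  · right; right; right; right; right; right; right
    refine ⟨?_, ?_⟩
    · show mixI kap kap_nonneg kap_le_one (y 3) τ = 0; rw [h]; exact mixI_zero _ _ _ a0 τ
    · show (1 - (τ : ℝ)) * kap2 (y 2) + τ * (y 2) = 1 / 2
      rw [h', bh]; ring

lemma isHalf_delC {y y' : Fin 4 → I} (h : IsHalf y y') (τ : I) :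
    IsHalf (delC (y, τ)) (delC (y', τ)) := by
  have a0 : kap 0 = 0 := kap_of_le (by norm_num)
  obtain ⟨h0, h1, h3, h3', h2⟩ := h
  refine ⟨?_, ?_, ?_, ?_, ?_⟩
  · show mixI kap kap_nonneg kap_le_one (y 0) τ = mixI kap kap_nonneg kap_le_one (y' 0) τ; rw [h0]
  · show mixI kap kap_nonneg kap_le_one (y 1) τ = mixI kap kap_nonneg kap_le_one (y' 1) τ; rw [h1]
  · show mixI kap kap_nonneg kap_le_one (y 3) τ = 0; rw [h3]; exact mixI_zero _ _ _ a0 τ
  · show mixI kap kap_nonneg kap_le_one (y' 3) τ = 0; rw [h3']; exact mixI_zero _ _ _ a0 τ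
  · show |((1 - (τ : ℝ)) * kap2 (y 2) + τ * (y 2)) - ((1 - (τ : ℝ)) * kap2 (y' 2) + τ * (y' 2))|
      = 1 / 2
    have b1 := (y 2).2.1
    have b2 := (y 2).2.2
    have b3 := (y' 2).2.1
    have b4 := (y' 2).2.2
    rcases (abs_eq (by norm_num)).mp h2 with h | h
    · have e : (y 2 : ℝ) = y' 2 + 1 / 2 := by linarith
      rw [e, kap2_add_half b3 (by linarith)]
      have : ((1 - (τ : ℝ)) * (kap2 (y' 2) + 1 / 2) + τ * (y' 2 + 1 / 2)) -
        ((1 - (τ : ℝ)) * kap2 (y' 2) + τ * (y' 2)) = 1 / 2 := by ring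
      rw [this, abs_of_nonneg (by norm_num)]
    · have e : (y' 2 : ℝ) = y 2 + 1 / 2 := by linarith
      rw [e, kap2_add_half b1 (by linarith)]
      have : ((1 - (τ : ℝ)) * kap2 (y 2) + τ * (y 2)) -
        ((1 - (τ : ℝ)) * (kap2 (y 2) + 1 / 2) + τ * (y 2 + 1 / 2)) = -(1 / 2) := by ring
      rw [this, abs_neg, abs_of_nonneg (by norm_num)]

/-- the deformation of `MSp` -/
def delM : C(MSp × I, MSp) :=
  mliftProd ⟨fun p => mproj (delC p), by
    have := continuous_delC
    fun_prop⟩
    (fun y y' τ hy hy' => by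
      show mproj (delC (y, τ)) = mproj (delC (y', τ))
      rw [(mproj_eq_mpt_iff _).mpr (isBase_delC hy τ), (mproj_eq_mpt_iff _).mpr (isBase_delC hy' τ)])
    (fun y y' τ h => by
      show mproj (delC (y, τ)) = mproj (delC (y', τ))
      rw [mproj_eq_iff]
      right; right
      exact isHalf_delC h τ)

lemma delM_mproj (y : Fin 4 → I) (τ : I) : delM (mproj y, τ) = mproj (delC (y, τ)) :=
  mliftProd_mproj _ _ _ y τ

/-- an open set around the base points on which the deformation is constant -/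
def nearBase : Set (Fin 4 → I) :=
  {y | (y 0 : ℝ) < 1 / 4 ∨ 3 / 4 < (y 0 : ℝ) ∨ (y 1 : ℝ) < 1 / 4 ∨ 3 / 4 < (y 1 : ℝ) ∨
    (y 2 : ℝ) < 1 / 8 ∨ 7 / 8 < (y 2 : ℝ) ∨ 3 / 4 < (y 3 : ℝ) ∨
    ((y 3 : ℝ) < 1 / 4 ∧ 3 / 8 < (y 2 : ℝ) ∧ (y 2 : ℝ) < 5 / 8)}

lemma isOpen_nearBase : IsOpen nearBase := by
  unfold nearBase
  simp only [Set.ofPred_or, Set.ofPred_and]
  have c : ∀ j : Fin 4, Continuous fun y : Fin 4 → I => ((y j : I) : ℝ) := by
    intro j; fun_prop
  have l : ∀ (j : Fin 4) (r : ℝ), IsOpen {y : Fin 4 → I | (y j : ℝ) < r} :=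
    fun j r => isOpen_lt (c j) continuous_const
  have g : ∀ (j : Fin 4) (r : ℝ), IsOpen {y : Fin 4 → I | r < (y j : ℝ)} :=
    fun j r => isOpen_lt continuous_const (c j)
  exact (l _ _).union ((g _ _).union ((l _ _).union ((g _ _).union ((l _ _).union
    ((g _ _).union ((g _ _).union ((l _ _).inter ((g _ _).inter (l _ _)))))))))

lemma isBase_subset_nearBase {y : Fin 4 → I} (h : IsBase y) : y ∈ nearBase := by
  unfold nearBase
  rcases h with h | h | h | h | h | h | h | ⟨h, h'⟩
  · left; rw [h]; norm_num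
  · right; left; rw [h]; norm_num
  · right; right; left; rw [h]; norm_num
  · right; right; right; left; rw [h]; norm_num
  · right; right; right; right; left; rw [h]; norm_num
  · right; right; right; right; right; left; rw [h]; norm_num
  · right; right; right; right; right; right; left; rw [h]; norm_num
  · right; right; right; right; right; right; right
    rw [h, h']; norm_num

lemma isBase_of_nearBase {y : Fin 4 → I} (h : y ∈ nearBase) : IsBase (delC (y, 0)) := by
  have m0 : ∀ (f : ℝ → ℝ) (hf0 : ∀ v, 0 ≤ f v) (hf1 : ∀ v, f v ≤ 1) (u : I), f u = 0 →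
      mixI f hf0 hf1 u 0 = 0 := by
    intro f hf0 hf1 u hu
    apply Subtype.ext
    simp [mixI, hu]
  have m1 : ∀ (f : ℝ → ℝ) (hf0 : ∀ v, 0 ≤ f v) (hf1 : ∀ v, f v ≤ 1) (u : I), f u = 1 →
      mixI f hf0 hf1 u 0 = 1 := by
    intro f hf0 hf1 u hu
    apply Subtype.ext
    simp [mixI, hu]
  rcases h with h | h | h | h | h | h | h | ⟨h, h', h''⟩
  · left; exact m0 kap kap_nonneg kap_le_one (y 0) (kap_of_le h.le)
  · right; left; exact m1 kap kap_nonneg kap_le_one (y 0) (kap_of_ge h.le)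
  · right; right; left; exact m0 kap kap_nonneg kap_le_one (y 1) (kap_of_le h.le)
  · right; right; right; left; exact m1 kap kap_nonneg kap_le_one (y 1) (kap_of_ge h.le)
  · right; right; right; right; left
    exact m0 kap2 kap2_nonneg kap2_le_one (y 2) (kap2_of_le h.le)
  · right; right; right; right; right; left
    exact m1 kap2 kap2_nonneg kap2_le_one (y 2) (kap2_of_ge h.le)
  · right; right; right; right; right; right; left
    exact m1 kap kap_nonneg kap_le_one (y 3) (kap_of_ge h.le)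
  · right; right; right; right; right; right; right
    refine ⟨m0 kap kap_nonneg kap_le_one (y 3) (kap_of_le h.le), ?_⟩
    show (1 - ((0 : I) : ℝ)) * kap2 (y 2) + ((0 : I) : ℝ) * (y 2) = 1 / 2
    rw [kap2_of_mid h'.le h''.le]
    simp

/-- `MSp` is well pointed. -/
theorem exists_ndr : Nonempty NDR := by
  -- the function `ρ`
  have hC : IsClosed (mproj '' nearBaseᶜ) := isClosedMap_mproj _ isOpen_nearBase.isClosed_compl
  have hd : Disjoint (mproj '' nearBaseᶜ) {mpt} := by
    rw [disjoint_singleton_right]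
    rintro ⟨y, hy, hy'⟩
    exact hy (isBase_subset_nearBase ((mproj_eq_mpt_iff y).mp hy'))
  obtain ⟨f, hf0, hf1, hf⟩ := exists_continuous_zero_one_of_isClosed hC isClosed_singleton hd
  refine ⟨⟨delM, ⟨fun m => ⟨f m, hf m⟩, by fun_prop⟩, ?_, ?_, ?_, ?_, ?_⟩⟩
  · intro m
    obtain ⟨y, rfl⟩ := mproj_surjective m
    rw [delM_mproj]
    congr 1
    funext j
    fin_cases j <;> apply Subtype.ext <;> simp [delC, mixI]
  · intro τ
    unfold mpt
    rw [delM_mproj]
    show _ = mpt
    rw [mproj_eq_mpt_iff]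
    exact isBase_delC isBase_zero τ
  · apply Subtype.ext
    exact hf1 (mem_singleton mpt)
  · intro m
    obtain ⟨y, rfl⟩ := mproj_surjective m
    by_cases hy : y ∈ nearBase
    · right
      rw [delM_mproj, mproj_eq_mpt_iff]
      exact isBase_of_nearBase hy
    · left
      apply Subtype.ext
      exact hf0 (mem_image_of_mem _ hy)
  · rintro m τ ⟨y, hy, rfl⟩
    rw [delM_mproj]
    refine ⟨_, ?_, rfl⟩
    show mixI kap kap_nonneg kap_le_one (y 3) τ = 0
    rw [show y 3 = 0 from hy]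
    exact mixI_zero _ _ _ (kap_of_le (by norm_num)) τ

/-! ### Maps from `MSp` to the circle lift to `ℝ` -/

/-- the straight line in the cube -/
def lineC (y z : Fin 4 → I) (r : I) : Fin 4 → I := fun i =>
  ⟨(1 - r) * y i + r * z i, by
    have h1 := r.2.1
    have h2 := r.2.2
    have h3 := (y i).2.1
    have h4 := (y i).2.2
    have h5 := (z i).2.1
    have h6 := (z i).2.2
    constructor
    · have : 0 ≤ (1 - (r : ℝ)) := by linarith
      positivity
    · nlinarith⟩

lemma continuous_lineC (y z : Fin 4 → I) : Continuous (lineC y z) := by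
  unfold lineC
  refine continuous_pi fun i => ?_
  refine Continuous.subtype_mk ?_ _
  fun_prop

lemma lineC_zero (y z : Fin 4 → I) : lineC y z 0 = y := by
  funext i; apply Subtype.ext; simp [lineC]

lemma lineC_one (y z : Fin 4 → I) : lineC y z 1 = z := by
  funext i; apply Subtype.ext; simp [lineC]

lemma lineC_eq (y z : Fin 4 → I) (r : I) (i : Fin 4) (h : y i = z i) : lineC y z r i = y i := by
  apply Subtype.ext
  show (1 - (r : ℝ)) * y i + r * z i = y i
  rw [← h]; ring

/-- maps from `MSp` to the circle lift to `ℝ` -/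
theorem exists_circle_lift (g : C(MSp, UnitAddCircle)) :
    ∃ g' : C(MSp, ℝ), ∀ m, ((g' m : ℝ) : UnitAddCircle) = g m := by
  have cov : IsCoveringMap ((↑) : ℝ → UnitAddCircle) := AddCircle.isCoveringMap_coe 1
  -- the lift on the cube
  obtain ⟨e, he⟩ : ∃ e : ℝ, ((e : ℝ) : UnitAddCircle) = g mpt :=
    QuotientAddGroup.mk_surjective _
  have hcont : Continuous fun p : I × (Fin 4 → I) => lineC 0 p.2 p.1 := by
    unfold lineC
    refine continuous_pi fun i => ?_
    refine Continuous.subtype_mk ?_ _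
    fun_prop
  let H : C(I × (Fin 4 → I), UnitAddCircle) :=
    ⟨fun p => g (mproj (lineC 0 p.2 p.1)), by fun_prop⟩
  have H0 : ∀ y, H (0, y) = ((ContinuousMap.const (Fin 4 → I) e y : ℝ) : UnitAddCircle) := by
    intro y
    show g (mproj (lineC 0 y 0)) = _
    rw [lineC_zero]
    exact he.symm
  let L : C(I × (Fin 4 → I), ℝ) := cov.liftHomotopy H (ContinuousMap.const _ e) H0
  have hL : ∀ p, ((L p : ℝ) : UnitAddCircle) = H p := fun p =>
    congrFun (cov.liftHomotopy_lifts H (ContinuousMap.const _ e) H0) p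
  let G : C(Fin 4 → I, ℝ) := ⟨fun y => L (1, y), by fun_prop⟩
  have hG : ∀ y, ((G y : ℝ) : UnitAddCircle) = g (mproj y) := by
    intro y
    show ((L (1, y) : ℝ) : UnitAddCircle) = _
    rw [hL]
    show g (mproj (lineC 0 y 1)) = _
    rw [lineC_one]
  -- `G` is constant along lines of base points
  have line : ∀ y z : Fin 4 → I, (∀ r, IsBase (lineC y z r)) → G y = G z := by
    intro y z h
    have := cov.const_of_comp (g := fun r : I => G (lineC y z r))
      (G.continuous.comp (continuous_lineC y z)) (by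
        intro r r'
        rw [hG, hG, (mproj_eq_mpt_iff _).mpr (h r), (mproj_eq_mpt_iff _).mpr (h r')]) 0 1
    simpa [lineC_zero, lineC_one] using this
  have f0 : ∀ y z : Fin 4 → I, y 0 = z 0 → (y 0 = 0 ∨ y 0 = 1) → G y = G z := by
    intro y z h h'
    apply line
    intro r
    have := lineC_eq y z r 0 h
    unfold IsBase
    rw [this]; tauto
  have f1 : ∀ y z : Fin 4 → I, y 1 = z 1 → (y 1 = 0 ∨ y 1 = 1) → G y = G z := by
    intro y z h h'
    apply line
    intro r
    have := lineC_eq y z r 1 h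
    unfold IsBase
    rw [this]; tauto
  have f2 : ∀ y z : Fin 4 → I, y 2 = z 2 → (y 2 = 0 ∨ y 2 = 1) → G y = G z := by
    intro y z h h'
    apply line
    intro r
    have := lineC_eq y z r 2 h
    unfold IsBase
    rw [this]; tauto
  have f3 : ∀ y z : Fin 4 → I, y 3 = z 3 → y 3 = 1 → G y = G z := by
    intro y z h h'
    apply line
    intro r
    have := lineC_eq y z r 3 h
    unfold IsBase
    rw [this]; tauto
  have f4 : ∀ y z : Fin 4 → I, y 3 = z 3 → y 3 = 0 → y 2 = z 2 → (y 2 : ℝ) = 1 / 2 →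
      G y = G z := by
    intro y z h h' h2 h2'
    apply line
    intro r
    have := lineC_eq y z r 3 h
    have h5 := lineC_eq y z r 2 h2
    unfold IsBase
    rw [this, h5]; tauto
  have base : ∀ y, IsBase y → G y = G 0 := by
    intro y hy
    rcases hy with h | h | h | h | h | h | h | ⟨h, h'⟩
    · exact f0 y 0 h (Or.inl h)
    · rw [f0 y (Function.update 0 0 1) (by simpa using h) (Or.inr h)]
      exact f1 _ 0 (by simp) (by left; simp)
    · exact f1 y 0 h (Or.inl h)
    · rw [f1 y (Function.update 0 1 1) (by simpa using h) (Or.inr h)]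
      exact f0 _ 0 (by simp) (by left; simp)
    · exact f2 y 0 h (Or.inl h)
    · rw [f2 y (Function.update 0 2 1) (by simpa using h) (Or.inr h)]
      exact f0 _ 0 (by simp) (by left; simp)
    · rw [f3 y (Function.update 0 3 1) (by simpa using h) h]
      exact f0 _ 0 (by simp) (by left; simp)
    · rw [f4 y (Function.update 0 2 (y 2)) (by simpa using h) h (by simp) h']
      exact f0 _ 0 (by simp) (by left; simp)
  -- the identification on the face `t = 0`
  have half : ∀ y y' : Fin 4 → I, IsHalf y y' → (y 2 : ℝ) = y' 2 + 1 / 2 → G y = G y' := by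
    rintro y y' ⟨h0, h1, h3, h3', -⟩ h2
    have hb0 : IsBase (Function.update y' 2 0) := by
      unfold IsBase; simp
    have hbh : IsBase (Function.update y 2 ⟨1 / 2, by norm_num, by norm_num⟩) := by
      unfold IsBase
      right; right; right; right; right; right; right
      constructor
      · simpa using h3
      · simp
    have key := cov.eq_of_comp_eq
      (g₁ := fun r : I => G (lineC (Function.update y 2 ⟨1 / 2, by norm_num, by norm_num⟩) y r))
      (g₂ := fun r : I => G (lineC (Function.update y' 2 0) y' r))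
      (G.continuous.comp (continuous_lineC _ _)) (G.continuous.comp (continuous_lineC _ _))
      (by
        funext r
        show ((G _ : ℝ) : UnitAddCircle) = ((G _ : ℝ) : UnitAddCircle)
        rw [hG, hG]
        congr 1
        rw [mproj_eq_iff]
        right; right
        refine ⟨?_, ?_, ?_, ?_, ?_⟩
        · rw [lineC_eq _ _ _ _ (by simp), lineC_eq _ _ _ _ (by simp)]; simpa using h0
        · rw [lineC_eq _ _ _ _ (by simp), lineC_eq _ _ _ _ (by simp)]; simpa using h1
        · rw [lineC_eq _ _ _ _ (by simp)]; simpa using h3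
        · rw [lineC_eq _ _ _ _ (by simp)]; simpa using h3'
        · show |((1 - (r : ℝ)) * ((Function.update y 2 ⟨1 / 2, by norm_num, by norm_num⟩ :
              Fin 4 → I) 2 : I) + r * (y 2)) -
            ((1 - (r : ℝ)) * ((Function.update y' 2 0 : Fin 4 → I) 2 : I) + r * (y' 2))| = 1 / 2
          rw [Function.update_self, Function.update_self, h2]
          have : ((1 - (r : ℝ)) * (1 / 2) + r * (y' 2 + 1 / 2)) -
            ((1 - (r : ℝ)) * ((0 : I) : ℝ) + r * (y' 2)) = 1 / 2 := by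
            simp only [Set.Icc.coe_zero]; ring
          rw [this, abs_of_nonneg (by norm_num)])
      0 (by
        simp only [lineC_zero]
        rw [base _ hb0, base _ hbh])
    have := congrFun key 1
    simpa [lineC_one] using this
  refine ⟨mlift G (G 0) base ?_, ?_⟩
  · intro y y' h
    rcases (abs_eq (by norm_num)).mp h.2.2.2.2 with h2 | h2
    · exact half y y' h (by linarith)
    · refine (half y' y ?_ (by linarith)).symm
      exact ⟨h.1.symm, h.2.1.symm, h.2.2.2.1, h.2.2.1, by rw [abs_sub_comm]; exact h.2.2.2.2⟩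
  · intro m
    obtain ⟨y, rfl⟩ := mproj_surjective m
    rw [mlift_mproj, hG]

/-! ### The dimension of `MSp` -/

/-- the map `psi` on `ℝ⁴` -/
def psiR (y : Fin 4 → ℝ) : Fin 7 → ℝ :=
  let w : ℝ := y 0 * (1 - y 0) * (y 1 * (1 - y 1)) *
    ((1 - y 3) * (y 3 * (y 2 * (1 - y 2)) + Real.sin (2 * Real.pi * y 2) ^ 2))
  ![w, w * y 0, w * y 1, w * y 3, w * (y 3 * y 2),
    w * Real.cos (4 * Real.pi * y 2), w * Real.sin (4 * Real.pi * y 2)]

lemma contDiff_psiR : ContDiff ℝ 1 psiR := by
  rw [contDiff_pi]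
  intro j
  fin_cases j <;> simp [psiR] <;> fun_prop

theorem dimH_MSp_le : dimH (univ : Set MSp) ≤ 4 := by
  have h1 : dimH (univ : Set MSp) = dimH ((fun m : MSp => m.1) '' univ) := by
    have hi : Isometry (fun m : MSp => m.1) := isometry_subtype_coe
    exact (hi.dimH_image univ).symm
  rw [h1]
  have h2 : (fun m : MSp => m.1) '' univ ⊆ range psiR := by
    rintro _ ⟨⟨_, y, rfl⟩, -, rfl⟩
    exact ⟨fun i => y i, rfl⟩
  refine (dimH_mono h2).trans ?_
  refine (contDiff_psiR.dimH_range_le).trans ?_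
  simp

end SelfCover
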