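import Pool.Agent.SelfCover.MDegree
import Pool.Agent.SelfCover.MTools

/-!
Components of maps into `MSp` indexed by lattice points, and the mod 2 degrees of the
components.
-/

open scoped unitInterval Topology
open Set

noncomputable section

namespace SelfCover

variable {K : Type*} [TopologicalSpace K]

/-- The function which agrees with `m` where `h` is close to `n` and `y` is close to `c`, and is
constant elsewhere. -/
def cmpFun (m : K → MSp) (h y : K → ℝ) (n c : ℤ) (k : K) : MSp :=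
  open Classical in if |h k - n| < 1 / 2 ∧ |y k - c| < 1 / 2 then m k else mpt

lemma cmpFun_congr {m m' : K → MSp} {h h' y y' : K → ℝ} {n n' c c' : ℤ} {k : K}
    (hm : m k = m' k)
    (hh : m k ≠ mpt → ((|h k - n| < 1 / 2 ∧ |y k - c| < 1 / 2) ↔
      (|h' k - n'| < 1 / 2 ∧ |y' k - c'| < 1 / 2))) :
    cmpFun m h y n c k = cmpFun m' h' y' n' c' k := by
  unfold cmpFun
  by_cases hmk : m k = mpt
  · rw [← hm, hmk]; simp
  · rw [← hm]
    simp only [hh hmk]

lemma cmpFun_of_mpt {m : K → MSp} {h y : K → ℝ} {n c : ℤ} {k : K} (hm : m k = mpt) :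
    cmpFun m h y n c k = mpt := by
  unfold cmpFun; rw [hm]; simp

/-- integrality of the data wherever `m` is not at the base point -/
def IntData (m : K → MSp) (h y : K → ℝ) : Prop :=
  ∀ k, m k ≠ mpt → (∃ n : ℤ, h k = n) ∧ (∃ j : ℤ, y k = j)

lemma abs_int_sub_lt_half (j c : ℤ) : |(j : ℝ) - c| < 1 / 2 ↔ j = c := by
  constructor
  · intro h
    by_contra hne
    have h1 : (1 : ℤ) ≤ |j - c| := Int.one_le_abs (sub_ne_zero.mpr hne)
    have h2 : (1 : ℝ) ≤ |(j : ℝ) - c| := by exact_mod_cast h1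
    linarith
  · rintro rfl
    simp

lemma continuous_cmpFun {m : K → MSp} {h y : K → ℝ} (hm : Continuous m) (hh : Continuous h)
    (hy : Continuous y) (hint : IntData m h y) (n c : ℤ) : Continuous (cmpFun m h y n c) := by
  classical
  unfold cmpFun
  refine Continuous.if ?_ (by convert hm) continuous_const
  intro k hk
  by_contra hmk
  obtain ⟨⟨n', hn'⟩, ⟨c', hc'⟩⟩ := hint k hmk
  have hsub : frontier {a | |h a - n| < 1 / 2 ∧ |y a - c| < 1 / 2} ⊆
      frontier {a | |h a - n| < 1 / 2} ∪ frontier {a | |y a - c| < 1 / 2} := by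
    have := frontier_inter_subset {a | |h a - n| < 1 / 2} {a | |y a - c| < 1 / 2}
    intro a ha
    rcases this ha with h | h
    · exact Or.inl h.1
    · exact Or.inr h.2
  rcases hsub hk with h1 | h1
  · have h2 := frontier_lt_subset_eq (f := fun a => |h a - n|) (g := fun _ => (1 / 2 : ℝ))
      (by fun_prop) continuous_const h1
    have h3 : |h k - n| = 1 / 2 := h2
    rw [hn'] at h3
    have h4 : ((2 * |n' - n| : ℤ) : ℝ) = ((1 : ℤ) : ℝ) := by
      push_cast
      linarith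
    have h5 : 2 * |n' - n| = 1 := by exact_mod_cast h4
    omega
  · have h2 := frontier_lt_subset_eq (f := fun a => |y a - c|) (g := fun _ => (1 / 2 : ℝ))
      (by fun_prop) continuous_const h1
    have h3 : |y k - c| = 1 / 2 := h2
    rw [hc'] at h3
    have h4 : ((2 * |c' - c| : ℤ) : ℝ) = ((1 : ℤ) : ℝ) := by
      push_cast
      linarith
    have h5 : 2 * |c' - c| = 1 := by exact_mod_cast h4
    omega

/-- The component with index `(n, c)`. -/
def cmp (m : C(K, MSp)) (h y : C(K, ℝ)) (hint : IntData m h y) (n c : ℤ) : C(K, MSp) :=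
  ⟨cmpFun m h y n c, continuous_cmpFun m.continuous h.continuous y.continuous hint n c⟩

lemma cmp_apply (m : C(K, MSp)) (h y : C(K, ℝ)) (hint : IntData m h y) (n c : ℤ) (k : K) :
    cmp m h y hint n c k = cmpFun m h y n c k := rfl

/-- Degree data. -/
structure DegFun where
  D : C(MSp, MSp) → ZMod 2
  htpy : ∀ f g : C(MSp, MSp), f.Homotopic g → D f = D g
  add : ∀ f g h : C(MSp, MSp), (∀ m, (f m = g m ∧ h m = mpt) ∨ (f m = h m ∧ g m = mpt)) →
      D f = D g + D h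
  id : D (ContinuousMap.id MSp) = 1

lemma exists_degFun : Nonempty DegFun := by
  obtain ⟨D, h1, h2, h3⟩ := exists_degree
  exact ⟨⟨D, h1, h2, h3⟩⟩

namespace DegFun

variable (𝔇 : DegFun)

lemma const : 𝔇.D (ContinuousMap.const _ mpt) = 0 := by
  have := 𝔇.add (ContinuousMap.const _ mpt) (ContinuousMap.const _ mpt)
    (ContinuousMap.const _ mpt) (fun m => Or.inl ⟨rfl, rfl⟩)
  have h : 𝔇.D (ContinuousMap.const _ mpt) + 0 =
      𝔇.D (ContinuousMap.const _ mpt) + 𝔇.D (ContinuousMap.const _ mpt) := by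
    rw [add_zero]; exact this
  exact (add_left_cancel h).symm

/-- The degree of the component with index `(n, c)`. -/
def dc (m : C(MSp, MSp)) (h y : C(MSp, ℝ)) (hint : IntData m h y) (n c : ℤ) : ZMod 2 :=
  𝔇.D (cmp m h y hint n c)

/-- Degrees of components are invariant under homotopy of data. -/
lemma dc_htpy (m : C(MSp × I, MSp)) (h y : C(MSp × I, ℝ)) (hint : IntData m h y) (n c : ℤ)
    (m₀ m₁ : C(MSp, MSp)) (h₀ h₁ y₀ y₁ : C(MSp, ℝ))
    (hint₀ : IntData m₀ h₀ y₀) (hint₁ : IntData m₁ h₁ y₁)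
    (em₀ : ∀ k, m (k, 0) = m₀ k) (em₁ : ∀ k, m (k, 1) = m₁ k)
    (eh₀ : ∀ k, h (k, 0) = h₀ k) (eh₁ : ∀ k, h (k, 1) = h₁ k)
    (ey₀ : ∀ k, y (k, 0) = y₀ k) (ey₁ : ∀ k, y (k, 1) = y₁ k) :
    𝔇.dc m₀ h₀ y₀ hint₀ n c = 𝔇.dc m₁ h₁ y₁ hint₁ n c := by
  apply 𝔇.htpy
  refine ⟨⟨⟨fun p => cmp m h y hint n c (p.2, p.1), by fun_prop⟩, ?_, ?_⟩⟩
  · intro k
    show cmpFun m h y n c (k, 0) = cmpFun m₀ h₀ y₀ n c k
    unfold cmpFun
    rw [em₀, eh₀, ey₀]
  · intro k
    show cmpFun m h y n c (k, 1) = cmpFun m₁ h₁ y₁ n c k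
    unfold cmpFun
    rw [em₁, eh₁, ey₁]

end DegFun

/-! ### Lifted pointed maps -/

/-- A pointed map `MSp → MSp` together with a real function, integral off the base point; it
stands for a pointed map to `Z0`. -/
structure LPM where
  μ : PM MSp mpt
  w : PM ℝ 0
  int : ∀ m, μ.1 m ≠ mpt → ∃ j : ℤ, w.1 m = j

/-- Sum of lifted pointed maps. -/
def LPM.add (A B : LPM) : LPM where
  μ := PM.add A.μ B.μ
  w := PM.add A.w B.w
  int := by
    intro m hm
    rw [PM.add_apply] at hm ⊢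
    rcases lam1_or_lam2 m with h | h
    · rw [addFun_of_lam1 _ _ _ h (A.μ.2.trans B.μ.2.symm)] at hm
      rw [addFun_of_lam1 _ _ _ h (A.w.2.trans B.w.2.symm)]
      exact B.int _ hm
    · rw [addFun_of_lam2 _ _ _ h] at hm ⊢
      exact A.int _ hm

/-- The base data on which lifted pointed maps act. -/
structure BD (K : Type*) [TopologicalSpace K] where
  m : C(K, MSp)
  h : C(K, ℝ)
  y : C(K, ℝ)
  N : ℤ
  hN : ∀ k, h k ≤ N
  int : IntData m h y

namespace BD

/-- The action of a family of lifted pointed maps on base data. -/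
def actFam {T : Type*} [TopologicalSpace T] (A : BD K) (μ : C(MSp × T, MSp)) (w : C(MSp × T, ℝ))
    (hμ : ∀ τ, μ (mpt, τ) = mpt) (hint : ∀ m τ, μ (m, τ) ≠ mpt → ∃ j : ℤ, w (m, τ) = j) :
    BD (K × T) where
  m := ⟨fun p => μ (A.m p.1, p.2), by fun_prop⟩
  h := ⟨fun p => A.h p.1, by fun_prop⟩
  y := ⟨fun p => A.y p.1 + (2 : ℝ) ^ ((A.N : ℝ) - A.h p.1) * w (A.m p.1, p.2), by
    have h1 : Continuous fun p : K × T => (2 : ℝ) ^ ((A.N : ℝ) - A.h p.1) :=
      Continuous.rpow continuous_const (by fun_prop) (fun _ => Or.inl (by norm_num))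
    fun_prop⟩
  N := A.N
  hN := fun p => A.hN p.1
  int := by
    rintro ⟨k, τ⟩ hk
    have h1 : A.m k ≠ mpt := by
      intro h
      apply hk
      show μ (A.m k, τ) = mpt
      rw [h, hμ]
    obtain ⟨⟨n, hn⟩, ⟨j, hj⟩⟩ := A.int k h1
    obtain ⟨i, hi⟩ := hint (A.m k) τ hk
    refine ⟨⟨n, hn⟩, ?_⟩
    have h2 : n ≤ A.N := by
      have := A.hN k
      rw [hn] at this
      exact_mod_cast this
    obtain ⟨s, hs⟩ := Int.le.dest h2
    refine ⟨j + 2 ^ s * i, ?_⟩
    show A.y k + (2 : ℝ) ^ ((A.N : ℝ) - A.h k) * w (A.m k, τ) = _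
    have h3 : (A.N : ℝ) - A.h k = (s : ℝ) := by
      rw [hn, ← hs]; push_cast; ring
    rw [hj, h3, hi, Real.rpow_natCast]
    push_cast
    ring

/-- The action of a lifted pointed map on base data. -/
def act (A : BD K) (B : LPM) : BD K where
  m := ⟨fun k => B.μ.1 (A.m k), by fun_prop⟩
  h := A.h
  y := ⟨fun k => A.y k + (2 : ℝ) ^ ((A.N : ℝ) - A.h k) * B.w.1 (A.m k), by
    have h1 : Continuous fun k : K => (2 : ℝ) ^ ((A.N : ℝ) - A.h k) :=
      Continuous.rpow continuous_const (by fun_prop) (fun _ => Or.inl (by norm_num))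
    have h2 : Continuous fun k : K => B.w.1 (A.m k) := by fun_prop
    fun_prop⟩
  N := A.N
  hN := A.hN
  int := by
    have h := (A.actFam (T := Unit) ⟨fun p => B.μ.1 p.1, by fun_prop⟩
      ⟨fun p => B.w.1 p.1, by fun_prop⟩ (fun _ => B.μ.2) (fun m _ hm => B.int m hm)).int
    intro k hk
    exact h (k, ()) hk

lemma act_m (A : BD K) (B : LPM) (k : K) : (A.act B).m k = B.μ.1 (A.m k) := rfl
lemma act_h (A : BD K) (B : LPM) : (A.act B).h = A.h := rfl
lemma act_N (A : BD K) (B : LPM) : (A.act B).N = A.N := rfl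
lemma act_y (A : BD K) (B : LPM) (k : K) :
    (A.act B).y k = A.y k + (2 : ℝ) ^ ((A.N : ℝ) - A.h k) * B.w.1 (A.m k) := rfl

end BD

/-- Degrees of components of base data. -/
def DegFun.d (𝔇 : DegFun) (A : BD MSp) (n c : ℤ) : ZMod 2 := 𝔇.dc A.m A.h A.y A.int n c

namespace DegFun

variable (𝔇 : DegFun)

/-- the lifted pointed map `B ∘ λ` -/
def _root_.SelfCover.LPM.comp (B : LPM) (l : C(MSp, MSp)) (hl : l mpt = mpt) : LPM where
  μ := ⟨B.μ.1.comp l, by rw [ContinuousMap.comp_apply, hl]; exact B.μ.2⟩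
  w := ⟨B.w.1.comp l, by rw [ContinuousMap.comp_apply, hl]; exact B.w.2⟩
  int := fun m hm => B.int (l m) hm

lemma d_comp (A : BD MSp) (B : LPM) (l : C(MSp, MSp)) (hl : l mpt = mpt)
    (h : l.HomotopicRel (ContinuousMap.id MSp) {mpt}) (n c : ℤ) :
    𝔇.d (A.act (B.comp l hl)) n c = 𝔇.d (A.act B) n c := by
  obtain ⟨H⟩ := h
  have hH : ∀ τ, H (τ, mpt) = mpt := by
    intro τ
    have := H.eq_fst τ (mem_singleton mpt)
    rw [this, hl]
  let A' := A.actFam (T := I) ⟨fun p => B.μ.1 (H (p.2, p.1)), by fun_prop⟩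
    ⟨fun p => B.w.1 (H (p.2, p.1)), by fun_prop⟩ (fun τ => by
      show B.μ.1 (H (τ, mpt)) = mpt
      rw [hH, B.μ.2]) (fun m τ hm => B.int _ hm)
  refine 𝔇.dc_htpy A'.m A'.h A'.y A'.int n c _ _ _ _ _ _ _ _ ?_ ?_ ?_ ?_ ?_ ?_
  · intro k
    show B.μ.1 (H (0, A.m k)) = B.μ.1 (l (A.m k))
    rw [H.apply_zero]
  · intro k
    show B.μ.1 (H (1, A.m k)) = B.μ.1 (A.m k)
    rw [H.apply_one]; rfl
  · intro k; rfl
  · intro k; rfl
  · intro k
    show A.y k + (2 : ℝ) ^ ((A.N : ℝ) - A.h k) * B.w.1 (H (0, A.m k)) =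
      A.y k + (2 : ℝ) ^ ((A.N : ℝ) - A.h k) * B.w.1 (l (A.m k))
    rw [H.apply_zero]
  · intro k
    show A.y k + (2 : ℝ) ^ ((A.N : ℝ) - A.h k) * B.w.1 (H (1, A.m k)) =
      A.y k + (2 : ℝ) ^ ((A.N : ℝ) - A.h k) * B.w.1 (A.m k)
    rw [H.apply_one]; rfl

/-- The degrees are additive. -/
lemma d_add (A : BD MSp) (B C : LPM) (n c : ℤ) :
    𝔇.d (A.act (B.add C)) n c = 𝔇.d (A.act B) n c + 𝔇.d (A.act C) n c := by
  rw [← 𝔇.d_comp A B lam1 lam1_mpt lam1_htpy, ← 𝔇.d_comp A C lam2 lam2_mpt lam2_htpy]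
  apply 𝔇.add
  intro k
  show (cmpFun _ _ _ n c k = cmpFun _ _ _ n c k ∧ cmpFun _ _ _ n c k = mpt) ∨
    (cmpFun _ _ _ n c k = cmpFun _ _ _ n c k ∧ cmpFun _ _ _ n c k = mpt)
  rcases lam1_or_lam2 (A.m k) with h | h
  · right
    constructor
    · apply cmpFun_congr
      · show addFun B.μ.1 C.μ.1 (A.m k) = C.μ.1 (lam2 (A.m k))
        exact addFun_of_lam1 _ _ _ h (B.μ.2.trans C.μ.2.symm)
      · intro _
        have e : (A.act (B.add C)).y k = (A.act (C.comp lam2 lam2_mpt)).y k := by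
          rw [BD.act_y, BD.act_y]
          congr 2
          exact addFun_of_lam1 _ _ _ h (B.w.2.trans C.w.2.symm)
        rw [e]
        rfl
    · apply cmpFun_of_mpt
      show B.μ.1 (lam1 (A.m k)) = mpt
      rw [h, B.μ.2]
  · left
    constructor
    · apply cmpFun_congr
      · show addFun B.μ.1 C.μ.1 (A.m k) = B.μ.1 (lam1 (A.m k))
        exact addFun_of_lam2 _ _ _ h
      · intro _
        have e : (A.act (B.add C)).y k = (A.act (B.comp lam1 lam1_mpt)).y k := by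
          rw [BD.act_y, BD.act_y]
          congr 2
          exact addFun_of_lam2 _ _ _ h
        rw [e]
        rfl
    · apply cmpFun_of_mpt
      show C.μ.1 (lam2 (A.m k)) = mpt
      rw [h, C.μ.2]

end DegFun

end SelfCover
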