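import Pool.Agent.SelfCover.DetectA
import Pool.Agent.SelfCover.KerP

/-!
Detection of `a0`: algebra of the degree sequences, and realisation of base data by maps
into `Z0`.
-/

open scoped unitInterval Topology NNReal
open Set

noncomputable section

namespace SelfCover

open MTorus

/-! ### Algebra -/

/-- the operator `1 + shift` -/
def opT (T : ℤ) (x : ℤ → ZMod 2) (c : ℤ) : ZMod 2 := x c + x (c - T)

lemma opT_lower {T : ℤ} (hT : 0 < T) {x : ℤ → ZMod 2} {M : ℤ} (h : ∀ c < M, x c = 0) :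
    ∀ c < M, opT T x c = 0 := by
  intro c hc
  unfold opT
  rw [h c hc, h (c - T) (by omega), add_zero]

lemma opT_iterate_lower {T : ℤ} (hT : 0 < T) {M : ℤ} (k : ℕ) : ∀ {x : ℤ → ZMod 2}
    (_ : ∀ c < M, x c = 0), ∀ c < M, (opT T)^[k] x c = 0 := by
  induction k with
  | zero => intro x h; exact h
  | succ k ih =>
    intro x h
    rw [Function.iterate_succ_apply]
    exact ih (opT_lower hT h)

lemma opT_zero_of {T : ℤ} (hT : 0 < T) {z : ℤ → ZMod 2} {M : ℤ} (h : ∀ c < M, z c = 0)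
    {c₀ : ℤ} (hz : ∀ c < c₀, opT T z c = 0) : ∀ c < c₀, z c = 0 := by
  have key : ∀ r : ℕ, ∀ c < c₀, c < M + r * T → z c = 0 := by
    intro r
    induction r with
    | zero => intro c _ hc; exact h c (by simpa using hc)
    | succ r ih =>
      intro c hc0 hc
      have h1 := hz c hc0
      unfold opT at h1
      rw [ih (c - T) (by omega) (by push_cast at hc; nlinarith), add_zero] at h1
      exact h1
  intro c hc
  refine key (c - M + 1).toNat c hc ?_
  have : (c - M + 1) ≤ ((c - M + 1).toNat : ℤ) := Int.self_le_toNat _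
  have h2 : (0 : ℤ) ≤ ((c - M + 1).toNat : ℤ) := Int.natCast_nonneg _
  nlinarith

lemma opT_sub (T : ℤ) (x y : ℤ → ZMod 2) (c : ℤ) :
    opT T (fun c => x c - y c) c = opT T x c - opT T y c := by
  unfold opT; ring

lemma opT_iterate_inj {T : ℤ} (hT : 0 < T) (k : ℕ) : ∀ {x y : ℤ → ZMod 2} {M : ℤ}
    (_ : ∀ c < M, x c = 0) (_ : ∀ c < M, y c = 0)
    (_ : ∀ c, (opT T)^[k] x c = (opT T)^[k] y c), ∀ c, x c = y c := by
  induction k with
  | zero => intro x y M _ _ h; exact h
  | succ k ih =>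
    intro x y M hx hy h
    simp only [Function.iterate_succ_apply] at h
    have h1 := ih (opT_lower hT hx) (opT_lower hT hy) h
    intro c
    have h2 := opT_zero_of (z := fun c => x c - y c) (M := M) (c₀ := c + 1) hT
      (fun c hc => by simp only [hx c hc, hy c hc, sub_zero])
      (fun c _ => by rw [opT_sub, h1, sub_self]) c (by omega)
    exact sub_eq_zero.mp h2

lemma opT_shift (T : ℤ) (x : ℤ → ZMod 2) (j : ℤ) (k : ℕ) : ∀ c,
    (opT T)^[k] x (c - j) = (opT T)^[k] (fun c => x (c - j)) c := by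
  induction k generalizing x with
  | zero => intro c; rfl
  | succ k ih =>
    intro c
    rw [Function.iterate_succ_apply, Function.iterate_succ_apply, ih]
    have e : (fun c => opT T x (c - j)) = opT T fun c => x (c - j) := by
      funext c
      unfold opT
      rw [sub_right_comm]
    rw [e]

lemma opT_contra {T : ℤ} (hT : 0 < T) (x : ℤ → ZMod 2) (M : ℤ) (hx : ∀ c, M < |c| → x c = 0)
    (j : ℤ) (k : ℕ)
    (h : ∀ c, (opT T)^[k + 1] x c = (opT T)^[k] (fun c => if c = 0 then 1 else 0) (c - j)) :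
    False := by
  have hlow : ∀ c < -|M| - |j|, x c = 0 := by
    intro c hc
    apply hx
    have h1 := neg_abs_le c
    have h2 := le_abs_self M
    have h3 := abs_nonneg j
    have h4 : -c ≤ |c| := neg_le_abs c
    omega
  have h1 : ∀ c, opT T x c = if c - j = 0 then 1 else 0 := by
    refine opT_iterate_inj hT k (M := -|M| - |j|) (opT_lower hT hlow) ?_ ?_
    · intro c hc
      have h1 := neg_abs_le j
      have h2 := abs_nonneg M
      rw [if_neg (by omega)]
    · intro c
      have := h c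
      rw [Function.iterate_succ_apply] at this
      rw [this, opT_shift]
  have h2 : ∀ c < j, x c = 0 := by
    refine opT_zero_of hT hlow (c₀ := j) ?_
    intro c hc
    rw [h1, if_neg (by omega)]
  have h3 : ∀ r : ℕ, x (j + r * T) = 1 := by
    intro r
    induction r with
    | zero =>
      have := h1 j
      unfold opT at this
      rw [h2 (j - T) (by omega), if_pos (by omega), add_zero] at this
      simpa using this
    | succ r ih =>
      have h4 := h1 (j + ((r + 1 : ℕ) : ℤ) * T)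
      unfold opT at h4
      have e : j + ((r + 1 : ℕ) : ℤ) * T - T = j + r * T := by push_cast; ring
      have hpos : (0 : ℤ) < ((r + 1 : ℕ) : ℤ) * T := by positivity
      rw [e, ih, if_neg (by omega)] at h4
      have : x (j + ((r + 1 : ℕ) : ℤ) * T) = -1 := eq_neg_of_add_eq_zero_left h4
      rw [this]
      decide
  have h4 := h3 (|j| + |M| + 1).toNat
  rw [hx] at h4
  · exact absurd h4 (by decide)
  · have h5 : ((|j| + |M| + 1).toNat : ℤ) = |j| + |M| + 1 :=
      Int.toNat_of_nonneg (by positivity)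
    rw [h5]
    have h6 : (|j| + |M| + 1) * 1 ≤ (|j| + |M| + 1) * T :=
      mul_le_mul_of_nonneg_left (by omega) (by positivity)
    have h7 := neg_abs_le j
    have h8 := le_abs_self M
    have h9 := le_abs_self (j + (|j| + |M| + 1) * T)
    omega

/-! ### The lifted pointed maps of `gmap` and `fa` -/

variable (N : NDR)

/-- `gmap` as a lifted pointed map. -/
def gL (e : ℕ) : LPM where
  μ := ⟨⟨fun m => N.δ (m, 0), by fun_prop⟩, N.δ_pt 0⟩
  w := ⟨⟨fun m => (e : ℝ) * (1 - (N.ρ m : ℝ)), by fun_prop⟩, by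
    show (e : ℝ) * (1 - (N.ρ mpt : ℝ)) = 0
    rw [N.ρ_pt]; simp⟩
  int := by
    intro m hm
    rcases N.ρ_or m with h | h
    · refine ⟨e, ?_⟩
      show (e : ℝ) * (1 - (N.ρ m : ℝ)) = _
      rw [h]; simp
    · exact absurd h hm

/-- `fa` as a lifted pointed map. -/
def faL : LPM := LPM.add (LPM.add (gL N 0) (gL N 1)) (LPM.add (gL N 1) (gL N 2))

/-- a lifted pointed map `B` represents the pointed map `g : MSp → Z0` -/
def LPM.Rep (B : LPM) (g : PM Z0 z0) : Prop :=
  (∀ m, B.μ.1 m = toM (g.1 m)) ∧ ∀ m, toP (g.1 m) = base sq ((B.w.1 m : ℝ) : UnitAddCircle)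

lemma LPM.Rep.add {B C : LPM} {f g : PM Z0 z0} (hB : B.Rep f) (hC : C.Rep g) :
    (B.add C).Rep (PM.add f g) := by
  constructor
  · intro m
    show addFun B.μ.1 C.μ.1 m = toM (addFun f.1 g.1 m)
    rcases lam1_or_lam2 m with h | h
    · rw [addFun_of_lam1 _ _ _ h (B.μ.2.trans C.μ.2.symm),
        addFun_of_lam1 _ _ _ h (f.2.trans g.2.symm), hC.1]
    · rw [addFun_of_lam2 _ _ _ h, addFun_of_lam2 _ _ _ h, hB.1]
  · intro m
    show toP (addFun f.1 g.1 m) = base sq ((addFun B.w.1 C.w.1 m : ℝ) : UnitAddCircle)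
    rcases lam1_or_lam2 m with h | h
    · rw [addFun_of_lam1 _ _ _ h (B.w.2.trans C.w.2.symm),
        addFun_of_lam1 _ _ _ h (f.2.trans g.2.symm), hC.2]
    · rw [addFun_of_lam2 _ _ _ h, addFun_of_lam2 _ _ _ h, hB.2]

lemma gL_rep (e : ℕ) : (gL N e).Rep (gmap N e) := ⟨fun _ => rfl, fun _ => rfl⟩

lemma faL_rep : (faL N).Rep (fa N) :=
  ((gL_rep N 0).add (gL_rep N 1)).add ((gL_rep N 1).add (gL_rep N 2))

namespace DegFun

variable (𝔇 : DegFun)

lemma d_gL (A : BD MSp) (e : ℕ) (n : ℤ) (s : ℕ) (hs : n + s = A.N) (c : ℤ) :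
    𝔇.d (A.act (gL N e)) n c = 𝔇.d A n (c - 2 ^ s * e) := by
  have h1 : 𝔇.d (A.act (gL N e)) n c =
      𝔇.D ((⟨fun m => N.δ (m, 0), by fun_prop⟩ : C(MSp, MSp)).comp
        (cmp A.m A.h A.y A.int n (c - 2 ^ s * e))) := by
    unfold d dc
    congr 1
    ext1 k
    show cmpFun _ _ _ n c k = N.δ (cmpFun A.m A.h A.y n (c - 2 ^ s * e) k, 0)
    by_cases hm : N.δ (A.m k, 0) = mpt
    · rw [cmpFun_of_mpt (show (A.act (gL N e)).m k = mpt from hm)]
      unfold cmpFun
      split_ifs
      · exact hm.symm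
      · exact (N.δ_pt 0).symm
    · have hmk : A.m k ≠ mpt := fun h => hm (by rw [h]; exact N.δ_pt 0)
      have hρ : N.ρ (A.m k) = 0 := by
        rcases N.ρ_or (A.m k) with h | h
        · exact h
        · exact absurd h hm
      obtain ⟨⟨n', hn'⟩, ⟨j, hj⟩⟩ := A.int k hmk
      have hmk' : (A.act (gL N e)).m k = N.δ (A.m k, 0) := rfl
      have key : (|(A.act (gL N e)).h k - n| < 1 / 2 ∧ |(A.act (gL N e)).y k - c| < 1 / 2) ↔
          (|A.h k - n| < 1 / 2 ∧ |A.y k - ((c - 2 ^ s * e : ℤ) : ℝ)| < 1 / 2) := by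
        rw [BD.act_h]
        refine and_congr_right fun h => ?_
        rw [hn', abs_int_sub_lt_half] at h
        subst h
        have e1 : (A.N : ℝ) - A.h k = (s : ℝ) := by
          rw [hn', ← hs]; push_cast; ring
        have e2 : (A.act (gL N e)).y k = A.y k + 2 ^ s * e := by
          rw [BD.act_y, e1, Real.rpow_natCast]
          congr 2
          show (e : ℝ) * (1 - (N.ρ (A.m k) : ℝ)) = e
          rw [hρ]; simp
        rw [e2]
        push_cast
        rw [show A.y k + 2 ^ s * (e : ℝ) - c = A.y k - (c - 2 ^ s * e) by ring]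
      unfold cmpFun
      rw [hmk']
      simp only [key]
      split_ifs
      · rfl
      · exact (N.δ_pt 0).symm
  rw [h1]
  apply 𝔇.htpy
  refine ⟨⟨⟨fun p => N.δ (cmp A.m A.h A.y A.int n (c - 2 ^ s * e) p.2, p.1), by fun_prop⟩,
    fun k => rfl, fun k => ?_⟩⟩
  exact N.δ_one _

lemma d_faL (A : BD MSp) (n : ℤ) (s : ℕ) (hs : n + s = A.N) (c : ℤ) :
    𝔇.d (A.act (faL N)) n c = opT (2 ^ (s + 1)) (𝔇.d A n) c := by
  unfold faL opT
  rw [d_add, d_add, d_add, d_gL N 𝔇 A 0 n s hs, d_gL N 𝔇 A 1 n s hs, d_gL N 𝔇 A 2 n s hs]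
  have h2 : ∀ x : ZMod 2, x + x = 0 := by decide
  have e1 : c - 2 ^ s * ((0 : ℕ) : ℤ) = c := by simp
  have e2 : c - 2 ^ s * ((2 : ℕ) : ℤ) = c - 2 ^ (s + 1) := by rw [pow_succ]; push_cast; ring
  rw [e1, e2]
  linear_combination h2 (𝔇.d A n (c - 2 ^ s * ((1 : ℕ) : ℤ)))

end DegFun

end SelfCover
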