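import Pool.Agent.SelfCover.PushA
import Pool.Agent.Graze77.Body

/-!
# Module Push: cellular approximation for low-dimensional compact metric domains
-/

open scoped unitInterval Topology ENNReal NNReal
open Set

namespace SelfCover

open Topology Metric Filter

set_option linter.unusedSectionVars false

section cell

variable {W : Type*} [TopologicalSpace W] [T2Space W] [CWComplex (univ : Set W)]

/-- the complement of a top-dimensional open cell in a skeleton is closed -/
lemma isClosed_skeletonLT_diff (k : ℕ) (j : RelCWComplex.cell (univ : Set W) k) :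
    IsClosed ((RelCWComplex.skeletonLT (univ : Set W) ((k : ℕ∞) + 1) : Set W) \
      RelCWComplex.openCell k j) := by
  apply CWComplex.isClosed_of_disjoint_openCell_or_isClosed_inter_closedCell (subset_univ _)
  intro m _ i
  rcases lt_or_ge m (k + 1) with hm | hm
  · by_cases hij : (⟨m, i⟩ : Σ n, RelCWComplex.cell (univ : Set W) n) = ⟨k, j⟩
    · left
      obtain ⟨rfl, hij'⟩ := Sigma.mk.inj_iff.1 hij
      obtain rfl := eq_of_heq hij'
      exact Set.disjoint_left.2 fun w hw hw' => hw.2 hw'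
    · right
      have h1 : ((RelCWComplex.skeletonLT (univ : Set W) ((k : ℕ∞) + 1) : Set W) \
          RelCWComplex.openCell k j) ∩ RelCWComplex.closedCell m i =
          RelCWComplex.closedCell m i := by
        apply Set.inter_eq_right.2
        intro w hw
        refine ⟨?_, ?_⟩
        · apply RelCWComplex.skeletonLT_mono _ (RelCWComplex.closedCell_subset_skeletonLT m i hw)
          have : m ≤ k := Nat.lt_succ_iff.1 hm
          gcongr
        · intro hwk
          rw [← RelCWComplex.cellFrontier_union_openCell_eq_closedCell] at hw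
          rcases hw with hw | hw
          · have h2 := RelCWComplex.cellFrontier_subset_skeletonLT m i hw
            have h3 : ((m : ℕ) : ℕ∞) ≤ (k : ℕ) := by
              exact_mod_cast Nat.lt_succ_iff.1 hm
            exact Set.disjoint_left.1 (RelCWComplex.disjoint_skeletonLT_openCell h3) h2 hwk
          · exact Set.disjoint_left.1 (RelCWComplex.disjoint_openCell_of_ne hij) hw hwk
      rw [h1]
      exact RelCWComplex.isClosed_closedCell
  · left
    have h3 : (((k : ℕ) : ℕ∞) + 1) ≤ (m : ℕ) := by exact_mod_cast hm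
    exact (RelCWComplex.disjoint_skeletonLT_openCell h3).mono_left sdiff_subset

variable {K : Type*} [TopologicalSpace K]

/-- The cell coordinate of `f`. -/
noncomputable def gc (k : ℕ) (j : RelCWComplex.cell (univ : Set W) k) (f : C(K, W)) (x : K) :
    Fin k → ℝ := (RelCWComplex.map k j).symm (f x)

section
variable {k : ℕ} {j : RelCWComplex.cell (univ : Set W) k} {f : C(K, W)}

lemma gc_mem {x : K} (hx : f x ∈ RelCWComplex.openCell k j) : gc k j f x ∈ ball 0 1 := by
  have h1 : f x ∈ (RelCWComplex.map k j).target := by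
    rw [← PartialEquiv.image_source_eq_target, RelCWComplex.source_eq]
    exact hx
  have := (RelCWComplex.map k j).map_target h1
  rwa [RelCWComplex.source_eq] at this

lemma map_gc {x : K} (hx : f x ∈ RelCWComplex.openCell k j) :
    RelCWComplex.map k j (gc k j f x) = f x := by
  have h1 : f x ∈ (RelCWComplex.map k j).target := by
    rw [← PartialEquiv.image_source_eq_target, RelCWComplex.source_eq]
    exact hx
  exact (RelCWComplex.map k j).right_inv h1

lemma isOpen_preimage (hf : range f ⊆ (RelCWComplex.skeletonLT (univ : Set W) ((k : ℕ∞) + 1) : Set W)) :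
    IsOpen {x | f x ∈ RelCWComplex.openCell k j} := by
  have h1 := (isClosed_skeletonLT_diff k j).preimage f.continuous
  have h2 : {x | f x ∈ RelCWComplex.openCell k j} = (f ⁻¹'
      ((RelCWComplex.skeletonLT (univ : Set W) ((k : ℕ∞) + 1) : Set W) \
      RelCWComplex.openCell k j))ᶜ := by
    ext x
    simp only [mem_ofPred_eq, mem_compl_iff, mem_preimage, Set.mem_sdiff, not_and, not_not]
    exact ⟨fun h _ => h, fun h => h (hf ⟨x, rfl⟩)⟩
  rw [h2]
  exact h1.isOpen_compl

lemma continuousOn_gc : ContinuousOn (gc k j f) {x | f x ∈ RelCWComplex.openCell k j} := by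
  have h1 := RelCWComplex.continuousOn_symm (C := (univ : Set W)) k j
  refine h1.comp f.continuous.continuousOn ?_
  intro x hx
  rw [← PartialEquiv.image_source_eq_target, RelCWComplex.source_eq]
  exact hx

/-- Behaviour of the cell coordinate near a point not mapped to the open cell. -/
lemma tendsto_sphere {Y : Type*} (π : Y → K) (𝒰 : Ultrafilter Y) {x₀ : K}
    (hπ : Tendsto π 𝒰 (𝓝 x₀))
    (hx₀ : f x₀ ∉ RelCWComplex.openCell k j)
    (hU : {y | f (π y) ∈ RelCWComplex.openCell k j} ∈ 𝒰) :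
    ∃ v ∈ sphere (0 : Fin k → ℝ) 1, Tendsto (fun y => gc k j f (π y)) 𝒰 (𝓝 v) ∧
      RelCWComplex.map k j v = f x₀ := by
  have hcomp : IsCompact (closedBall (0 : Fin k → ℝ) 1) := isCompact_closedBall 0 1
  have hmem : closedBall (0 : Fin k → ℝ) 1 ∈ 𝒰.map (fun y => gc k j f (π y)) := by
    rw [Ultrafilter.mem_map]
    filter_upwards [hU] with y hy
    exact ball_subset_closedBall (gc_mem hy)
  obtain ⟨v, hv, hle⟩ := hcomp.ultrafilter_le_nhds' _ hmem
  have hle' : Tendsto (fun y => gc k j f (π y)) 𝒰 (𝓝 v) := hle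
  have h1 : Tendsto (fun y => gc k j f (π y)) 𝒰 (𝓝[closedBall 0 1] v) := by
    rw [tendsto_nhdsWithin_iff]
    exact ⟨hle', hmem⟩
  have h2 : Tendsto (fun y => RelCWComplex.map k j (gc k j f (π y))) 𝒰
      (𝓝 (RelCWComplex.map k j v)) := (RelCWComplex.continuousOn k j v hv).tendsto.comp h1
  have h3 : Tendsto (fun y => RelCWComplex.map k j (gc k j f (π y))) 𝒰 (𝓝 (f x₀)) := by
    have h4 : Tendsto (fun y => f (π y)) 𝒰 (𝓝 (f x₀)) := (f.continuous.tendsto x₀).comp hπ
    refine h4.congr' ?_
    filter_upwards [hU] with y hy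
    exact (map_gc hy).symm
  have h5 : RelCWComplex.map k j v = f x₀ := tendsto_nhds_unique h2 h3
  refine ⟨v, ?_, hle', h5⟩
  rw [mem_sphere_zero_iff_norm]
  rw [mem_closedBall_zero_iff] at hv
  by_contra hne
  have hlt : ‖v‖ < 1 := lt_of_le_of_ne hv hne
  apply hx₀
  rw [← h5]
  exact ⟨v, by simpa using hlt, rfl⟩

open Classical in
/-- Gluing lemma. -/
lemma cell_glue (hf : range f ⊆ (RelCWComplex.skeletonLT (univ : Set W) ((k : ℕ∞) + 1) : Set W))
    {Y : Type*} [TopologicalSpace Y] (π : Y → K) (hπ : Continuous π) (H : Y → (Fin k → ℝ))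
    (hH : ContinuousOn H {y | f (π y) ∈ RelCWComplex.openCell k j})
    (hHb : ∀ y, f (π y) ∈ RelCWComplex.openCell k j → H y ∈ closedBall (0 : Fin k → ℝ) 1)
    (hlim : ∀ (y₀ : Y) (𝒰 : Ultrafilter Y) (v : Fin k → ℝ), (𝒰 : Filter Y) ≤ 𝓝 y₀ →
      {y | f (π y) ∈ RelCWComplex.openCell k j} ∈ 𝒰 → ‖v‖ = 1 →
      Tendsto (fun y => gc k j f (π y)) 𝒰 (𝓝 v) → Tendsto H 𝒰 (𝓝 v)) :
    Continuous (fun y => if f (π y) ∈ RelCWComplex.openCell k j then
      RelCWComplex.map k j (H y) else f (π y)) := by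
  rw [continuous_iff_continuousAt]
  intro y₀
  have hUo : IsOpen {y | f (π y) ∈ RelCWComplex.openCell k j} :=
    (isOpen_preimage (j := j) hf).preimage hπ
  by_cases hy₀ : f (π y₀) ∈ RelCWComplex.openCell k j
  · have h1 : ContinuousOn (fun y => RelCWComplex.map k j (H y))
        {y | f (π y) ∈ RelCWComplex.openCell k j} :=
      (RelCWComplex.continuousOn k j).comp hH hHb
    have h2 := h1.continuousAt (hUo.mem_nhds hy₀)
    refine h2.congr ?_
    filter_upwards [hUo.mem_nhds hy₀] with y hy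
    rw [if_pos hy]
  · rw [ContinuousAt, if_neg hy₀, tendsto_iff_ultrafilter]
    intro 𝒰 h𝒰
    have hπ𝒰 : Tendsto π 𝒰 (𝓝 (π y₀)) := (hπ.tendsto y₀).mono_left h𝒰
    rcases 𝒰.mem_or_compl_mem {y | f (π y) ∈ RelCWComplex.openCell k j} with hU | hU
    · obtain ⟨v, hv, hvt, hvf⟩ := tendsto_sphere π 𝒰 hπ𝒰 hy₀ hU
      have h1 := hlim y₀ 𝒰 v h𝒰 hU (by simpa using hv) hvt
      have h2 : Tendsto H 𝒰 (𝓝[closedBall 0 1] v) := by
        rw [tendsto_nhdsWithin_iff]
        refine ⟨h1, ?_⟩
        filter_upwards [hU] with y hy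
        exact hHb y hy
      have h3 : Tendsto (fun y => RelCWComplex.map k j (H y)) 𝒰 (𝓝 (RelCWComplex.map k j v)) :=
        (RelCWComplex.continuousOn k j v (sphere_subset_closedBall hv)).tendsto.comp h2
      rw [hvf] at h3
      refine h3.congr' ?_
      filter_upwards [hU] with y hy
      rw [if_pos hy]
    · have h4 : Tendsto (fun y => f (π y)) 𝒰 (𝓝 (f (π y₀))) :=
        (f.continuous.tendsto _).comp hπ𝒰
      refine h4.congr' ?_
      filter_upwards [hU] with y hy
      have hy' : f (π y) ∉ RelCWComplex.openCell k j := hy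
      rw [if_neg hy']

end

end cell

/-- the radial projection from `q` to the unit sphere -/
noncomputable def rad {k : ℕ} (q v : Fin k → ℝ) : Fin k → ℝ :=
  q + (Pool.Agent.Graze77.rho (closedBall 0 1) q (v - q))⁻¹ • (v - q)

section rad
variable {k : ℕ} {q v : Fin k → ℝ}

lemma mem_int (hq : ‖q‖ < 1) : q ∈ interior (closedBall (0 : Fin k → ℝ) 1) := by
  rw [interior_closedBall _ one_ne_zero]
  simpa using hq

lemma rad_mem (hq : ‖q‖ < 1) (hv : v ≠ q) : rad q v ∈ sphere (0 : Fin k → ℝ) 1 := by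
  have := Pool.Agent.Graze77.exit_mem (M := closedBall (0 : Fin k → ℝ) 1) isBounded_closedBall
    (convex_closedBall 0 1) (mem_int hq) (v := v - q) (sub_ne_zero.2 hv)
  rwa [frontier_closedBall _ one_ne_zero] at this

lemma rad_sphere (hq : ‖q‖ < 1) (hv : ‖v‖ = 1) : rad q v = v := by
  have h1 : Pool.Agent.Graze77.rho (closedBall (0 : Fin k → ℝ) 1) q (v - q) = 1 := by
    rw [Pool.Agent.Graze77.rho_eq_one_iff (convex_closedBall 0 1) (mem_int hq),
      frontier_closedBall _ one_ne_zero]
    simpa using hv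
  rw [rad, h1]
  simp

lemma rad_cont (hq : ‖q‖ < 1) (hv : v ≠ q) : ContinuousAt (rad q) v := by
  have h0 := Pool.Agent.Graze77.rho_cont (M := closedBall (0 : Fin k → ℝ) 1)
    (convex_closedBall 0 1) (mem_int hq)
  have h1 : Pool.Agent.Graze77.rho (closedBall (0 : Fin k → ℝ) 1) q (v - q) ≠ 0 :=
    (Pool.Agent.Graze77.rho_pos isBounded_closedBall (mem_int hq) (sub_ne_zero.2 hv)).ne'
  unfold rad
  fun_prop (disch := assumption)

end rad

section push

variable {W : Type*} [TopologicalSpace W] [T2Space W] [CWComplex (univ : Set W)]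
variable {K : Type*} [MetricSpace K] [CompactSpace K]

open Classical in
/-- Push a map off an open cell of top dimension. -/
theorem push_cell {k : ℕ} (j : RelCWComplex.cell (univ : Set W) k)
    (hdim : dimH (univ : Set K) < k) (f : C(K, W))
    (hf : range f ⊆ (RelCWComplex.skeletonLT (univ : Set W) ((k : ℕ∞) + 1) : Set W)) :
    ∃ f' : C(K, W), f.HomotopicRel f' {x | f x ∉ RelCWComplex.openCell k j} ∧
      ∀ x, f x ∈ RelCWComplex.openCell k j → f' x ∈ RelCWComplex.cellFrontier k j := by
  set U : Set K := {x | f x ∈ RelCWComplex.openCell k j} with hU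
  have hUo : IsOpen U := isOpen_preimage hf
  -- a cut-off function
  let χ : ℝ → ℝ := fun s => max 0 (min 1 (8 * (7 / 8 - s)))
  have hχc : Continuous χ := by fun_prop
  have hχ1 : ∀ s, s ≤ 3 / 4 → χ s = 1 := by
    intro s hs
    simp only [χ]
    rw [min_eq_left (by linarith), max_eq_right (by norm_num)]
  have hχ0 : χ 1 = 0 := by
    simp only [χ]
    rw [min_eq_right (by norm_num), max_eq_left (by norm_num)]
  -- the truncated coordinate
  let gh : K → (Fin k → ℝ) := fun x => if x ∈ U then χ ‖gc k j f x‖ • gc k j f x else 0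
  have hgc : ContinuousOn (gc k j f) U := continuousOn_gc
  have hghc : Continuous gh := by
    rw [continuous_iff_continuousAt]
    intro x₀
    by_cases hx₀ : x₀ ∈ U
    · have h1 : ContinuousOn (fun x => χ ‖gc k j f x‖ • gc k j f x) U :=
        (hχc.comp_continuousOn hgc.norm).smul hgc
      refine (h1.continuousAt (hUo.mem_nhds hx₀)).congr ?_
      filter_upwards [hUo.mem_nhds hx₀] with x hx
      simp only [gh, if_pos hx]
    · have h0 : gh x₀ = 0 := by simp only [gh, if_neg hx₀]
      rw [ContinuousAt, h0, tendsto_iff_ultrafilter]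
      intro 𝒰 h𝒰
      rcases 𝒰.mem_or_compl_mem U with hU' | hU'
      · obtain ⟨v, hv, hvt, -⟩ := tendsto_sphere (j := j) (f := f) (fun x : K => x) 𝒰 h𝒰 hx₀ hU'
        have h1 : Tendsto (fun x => χ ‖gc k j f x‖ • gc k j f x) 𝒰 (𝓝 (χ ‖v‖ • v)) :=
          ((hχc.tendsto _).comp hvt.norm).smul hvt
        rw [mem_sphere_zero_iff_norm.1 hv, hχ0, zero_smul] at h1
        refine h1.congr' ?_
        filter_upwards [hU'] with x hx
        simp only [gh, if_pos hx]
      · refine tendsto_const_nhds.congr' ?_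
        filter_upwards [hU'] with x hx
        have hx' : x ∉ U := hx
        simp only [gh, if_neg hx']
  obtain ⟨G, q, hG, hq, hGq⟩ := exists_approx_missing hdim ⟨gh, hghc⟩ (ε := 1 / 8) (by norm_num)
  have hq1 : ‖q‖ < 1 := by linarith
  -- the blended coordinate
  let lam : ℝ → ℝ := fun s => max 0 (min 1 (3 - 4 * s))
  have hlc : Continuous lam := by fun_prop
  have hl0 : ∀ s, 0 ≤ lam s := fun s => le_max_left _ _
  have hl1 : ∀ s, lam s ≤ 1 := fun s => max_le (by norm_num) (min_le_left _ _)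
  have hlone : ∀ s, s ≤ 1 / 2 → lam s = 1 := by
    intro s hs
    simp only [lam]
    rw [min_eq_left (by linarith), max_eq_right (by norm_num)]
  have hlzero : ∀ s, 3 / 4 ≤ s → lam s = 0 := by
    intro s hs
    simp only [lam]
    rw [min_eq_right (by linarith), max_eq_left (by linarith)]
  let h : K → (Fin k → ℝ) := fun x => gc k j f x + lam ‖gc k j f x‖ • (G x - gc k j f x)
  have hhc : ContinuousOn h U :=
    hgc.add ((hlc.comp_continuousOn hgc.norm).smul (G.continuous.continuousOn.sub hgc))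
  have hclose : ∀ x ∈ U, ‖gc k j f x‖ ≤ 3 / 4 → ‖G x - gc k j f x‖ < 1 / 8 := by
    intro x hx hx2
    have h1 := hG x
    simp only [ContinuousMap.coe_mk, gh, if_pos hx, hχ1 _ hx2, one_smul] at h1
    exact h1
  have hhq : ∀ x ∈ U, h x ≠ q := by
    intro x hx heq
    rcases le_or_gt ‖gc k j f x‖ (1 / 2) with h1 | h1
    · simp only [h, hlone _ h1, one_smul] at heq
      apply hGq x
      rw [← heq]; abel
    · rcases le_or_gt (3 / 4) ‖gc k j f x‖ with h2 | h2
      · simp only [h, hlzero _ h2, zero_smul, add_zero] at heq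
        rw [heq] at h2
        linarith
      · have h3 := hclose x hx h2.le
        have h4 : ‖gc k j f x‖ ≤ ‖h x‖ + ‖lam ‖gc k j f x‖ • (G x - gc k j f x)‖ := by
          have : gc k j f x = h x - lam ‖gc k j f x‖ • (G x - gc k j f x) := by
            simp only [h]; abel
          calc ‖gc k j f x‖ = ‖h x - lam ‖gc k j f x‖ • (G x - gc k j f x)‖ := by rw [← this]
            _ ≤ _ := norm_sub_le _ _
        have h5 : ‖lam ‖gc k j f x‖ • (G x - gc k j f x)‖ ≤ 1 / 8 := by
          rw [norm_smul, Real.norm_eq_abs, abs_of_nonneg (hl0 _)]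
          nlinarith [hl0 ‖gc k j f x‖, hl1 ‖gc k j f x‖, norm_nonneg (G x - gc k j f x)]
        rw [heq] at h4
        linarith
  -- the homotopy in coordinates
  let H : I × K → (Fin k → ℝ) := fun p =>
    (1 - (p.1 : ℝ)) • gc k j f p.2 + (p.1 : ℝ) • rad q (h p.2)
  have hHc : ContinuousOn H {p : I × K | f p.2 ∈ RelCWComplex.openCell k j} := by
    have hm : MapsTo (Prod.snd : I × K → K) {p : I × K | f p.2 ∈ RelCWComplex.openCell k j} U :=
      fun p hp => hp
    have h1 : ContinuousOn (fun p : I × K => gc k j f p.2)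
        {p : I × K | f p.2 ∈ RelCWComplex.openCell k j} :=
      hgc.comp continuous_snd.continuousOn hm
    have h2 : ContinuousOn (fun x => rad q (h x)) U := by
      intro x hx
      exact (rad_cont hq1 (hhq x hx)).comp_continuousWithinAt (hhc x hx)
    have h3 : ContinuousOn (fun p : I × K => rad q (h p.2))
        {p : I × K | f p.2 ∈ RelCWComplex.openCell k j} :=
      h2.comp continuous_snd.continuousOn hm
    have h4 : Continuous (fun p : I × K => (p.1 : ℝ)) := by fun_prop
    exact ((continuousOn_const.sub h4.continuousOn).smul h1).add (h4.continuousOn.smul h3)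
  have hHb : ∀ p : I × K, f p.2 ∈ RelCWComplex.openCell k j → H p ∈ closedBall 0 1 := by
    intro p hp
    have h1 : gc k j f p.2 ∈ closedBall (0 : Fin k → ℝ) 1 := ball_subset_closedBall (gc_mem hp)
    have h2 : rad q (h p.2) ∈ closedBall (0 : Fin k → ℝ) 1 :=
      sphere_subset_closedBall (rad_mem hq1 (hhq _ hp))
    exact convex_closedBall (0 : Fin k → ℝ) 1 h1 h2 (by linarith [p.1.2.2]) p.1.2.1 (by ring)
  have hlim : ∀ (y₀ : I × K) (𝒰 : Ultrafilter (I × K)) (v : Fin k → ℝ),
      (𝒰 : Filter (I × K)) ≤ 𝓝 y₀ →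
      {y : I × K | f y.2 ∈ RelCWComplex.openCell k j} ∈ 𝒰 → ‖v‖ = 1 →
      Tendsto (fun y : I × K => gc k j f y.2) 𝒰 (𝓝 v) → Tendsto H 𝒰 (𝓝 v) := by
    intro y₀ 𝒰 v h𝒰 hUm hv hvt
    have h1 : Tendsto (fun y : I × K => (y.1 : ℝ)) 𝒰 (𝓝 (y₀.1 : ℝ)) := by
      have : Continuous (fun p : I × K => (p.1 : ℝ)) := by fun_prop
      exact (this.tendsto y₀).mono_left h𝒰
    have h2 : ∀ᶠ y : I × K in 𝒰, h y.2 = gc k j f y.2 := by
      have h3 : ∀ᶠ y : I × K in 𝒰, 3 / 4 < ‖gc k j f y.2‖ := by
        apply hvt.norm.eventually_const_lt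
        rw [hv]; norm_num
      filter_upwards [h3] with y hy
      simp only [h, hlzero _ hy.le, zero_smul, add_zero]
    have hvq : v ≠ q := by
      rintro rfl
      linarith
    have h3 : Tendsto (fun y : I × K => rad q (h y.2)) 𝒰 (𝓝 v) := by
      have h4 : Tendsto (fun y : I × K => rad q (gc k j f y.2)) 𝒰 (𝓝 (rad q v)) :=
        (rad_cont hq1 hvq).tendsto.comp hvt
      rw [rad_sphere hq1 hv] at h4
      refine h4.congr' ?_
      filter_upwards [h2] with y hy
      rw [hy]
    have h4 : Tendsto H 𝒰 (𝓝 ((1 - (y₀.1 : ℝ)) • v + (y₀.1 : ℝ) • v)) :=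
      ((tendsto_const_nhds.sub h1).smul hvt).add (h1.smul h3)
    rwa [← add_smul, sub_add_cancel, one_smul] at h4
  have hF := cell_glue hf (Prod.snd : I × K → K) continuous_snd H hHc hHb hlim
  let F : I × K → W := fun y => if f y.2 ∈ RelCWComplex.openCell k j then
      RelCWComplex.map k j (H y) else f y.2
  have hFc : Continuous F := hF
  let f' : C(K, W) := ⟨fun x => F (1, x), hFc.comp (by fun_prop)⟩
  refine ⟨f', ⟨⟨⟨⟨F, hFc⟩, ?_, ?_⟩, ?_⟩⟩, ?_⟩
  · intro x
    by_cases hx : f x ∈ RelCWComplex.openCell k j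
    · simp only [F, H, hx, if_true]
      simp [map_gc hx]
    · simp only [F, hx, if_false]
  · intro x
    rfl
  · intro t x hx
    have hx' : f x ∉ RelCWComplex.openCell k j := hx
    simp only [F, ContinuousMap.coe_mk, if_neg hx']
  · intro x hx
    have h1 : f' x = RelCWComplex.map k j (rad q (h x)) := by
      simp only [f', F, H, ContinuousMap.coe_mk, hx, if_true]
      simp
    rw [h1]
    exact ⟨_, rad_mem hq1 (hhq x hx), rfl⟩

lemma homotopicRel_mono {f g : C(K, W)} {S T : Set K} (h : f.HomotopicRel g S) (hTS : T ⊆ S) :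
    f.HomotopicRel g T := by
  obtain ⟨F⟩ := h
  exact ⟨⟨F.toHomotopy, fun t x hx => F.prop' t x (hTS hx)⟩⟩

/-- push off all cells of dimension `k` -/
lemma push_dim {n k : ℕ} (hnk : n < k) (hdim : dimH (univ : Set K) < k) :
    ∀ (T : Finset (RelCWComplex.cell (univ : Set W) k)) (f : C(K, W)),
      range f ⊆ (RelCWComplex.skeletonLT (univ : Set W) ((k : ℕ∞) + 1) : Set W) →
      (∀ j, (RelCWComplex.openCell k j ∩ range f).Nonempty → j ∈ T) →
      ∃ f' : C(K, W),
        f.HomotopicRel f' (f ⁻¹' (RelCWComplex.skeletonLT (univ : Set W) ((n : ℕ∞) + 1))) ∧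
        range f' ⊆ (RelCWComplex.skeletonLT (univ : Set W) (k : ℕ∞) : Set W) := by
  classical
  intro T
  induction T using Finset.induction with
  | empty =>
    intro f hf hT
    refine ⟨f, ContinuousMap.HomotopicRel.refl f, ?_⟩
    intro w hw
    have h1 := hf hw
    rw [SetLike.mem_coe, CWComplex.mem_skeletonLT_iff] at h1 ⊢
    obtain ⟨m, hm, i, hi⟩ := h1
    have hm' : m < k + 1 := by exact_mod_cast hm
    rcases Nat.lt_succ_iff_lt_or_eq.1 hm' with h2 | rfl
    · exact ⟨m, by exact_mod_cast h2, i, hi⟩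
    · exact absurd (hT i ⟨w, hi, hw⟩) (Finset.notMem_empty i)
  | insert j T hjT ih =>
    intro f hf hT
    obtain ⟨f₁, h₁, h₁e⟩ := push_cell j hdim f hf
    have heq : ∀ x, f x ∉ RelCWComplex.openCell k j → f₁ x = f x := fun x hx =>
      (h₁.fst_eq_snd hx).symm
    have hf₁ : range f₁ ⊆ (RelCWComplex.skeletonLT (univ : Set W) ((k : ℕ∞) + 1) : Set W) := by
      rintro _ ⟨x, rfl⟩
      by_cases hx : f x ∈ RelCWComplex.openCell k j
      · exact RelCWComplex.closedCell_subset_skeletonLT k j
          (RelCWComplex.cellFrontier_subset_closedCell k j (h₁e x hx))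
      · rw [heq x hx]; exact hf ⟨x, rfl⟩
    have hT₁ : ∀ i, (RelCWComplex.openCell k i ∩ range f₁).Nonempty → i ∈ T := by
      rintro i ⟨_, hi, x, rfl⟩
      by_cases hx : f x ∈ RelCWComplex.openCell k j
      · exfalso
        have h2 := RelCWComplex.cellFrontier_subset_skeletonLT k j (h₁e x hx)
        exact Set.disjoint_left.1 (RelCWComplex.disjoint_skeletonLT_openCell (le_refl _)) h2 hi
      · rw [heq x hx] at hi
        have h2 := hT i ⟨_, hi, x, rfl⟩
        rcases Finset.mem_insert.1 h2 with rfl | h3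
        · exact absurd hi hx
        · exact h3
    obtain ⟨f', h', hr'⟩ := ih f₁ hf₁ hT₁
    have hsub : f ⁻¹' (RelCWComplex.skeletonLT (univ : Set W) ((n : ℕ∞) + 1)) ⊆
        {x | f x ∉ RelCWComplex.openCell k j} := by
      intro x hx hx2
      have h3 : (((n : ℕ) : ℕ∞) + 1) ≤ (k : ℕ) := by exact_mod_cast hnk
      exact Set.disjoint_left.1 (RelCWComplex.disjoint_skeletonLT_openCell h3) hx hx2
    refine ⟨f', (homotopicRel_mono h₁ hsub).trans (homotopicRel_mono h' ?_), hr'⟩
    intro x hx
    show f₁ x ∈ (RelCWComplex.skeletonLT (univ : Set W) ((n : ℕ∞) + 1) : Set W)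
    rw [heq x (hsub hx)]
    exact hx

lemma push_all {n : ℕ} (hdim : dimH (univ : Set K) < n + 1) : ∀ (k : ℕ) (f : C(K, W)),
      range f ⊆ (RelCWComplex.skeletonLT (univ : Set W) (k : ℕ∞) : Set W) →
      ∃ f' : C(K, W),
        f.HomotopicRel f' (f ⁻¹' (RelCWComplex.skeletonLT (univ : Set W) ((n : ℕ∞) + 1))) ∧
        range f' ⊆ (RelCWComplex.skeletonLT (univ : Set W) ((n : ℕ∞) + 1) : Set W) := by
  intro k
  induction k with
  | zero =>
    intro f hf
    refine ⟨f, ContinuousMap.HomotopicRel.refl f, hf.trans ?_⟩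
    exact RelCWComplex.skeletonLT_mono (by simp)
  | succ k ih =>
    intro f hf
    rcases le_or_gt k n with hkn | hnk
    · refine ⟨f, ContinuousMap.HomotopicRel.refl f, hf.trans ?_⟩
      apply RelCWComplex.skeletonLT_mono
      exact_mod_cast Nat.succ_le_succ hkn
    · have hdim' : dimH (univ : Set K) < (k : ℝ≥0∞) := by
        refine hdim.trans_le ?_
        exact_mod_cast hnk
      have hfin := finite_cells_of_compact (isCompact_range f.continuous)
      have hfin2 : {j : RelCWComplex.cell (univ : Set W) k |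
          (RelCWComplex.openCell k j ∩ range f).Nonempty}.Finite := by
        refine Set.Finite.of_injOn (f := fun j =>
          (⟨k, j⟩ : Σ n, RelCWComplex.cell (univ : Set W) n)) ?_ ?_ hfin
        · intro j hj; exact hj
        · intro j _ j' _ h
          exact eq_of_heq (Sigma.mk.inj_iff.1 h).2
      have hf' : range f ⊆ (RelCWComplex.skeletonLT (univ : Set W) ((k : ℕ∞) + 1) : Set W) := by
        exact_mod_cast hf
      obtain ⟨f₁, h₁, hr₁⟩ := push_dim hnk hdim' hfin2.toFinset f hf' (by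
        intro j hj
        rw [Set.Finite.mem_toFinset]
        exact hj)
      obtain ⟨f', h', hr'⟩ := ih f₁ hr₁
      refine ⟨f', h₁.trans (homotopicRel_mono h' ?_), hr'⟩
      intro x hx
      show f₁ x ∈ (RelCWComplex.skeletonLT (univ : Set W) ((n : ℕ∞) + 1) : Set W)
      rw [← h₁.fst_eq_snd hx]
      exact hx

/-- Cellular approximation for maps of low-dimensional compact metric spaces. -/
theorem push_skeleton {W : Type*} [TopologicalSpace W] [T2Space W] [CWComplex (univ : Set W)]
    {K : Type*} [MetricSpace K] [CompactSpace K] (n : ℕ) (hdim : dimH (univ : Set K) < n + 1)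
    (f : C(K, W)) : ∃ f' : C(K, W),
      f.HomotopicRel f' (f ⁻¹' (RelCWComplex.skeleton (univ : Set W) (n : ℕ∞))) ∧
      ∀ k, f' k ∈ (RelCWComplex.skeleton (univ : Set W) (n : ℕ∞) : Set W) := by
  have hfin := finite_cells_of_compact (isCompact_range f.continuous)
  obtain ⟨m, hm⟩ : ∃ m : ℕ, ∀ c ∈ {c : Σ n, RelCWComplex.cell (univ : Set W) n |
      (RelCWComplex.openCell c.1 c.2 ∩ range f).Nonempty}, c.1 ≤ m := by
    obtain ⟨m, hm⟩ := (hfin.image Sigma.fst).bddAbove
    exact ⟨m, fun c hc => hm ⟨c, hc, rfl⟩⟩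
  have hr : range f ⊆ (RelCWComplex.skeletonLT (univ : Set W) ((m + 1 : ℕ) : ℕ∞) : Set W) := by
    intro w hw
    rw [SetLike.mem_coe, CWComplex.mem_skeletonLT_iff]
    have hw2 : w ∈ ⋃ (n : ℕ) (j : RelCWComplex.cell (univ : Set W) n),
        RelCWComplex.openCell n j := by
      rw [CWComplex.iUnion_openCell_eq_complex]; exact mem_univ w
    simp only [mem_iUnion] at hw2
    obtain ⟨i, j, hj⟩ := hw2
    have h1 := hm ⟨i, j⟩ ⟨w, hj, hw⟩
    exact ⟨i, by exact_mod_cast Nat.lt_succ_iff.2 h1, j, hj⟩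
  obtain ⟨f', h', hr'⟩ := push_all hdim (m + 1) f hr
  exact ⟨f', h', fun k => hr' ⟨k, rfl⟩⟩

theorem isCompact_skeleton {W : Type*} [TopologicalSpace W] [T2Space W]
    [CWComplex (univ : Set W)] [RelCWComplex.FiniteType (univ : Set W)] (n : ℕ) :
    IsCompact (RelCWComplex.skeleton (univ : Set W) (n : ℕ∞) : Set W) := by
  have h1 : (RelCWComplex.skeleton (univ : Set W) (n : ℕ∞) : Set W) =
      ⋃ (m : Fin (n + 1)) (j : RelCWComplex.cell (univ : Set W) (m : ℕ)),
        RelCWComplex.closedCell (m : ℕ) j := by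
    rw [RelCWComplex.skeleton, RelCWComplex.coe_skeletonLT, empty_union]
    ext w
    simp only [mem_iUnion]
    constructor
    · rintro ⟨m, hm, j, hj⟩
      exact ⟨⟨m, by exact_mod_cast hm⟩, j, hj⟩
    · rintro ⟨m, j, hj⟩
      exact ⟨m, by exact_mod_cast m.2, j, hj⟩
  rw [h1]
  apply isCompact_iUnion
  intro m
  have : Finite (RelCWComplex.cell (univ : Set W) (m : ℕ)) :=
    RelCWComplex.FiniteType.finite_cell (m : ℕ)
  apply isCompact_iUnion
  intro j
  exact RelCWComplex.isCompact_closedCell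

end push

end SelfCover
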