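import Pool.Agent.SelfCover.CovDef
import Pool.Agent.SelfCover.Push
import Pool.Agent.SelfCover.MTools

/-!
# The infinite cyclic cover is neither finitely dominated nor of finite type

Everything here is conditional on the detection statement `ND`.
-/

open scoped unitInterval Topology NNReal ContinuousMap
open Set

noncomputable section

namespace SelfCover

open MTorus

/-- The detection statement. -/
def ND (N : NDR) : Prop := ∀ (k : ℕ) (c : C(MSp, Z0)) (H : C(MSp × I, Z0)),
  (∀ m, H (m, 0) = (a0 N)^[k + 1] (c m)) → (∀ m, H (m, 1) = (a0 N)^[k] (iota.1 m)) → False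

/-- A continuous real function on a compact space is bounded by a natural number. -/
lemma exists_nat_bound {K : Type*} [TopologicalSpace K] [CompactSpace K] (f : C(K, ℝ)) :
    ∃ n : ℕ, ∀ k, f k ≤ n := by
  obtain ⟨B, hB⟩ := (isCompact_range f.continuous).bddAbove
  obtain ⟨n, hn⟩ := exists_nat_ge B
  exact ⟨n, fun k => (hB ⟨k, rfl⟩).trans hn⟩

theorem no_bound (N : NDR) (hND : ND N) (n : ℕ) : ∃ τ : C(MSp, Cov (a0 N)),
    ∀ τ' : C(MSp, Cov (a0 N)), τ.Homotopic τ' → ∃ m, (n : ℝ) < Cov.ht (a0 N) (τ' m) := by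
  refine ⟨⟨fun m => Cov.pt (a0 N) (n + 1) (iota.1 m),
    (Cov.continuous_pt (a0 N) _).comp iota.1.continuous⟩, ?_⟩
  intro τ' hτ
  by_contra hcon
  push Not at hcon
  obtain ⟨K⟩ := hτ
  let K' : C(MSp × I, Cov (a0 N)) := ⟨fun p => K (σ p.2, p.1), by fun_prop⟩
  have hK0 : ∀ m, K' (m, 0) = τ' m := by
    intro m
    show K (σ 0, m) = τ' m
    rw [unitInterval.symm_zero, K.apply_one]
  have hK1 : ∀ m, K' (m, 1) = Cov.pt (a0 N) (n + 1) (iota.1 m) := by
    intro m
    show K (σ 1, m) = _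
    rw [unitInterval.symm_one, K.apply_zero]
    rfl
  obtain ⟨k, hk⟩ := exists_nat_bound ((Cov.ht (a0 N)).comp K')
  set M : ℤ := (n : ℤ) + 1 + k with hM
  have hMk : ∀ x, ((Cov.ht (a0 N)).comp K') x ≤ (M : ℝ) := by
    intro x
    refine (hk x).trans ?_
    rw [hM]; push_cast
    have : (0 : ℝ) ≤ n := Nat.cast_nonneg n
    linarith
  let H : C(MSp × I, Z0) := ret (a0 N) M ((Cov.p (a0 N)).comp K') ((Cov.ht (a0 N)).comp K')
    (fun x => Cov.pr_p (a0 N) _) hMk
  let c : C(MSp, Z0) := ret (a0 N) n ((Cov.p (a0 N)).comp τ') ((Cov.ht (a0 N)).comp τ')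
    (fun x => Cov.pr_p (a0 N) _) (fun m => by simpa using hcon m)
  apply hND k c H
  · intro m
    apply base_injective (a0 N)
    have h1 : base (a0 N) (H (m, 0)) = flow (a0 N) (Cov.p (a0 N) (τ' m),
        Real.toNNReal (M - Cov.ht (a0 N) (τ' m))) := by
      have := base_ret (a0 N) M ((Cov.p (a0 N)).comp K') ((Cov.ht (a0 N)).comp K')
        (fun x => Cov.pr_p (a0 N) _) hMk (m, 0)
      rw [ContinuousMap.comp_apply, ContinuousMap.comp_apply, hK0] at this
      exact this
    have h2 : base (a0 N) (c m) = flow (a0 N) (Cov.p (a0 N) (τ' m),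
        Real.toNNReal (((n : ℤ) : ℝ) - Cov.ht (a0 N) (τ' m))) :=
      base_ret (a0 N) n ((Cov.p (a0 N)).comp τ') ((Cov.ht (a0 N)).comp τ')
        (fun x => Cov.pr_p (a0 N) _) (fun m => by simpa using hcon m) m
    rw [h1, ← flow_base_nat, h2, flow_flow]
    congr 2
    apply NNReal.coe_injective
    have h3 := hcon m
    rw [NNReal.coe_add, Real.coe_toNNReal _, Real.coe_toNNReal _, hM]
    · push_cast; ring
    · rw [Int.cast_natCast]; linarith
    · rw [hM]; push_cast
      have : (0 : ℝ) ≤ k := Nat.cast_nonneg k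
      linarith
  · intro m
    apply ret_eq_of_base
    · show Cov.p (a0 N) (K' (m, 1)) = _
      rw [hK1, Cov.p_pt]
    · show Cov.ht (a0 N) (K' (m, 1)) + (k : ℝ) = M
      rw [hK1, Cov.ht_pt, hM]
      push_cast; ring

theorem not_dominated (N : NDR) (hND : ND N) (K : Type*) [TopologicalSpace K] [CompactSpace K]
    (i : C(Cov (a0 N), K)) (r : C(K, Cov (a0 N)))
    (h : (r.comp i).Homotopic (ContinuousMap.id _)) : False := by
  obtain ⟨n, hn⟩ := exists_nat_bound ((Cov.ht (a0 N)).comp r)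
  obtain ⟨τ, hτ⟩ := no_bound N hND n
  obtain ⟨m, hm⟩ := hτ ((r.comp i).comp τ) (by
    have h1 := (h.symm).comp (ContinuousMap.Homotopic.refl τ)
    simpa using h1)
  exact absurd (hn (i (τ m))) (not_le.2 hm)

open Topology in
theorem not_finiteType (N : NDR) (hND : ND N) (W : Type*) [TopologicalSpace W] [T2Space W]
    [CWComplex (univ : Set W)] [RelCWComplex.FiniteType (univ : Set W)]
    (E : Cov (a0 N) ≃ₕ W) : False := by
  have hS := isCompact_skeleton (W := W) 4
  set S : Set W := (RelCWComplex.skeleton (univ : Set W) ((4 : ℕ) : ℕ∞) : Set W) with hSdef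
  obtain ⟨B, hB⟩ := (hS.image ((Cov.ht (a0 N)).comp E.invFun).continuous).bddAbove
  obtain ⟨n, hn⟩ := exists_nat_ge B
  obtain ⟨τ, hτ⟩ := no_bound N hND n
  have hdim : dimH (univ : Set MSp) < ((4 : ℕ) : ENNReal) + 1 := by
    refine lt_of_le_of_lt dimH_MSp_le ?_
    norm_num
  obtain ⟨f', hf', hfS⟩ := push_skeleton (W := W) (K := MSp) 4 hdim (E.toFun.comp τ)
  obtain ⟨m, hm⟩ := hτ (E.invFun.comp f') (by
    have h1 : τ.Homotopic ((E.invFun.comp E.toFun).comp τ) := by
      have h2 := (E.left_inv.symm).comp (ContinuousMap.Homotopic.refl τ)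
      simpa using h2
    have h3 : (E.toFun.comp τ).Homotopic f' := by
      obtain ⟨G⟩ := hf'
      exact ⟨G.toHomotopy⟩
    have h4 := (ContinuousMap.Homotopic.refl E.invFun).comp h3
    exact h1.trans (by simpa [ContinuousMap.comp_assoc] using h4))
  have h1 : Cov.ht (a0 N) (E.invFun (f' m)) ≤ B := hB ⟨f' m, hfS m, rfl⟩
  have h2 : (n : ℝ) < Cov.ht (a0 N) (E.invFun (f' m)) := hm
  linarith

end SelfCover
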