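import Pool.Agent.SelfCover.DetectB
import Pool.Agent.SelfCover.NonFin

/-!
Detection of `a0`: realisation of base data by maps into `Z0`, and the main statement.
-/

open scoped unitInterval Topology NNReal
open Set

noncomputable section

namespace SelfCover

open MTorus

variable {K : Type*} [TopologicalSpace K]

lemma sq_iterate (s : ℕ) (r : ℝ) : sq^[s] ((r : ℝ) : UnitAddCircle) =
    ((2 ^ s * r : ℝ) : UnitAddCircle) := by
  induction s generalizing r with
  | zero => simp
  | succ s ih =>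
    rw [Function.iterate_succ_apply]
    have : sq ((r : ℝ) : UnitAddCircle) = ((2 * r : ℝ) : UnitAddCircle) := by
      show ((r : ℝ) : UnitAddCircle) + ((r : ℝ) : UnitAddCircle) = _
      rw [← AddCircle.coe_add]; congr 1; ring
    rw [this, ih, pow_succ]
    congr 1
    ring

lemma coe_eq_zero_iff' (r : ℝ) : ((r : ℝ) : UnitAddCircle) = 0 ↔ ∃ n : ℤ, r = n := by
  rw [AddCircle.coe_eq_zero_iff]
  constructor
  · rintro ⟨n, hn⟩; exact ⟨n, by rw [← hn]; simp⟩
  · rintro ⟨n, hn⟩; exact ⟨n, by rw [hn]; simp⟩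

/-- Base data `A` realised by the map `f`. -/
structure Realises (f : C(K, Z0)) (A : BD K) : Prop where
  m : ∀ k, A.m k = toM (f k)
  h : ∀ k, pr sq (toP (f k)) = ((A.h k : ℝ) : UnitAddCircle)
  y : ∀ k, base sq ((A.y k : ℝ) : UnitAddCircle) =
    flow sq (toP (f k), Real.toNNReal ((A.N : ℝ) - A.h k))

lemma flow_at_int (θ : UnitAddCircle) (n N : ℤ) (s : ℕ) (hs : n + s = N) :
    flow sq (base sq θ, Real.toNNReal ((N : ℝ) - n)) = base sq (sq^[s] θ) := by
  rw [← flow_base_nat]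
  congr 2
  rw [← hs]
  push_cast
  rw [add_sub_cancel_left]
  exact Real.toNNReal_natCast s

/-- integrality is automatic -/
lemma int_of_real (f : C(K, Z0)) (h y : K → ℝ) (N : ℤ) (hN : ∀ k, h k ≤ N)
    (hh : ∀ k, pr sq (toP (f k)) = ((h k : ℝ) : UnitAddCircle))
    (hy : ∀ k, base sq ((y k : ℝ) : UnitAddCircle) =
      flow sq (toP (f k), Real.toNNReal ((N : ℝ) - h k))) :
    IntData (fun k => toM (f k)) h y := by
  intro k hk
  have hP : toP (f k) = p0 := (toP_or_toM (f k)).resolve_right hk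
  have h1 : ((h k : ℝ) : UnitAddCircle) = 0 := by
    rw [← hh, hP]; exact pr_base sq 0
  obtain ⟨n, hn⟩ := (coe_eq_zero_iff' _).mp h1
  refine ⟨⟨n, hn⟩, ?_⟩
  have h2 : n ≤ N := by
    have := hN k
    rw [hn] at this
    exact_mod_cast this
  obtain ⟨s, hs⟩ := Int.le.dest h2
  have h3 := hy k
  rw [hP, hn, show p0 = base sq 0 from rfl, flow_at_int 0 n N s hs] at h3
  have h4 := base_injective sq h3
  have h5 : sq^[s] (0 : UnitAddCircle) = 0 := by
    have := sq_iterate s 0
    simpa using this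
  rw [h5] at h4
  exact (coe_eq_zero_iff' _).mp h4

/-- A lifted pointed map representing `g` acts like `ext g`. -/
lemma Realises.act {f : C(K, Z0)} {A : BD K} (hA : Realises f A) {B : LPM} {g : PM Z0 z0}
    (hB : B.Rep g) : Realises ((ext g).comp f) (A.act B) := by
  have hcase : ∀ k, (toM (f k) = mpt ∧ ext g (f k) = f k) ∨
      (toP (f k) = p0 ∧ ext g (f k) = g.1 (toM (f k))) := by
    intro k
    rcases toP_or_toM (f k) with h | h
    · right
      refine ⟨h, ?_⟩
      conv_lhs => rw [eq_iota_of_toP h]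
      exact ext_iota g _
    · left
      refine ⟨h, ?_⟩
      conv_lhs => rw [eq_incl_of_toM h]
      rw [ext_incl]
      exact (eq_incl_of_toM h).symm
  constructor
  · intro k
    show B.μ.1 (A.m k) = toM (ext g (f k))
    rw [hA.m]
    rcases hcase k with ⟨h1, h2⟩ | ⟨h1, h2⟩
    · rw [h2, h1, B.μ.2]
    · rw [h2, hB.1]
  · intro k
    show pr sq (toP (ext g (f k))) = ((A.h k : ℝ) : UnitAddCircle)
    rw [← hA.h]
    rcases hcase k with ⟨h1, h2⟩ | ⟨h1, h2⟩
    · rw [h2]
    · rw [h2, hB.2, h1, pr_base]; exact (pr_base sq 0).symm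
  · intro k
    rw [BD.act_y, BD.act_h, BD.act_N]
    show base sq _ = flow sq (toP (ext g (f k)), _)
    rcases hcase k with ⟨h1, h2⟩ | ⟨h1, h2⟩
    · rw [h2, ← hA.y, hA.m, h1, B.w.2, mul_zero, add_zero]
    · have hh0 : ((A.h k : ℝ) : UnitAddCircle) = 0 := by
        rw [← hA.h, h1]; exact pr_base sq 0
      obtain ⟨n, hn⟩ := (coe_eq_zero_iff' _).mp hh0
      have hnN : n ≤ A.N := by
        have := A.hN k
        rw [hn] at this
        exact_mod_cast this
      obtain ⟨s, hs⟩ := Int.le.dest hnN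
      have hy0 : ((A.y k : ℝ) : UnitAddCircle) = 0 := by
        have h3 := hA.y k
        rw [h1, hn, show p0 = base sq 0 from rfl, flow_at_int 0 n A.N s hs] at h3
        have h4 := base_injective sq h3
        have h5 : sq^[s] (0 : UnitAddCircle) = 0 := by
          have := sq_iterate s 0
          simpa using this
        rw [h5] at h4
        exact h4
      rw [h2, hB.2, hn, flow_at_int _ n A.N s hs, sq_iterate, AddCircle.coe_add, hy0, zero_add,
        hA.m]
      congr 3
      have e1 : (A.N : ℝ) - n = (s : ℝ) := by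
        rw [← hs]; push_cast; ring
      rw [e1, Real.rpow_natCast]

/-- Existence of base data over `MSp`. -/
lemma exists_realises (f : C(MSp, Z0)) (h : C(MSp, ℝ)) (N : ℤ) (hN : ∀ k, h k ≤ N)
    (hh : ∀ k, pr sq (toP (f k)) = ((h k : ℝ) : UnitAddCircle)) :
    ∃ A : BD MSp, Realises f A ∧ A.N = N ∧ A.h = h := by
  obtain ⟨y, hy⟩ := exists_circle_lift (ret sq N (toP.comp f) h hh hN)
  have hy' : ∀ k, base sq ((y k : ℝ) : UnitAddCircle) =
      flow sq (toP (f k), Real.toNNReal ((N : ℝ) - h k)) := by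
    intro k
    rw [hy]
    exact base_ret sq N (toP.comp f) h hh hN k
  exact ⟨⟨toM.comp f, h, y, N, hN, int_of_real f h y N hN hh hy'⟩,
    ⟨fun _ => rfl, hh, hy'⟩, rfl, rfl⟩

/-- Existence of base data over `I × MSp`, extending given data at `0`. -/
lemma exists_realises_htpy (H : C(I × MSp, Z0)) (h : C(I × MSp, ℝ)) (N : ℤ)
    (hN : ∀ k, h k ≤ N) (hh : ∀ k, pr sq (toP (H k)) = ((h k : ℝ) : UnitAddCircle))
    (y₀ : C(MSp, ℝ)) (hy₀ : ∀ m, base sq ((y₀ m : ℝ) : UnitAddCircle) =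
      flow sq (toP (H (0, m)), Real.toNNReal ((N : ℝ) - h (0, m)))) :
    ∃ A : BD (I × MSp), Realises H A ∧ A.N = N ∧ A.h = h ∧ ∀ m, A.y (0, m) = y₀ m := by
  let r : C(I × MSp, UnitAddCircle) := ret sq N (toP.comp H) h hh hN
  have hr : ∀ k, base sq (r k) = flow sq (toP (H k), Real.toNNReal ((N : ℝ) - h k)) :=
    fun k => base_ret sq N (toP.comp H) h hh hN k
  have h0 : ∀ m, r (0, m) = ((y₀ m : ℝ) : UnitAddCircle) := by
    intro m
    apply base_injective sq
    rw [hr, hy₀]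
  let y := covR.liftHomotopy r y₀ h0
  have hy : ∀ p, ((y p : ℝ) : UnitAddCircle) = r p := fun p =>
    congrFun (covR.liftHomotopy_lifts r y₀ h0) p
  have hy0 : ∀ t, y (0, t) = y₀ t := fun t => covR.liftHomotopy_zero r y₀ h0 t
  have hy' : ∀ k, base sq ((y k : ℝ) : UnitAddCircle) =
      flow sq (toP (H k), Real.toNNReal ((N : ℝ) - h k)) := by
    intro k
    rw [hy]
    exact hr k
  exact ⟨⟨toM.comp H, h, y, N, hN, int_of_real H h y N hN hh hy'⟩,
    ⟨fun _ => rfl, hh, hy'⟩, rfl, rfl, hy0⟩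

/-- iterates -/
lemma exists_iterate (N : NDR) (𝔇 : DegFun) (f : C(MSp, Z0)) (A : BD MSp) (hA : Realises f A)
    (n : ℤ) (s : ℕ) (hs : n + s = A.N) (k : ℕ) :
    ∃ (f' : C(MSp, Z0)) (A' : BD MSp), (∀ m, f' m = (a0 N)^[k] (f m)) ∧ Realises f' A' ∧
      A'.N = A.N ∧ A'.h = A.h ∧ ∀ c, 𝔇.d A' n c = (opT (2 ^ (s + 1)))^[k] (𝔇.d A n) c := by
  induction k with
  | zero => exact ⟨f, A, fun _ => rfl, hA, rfl, rfl, fun _ => rfl⟩
  | succ k ih =>
    obtain ⟨f', A', h1, h2, h3, h4, h5⟩ := ih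
    refine ⟨(a0 N).comp f', A'.act (faL N), ?_, h2.act (faL_rep N), ?_, ?_, ?_⟩
    · intro m
      rw [ContinuousMap.comp_apply, h1, Function.iterate_succ_apply']
    · rw [BD.act_N, h3]
    · rw [BD.act_h, h4]
    · intro c
      rw [𝔇.d_faL N A' n s (by rw [h3]; exact hs), Function.iterate_succ_apply']
      unfold opT
      rw [h5, h5]
      rfl

lemma pr_toP_a0 (N : NDR) (z : Z0) : pr sq (toP (a0 N z)) = pr sq (toP z) := by
  rcases toP_or_toM z with h | h
  · have h1 : a0 N z = (fa N).1 (toM z) := by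
      conv_lhs => rw [eq_iota_of_toP h]
      exact ext_iota _ _
    rw [h1, (faL_rep N).2, pr_base, h]
    exact (pr_base sq 0).symm
  · have h1 : a0 N z = z := by
      conv_lhs => rw [eq_incl_of_toM h]
      rw [a0_incl]
      exact (eq_incl_of_toM h).symm
    rw [h1]

lemma pr_toP_a0_iterate (N : NDR) (k : ℕ) (z : Z0) :
    pr sq (toP ((a0 N)^[k] z)) = pr sq (toP z) := by
  induction k generalizing z with
  | zero => rfl
  | succ k ih => rw [Function.iterate_succ_apply, ih, pr_toP_a0]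

instance : PreconnectedSpace MSp := by
  have h : (univ : Set MSp) = range mproj := mproj_surjective.range_eq.symm
  constructor
  rw [h]
  exact isPreconnected_range mproj.continuous

/-- The detection theorem. -/
theorem detect (N : NDR) : ND N := by
  obtain ⟨𝔇⟩ := exists_degFun
  intro k c H H0 H1
  -- heights
  have hswap : ∀ p : I × MSp, (H.comp ⟨Prod.swap, continuous_swap⟩) p = H (p.2, p.1) :=
    fun p => rfl
  set H' : C(I × MSp, Z0) := H.comp ⟨Prod.swap, continuous_swap⟩ with hH'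
  obtain ⟨hc, hhc⟩ := exists_circle_lift ((pr sq).comp (toP.comp c))
  have hz : ∀ m, ((pr sq).comp (toP.comp H')) (0, m) = ((hc m : ℝ) : UnitAddCircle) := by
    intro m
    rw [hhc]
    show pr sq (toP (H' (0, m))) = pr sq (toP (c m))
    rw [hswap]
    show pr sq (toP (H (m, 0))) = _
    rw [H0, pr_toP_a0_iterate]
  let hH := covR.liftHomotopy ((pr sq).comp (toP.comp H')) hc hz
  have hhH : ∀ p, pr sq (toP (H' p)) = ((hH p : ℝ) : UnitAddCircle) := fun p =>
    (congrFun (covR.liftHomotopy_lifts ((pr sq).comp (toP.comp H')) hc hz) p).symm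
  have hhH0 : ∀ m, hH (0, m) = hc m := fun m =>
    covR.liftHomotopy_zero ((pr sq).comp (toP.comp H')) hc hz m
  obtain ⟨M, hM⟩ : ∃ M : ℝ, ∀ t, hH t ≤ M := by
    obtain ⟨x, -, hx⟩ := isCompact_univ.exists_isMaxOn
      (⟨(0, mpt), mem_univ _⟩ : (univ : Set (I × MSp)).Nonempty) hH.continuous.continuousOn
    exact ⟨hH x, fun t => hx (mem_univ t)⟩
  obtain ⟨L, hL⟩ := exists_nat_ge M
  have hHL : ∀ t, hH t ≤ ((L : ℤ) : ℝ) := fun t => by
    push_cast; exact (hM t).trans hL
  -- the height at the end `1` is a constant integer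
  obtain ⟨n, hn⟩ : ∃ n : ℤ, ∀ m, hH (1, m) = n := by
    have hzero : ∀ m, ((hH (1, m) : ℝ) : UnitAddCircle) = 0 := by
      intro m
      rw [← hhH, hswap]
      show pr sq (toP (H (m, 1))) = 0
      rw [H1, pr_toP_a0_iterate, toP_iota]
      exact pr_base sq 0
    obtain ⟨n, hn⟩ := (coe_eq_zero_iff' _).mp (hzero mpt)
    refine ⟨n, fun m => ?_⟩
    rw [← hn]
    exact covR.const_of_comp (g := fun m => hH (1, m)) (by fun_prop) (fun m m' => by
      show ((hH (1, m) : ℝ) : UnitAddCircle) = ((hH (1, m') : ℝ) : UnitAddCircle)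
      rw [hzero, hzero]) m mpt
  have hnL : n ≤ (L : ℤ) := by
    have := hHL (1, mpt)
    rw [hn] at this
    exact_mod_cast this
  obtain ⟨s, hs⟩ := Int.le.dest hnL
  -- data of `c`
  obtain ⟨A, hA, hAN, hAh⟩ := exists_realises c hc L (fun m => by rw [← hhH0]; exact hHL _)
    (fun m => (hhc m).symm)
  obtain ⟨f1, A1, hf1, hA1, hA1N, hA1h, hA1d⟩ := exists_iterate N 𝔇 c A hA n s
    (by rw [hAN]; exact hs) (k + 1)
  -- data of `H`
  obtain ⟨A2, hA2, hA2N, hA2h, hA2y⟩ := exists_realises_htpy H' hH L hHL hhH A1.y (by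
    intro m
    rw [hA1.y, hf1, hswap]
    show flow sq (toP ((a0 N)^[k + 1] (c m)), _) = flow sq (toP (H (m, 0)), _)
    rw [H0, hA1N, hAN, hA1h, hAh, hhH0])
  -- standard data of `ι`
  let B : BD MSp :=
    { m := ContinuousMap.id MSp
      h := ContinuousMap.const _ (n : ℝ)
      y := ContinuousMap.const _ 0
      N := L
      hN := fun _ => by
        show (n : ℝ) ≤ ((L : ℤ) : ℝ)
        exact_mod_cast hnL
      int := fun _ _ => ⟨⟨n, rfl⟩, ⟨0, by simp⟩⟩ }
  have hB : Realises iota.1 B := by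
    refine ⟨fun _ => rfl, fun m => ?_, fun m => ?_⟩
    · rw [toP_iota]
      have h1 : pr sq p0 = 0 := pr_base sq 0
      rw [h1]
      exact ((coe_eq_zero_iff' _).mpr ⟨n, rfl⟩).symm
    · rw [toP_iota]
      show base sq ((0 : ℝ) : UnitAddCircle) = flow sq (base sq 0, Real.toNNReal (((L : ℤ) : ℝ) - n))
      rw [flow_at_int 0 n L s hs]
      congr 1
      have := sq_iterate s 0
      simpa using this.symm
  obtain ⟨f3, A3, hf3, hA3, hA3N, hA3h, hA3d⟩ := exists_iterate N 𝔇 iota.1 B hB n s hs k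
  -- the data at the end 1 of `H`
  let A2' : BD MSp :=
    { m := A2.m.comp ⟨fun m => (1, m), by fun_prop⟩
      h := A2.h.comp ⟨fun m => (1, m), by fun_prop⟩
      y := A2.y.comp ⟨fun m => (1, m), by fun_prop⟩
      N := L
      hN := fun m => by
        have := A2.hN (1, m)
        rw [hA2N] at this
        exact this
      int := fun m hm => A2.int (1, m) hm }
  have e1 : ∀ j, 𝔇.d A1 n j = 𝔇.d A2' n j := by
    intro j
    refine 𝔇.dc_htpy (A2.m.comp ⟨Prod.swap, continuous_swap⟩)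
      (A2.h.comp ⟨Prod.swap, continuous_swap⟩) (A2.y.comp ⟨Prod.swap, continuous_swap⟩)
      (fun p hp => A2.int p.swap hp) n j A1.m A2'.m A1.h A2'.h A1.y A2'.y A1.int A2'.int
      ?_ ?_ ?_ ?_ ?_ ?_
    · intro m
      show A2.m (0, m) = A1.m m
      rw [hA2.m, hA1.m, hf1, hswap]
      show toM (H (m, 0)) = _
      rw [H0]
    · intro m; rfl
    · intro m
      show A2.h (0, m) = A1.h m
      rw [hA2h, hA1h, hAh, hhH0]
    · intro m; rfl
    · intro m
      exact hA2y m
    · intro m; rfl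
  -- comparison of the two data at the end 1
  obtain ⟨j₀, hj₀⟩ : ∃ j₀ : ℤ, ∀ m, A2'.y m = A3.y m + j₀ := by
    have hyy : ∀ m, ((A2'.y m : ℝ) : UnitAddCircle) = ((A3.y m : ℝ) : UnitAddCircle) := by
      intro m
      apply base_injective sq
      rw [hA3.y, hf3]
      show base sq ((A2.y (1, m) : ℝ) : UnitAddCircle) = _
      rw [hA2.y, hswap, hA2N, hA3N, hA3h, hA2h, hn]
      show flow sq (toP (H (m, 1)), _) = _
      rw [H1]
      rfl
    have hdiff : ∀ m, ((A2'.y m - A3.y m : ℝ) : UnitAddCircle) = 0 := by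
      intro m
      rw [AddCircle.coe_sub, hyy, sub_self]
    obtain ⟨j₀, hj⟩ := (coe_eq_zero_iff' _).mp (hdiff mpt)
    refine ⟨j₀, fun m => ?_⟩
    have : A2'.y m - A3.y m = A2'.y mpt - A3.y mpt :=
      covR.const_of_comp (g := fun m => A2'.y m - A3.y m) (by fun_prop) (fun m m' => by
        show ((A2'.y m - A3.y m : ℝ) : UnitAddCircle) = ((A2'.y m' - A3.y m' : ℝ) : UnitAddCircle)
        rw [hdiff, hdiff]) m mpt
    linarith
  have e2 : ∀ j, 𝔇.d A2' n j = 𝔇.d A3 n (j - j₀) := by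
    intro j
    unfold DegFun.d DegFun.dc
    congr 1
    ext1 m
    rw [cmp_apply, cmp_apply]
    apply cmpFun_congr
    · show A2.m (1, m) = A3.m m
      rw [hA2.m, hA3.m, hf3, hswap]
      show toM (H (m, 1)) = _
      rw [H1]
    · intro _
      have q1 : A2'.h m = A3.h m := by
        show A2.h (1, m) = A3.h m
        rw [hA2h, hA3h, hn]
        rfl
      rw [q1, hj₀]
      push_cast
      rw [show A3.y m + (j₀ : ℝ) - j = A3.y m - ((j : ℝ) - j₀) by ring]
  -- degrees of `ι`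
  have e3 : 𝔇.d B n = fun c => if c = 0 then 1 else 0 := by
    funext j
    unfold DegFun.d DegFun.dc
    split_ifs with hj
    · rw [← 𝔇.id]
      congr 1
      ext1 m
      rw [cmp_apply]
      show cmpFun _ _ _ n j m = m
      unfold cmpFun
      rw [if_pos]
      · rfl
      · show |(n : ℝ) - n| < 1 / 2 ∧ |(0 : ℝ) - j| < 1 / 2
        rw [hj]; norm_num
    · rw [← 𝔇.const]
      congr 1
      ext1 m
      rw [cmp_apply]
      show cmpFun _ _ _ n j m = mpt
      unfold cmpFun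
      rw [if_neg]
      rintro ⟨-, h2⟩
      have h3 : |((0 : ℤ) : ℝ) - j| < 1 / 2 := by push_cast; exact h2
      rw [abs_int_sub_lt_half] at h3
      exact hj h3.symm
  -- finite support of the degrees of `c`
  obtain ⟨R, hR⟩ : ∃ R : ℝ, ∀ m, |A.y m| ≤ R := by
    obtain ⟨x, -, hx⟩ := isCompact_univ.exists_isMaxOn
      (⟨mpt, mem_univ _⟩ : (univ : Set MSp).Nonempty)
      (show Continuous fun m => |A.y m| by fun_prop).continuousOn
    exact ⟨|A.y x|, fun t => hx (mem_univ t)⟩
  obtain ⟨R', hR'⟩ := exists_nat_ge (R + 1)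
  have hfin : ∀ j : ℤ, (R' : ℤ) < |j| → 𝔇.d A n j = 0 := by
    intro j hj
    rw [← 𝔇.const]
    unfold DegFun.d DegFun.dc
    congr 1
    ext1 m
    rw [cmp_apply]
    show cmpFun _ _ _ n j m = mpt
    unfold cmpFun
    rw [if_neg]
    rintro ⟨-, h2⟩
    have h3 : (R' : ℝ) < |(j : ℝ)| := by exact_mod_cast hj
    have h4 := abs_sub_abs_le_abs_sub (j : ℝ) (A.y m)
    rw [abs_sub_comm] at h4
    have h5 := hR m
    linarith
  -- the contradiction
  refine opT_contra (T := 2 ^ (s + 1)) (by positivity) (𝔇.d A n) R' hfin j₀ k ?_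
  intro j
  rw [← hA1d, e1, e2, hA3d, e3]

end SelfCover
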