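import Pool.Agent.SelfCover.Space
import Pool.Agent.SelfCover.Cells
import Pool.Agent.SelfCover.MTools

/-!
Finite CW structures on `Z0 = P ∨ MSp` and on the mapping torus of `a0`.
-/

open scoped unitInterval Topology NNReal ContinuousMap
open Set

noncomputable section

namespace SelfCover

open MTorus

/-- a finite cell decomposition of `P` -/
theorem exists_cellDecomp_P : ∃ D : CellDecomp P, p0 ∈ D.sk 0 ∧ ∀ p, p ∈ D.sk 2 := by
  obtain ⟨D0, h0, h1, h2⟩ := exists_cellDecomp_circle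
  obtain ⟨D1, hD1⟩ := exists_cellDecomp_mtorus D0 sq (by
    intro n z hz
    rcases Nat.eq_zero_or_pos n with rfl | hn
    · rw [h0, mem_singleton_iff] at hz ⊢
      rw [hz]; exact add_zero 0
    · rw [h2 n hn]; exact mem_univ _)
  refine ⟨D1, ?_, ?_⟩
  · rw [hD1]
    left
    exact ⟨0, by rw [h0]; rfl, rfl⟩
  · intro p
    rw [hD1]
    right
    refine ⟨by norm_num, ?_⟩
    obtain ⟨⟨z, t⟩, rfl⟩ := mk_surjective sq p
    exact ⟨z, by rw [h2 (2 - 1) (by norm_num)]; exact mem_univ _, t, rfl⟩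

/-- a finite cell decomposition of `Z0` -/
theorem exists_cellDecomp_Z0 : ∃ D : CellDecomp Z0,
    (∀ n ≤ 2, ∀ z ∈ D.sk n, toM z = mpt) ∧ D.sk 2 = {z | toM z = mpt} ∧
    D.sk 3 = {z | toM z = mpt ∨ toM z ∈ msk3} ∧ (∀ n ≥ 4, D.sk n = univ) := by
  obtain ⟨D1, h0, h2⟩ := exists_cellDecomp_P
  obtain ⟨D2, k1, k2, k3⟩ := exists_cellDecomp_wdg D1 p0 h0 h2
  refine ⟨D2, ?_, ?_, k2, k3⟩
  · intro n hn z hz
    rw [k1 n hn] at hz
    exact hz.1
  · rw [k1 2 le_rfl]
    ext z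
    exact ⟨fun h => h.1, fun h => ⟨h, h2 _⟩⟩

open Topology in
/-- a finite CW structure on `Z0 = P ∨ MSp` with 2-skeleton `P` -/
theorem exists_cw_Z0 : ∃ C : CWComplex (univ : Set Z0), letI := C
    RelCWComplex.Finite (univ : Set Z0) ∧
    (RelCWComplex.skeleton (univ : Set Z0) ((2 : ℕ) : ℕ∞) : Set Z0) = {z | toM z = mpt} := by
  obtain ⟨D, h1, h2, h3, h4⟩ := exists_cellDecomp_Z0
  obtain ⟨C, hC1, hC2⟩ := D.exists_cw
  exact ⟨C, hC1, (hC2 2).trans h2⟩

lemma toM_gmap_mem (N : NDR) (e : ℕ) (m : MSp) (hm : m ∈ msk3) : toM ((gmap N e).1 m) ∈ msk3 :=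
  N.δ_sk m 0 hm

lemma toM_add_mem (f g : PM Z0 z0) (hf : ∀ m ∈ msk3, toM (f.1 m) ∈ msk3)
    (hg : ∀ m ∈ msk3, toM (g.1 m) ∈ msk3) (m : MSp) (hm : m ∈ msk3) :
    toM ((PM.add f g).1 m) ∈ msk3 := by
  rw [PM.add_apply]
  unfold addFun
  split_ifs
  · exact hf _ (lam1_msk3 m hm)
  · exact hg _ (lam2_msk3 m hm)

lemma toM_fa_mem (N : NDR) (m : MSp) (hm : m ∈ msk3) : toM ((fa N).1 m) ∈ msk3 := by
  unfold fa
  refine toM_add_mem _ _ ?_ ?_ m hm
  · exact toM_add_mem _ _ (toM_gmap_mem N 0) (toM_gmap_mem N 1)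
  · exact toM_add_mem _ _ (toM_gmap_mem N 1) (toM_gmap_mem N 2)

lemma a0_of_toM (N : NDR) {z : Z0} (h : toM z = mpt) : a0 N z = z := by
  have h1 := eq_incl_of_toM h
  rw [h1]
  exact ext_incl _ _

open Topology in
/-- a finite CW structure on the mapping torus of `a0` (a0 is cellular) -/
theorem exists_cw_X (N : NDR) : ∃ C : CWComplex (univ : Set (MTorus (a0 N))), letI := C
    RelCWComplex.Finite (univ : Set (MTorus (a0 N))) := by
  obtain ⟨D, h1, h2, h3, h4⟩ := exists_cellDecomp_Z0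
  obtain ⟨D', hD'⟩ := exists_cellDecomp_mtorus D (a0 N) (by
    intro n z hz
    rcases le_or_gt n 2 with hn | hn
    · rw [a0_of_toM N (h1 n hn z hz)]
      exact hz
    · rcases Nat.lt_or_ge n 4 with hn' | hn'
      · have hn3 : n = 3 := by omega
        subst hn3
        by_cases hm : toM z = mpt
        · rw [a0_of_toM N hm]
          exact hz
        · rw [h3] at hz ⊢
          have hz' := hz.resolve_left hm
          have hp : toP z = p0 := (toP_or_toM z).resolve_right hm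
          right
          rw [eq_iota_of_toP hp]
          have h5 : a0 N (iota.1 (toM z)) = (fa N).1 (toM z) := ext_iota _ _
          rw [h5]
          exact toM_fa_mem N _ hz'
      · rw [h4 n hn']
        exact mem_univ _)
  obtain ⟨C, hC1, hC2⟩ := D'.exists_cw
  exact ⟨C, hC1⟩

end SelfCover
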