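import Pool.Agent.SelfCover.Space
import Pool.Agent.SelfCover.Pi1Torus
import Pool.Agent.SelfCover.BS

/-!
`π₁(P)` is finitely presented (it is the Baumslag-Solitar group `BS(1,2)`).
-/

open scoped unitInterval Topology NNReal ContinuousMap
open Set

noncomputable section

namespace SelfCover

open MTorus

/-- the degree on the circle -/
abbrev dC : FundamentalGroup UnitAddCircle (0 : UnitAddCircle) →* Multiplicative ℤ :=
  deg (ContinuousMap.id UnitAddCircle) (rfl : ContinuousMap.id UnitAddCircle 0 = 0)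

/-- the standard loop of the circle -/
def xi : Path (0 : UnitAddCircle) (0 : UnitAddCircle) where
  toFun t := ((t : ℝ) : UnitAddCircle)
  continuous_toFun := by fun_prop
  source' := rfl
  target' := by
    rw [AddCircle.coe_eq_zero_iff]
    exact ⟨1, by simp⟩

lemma coe_int_circle (n : ℤ) : ((n : ℝ) : UnitAddCircle) = 0 := by
  rw [AddCircle.coe_eq_zero_iff]; exact ⟨n, by simp⟩

lemma dC_xi : dC (cls xi) = Multiplicative.ofAdd 1 := by
  have h := deg_cls (ContinuousMap.id UnitAddCircle) rfl xi ⟨fun t => (t : ℝ), by fun_prop⟩ rfl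
    (by intro t; rfl)
  apply Multiplicative.toAdd.injective
  have h2 : (((dC (cls xi)).toAdd : ℤ) : ℝ) = 1 := by
    rw [h]; rfl
  exact_mod_cast h2

/-- a loop of degree zero in the circle is null-homotopic -/
lemma eq_one_of_dC {g : FundamentalGroup UnitAddCircle (0 : UnitAddCircle)} (h : dC g = 1) :
    g = 1 := by
  obtain ⟨γ, rfl⟩ := cls_surjective g
  obtain ⟨r, h1, h2⟩ := exists_lift (ContinuousMap.id UnitAddCircle) rfl γ
  have h3 : r 1 = 0 := (deg_cls_eq_one_iff (ContinuousMap.id UnitAddCircle) rfl γ r h1 h2).mp h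
  rw [← cls_refl, cls_eq_iff]
  refine ⟨⟨⟨⟨fun p => (((1 - (p.1 : ℝ)) * r p.2 : ℝ) : UnitAddCircle), by fun_prop⟩, ?_, ?_⟩, ?_⟩⟩
  · intro t
    show (((1 - ((0 : I) : ℝ)) * r t : ℝ) : UnitAddCircle) = γ t
    rw [Set.Icc.coe_zero, sub_zero, one_mul]
    exact h2 t
  · intro t
    show (((1 - ((1 : I) : ℝ)) * r t : ℝ) : UnitAddCircle) = 0
    rw [Set.Icc.coe_one, sub_self, zero_mul]
    rfl
  · rintro t y (rfl | hy)
    · show (((1 - (t : ℝ)) * r 0 : ℝ) : UnitAddCircle) = γ 0
      rw [h1, mul_zero, γ.source]; rfl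
    · rw [mem_singleton_iff] at hy
      subst hy
      show (((1 - (t : ℝ)) * r 1 : ℝ) : UnitAddCircle) = γ 1
      rw [h3, mul_zero, γ.target]; rfl

lemma dC_injective : Function.Injective dC :=
  (injective_iff_map_eq_one dC).mpr fun _ h => eq_one_of_dC h

lemma eq_zpow_xi (g : FundamentalGroup UnitAddCircle (0 : UnitAddCircle)) :
    g = (cls xi) ^ (dC g).toAdd := by
  apply dC_injective
  rw [map_zpow, dC_xi, ← ofAdd_zsmul]
  simp

lemma sq_zero : sq (0 : UnitAddCircle) = 0 := add_zero (0 : UnitAddCircle)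

lemma aStar_xi : aStar sq sq_zero (cls xi) = (cls xi) ^ 2 := by
  apply dC_injective
  rw [map_pow, dC_xi, mapOfEq_cls]
  have h := deg_cls (ContinuousMap.id UnitAddCircle) rfl
    (pushLoop sq sq_zero xi) ⟨fun t => (t : ℝ) + t, by fun_prop⟩ (by simp)
    (by
      intro t
      show (((t : ℝ) + t : ℝ) : UnitAddCircle) = ((t : ℝ) : UnitAddCircle) + ((t : ℝ) : UnitAddCircle)
      rw [AddCircle.coe_add])
  apply Multiplicative.toAdd.injective
  have h2 : (((dC (cls (pushLoop sq sq_zero xi))).toAdd : ℤ) : ℝ) = 2 := by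
    rw [h]
    show ((1 : I) : ℝ) + ((1 : I) : ℝ) = 2
    norm_num
  have h3 : (dC (cls (pushLoop sq sq_zero xi))).toAdd = 2 := by
    exact_mod_cast h2
  rw [h3]
  rfl

lemma sq_iterate (N : ℕ) (θ : ℝ) : sq^[N] (θ : UnitAddCircle) =
    (((2 : ℝ) ^ N * θ : ℝ) : UnitAddCircle) := by
  induction N with
  | zero => simp
  | succ N ih =>
    rw [Function.iterate_succ_apply', ih]
    show (((2 : ℝ) ^ N * θ : ℝ) : UnitAddCircle) + (((2 : ℝ) ^ N * θ : ℝ) : UnitAddCircle) = _
    rw [← AddCircle.coe_add]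
    congr 1
    ring

/-- `BS(1,2) = π₁(P)` is finitely presented. -/
theorem isFinitelyPresented_pi1_P : Group.IsFinitelyPresented (FundamentalGroup P p0) := by
  have hz : sq (0 : UnitAddCircle) = 0 := sq_zero
  show Group.IsFinitelyPresented (FundamentalGroup (MTorus sq) (base sq 0))
  refine isFinitelyPresented_of_bs (baseStar sq 0 (cls xi)) (cls (sLoop sq hz)) ?_ ?_
    (tdeg sq 0) (tdeg_baseStar sq _) (tdeg_sLoop sq hz) ?_
  · -- generation
    rw [eq_top_iff]
    rintro g -
    set x := baseStar sq 0 (cls xi) with hx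
    set s := cls (sLoop sq hz) with hs
    set k := (tdeg sq 0 g).toAdd with hk
    have hxm : x ∈ Subgroup.closure {x, s} := Subgroup.subset_closure (by simp)
    have hsm : s ∈ Subgroup.closure {x, s} := Subgroup.subset_closure (by simp)
    have hdeg : tdeg sq 0 (s ^ (-k) * g) = 1 := by
      rw [map_mul, map_zpow, hs, tdeg_sLoop, ← ofAdd_zsmul]
      apply Multiplicative.toAdd.injective
      rw [toAdd_mul, toAdd_ofAdd, ← hk, toAdd_one]
      simp
    obtain ⟨N, β, hβ⟩ := exists_conj sq hz _ hdeg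
    rw [eq_zpow_xi β, map_zpow, ← hs, ← hx] at hβ
    have hg : g = s ^ k * ((s ^ N)⁻¹ * x ^ (dC β).toAdd * s ^ N) := by
      have h1 : s ^ (-k) * g = (s ^ N)⁻¹ * (x ^ (dC β).toAdd * s ^ N) := by
        rw [← hβ]; group
      have h2 : g = s ^ k * (s ^ (-k) * g) := by group
      rw [h2, h1]; group
    rw [hg]
    refine Subgroup.mul_mem _ (Subgroup.zpow_mem _ hsm _) ?_
    refine Subgroup.mul_mem _ (Subgroup.mul_mem _ (Subgroup.inv_mem _ (Subgroup.pow_mem _ hsm _))
      (Subgroup.zpow_mem _ hxm _)) (Subgroup.pow_mem _ hsm _)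
  · rw [sLoop_rel, aStar_xi, map_pow, mul_inv_cancel_right]
  · intro n hn
    rw [← map_pow] at hn
    obtain ⟨β, hβ⟩ := cls_surjective ((cls xi) ^ n)
    rw [hβ] at hn
    obtain ⟨N, H, hH0, hH1, hH2, hH3⟩ := exists_iterate_eq_one sq β hn
    have hfix : sq^[N] (0 : UnitAddCircle) = 0 := Function.iterate_fixed hz N
    obtain ⟨r, h1, h2⟩ := exists_lift (ContinuousMap.id UnitAddCircle) rfl β
    -- the iterated loop
    let β' : Path (0 : UnitAddCircle) (0 : UnitAddCircle) :=
      { toFun := fun t => sq^[N] (β t)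
        continuous_toFun := by
          have : Continuous (sq^[N]) := sq.continuous.iterate N
          exact this.comp β.continuous
        source' := by rw [β.source]; exact hfix
        target' := by rw [β.target]; exact hfix }
    have hβ' : cls β' = 1 := by
      rw [← cls_refl, cls_eq_iff]
      refine ⟨⟨⟨⟨fun p => H p, by fun_prop⟩, ?_, ?_⟩, ?_⟩⟩
      · intro t; exact hH0 t
      · intro t; exact (hH1 t).trans hfix
      · rintro t y (rfl | hy)
        · show H (t, 0) = sq^[N] (β 0)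
          rw [hH2, β.source]
        · rw [mem_singleton_iff] at hy
          subst hy
          show H (t, 1) = sq^[N] (β 1)
          rw [hH3, β.target]
    have h3 := (deg_cls_eq_one_iff (ContinuousMap.id UnitAddCircle) rfl β'
      ⟨fun t => (2 : ℝ) ^ N * r t, by fun_prop⟩ (by simp [h1]) (by
        intro t
        show (((2 : ℝ) ^ N * r t : ℝ) : UnitAddCircle) = sq^[N] (β t)
        have h4 : β t = ((r t : ℝ) : UnitAddCircle) := (h2 t).symm
        rw [h4, sq_iterate])).mp (by rw [hβ', map_one])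
    have h5 : r 1 = 0 := by
      have h6 : (2 : ℝ) ^ N * r 1 = 0 := h3
      have h7 : (2 : ℝ) ^ N ≠ 0 := by positivity
      exact (mul_eq_zero.mp h6).resolve_left h7
    have h8 : dC (cls β) = 1 :=
      (deg_cls_eq_one_iff (ContinuousMap.id UnitAddCircle) rfl β r h1 h2).mpr h5
    rw [← hβ, map_pow, dC_xi] at h8
    have h9 := congrArg Multiplicative.toAdd h8
    rw [toAdd_pow, toAdd_ofAdd, toAdd_one] at h9
    simpa using h9

end SelfCover
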