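import Pool.Agent.SelfCover.Dbl

open scoped unitInterval Topology NNReal ContinuousMap
open Set

noncomputable section

namespace SelfCover

variable {X : Type*} [TopologicalSpace X]

/-- The class of a loop in the fundamental group. -/
def cls {x : X} (γ : Path x x) : FundamentalGroup X x := Path.Homotopic.Quotient.mk γ

lemma cls_surjective {x : X} (g : FundamentalGroup X x) : ∃ γ : Path x x, g = cls γ := by
  obtain ⟨γ, hγ⟩ := Path.Homotopic.Quotient.mk_surjective (x₀ := x) (x₁ := x) g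
  exact ⟨γ, hγ.symm⟩

lemma cls_eq_iff {x : X} (γ γ' : Path x x) : cls γ = cls γ' ↔ γ.Homotopic γ' :=
  Path.Homotopic.Quotient.eq

lemma cls_mul {x : X} (γ γ' : Path x x) : cls γ * cls γ' = cls (γ'.trans γ) := rfl

lemma cls_refl {x : X} : cls (Path.refl x) = 1 := rfl

lemma cls_inv {x : X} (γ : Path x x) : (cls γ)⁻¹ = cls γ.symm := rfl

/-- The image of a loop under a continuous map. -/
def pushLoop {Y : Type*} [TopologicalSpace Y] (f : C(X, Y)) {x : X} {y : Y} (h : f x = y)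
    (γ : Path x x) : Path y y := (γ.map f.continuous).cast h.symm h.symm

@[simp] lemma pushLoop_apply {Y : Type*} [TopologicalSpace Y] (f : C(X, Y)) {x : X} {y : Y}
    (h : f x = y) (γ : Path x x) (t : I) : pushLoop f h γ t = f (γ t) := rfl

lemma mapOfEq_cls {Y : Type*} [TopologicalSpace Y] (f : C(X, Y)) {x : X} {y : Y} (h : f x = y)
    (γ : Path x x) : FundamentalGroup.mapOfEq f h (cls γ) = cls (pushLoop f h γ) := by
  rw [FundamentalGroup.mapOfEq_apply]
  rfl

lemma mapOfEq_comp_apply {Y W : Type*} [TopologicalSpace Y] [TopologicalSpace W] (f : C(X, Y))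
    (g : C(Y, W)) {x : X} {y : Y} {w : W} (h : f x = y) (h' : g y = w) (k : (g.comp f) x = w)
    (p : FundamentalGroup X x) :
    FundamentalGroup.mapOfEq g h' (FundamentalGroup.mapOfEq f h p) =
      FundamentalGroup.mapOfEq (g.comp f) k p := by
  obtain ⟨γ, rfl⟩ := cls_surjective p
  rw [mapOfEq_cls, mapOfEq_cls, mapOfEq_cls]
  rfl

/-! ### The degree of a loop -/

section Deg

/-- `ℝ → ℝ/ℤ` is a covering map. -/
lemma covR : IsCoveringMap ((↑) : ℝ → UnitAddCircle) := AddCircle.isCoveringMap_coe (1 : ℝ)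

variable (pr : C(X, UnitAddCircle)) {x : X} (h0 : pr x = 0)

include h0 in
/-- The end point of the lift of a class of loops. -/
def windW (g : FundamentalGroup X x) : ℝ :=
  (covR.monodromy (Path.Homotopic.Quotient.map g pr)
    ⟨(0 : ℝ), by rw [mem_preimage, mem_singleton_iff, h0]; rfl⟩).1

lemma windW_eq (γ : Path x x) (r : C(I, ℝ)) (hr : r 0 = 0)
    (hl : ∀ t, ((r t : ℝ) : UnitAddCircle) = pr (γ t)) : windW pr h0 (cls γ) = r 1 := by
  have hz : (γ.map pr.continuous) 0 = ((0 : ℝ) : UnitAddCircle) := by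
    show pr (γ 0) = _
    rw [γ.source, h0]; rfl
  have h1 : r = covR.liftPath (γ.map pr.continuous) 0 hz := by
    rw [covR.eq_liftPath_iff']
    refine ⟨?_, hr⟩
    funext t
    exact hl t
  rw [h1]
  rfl

include h0 in
lemma exists_lift (γ : Path x x) :
    ∃ r : C(I, ℝ), r 0 = 0 ∧ ∀ t, ((r t : ℝ) : UnitAddCircle) = pr (γ t) := by
  have hz : (γ.map pr.continuous) 0 = ((0 : ℝ) : UnitAddCircle) := by
    show pr (γ 0) = _
    rw [γ.source, h0]; rfl
  obtain ⟨r, h1, h2⟩ := covR.exists_path_lifts (γ.map pr.continuous) 0 hz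
  exact ⟨r, h2, fun t => congrFun h1 t⟩

lemma windW_mem (g : FundamentalGroup X x) : ∃ n : ℤ, windW pr h0 g = n := by
  obtain ⟨γ, rfl⟩ := cls_surjective g
  obtain ⟨r, h1, h2⟩ := exists_lift pr h0 γ
  rw [windW_eq pr h0 γ r h1 h2]
  have := h2 1
  rw [γ.target, h0, AddCircle.coe_eq_zero_iff] at this
  obtain ⟨n, hn⟩ := this
  exact ⟨n, by rw [← hn]; simp⟩

lemma windW_mul (g g' : FundamentalGroup X x) :
    windW pr h0 (g * g') = windW pr h0 g + windW pr h0 g' := by
  obtain ⟨γ, rfl⟩ := cls_surjective g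
  obtain ⟨γ', rfl⟩ := cls_surjective g'
  obtain ⟨r, h1, h2⟩ := exists_lift pr h0 γ
  obtain ⟨r', h1', h2'⟩ := exists_lift pr h0 γ'
  obtain ⟨n', hn'⟩ := windW_mem pr h0 (cls γ')
  rw [cls_mul, windW_eq pr h0 γ r h1 h2, windW_eq pr h0 γ' r' h1' h2']
  rw [windW_eq pr h0 γ' r' h1' h2'] at hn'
  let p1 : Path (0 : ℝ) (r' 1) := ⟨r', h1', rfl⟩
  let p2 : Path (r' 1) (r' 1 + r 1) :=
    ⟨⟨fun t => r' 1 + r t, by fun_prop⟩, by simp [h1], rfl⟩
  have key := windW_eq pr h0 (γ'.trans γ) (p1.trans p2) (by simp) (by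
    intro t
    have e1 := Path.trans_apply p1 p2 t
    have e2 := Path.trans_apply γ' γ t
    show (((p1.trans p2) t : ℝ) : UnitAddCircle) = _
    rw [e1, e2]
    split_ifs with ht
    · exact h2' _
    · show ((r' 1 + r _ : ℝ) : UnitAddCircle) = _
      rw [AddCircle.coe_add, h2, hn']
      have : ((n' : ℝ) : UnitAddCircle) = 0 := by
        rw [AddCircle.coe_eq_zero_iff]; exact ⟨n', by simp⟩
      rw [this, zero_add])
  rw [key]
  show (p1.trans p2) 1 = _
  rw [Path.target]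
  ring

/-- The degree homomorphism `π₁(X,x) → ℤ` of a map `X → ℝ/ℤ`. -/
def deg : FundamentalGroup X x →* Multiplicative ℤ :=
  MonoidHom.mk' (fun g => Multiplicative.ofAdd (windW_mem pr h0 g).choose) (by
    intro g g'
    rw [← ofAdd_add]
    congr 1
    have e1 := (windW_mem pr h0 g).choose_spec
    have e2 := (windW_mem pr h0 g').choose_spec
    have e3 := (windW_mem pr h0 (g * g')).choose_spec
    have e4 := windW_mul pr h0 g g'
    have e5 := (e3.symm.trans e4).trans (congrArg₂ (· + ·) e1 e2)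
    exact_mod_cast e5)

lemma deg_eq (g : FundamentalGroup X x) :
    (((deg pr h0 g).toAdd : ℤ) : ℝ) = windW pr h0 g := by
  show (((windW_mem pr h0 g).choose : ℤ) : ℝ) = _
  exact ((windW_mem pr h0 g).choose_spec).symm

lemma deg_cls (γ : Path x x) (r : C(I, ℝ)) (hr : r 0 = 0)
    (hl : ∀ t, ((r t : ℝ) : UnitAddCircle) = pr (γ t)) :
    (((deg pr h0 (cls γ)).toAdd : ℤ) : ℝ) = r 1 := by
  rw [deg_eq, windW_eq pr h0 γ r hr hl]

lemma deg_cls_eq_one_iff (γ : Path x x) (r : C(I, ℝ)) (hr : r 0 = 0)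
    (hl : ∀ t, ((r t : ℝ) : UnitAddCircle) = pr (γ t)) :
    deg pr h0 (cls γ) = 1 ↔ r 1 = 0 := by
  rw [← deg_cls pr h0 γ r hr hl]
  constructor
  · intro h; rw [h]; simp
  · intro h
    apply Multiplicative.toAdd.injective
    exact_mod_cast h

end Deg

end SelfCover
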