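import Pool.Agent.SelfCover.CovDef
import Pool.Agent.SelfCover.Space
import Pool.Agent.SelfCover.Push
import Pool.Agent.SelfCover.Pi1
import Pool.Agent.SelfCover.FinCW

/-!
Every loop in `Z0 = P ∨ MSp` is homotopic into `P` (cellular approximation).
-/

open scoped unitInterval Topology NNReal ContinuousMap
open Set

noncomputable section

namespace SelfCover

lemma dimH_unitInterval_le : dimH (univ : Set I) ≤ 1 := by
  have h1 : dimH ((Subtype.val : I → ℝ) '' univ) = dimH (univ : Set I) :=
    isometry_subtype_coe.dimH_image univ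
  rw [← h1]
  calc dimH ((Subtype.val : I → ℝ) '' univ) ≤ dimH (univ : Set ℝ) := dimH_mono (subset_univ _)
    _ = 1 := Real.dimH_univ

open Topology in
/-- every loop in `Z0` is homotopic into `P`, given a CW structure on `Z0` with 2-skeleton `P` -/
theorem mapOfEq_incl_surjective_of
    (hcw : ∃ C : CWComplex (univ : Set Z0), letI := C
      RelCWComplex.Finite (univ : Set Z0) ∧
      (RelCWComplex.skeleton (univ : Set Z0) ((2 : ℕ) : ℕ∞) : Set Z0) = {z | toM z = mpt}) :
    Function.Surjective (FundamentalGroup.mapOfEq incl (rfl : incl p0 = z0)) := by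
  intro g
  obtain ⟨γ, rfl⟩ := cls_surjective g
  obtain ⟨C, hfin, hsk⟩ := hcw
  letI := C
  have hdim : dimH (univ : Set I) < ((2 : ℕ) : ENNReal) + 1 := by
    refine dimH_unitInterval_le.trans_lt ?_
    norm_num
  obtain ⟨f', hf', hr⟩ := push_skeleton 2 hdim γ.toContinuousMap
  rw [hsk] at hf' hr
  have h0 : f' 0 = z0 := by
    have := hf'.fst_eq_snd (x := (0 : I)) (by
      show toM (γ 0) = mpt
      rw [γ.source]; rfl)
    rw [← this]; exact γ.source
  have h1 : f' 1 = z0 := by
    have := hf'.fst_eq_snd (x := (1 : I)) (by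
      show toM (γ 1) = mpt
      rw [γ.target]; rfl)
    rw [← this]; exact γ.target
  let γ' : Path p0 p0 := ⟨toP.comp f', by
    show toP (f' 0) = p0
    rw [h0]; rfl, by
    show toP (f' 1) = p0
    rw [h1]; rfl⟩
  refine ⟨cls γ', ?_⟩
  rw [mapOfEq_cls, cls_eq_iff]
  have h2 : ((pushLoop incl (rfl : incl p0 = z0) γ').toContinuousMap) = f' := by
    ext t
    show incl (toP (f' t)) = f' t
    exact (eq_incl_of_toM (hr t)).symm
  have h3 : γ.toContinuousMap.HomotopicRel f' {0, 1} := by
    refine homotopicRel_mono hf' ?_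
    intro t ht
    rcases ht with rfl | ht
    · show toM (γ 0) = mpt
      rw [γ.source]; rfl
    · rw [mem_singleton_iff] at ht
      subst ht
      show toM (γ 1) = mpt
      rw [γ.target]; rfl
  have h4 : (pushLoop incl (rfl : incl p0 = z0) γ').toContinuousMap.HomotopicRel
      γ.toContinuousMap {0, 1} := by
    rw [h2]
    exact h3.symm
  exact h4

/-- every loop in `Z0` is homotopic into `P` -/
theorem mapOfEq_incl_surjective :
    Function.Surjective (FundamentalGroup.mapOfEq incl (rfl : incl p0 = z0)) :=
  mapOfEq_incl_surjective_of exists_cw_Z0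

end SelfCover
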