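import Pool.Agent.SelfCover.FinalDefs
import Pool.Agent.SelfCover.DetectC
import Pool.Agent.SelfCover.FinCW
import Pool.Agent.SelfCover.Pi1Z
import Pool.Agent.SelfCover.Pi1P
import Pool.Agent.SelfCover.Covers

open Topology Set
open scoped ContinuousMap

noncomputable section

namespace SelfCover

open MTorus

universe u

/-- the relation `a0 a0 b ≃ b a0` -/
def Relation (N : NDR) : Prop := ∃ b b' : C(Z0, Z0),
    (∀ p, b (incl p) = incl p) ∧ (∀ p, b' (incl p) = incl p) ∧
    (b'.comp b).HomotopicRel (ContinuousMap.id Z0) (range incl) ∧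
    (b.comp b').HomotopicRel (ContinuousMap.id Z0) (range incl) ∧
    ((a0 N).comp ((a0 N).comp b)).HomotopicRel (b.comp (a0 N)) (range incl)

lemma IsFiniteCW.isOfFiniteType {X : Type} [TopologicalSpace X] (h : IsFiniteCW X) :
    IsOfFiniteType.{0} X := by
  obtain ⟨h1, C, h2⟩ := h
  refine ⟨X, inferInstance, ⟨h1, C, ?_⟩, ⟨ContinuousMap.HomotopyEquiv.refl X⟩⟩
  let := C
  have := h2
  infer_instance

lemma IsFiniteCW.isFinitelyDominated {X : Type} [TopologicalSpace X] (h : IsFiniteCW X) :
    IsFinitelyDominated.{0} X :=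
  ⟨X, inferInstance, h, ContinuousMap.id X, ContinuousMap.id X, ContinuousMap.Homotopic.refl _⟩

lemma compactSpace_of_finite {K : Type u} [TopologicalSpace K] [T2Space K]
    [CWComplex (univ : Set K)] [RelCWComplex.Finite (univ : Set K)] : CompactSpace K := by
  have h : (⋃ (n : ℕ) (j : RelCWComplex.cell (univ : Set K) n),
      RelCWComplex.closedCell n j) = univ := CWComplex.union
  have hf : Finite (Σ n, RelCWComplex.cell (univ : Set K) n) :=
    RelCWComplex.finite_cells_of_finite
  have h3 : IsCompact (⋃ p : (Σ n, RelCWComplex.cell (univ : Set K) n),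
      RelCWComplex.closedCell p.1 p.2) :=
    isCompact_iUnion fun p => RelCWComplex.isCompact_closedCell
  constructor
  convert h3 using 1
  refine h.symm.trans ?_
  ext x
  simp only [mem_iUnion, Sigma.exists]

theorem final_of (hrel : ∀ N : NDR, Relation N) :
    ∃ (S : SelfCovering 2) (L : S.LimitCover),
      IsFiniteCW S.X ∧ S.G.Normal ∧ Group.IsFinitelyPresented S.G ∧
      ¬ IsOfFiniteType.{u} L.Y ∧ ¬ IsFinitelyDominated.{u} L.Y := by
  obtain ⟨N⟩ := exists_ndr
  have : PathConnectedSpace Z0 := pathConnectedSpace_Z0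
  obtain ⟨b, b', hb, hb', h1, h2, h3⟩ := hrel N
  obtain ⟨e, he, hw⟩ := exists_equiv_dbl (a0 N) b b' z0 (a0_z0 N) (hb p0)
    h1.homotopic h2.homotopic h3.homotopic
  let S : SelfCovering 2 :=
    { X := MTorus (a0 N)
      X' := Dbl (a0 N)
      topX := inferInstance
      topX' := inferInstance
      x₀ := base (a0 N) z0
      x₀' := Dbl.pt (a0 N) z0
      q := Dbl.q (a0 N)
      h := e
      q_pt := rfl
      h_pt := he
      conn := pathConnectedSpace_mtorus (a0 N)
      conn' := pathConnectedSpace_dbl (a0 N)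
      cov_q := isCoveringMap_q (a0 N)
      deg_q := card_fiber_q (a0 N) }
  have hG : S.G = (tdeg (a0 N) z0).ker := iInf_range_hsharp (a0 N) z0 e he hw
  let L : S.LimitCover :=
    { Y := Cov (a0 N)
      topY := inferInstance
      y₀ := Cov.pt (a0 N) 0 z0
      p := Cov.p (a0 N)
      p_pt := Cov.p_pt (a0 N) 0 z0
      conn := pathConnectedSpace_cov (a0 N)
      cov_p := isCoveringMap_p (a0 N)
      range_p := by
        rw [hG]
        exact range_mapOfEq_p (a0 N) z0 }
  refine ⟨S, L, ⟨inferInstanceAs (T2Space (MTorus (a0 N))), exists_cw_X N⟩, ?_, ?_, ?_, ?_⟩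
  · rw [hG]
    infer_instance
  · rw [hG]
    exact isFinitelyPresented_ker N isFinitelyPresented_pi1_P mapOfEq_incl_surjective
  · rintro ⟨W, hW, ⟨hT2, C, hC⟩, ⟨E⟩⟩
    let := C
    have := hC
    exact not_finiteType N (detect N) W E
  · rintro ⟨K, hK, ⟨hT2, C, hC⟩, i, r, hir⟩
    let := C
    have := hC
    have : CompactSpace K := compactSpace_of_finite
    exact not_dominated N (detect N) K i r hir

end SelfCover
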