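import Mathlib

/-!
Definitions for the statement of the final theorem of MP_121bc0_gt.
-/

open Topology Set
open scoped ContinuousMap

noncomputable section

namespace SelfCover

universe u

/-- `X` is a finite CW complex: `X` is Hausdorff and carries the structure of a CW complex with
finitely many cells. -/
def IsFiniteCW (X : Type u) [TopologicalSpace X] : Prop :=
  T2Space X ∧ ∃ C : CWComplex (univ : Set X), letI := C; RelCWComplex.Finite (univ : Set X)

/-- `X` is a CW complex with finitely many cells in each dimension. -/
def IsFiniteTypeCW (X : Type u) [TopologicalSpace X] : Prop :=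
  T2Space X ∧ ∃ C : CWComplex (univ : Set X), letI := C; RelCWComplex.FiniteType (univ : Set X)

/-- `Y` is of finite type: homotopy equivalent to a CW complex (in the universe `u`) with finitely
many cells in each dimension. -/
def IsOfFiniteType (Y : Type) [TopologicalSpace Y] : Prop :=
  ∃ (W : Type u) (_ : TopologicalSpace W), IsFiniteTypeCW W ∧ Nonempty (Y ≃ₕ W)

/-- `Y` is finitely dominated: there are a finite CW complex `K` (in the universe `u`) and maps
`i : Y → K`, `r : K → Y` with `r ∘ i ≃ id`. -/
def IsFinitelyDominated (Y : Type) [TopologicalSpace Y] : Prop :=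
  ∃ (K : Type u) (_ : TopologicalSpace K), IsFiniteCW K ∧
    ∃ (i : C(Y, K)) (r : C(K, Y)), (r.comp i).Homotopic (ContinuousMap.id Y)

/-- A self-covering: path-connected pointed spaces `X`, `X'`, a pointed covering `q : X' → X` all of
whose fibres have `d` points, and a pointed homotopy equivalence `h : X → X'`. -/
structure SelfCovering (d : ℕ) where
  /-- the space `X` -/
  X : Type
  /-- the covering space `X'` -/
  X' : Type
  topX : TopologicalSpace X
  topX' : TopologicalSpace X'
  /-- the base point of `X` -/
  x₀ : X
  /-- the base point of `X'` -/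
  x₀' : X'
  /-- the covering `q : X' → X` of degree `d` -/
  q : C(X', X)
  /-- the homotopy equivalence `h : X → X'` -/
  h : X ≃ₕ X'
  q_pt : q x₀' = x₀
  h_pt : h.toFun x₀ = x₀'
  conn : PathConnectedSpace X
  conn' : PathConnectedSpace X'
  cov_q : IsCoveringMap q
  deg_q : ∀ x, Nat.card (q ⁻¹' {x}) = d

attribute [instance] SelfCovering.topX SelfCovering.topX'

namespace SelfCovering

variable {d : ℕ} (S : SelfCovering d)

/-- The endomorphism `h_# = (q ∘ h)_#` of `π₁(X)`. -/
def hsharp : Monoid.End (FundamentalGroup S.X S.x₀) :=
  FundamentalGroup.mapOfEq (S.q.comp S.h.toFun)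
    (show (S.q.comp S.h.toFun) S.x₀ = S.x₀ by rw [ContinuousMap.comp_apply, S.h_pt, S.q_pt])

/-- The group `G = ⋂_{k ≥ 1} im (h_#^k)`. -/
def G : Subgroup (FundamentalGroup S.X S.x₀) :=
  ⨅ k : ℕ, MonoidHom.range (S.hsharp ^ (k + 1))

/-- The limit cover: the path-connected covering space `p : Y → X` with `p_# π₁(Y) = G`. -/
structure LimitCover where
  /-- the total space -/
  Y : Type
  topY : TopologicalSpace Y
  /-- the base point -/
  y₀ : Y
  /-- the covering projection -/
  p : C(Y, S.X)
  p_pt : p y₀ = S.x₀
  conn : PathConnectedSpace Y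
  cov_p : IsCoveringMap p
  range_p : (FundamentalGroup.mapOfEq p p_pt).range = S.G

attribute [instance] LimitCover.topY

end SelfCovering

end SelfCover
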