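import Pool.Agent.SelfCover.Pi1Torus
import Pool.Agent.SelfCover.CovDef

open scoped unitInterval Topology NNReal ContinuousMap
open Set CategoryTheory

noncomputable section

namespace SelfCover

lemma mapOfEq_surjective_of_equiv {X Y : Type*} [TopologicalSpace X] [TopologicalSpace Y]
    (e : X ≃ₕ Y) {x : X} {y : Y} (h : e.toFun x = y) :
    Function.Surjective (FundamentalGroup.mapOfEq e.toFun h) := by
  subst h
  have hfull : (FundamentalGroupoid.map e.toFun).Full :=
    inferInstanceAs (FundamentalGroupoidFunctor.equivOfHomotopyEquiv e).functor.Full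
  intro g
  obtain ⟨γ, hγ⟩ := hfull.map_surjective (X := ⟨x⟩) (Y := ⟨x⟩) g
  refine ⟨γ, ?_⟩
  obtain ⟨γ', rfl⟩ := cls_surjective (X := X) (x := x) γ
  rw [mapOfEq_cls, ← hγ]
  rfl

namespace MTorus

variable {Z : Type*} [TopologicalSpace Z] (a : C(Z, Z)) (z₀ : Z)

variable (e : C(MTorus a, Dbl a)) (he : e (base a z₀) = Dbl.pt a z₀)

include he in
lemma q_comp_e : ((Dbl.q a).comp e) (base a z₀) = base a z₀ := by
  rw [ContinuousMap.comp_apply, he]; rfl

/-- The endomorphism `h_#` of the fundamental group. -/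
def hsharp : Monoid.End (FundamentalGroup (MTorus a) (base a z₀)) :=
  FundamentalGroup.mapOfEq ((Dbl.q a).comp e) (q_comp_e a z₀ e he)

lemma hsharp_cls (γ : Path (base a z₀) (base a z₀)) : hsharp a z₀ e he (cls γ) =
    cls (pushLoop ((Dbl.q a).comp e) (q_comp_e a z₀ e he) γ) := mapOfEq_cls _ _ _

lemma tdeg_hsharp (hw : ((Dbl.w a).comp e).HomotopicRel (pr a) {base a z₀})
    (g : FundamentalGroup (MTorus a) (base a z₀)) :
    tdeg a z₀ (hsharp a z₀ e he g) = tdeg a z₀ g * tdeg a z₀ g := by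
  obtain ⟨γ, rfl⟩ := cls_surjective g
  obtain ⟨H⟩ := hw
  have hw0 : ((Dbl.w a).comp e) (base a z₀) = 0 := by
    rw [ContinuousMap.comp_apply, he]; rfl
  have hp0 : pr a (base a z₀) = 0 := pr_base a z₀
  have hhom : (pushLoop ((Dbl.w a).comp e) hw0 γ).Homotopic (pushLoop (pr a) hp0 γ) := by
    refine ⟨⟨⟨⟨fun p => H (p.1, γ p.2), by fun_prop⟩, ?_, ?_⟩, ?_⟩⟩
    · intro t
      exact H.apply_zero _
    · intro t
      exact H.apply_one _
    · rintro t y (rfl | hy)
      · show H (t, γ 0) = ((Dbl.w a).comp e) (γ 0)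
        rw [γ.source, H.eq_fst t (mem_singleton _)]
      · rw [mem_singleton_iff] at hy
        subst hy
        show H (t, γ 1) = ((Dbl.w a).comp e) (γ 1)
        rw [γ.target, H.eq_fst t (mem_singleton _)]
  obtain ⟨r, h1, h2⟩ := exists_lift (pr a) (pr_base a z₀) γ
  have hid : (ContinuousMap.id UnitAddCircle) 0 = 0 := rfl
  obtain ⟨r', h1', h2'⟩ := exists_lift (ContinuousMap.id UnitAddCircle) hid
    (pushLoop ((Dbl.w a).comp e) hw0 γ)
  have e1 := deg_cls (ContinuousMap.id UnitAddCircle) hid (pushLoop ((Dbl.w a).comp e) hw0 γ) r'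
    h1' h2'
  have e2 := deg_cls (ContinuousMap.id UnitAddCircle) hid (pushLoop (pr a) hp0 γ) r h1 h2
  rw [(cls_eq_iff _ _).mpr hhom, e2] at e1
  have e3 := deg_cls (pr a) (pr_base a z₀) γ r h1 h2
  have e4 := deg_cls (pr a) (pr_base a z₀)
    (pushLoop ((Dbl.q a).comp e) (q_comp_e a z₀ e he) γ) ⟨fun t => r' t + r' t, by fun_prop⟩
    (by show r' 0 + r' 0 = 0; rw [h1']; simp) (by
      intro t
      show ((r' t + r' t : ℝ) : UnitAddCircle) = pr a (Dbl.q a (e (γ t)))
      rw [Dbl.pr_q, AddCircle.coe_add, h2' t]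
      rfl)
  unfold tdeg
  rw [hsharp_cls]
  apply Multiplicative.toAdd.injective
  have e5 : (((deg (pr a) (pr_base a z₀)
      (cls (pushLoop ((Dbl.q a).comp e) (q_comp_e a z₀ e he) γ))).toAdd : ℤ) : ℝ) =
      ((((deg (pr a) (pr_base a z₀) (cls γ)).toAdd + (deg (pr a) (pr_base a z₀) (cls γ)).toAdd
        : ℤ)) : ℝ) := by
    rw [e4]
    push_cast
    rw [e3]
    show r' 1 + r' 1 = _
    rw [e1]
  exact_mod_cast e5

lemma ker_le_range_hsharp (e : MTorus a ≃ₕ Dbl a) (he : e.toFun (base a z₀) = Dbl.pt a z₀) :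
    (tdeg a z₀).ker ≤ MonoidHom.range (hsharp a z₀ e.toFun he) := by
  intro g hg
  obtain ⟨γ, rfl⟩ := cls_surjective g
  obtain ⟨r, h1, h2⟩ := exists_lift (pr a) (pr_base a z₀) γ
  have h3 : r 1 = 0 := (deg_cls_eq_one_iff (pr a) (pr_base a z₀) γ r h1 h2).mp hg
  -- the lift to the double cover
  let γ' : Path (Dbl.pt a z₀) (Dbl.pt a z₀) :=
    { toFun := fun t => ⟨(γ t, ((r t / 2 : ℝ) : UnitAddCircle)), by
        show pr a (γ t) = ((r t / 2 : ℝ) : UnitAddCircle) + ((r t / 2 : ℝ) : UnitAddCircle)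
        rw [← h2, ← AddCircle.coe_add]
        congr 1
        ring⟩
      continuous_toFun := by
        refine Continuous.subtype_mk ?_ _
        fun_prop
      source' := by
        apply Dbl.ext
        · exact γ.source
        · show ((r 0 / 2 : ℝ) : UnitAddCircle) = 0
          rw [h1]; simp
      target' := by
        apply Dbl.ext
        · exact γ.target
        · show ((r 1 / 2 : ℝ) : UnitAddCircle) = 0
          rw [h3]; simp }
  obtain ⟨g', hg'⟩ := mapOfEq_surjective_of_equiv e he (cls γ')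
  refine ⟨g', ?_⟩
  have h := mapOfEq_comp_apply e.toFun (Dbl.q a) he rfl (q_comp_e a z₀ e.toFun he) g'
  rw [hg', mapOfEq_cls] at h
  exact h.symm

/-- The limit subgroup is the kernel of the degree. -/
lemma iInf_range_hsharp (e : MTorus a ≃ₕ Dbl a) (he : e.toFun (base a z₀) = Dbl.pt a z₀)
    (hw : ((Dbl.w a).comp e.toFun).HomotopicRel (pr a) {base a z₀}) :
    (⨅ k : ℕ, MonoidHom.range (hsharp a z₀ e.toFun he ^ (k + 1))) = (tdeg a z₀).ker := by
  set φ := hsharp a z₀ e.toFun he with hφ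
  have hD : ∀ g, tdeg a z₀ (φ g) = tdeg a z₀ g * tdeg a z₀ g :=
    tdeg_hsharp a z₀ e.toFun he hw
  have hDk : ∀ (k : ℕ) g, (tdeg a z₀ ((φ ^ k) g)).toAdd = 2 ^ k * (tdeg a z₀ g).toAdd := by
    intro k
    induction k with
    | zero => intro g; simp
    | succ k ih =>
      intro g
      have h1 : (φ ^ (k + 1)) g = φ ((φ ^ k) g) := by rw [pow_succ']; rfl
      rw [h1, hD, toAdd_mul, ih]
      ring
  apply le_antisymm
  · intro g hg
    rw [Subgroup.mem_iInf] at hg
    rw [MonoidHom.mem_ker]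
    apply Multiplicative.toAdd.injective
    by_contra hne
    have hne' : (tdeg a z₀ g).toAdd ≠ 0 := hne
    obtain ⟨k, hk⟩ : ∃ k : ℕ, ((tdeg a z₀ g).toAdd).natAbs < 2 ^ k :=
      ⟨_, Nat.lt_two_pow_self⟩
    obtain ⟨g', hg'⟩ := hg k
    have h1 := hDk (k + 1) g'
    have hg'' : (φ ^ (k + 1)) g' = g := hg'
    rw [show (φ ^ (k + 1)) g' = g from hg''] at h1
    have h2 : (2 : ℤ) ^ k ∣ (tdeg a z₀ g).toAdd := by
      rw [h1, pow_succ, mul_assoc]
      exact dvd_mul_right _ _
    have h3 := Int.natAbs_dvd_natAbs.mpr h2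
    rw [Int.natAbs_pow] at h3
    have h4 := Nat.le_of_dvd (Int.natAbs_pos.mpr hne') h3
    have h5 : (2 : ℤ).natAbs = 2 := rfl
    rw [h5] at h4
    omega
  · have key : ∀ k : ℕ, ∀ g ∈ (tdeg a z₀).ker, ∃ g', (φ ^ k) g' = g := by
      intro k
      induction k with
      | zero => intro g _; exact ⟨g, rfl⟩
      | succ k ih =>
        intro g hg
        obtain ⟨g1, hg1⟩ := ker_le_range_hsharp a z₀ e he hg
        have hg1' : g1 ∈ (tdeg a z₀).ker := by
          rw [MonoidHom.mem_ker] at hg ⊢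
          have h1 := hD g1
          have hg1'' : φ g1 = g := hg1
          rw [hg1'', hg] at h1
          apply Multiplicative.toAdd.injective
          have h2 := congrArg Multiplicative.toAdd h1
          rw [toAdd_mul] at h2
          have h3 : (0 : ℤ) = (tdeg a z₀ g1).toAdd + (tdeg a z₀ g1).toAdd := h2
          show (tdeg a z₀ g1).toAdd = 0
          omega
        obtain ⟨g2, hg2⟩ := ih g1 hg1'
        refine ⟨g2, ?_⟩
        have h1 : (φ ^ (k + 1)) g2 = φ ((φ ^ k) g2) := by rw [pow_succ']; rfl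
        rw [h1, hg2]
        exact hg1
    intro g hg
    rw [Subgroup.mem_iInf]
    intro k
    obtain ⟨g', hg'⟩ := key (k + 1) g hg
    exact ⟨g', hg'⟩

end MTorus

end SelfCover
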