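import Pool.Agent.SelfCover.Defs

open scoped unitInterval Topology
open Set

noncomputable section

namespace SelfCover

lemma mproj_surjective : Function.Surjective mproj := by
  rintro ⟨_, y, rfl⟩; exact ⟨y, rfl⟩

lemma isQuotientMap_mproj : Topology.IsQuotientMap mproj :=
  Topology.IsQuotientMap.of_surjective_continuous mproj_surjective mproj.continuous

lemma isClosedMap_mproj : IsClosedMap mproj := mproj.continuous.isClosedMap

lemma mproj_val (y : Fin 4 → I) : (mproj y).1 = psi y := rfl

private lemma u_nonneg (u : I) : 0 ≤ (u : ℝ) * (1 - u) :=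
  mul_nonneg u.2.1 (by linarith [u.2.2])

private lemma u_eq_zero_iff (u : I) : (u : ℝ) * (1 - u) = 0 ↔ u = 0 ∨ u = 1 := by
  rw [mul_eq_zero]
  constructor
  · rintro (h | h)
    · left; exact Subtype.ext h
    · right; apply Subtype.ext; show (u : ℝ) = 1; linarith
  · rintro (h | h)
    · left; simp [h]
    · right; simp [h]

lemma sin_two_pi_eq_zero_iff (s : I) : Real.sin (2 * Real.pi * s) = 0 ↔
    s = 0 ∨ s = 1 ∨ (s : ℝ) = 1 / 2 := by
  rw [Real.sin_eq_zero_iff]
  have h0 := s.2.1
  have h1 := s.2.2
  have hpi := Real.pi_pos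
  constructor
  · rintro ⟨n, hn⟩
    have h2 : (n : ℝ) = 2 * s := by
      have : Real.pi * ((n : ℝ) - 2 * s) = 0 := by linarith
      rcases mul_eq_zero.mp this with h | h
      · exact absurd h hpi.ne'
      · linarith
    have hn0 : (0 : ℝ) ≤ n := by rw [h2]; linarith
    have hn2 : (n : ℝ) ≤ 2 := by rw [h2]; linarith
    have hn0' : 0 ≤ n := by exact_mod_cast hn0
    have hn2' : n ≤ 2 := by exact_mod_cast hn2
    interval_cases n
    · left; apply Subtype.ext; show (s : ℝ) = 0; push_cast at h2; linarith
    · right; right; push_cast at h2; linarith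
    · right; left; apply Subtype.ext; show (s : ℝ) = 1; push_cast at h2; linarith
  · rintro (h | h | h)
    · exact ⟨0, by simp [h]⟩
    · exact ⟨2, by simp [h]⟩
    · exact ⟨1, by rw [h]; push_cast; ring⟩

lemma wt_nonneg (y : Fin 4 → I) : 0 ≤ wt y := by
  unfold wt
  have h0 := u_nonneg (y 0)
  have h1 := u_nonneg (y 1)
  have h2 := u_nonneg (y 2)
  have h3 := (y 3).2.1
  have h3' := (y 3).2.2
  have : 0 ≤ 1 - (y 3 : ℝ) := by linarith
  positivity

lemma wt_eq_zero_iff (y : Fin 4 → I) : wt y = 0 ↔ IsBase y := by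
  have h2n := u_nonneg (y 2)
  have h3n : 0 ≤ (y 3 : ℝ) := (y 3).2.1
  have hp : 0 ≤ (y 3 : ℝ) * ((y 2 : ℝ) * (1 - y 2)) := mul_nonneg h3n h2n
  unfold wt IsBase
  rw [mul_eq_zero (a := (y 0 : ℝ) * (1 - y 0) * (y 1 * (1 - y 1))),
    mul_eq_zero (a := (y 0 : ℝ) * (1 - y 0)), u_eq_zero_iff, u_eq_zero_iff,
    mul_eq_zero (a := 1 - (y 3 : ℝ)), add_eq_zero_iff_of_nonneg hp (sq_nonneg _),
    mul_eq_zero (a := (y 3 : ℝ)), u_eq_zero_iff, sq_eq_zero_iff, sin_two_pi_eq_zero_iff]
  have e3 : (1 - (y 3 : ℝ) = 0) ↔ y 3 = 1 := by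
    constructor
    · intro h; apply Subtype.ext; show (y 3 : ℝ) = 1; linarith
    · intro h; simp [h]
  have e3' : ((y 3 : ℝ) = 0) ↔ y 3 = 0 := by
    constructor
    · intro h; exact Subtype.ext h
    · intro h; simp [h]
  rw [e3, e3']
  tauto

lemma wt_pos_iff (y : Fin 4 → I) : 0 < wt y ↔ ¬ IsBase y := by
  rw [← wt_eq_zero_iff]
  exact ⟨fun h => h.ne', fun h => lt_of_le_of_ne (wt_nonneg y) (Ne.symm h)⟩

lemma isBase_zero : IsBase 0 := Or.inl rfl

lemma psi_of_isBase {y : Fin 4 → I} (h : IsBase y) : psi y = 0 := by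
  have := (wt_eq_zero_iff y).mpr h
  funext j
  fin_cases j <;> simp [psi, this]

lemma mproj_eq_mpt_iff (y : Fin 4 → I) : mproj y = mpt ↔ IsBase y := by
  constructor
  · intro h
    have h' : psi y = psi 0 := congrArg Subtype.val h
    rw [psi_of_isBase isBase_zero] at h'
    have := congrFun h' 0
    simp [psi] at this
    exact (wt_eq_zero_iff y).mp this
  · intro h
    apply Subtype.ext
    show psi y = psi 0
    rw [psi_of_isBase h, psi_of_isBase isBase_zero]

/-- The relation identifying `(u, s, 0)` with `(u, s + 1/2, 0)`. -/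
def IsHalf (y y' : Fin 4 → I) : Prop :=
  y 0 = y' 0 ∧ y 1 = y' 1 ∧ y 3 = 0 ∧ y' 3 = 0 ∧ |(y 2 : ℝ) - y' 2| = 1 / 2

lemma mproj_eq_iff (y y' : Fin 4 → I) : mproj y = mproj y' ↔
    y = y' ∨ (IsBase y ∧ IsBase y') ∨ IsHalf y y' := by
  constructor
  · intro h
    by_cases hb : IsBase y
    · right; left
      refine ⟨hb, ?_⟩
      rw [← mproj_eq_mpt_iff, ← h]
      exact (mproj_eq_mpt_iff y).mpr hb
    · have h' : psi y = psi y' := congrArg Subtype.val h
      have e0 : wt y = wt y' := by simpa [psi] using congrFun h' 0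
      have hw : 0 < wt y := (wt_pos_iff y).mpr hb
      have hw' : wt y ≠ 0 := hw.ne'
      have e1 : (y 0 : ℝ) = y' 0 := by
        have := congrFun h' 1
        simp [psi] at this
        rw [← e0] at this
        exact mul_left_cancel₀ hw' this
      have e2 : (y 1 : ℝ) = y' 1 := by
        have := congrFun h' 2
        simp [psi] at this
        rw [← e0] at this
        exact mul_left_cancel₀ hw' this
      have e3 : (y 3 : ℝ) = y' 3 := by
        have := congrFun h' 3
        simp [psi] at this
        rw [← e0] at this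
        exact mul_left_cancel₀ hw' this
      have e4 : (y 3 : ℝ) * y 2 = y' 3 * y' 2 := by
        have := congrFun h' 4
        simp [psi] at this
        rw [← e0] at this
        exact mul_left_cancel₀ hw' this
      have e5 : Real.cos (4 * Real.pi * y 2) = Real.cos (4 * Real.pi * y' 2) := by
        have := congrFun h' 5
        simp [psi] at this
        rw [← e0] at this
        exact mul_left_cancel₀ hw' this
      have e6 : Real.sin (4 * Real.pi * y 2) = Real.sin (4 * Real.pi * y' 2) := by
        have := congrFun h' 6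
        simp [psi] at this
        rw [← e0] at this
        exact mul_left_cancel₀ hw' this
      by_cases ht : (y 3 : ℝ) = 0
      · -- the face `t = 0`
        have hc : Real.cos (4 * Real.pi * y 2 - 4 * Real.pi * y' 2) = 1 := by
          rw [Real.cos_sub, ← e5, ← e6]
          nlinarith [Real.sin_sq_add_cos_sq (4 * Real.pi * y 2)]
        rw [Real.cos_eq_one_iff] at hc
        obtain ⟨n, hn⟩ := hc
        have hpi := Real.pi_pos
        have h2 : (n : ℝ) = 2 * ((y 2 : ℝ) - y' 2) := by
          have : Real.pi * ((n : ℝ) * 2 - 4 * ((y 2 : ℝ) - y' 2)) = 0 := by linarith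
          rcases mul_eq_zero.mp this with h | h
          · exact absurd h hpi.ne'
          · linarith
        have b1 := (y 2).2.1
        have b2 := (y 2).2.2
        have b3 := (y' 2).2.1
        have b4 := (y' 2).2.2
        have hn2 : (n : ℝ) ≤ 2 := by rw [h2]; linarith
        have hn2' : (-2 : ℝ) ≤ n := by rw [h2]; linarith
        have k1 : n ≤ 2 := by exact_mod_cast hn2
        have k2 : -2 ≤ n := by exact_mod_cast hn2'
        have ht0 : y 3 = 0 := Subtype.ext ht
        have ht0' : y' 3 = 0 := Subtype.ext (by rw [← e3]; exact ht)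
        have z0 : y 0 = y' 0 := Subtype.ext e1
        have z1 : y 1 = y' 1 := Subtype.ext e2
        interval_cases n
        · exfalso
          apply hb
          have : (y 2 : ℝ) = 0 := by push_cast at h2; linarith
          have : y 2 = 0 := Subtype.ext this
          unfold IsBase; tauto
        · right; right
          refine ⟨z0, z1, ht0, ht0', ?_⟩
          push_cast at h2
          rw [abs_eq (by norm_num)]; right; linarith
        · left
          push_cast at h2
          have z2 : y 2 = y' 2 := Subtype.ext (by linarith)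
          funext j
          fin_cases j
          · exact z0
          · exact z1
          · exact z2
          · exact ht0.trans ht0'.symm
        · right; right
          refine ⟨z0, z1, ht0, ht0', ?_⟩
          push_cast at h2
          rw [abs_eq (by norm_num)]; left; linarith
        · exfalso
          apply hb
          have : (y 2 : ℝ) = 1 := by push_cast at h2; linarith
          have : y 2 = 1 := Subtype.ext this
          unfold IsBase; tauto
      · left
        rw [← e3] at e4
        have z2 : (y 2 : ℝ) = y' 2 := mul_left_cancel₀ ht e4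
        funext j
        fin_cases j
        · exact Subtype.ext e1
        · exact Subtype.ext e2
        · exact Subtype.ext z2
        · exact Subtype.ext e3
  · rintro (h | ⟨h, h'⟩ | ⟨h0, h1, h3, h3', h2⟩)
    · rw [h]
    · rw [(mproj_eq_mpt_iff y).mpr h, (mproj_eq_mpt_iff y').mpr h']
    · apply Subtype.ext
      show psi y = psi y'
      have key : ∃ n : ℤ, (y 2 : ℝ) - y' 2 = n / 2 := by
        rcases (abs_eq (by norm_num)).mp h2 with h | h
        · exact ⟨1, by push_cast; linarith⟩
        · exact ⟨-1, by push_cast; linarith⟩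
      obtain ⟨n, hn⟩ := key
      have a1 : 4 * Real.pi * (y 2 : ℝ) = 4 * Real.pi * y' 2 + n * (2 * Real.pi) := by
        have : (y 2 : ℝ) = y' 2 + n / 2 := by linarith
        rw [this]; ring
      have a2 : 2 * Real.pi * (y 2 : ℝ) = 2 * Real.pi * y' 2 + n * Real.pi := by
        have : (y 2 : ℝ) = y' 2 + n / 2 := by linarith
        rw [this]; ring
      have c1 : Real.cos (4 * Real.pi * y 2) = Real.cos (4 * Real.pi * y' 2) := by
        rw [a1, Real.cos_add_int_mul_two_pi]
      have c2 : Real.sin (4 * Real.pi * y 2) = Real.sin (4 * Real.pi * y' 2) := by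
        rw [a1, Real.sin_add_int_mul_two_pi]
      have c3 : Real.sin (2 * Real.pi * y 2) ^ 2 = Real.sin (2 * Real.pi * y' 2) ^ 2 := by
        rw [a2, Real.sin_add_int_mul_pi, mul_pow, ← zpow_natCast, ← zpow_mul, mul_comm n,
          zpow_mul]
        norm_num
      have w : wt y = wt y' := by
        unfold wt
        rw [h0, h1, h3, h3', c3]
        simp
      funext j
      fin_cases j <;> simp [psi, w, h0, h1, h3, h3', c1, c2]

/-! ### Maps out of `MSp` -/

/-- Descend a continuous map of the `4`-cube to `MSp`. -/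
def mlift {B : Type*} [TopologicalSpace B] (F : C(Fin 4 → I, B)) (b : B)
    (hb : ∀ y, IsBase y → F y = b) (hh : ∀ y y', IsHalf y y' → F y = F y') : C(MSp, B) :=
  isQuotientMap_mproj.lift F (by
    intro y y' h
    rcases (mproj_eq_iff y y').mp h with h | ⟨h1, h2⟩ | h
    · rw [h]
    · rw [hb y h1, hb y' h2]
    · exact hh y y' h)

@[simp] lemma mlift_mproj {B : Type*} [TopologicalSpace B] (F : C(Fin 4 → I, B)) (b : B)
    (hb : ∀ y, IsBase y → F y = b) (hh : ∀ y y', IsHalf y y' → F y = F y') (y : Fin 4 → I) :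
    mlift F b hb hh (mproj y) = F y := by
  have := Topology.IsQuotientMap.lift_comp isQuotientMap_mproj F (by
    intro y y' h
    rcases (mproj_eq_iff y y').mp h with h | ⟨h1, h2⟩ | h
    · rw [h]
    · rw [hb y h1, hb y' h2]
    · exact hh y y' h)
  exact congrArg (fun f : C(Fin 4 → I, B) => f y) this

@[simp] lemma mlift_mpt {B : Type*} [TopologicalSpace B] (F : C(Fin 4 → I, B)) (b : B)
    (hb : ∀ y, IsBase y → F y = b) (hh : ∀ y y', IsHalf y y' → F y = F y') :
    mlift F b hb hh mpt = b := by
  unfold mpt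
  rw [mlift_mproj]
  exact hb 0 isBase_zero

lemma isQuotientMap_mproj_prod (Y : Type*) [TopologicalSpace Y] :
    Topology.IsQuotientMap (Prod.map mproj (id : Y → Y)) := by
  have hp : IsProperMap mproj := mproj.continuous.isProperMap
  have hp2 : IsProperMap (Prod.map mproj (id : Y → Y)) := hp.prodMap isProperMap_id
  exact hp2.isClosedMap.isQuotientMap hp2.continuous
    (mproj_surjective.prodMap Function.surjective_id)

/-- Continuity of maps out of `MSp × Y` can be checked on the cube. -/
lemma continuous_mprod_iff {Y B : Type*} [TopologicalSpace Y] [TopologicalSpace B]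
    (f : MSp × Y → B) : Continuous f ↔ Continuous fun p : (Fin 4 → I) × Y => f (mproj p.1, p.2) :=
  (isQuotientMap_mproj_prod Y).continuous_iff

/-- `mproj 0`-th coordinate changed. -/
lemma isHalf_update {y y' : Fin 4 → I} (h : IsHalf y y') (j : Fin 4) (hj : j = 0 ∨ j = 1)
    (v : I) : IsHalf (Function.update y j v) (Function.update y' j v) := by
  obtain ⟨h0, h1, h3, h3', h2⟩ := h
  rcases hj with rfl | rfl
  · refine ⟨by simp, by simp [h1], by simp [h3], by simp [h3'], by simpa using h2⟩
  · refine ⟨by simp [h0], by simp, by simp [h3], by simp [h3'], by simpa using h2⟩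

lemma isBase_update {y : Fin 4 → I} (h : IsBase y) (j : Fin 4) (hj : j = 0 ∨ j = 1)
    (v : I) (hv : y j = 0 ∨ y j = 1 → v = 0 ∨ v = 1) : IsBase (Function.update y j v) := by
  unfold IsBase at *
  rcases hj with rfl | rfl
  · simp only [Function.update_self, Function.update_of_ne (show (1 : Fin 4) ≠ 0 by decide),
      Function.update_of_ne (show (2 : Fin 4) ≠ 0 by decide),
      Function.update_of_ne (show (3 : Fin 4) ≠ 0 by decide)]
    tauto
  · simp only [Function.update_self, Function.update_of_ne (show (0 : Fin 4) ≠ 1 by decide),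
      Function.update_of_ne (show (2 : Fin 4) ≠ 1 by decide),
      Function.update_of_ne (show (3 : Fin 4) ≠ 1 by decide)]
    tauto

/-- `u ↦ min 1 (2 u)`. -/
def dbl1 (u : I) : I := Set.projIcc 0 1 zero_le_one (2 * (u : ℝ))

/-- `u ↦ max 0 (2 u - 1)`. -/
def dbl2 (u : I) : I := Set.projIcc 0 1 zero_le_one (2 * (u : ℝ) - 1)

@[fun_prop] lemma continuous_dbl1 : Continuous dbl1 := by unfold dbl1; fun_prop
@[fun_prop] lemma continuous_dbl2 : Continuous dbl2 := by unfold dbl2; fun_prop

lemma dbl1_ends (u : I) (h : u = 0 ∨ u = 1) : dbl1 u = 0 ∨ dbl1 u = 1 := by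
  rcases h with rfl | rfl
  · left; simp [dbl1]
  · right
    unfold dbl1
    rw [Set.projIcc_of_right_le]
    · rfl
    · norm_num

lemma dbl2_ends (u : I) (h : u = 0 ∨ u = 1) : dbl2 u = 0 ∨ dbl2 u = 1 := by
  rcases h with rfl | rfl
  · left
    unfold dbl2
    rw [Set.projIcc_of_le_left]
    · rfl
    · norm_num
  · right
    unfold dbl2
    rw [Set.projIcc_of_right_le]
    · rfl
    · norm_num

lemma dbl1_or_dbl2 (u : I) : dbl1 u = 1 ∨ dbl2 u = 0 := by
  rcases le_total (1 / 2 : ℝ) u with h | h
  · left
    unfold dbl1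
    rw [Set.projIcc_of_right_le]
    · rfl
    · linarith
  · right
    unfold dbl2
    rw [Set.projIcc_of_le_left]
    · rfl
    · linarith

/-- Stretch the left half `u₀ ≤ 1/2` of `MSp` over `MSp` and collapse the right half. -/
def lam1 : C(MSp, MSp) :=
  mlift ⟨fun y => mproj (Function.update y 0 (dbl1 (y 0))), by fun_prop⟩ mpt
    (fun y hy => (mproj_eq_mpt_iff _).mpr
      (isBase_update hy 0 (Or.inl rfl) _ (dbl1_ends _)))
    (fun y y' h => by
      show mproj (Function.update y 0 (dbl1 (y 0))) = mproj (Function.update y' 0 (dbl1 (y' 0)))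
      rw [mproj_eq_iff]
      right; right
      rw [h.1]
      exact isHalf_update h 0 (Or.inl rfl) _)

/-- Stretch the right half `u₀ ≥ 1/2` of `MSp` over `MSp` and collapse the left half. -/
def lam2 : C(MSp, MSp) :=
  mlift ⟨fun y => mproj (Function.update y 0 (dbl2 (y 0))), by fun_prop⟩ mpt
    (fun y hy => (mproj_eq_mpt_iff _).mpr
      (isBase_update hy 0 (Or.inl rfl) _ (dbl2_ends _)))
    (fun y y' h => by
      show mproj (Function.update y 0 (dbl2 (y 0))) = mproj (Function.update y' 0 (dbl2 (y' 0)))
      rw [mproj_eq_iff]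
      right; right
      rw [h.1]
      exact isHalf_update h 0 (Or.inl rfl) _)

lemma lam1_mproj (y : Fin 4 → I) :
    lam1 (mproj y) = mproj (Function.update y 0 (dbl1 (y 0))) := by
  unfold lam1; rw [mlift_mproj]; rfl

lemma lam2_mproj (y : Fin 4 → I) :
    lam2 (mproj y) = mproj (Function.update y 0 (dbl2 (y 0))) := by
  unfold lam2; rw [mlift_mproj]; rfl

@[simp] lemma lam1_mpt : lam1 mpt = mpt := by unfold lam1; simp
@[simp] lemma lam2_mpt : lam2 mpt = mpt := by unfold lam2; simp

lemma lam1_or_lam2 (m : MSp) : lam1 m = mpt ∨ lam2 m = mpt := by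
  obtain ⟨y, rfl⟩ := mproj_surjective m
  rw [lam1_mproj, lam2_mproj, mproj_eq_mpt_iff, mproj_eq_mpt_iff]
  rcases dbl1_or_dbl2 (y 0) with h | h
  · left; right; left; simp [h]
  · right; left; simp [h]

/-! ### Pointed maps `MSp → B` and their sum -/

/-- Pointed maps from `MSp` to `(B, b)`. -/
def PM (B : Type*) [TopologicalSpace B] (b : B) : Type _ := {f : C(MSp, B) // f mpt = b}

/-- Pointed homotopy of pointed maps `MSp → B`. -/
def PM.Htpy {B : Type*} [TopologicalSpace B] {b : B} (f g : PM B b) : Prop :=
  f.1.HomotopicRel g.1 {mpt}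

/-- The constant pointed map. -/
def PM.const {B : Type*} [TopologicalSpace B] (b : B) : PM B b :=
  ⟨ContinuousMap.const _ b, rfl⟩

/-- `f` on the left half and `g` on the right half of `MSp`. -/
def addFun {B : Type*} (f g : MSp → B) (m : MSp) : B :=
  open Classical in if lam2 m = mpt then f (lam1 m) else g (lam2 m)

lemma addFun_of_lam2 {B : Type*} (f g : MSp → B) (m : MSp) (h : lam2 m = mpt) :
    addFun f g m = f (lam1 m) := by
  unfold addFun; rw [if_pos h]

lemma addFun_of_lam1 {B : Type*} (f g : MSp → B) (m : MSp) (h : lam1 m = mpt)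
    (hfg : f mpt = g mpt) : addFun f g m = g (lam2 m) := by
  unfold addFun
  split_ifs with h2
  · rw [h, h2, hfg]
  · rfl

/-- Glue two continuous families along the pinch. -/
lemma continuous_addFun {B Y : Type*} [TopologicalSpace B] [TopologicalSpace Y]
    (f g : MSp × Y → B) (hf : Continuous f) (hg : Continuous g)
    (h : ∀ τ, f (mpt, τ) = g (mpt, τ)) :
    Continuous (fun p : MSp × Y => addFun (fun m => f (m, p.2)) (fun m => g (m, p.2)) p.1) := by
  have hF : Continuous (fun p : MSp × Y => f (lam1 p.1, p.2)) := by fun_prop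
  have hG : Continuous (fun p : MSp × Y => g (lam2 p.1, p.2)) := by fun_prop
  have c2 : IsClosed {p : MSp × Y | lam2 p.1 = mpt} :=
    isClosed_eq (by fun_prop) continuous_const
  have c1 : IsClosed {p : MSp × Y | lam1 p.1 = mpt} :=
    isClosed_eq (by fun_prop) continuous_const
  rw [← continuousOn_univ]
  have hu : (univ : Set (MSp × Y)) = {p | lam2 p.1 = mpt} ∪ {p | lam1 p.1 = mpt} := by
    ext p
    rcases lam1_or_lam2 p.1 with h | h <;> simp [h]
  rw [hu]
  refine ContinuousOn.union_of_isClosed ?_ ?_ c2 c1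
  · exact hF.continuousOn.congr fun p hp => addFun_of_lam2 _ _ _ hp
  · exact hG.continuousOn.congr fun p hp => addFun_of_lam1 _ _ _ hp (h _)

lemma continuous_addFun' {B : Type*} [TopologicalSpace B] (f g : MSp → B)
    (hf : Continuous f) (hg : Continuous g) (h : f mpt = g mpt) : Continuous (addFun f g) := by
  have h1 := continuous_addFun (Y := Unit) (fun p => f p.1) (fun p => g p.1)
      (hf.comp continuous_fst) (hg.comp continuous_fst) (fun _ => h)
  have h2 : Continuous fun m : MSp => (m, ()) := by fun_prop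
  have h3 := h1.comp h2
  simpa only [Function.comp_def] using h3

/-- The sum of two pointed maps `MSp → B`: `f` on the left half and `g` on the right half. -/
def PM.add {B : Type*} [TopologicalSpace B] {b : B} (f g : PM B b) : PM B b :=
  ⟨⟨addFun f.1 g.1, continuous_addFun' _ _ f.1.continuous g.1.continuous (f.2.trans g.2.symm)⟩,
   by
    show addFun f.1 g.1 mpt = b
    rw [addFun_of_lam2 _ _ _ lam2_mpt, lam1_mpt]
    exact f.2⟩

lemma PM.add_apply {B : Type*} [TopologicalSpace B] {b : B} (f g : PM B b) (m : MSp) :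
    (PM.add f g).1 m = addFun f.1 g.1 m := rfl

end SelfCover
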