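import Mathlib

/-!
# A mod 2 count of fully labelled simplices of the Kuhn triangulation of a grid
-/

open Finset

noncomputable section

namespace SelfCover

namespace Deg

/-- The indicator (mod 2) that the five labels are exactly `0,…,4`. -/
def F (l : Fin 5 → Fin 6) : ZMod 2 :=
  Matrix.det (Matrix.of fun (i : Fin 5) (c : Fin 5) => if l i = c.castSucc then (1 : ZMod 2) else 0)

lemma F_eq_zero_of_eq (l : Fin 5 → Fin 6) (i j : Fin 5) (hij : i ≠ j) (h : l i = l j) : F l = 0 := by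
  unfold F
  apply Matrix.det_zero_of_row_eq hij
  funext c
  simp [h]

lemma F_eq_zero_of_last (l : Fin 5 → Fin 6) (i : Fin 5) (h : l i = 5) : F l = 0 := by
  unfold F
  apply Matrix.det_eq_zero_of_row_eq_zero i
  intro c
  have : (5 : Fin 6) ≠ c.castSucc := by
    intro h'
    have := congrArg Fin.val h'
    simp at this
    omega
  simp [h, this]

lemma F_castSucc : F (fun i => i.castSucc) = 1 := by
  unfold F
  have : (Matrix.of fun (i : Fin 5) (c : Fin 5) =>
      if (i.castSucc : Fin 6) = c.castSucc then (1 : ZMod 2) else 0) = 1 := by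
    ext i c
    simp [Matrix.one_apply]
  rw [this, Matrix.det_one]

/-- Parity lemma for a `5`-simplex with a missing label. -/
lemma parity (a : Fin 6 → Fin 6) (c : Fin 6) (hc : ∀ k, a k ≠ c) :
    ∑ k : Fin 6, F (fun i => a (k.succAbove i)) = 0 := by
  let B : Matrix (Fin 6) (Fin 6) (ZMod 2) :=
    Matrix.of fun i => (Fin.cons 1 (fun c : Fin 5 => if a i = c.castSucc then (1 : ZMod 2) else 0) :
      Fin 6 → ZMod 2)
  have h1 : B.det = ∑ k : Fin 6, F (fun i => a (k.succAbove i)) := by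
    rw [Matrix.det_succ_column_zero]
    refine Finset.sum_congr rfl fun k _ => ?_
    have h2 : ((-1 : ZMod 2)) ^ (k : ℕ) = 1 := by
      have : (-1 : ZMod 2) = 1 := by decide
      rw [this, one_pow]
    have h3 : B k 0 = 1 := by simp [B]
    rw [h2, h3, one_mul, one_mul]
    unfold F
    congr 1
  rw [← h1]
  by_cases h5 : c = 5
  · subst h5
    rw [← Matrix.exists_mulVec_eq_zero_iff]
    refine ⟨fun _ => 1, ?_, ?_⟩
    · intro h
      have := congrFun h 0
      simp at this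
    · funext i
      simp only [Matrix.mulVec, dotProduct, mul_one, Pi.zero_apply]
      rw [Fin.sum_univ_succ]
      have h4 : ∃ d : Fin 5, a i = d.castSucc := by
        refine ⟨⟨(a i : ℕ), ?_⟩, ?_⟩
        · have h6 := hc i
          have h7 := (a i).2
          have h8 : (a i : ℕ) ≠ 5 := fun h => h6 (Fin.ext h)
          omega
        · ext; simp
      obtain ⟨d, hd⟩ := h4
      simp [B, hd]
      decide
  · obtain ⟨d, rfl⟩ : ∃ d : Fin 5, c = d.castSucc := by
      refine ⟨⟨(c : ℕ), ?_⟩, ?_⟩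
      · have h7 := c.2
        have h8 : (c : ℕ) ≠ 5 := fun h => h5 (Fin.ext h)
        omega
      · ext; simp
    apply Matrix.det_eq_zero_of_column_eq_zero d.succ
    intro i
    simp [B, hc i]

/-- The vertices of the Kuhn simplex of `v`, `σ`. -/
def pt (v : Fin 5 → ℕ) (σ : Equiv.Perm (Fin 5)) (k : ℕ) : Fin 5 → ℕ :=
  fun j => v j + if ((σ.symm j : Fin 5) : ℕ) < k then 1 else 0

/-- the face without the last vertex -/
def G (L : (Fin 5 → ℕ) → Fin 6) (σ : Equiv.Perm (Fin 5)) (v : Fin 5 → ℕ) : ZMod 2 :=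
  F (fun i : Fin 5 => L (pt v σ i))

/-- the face without the vertex `k` -/
def P5 (L : (Fin 5 → ℕ) → Fin 6) (v : Fin 5 → ℕ) (σ : Equiv.Perm (Fin 5)) (k : Fin 6) : ZMod 2 :=
  F (fun i : Fin 5 => L (pt v σ (k.succAbove i)))

lemma P5_last (L : (Fin 5 → ℕ) → Fin 6) (v : Fin 5 → ℕ) (σ : Equiv.Perm (Fin 5)) :
    P5 L v σ 5 = G L σ v := by
  unfold P5 G
  have : ∀ i : Fin 5, ((5 : Fin 6).succAbove i : ℕ) = i := by
    intro i; fin_cases i <;> rfl
  simp_rw [this]

/-- the face without the last vertex, shifted -/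
def Gs (L : (Fin 5 → ℕ) → Fin 6) (v : Fin 5 → ℕ) (σ : Equiv.Perm (Fin 5)) : ZMod 2 :=
  G L σ (v + Pi.single (σ 4) 1)

lemma P5_zero (L : (Fin 5 → ℕ) → Fin 6) (v : Fin 5 → ℕ) (σ : Equiv.Perm (Fin 5)) :
    P5 L v σ 0 = Gs L v (σ * finRotate 5) := by
  unfold P5 Gs G
  congr 1
  funext i
  congr 1
  funext j
  obtain ⟨q, rfl⟩ : ∃ q, σ q = j := ⟨σ.symm j, by simp⟩
  have h1 : ((0 : Fin 6).succAbove i : ℕ) = i + 1 := by simp
  have h2 : (σ * finRotate 5) 4 = σ 0 := by
    rw [Equiv.Perm.mul_apply]; congr 1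
  rw [h2]
  simp only [pt, h1, Equiv.symm_apply_apply, Pi.add_apply]
  have h3 : (σ * finRotate 5).symm (σ q) = (finRotate 5).symm q := by
    rw [Equiv.symm_apply_eq, Equiv.Perm.mul_apply]; simp
  rw [h3]
  have h4 : (Pi.single (σ 0) 1 : Fin 5 → ℕ) (σ q) = if q = 0 then 1 else 0 := by
    by_cases hq : q = 0
    · subst hq; simp
    · rw [Pi.single_eq_of_ne (fun h => hq (σ.injective h)), if_neg hq]
  rw [h4]
  have h5 : ((finRotate 5).symm q : ℕ) = if q = 0 then 4 else (q : ℕ) - 1 := by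
    fin_cases q <;> rfl
  rw [h5]
  have hi := i.2
  by_cases hq : q = 0
  · subst hq
    simp
    omega
  · have hq' : (q : ℕ) ≠ 0 := fun h => hq (Fin.ext h)
    rw [if_neg hq, if_neg hq]
    have : ((q : ℕ) < i + 1) ↔ ((q : ℕ) - 1 < i) := by omega
    simp only [this]
    omega

lemma P5_swap (L : (Fin 5 → ℕ) → Fin 6) (v : Fin 5 → ℕ) (σ : Equiv.Perm (Fin 5)) (k : Fin 4) :
    P5 L v (σ * Equiv.swap k.castSucc k.succ) k.succ.castSucc = P5 L v σ k.succ.castSucc := by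
  unfold P5
  congr 1
  funext i
  congr 1
  funext j
  obtain ⟨q, rfl⟩ : ∃ q, σ q = j := ⟨σ.symm j, by simp⟩
  have h3 : (σ * Equiv.swap k.castSucc k.succ).symm (σ q) = Equiv.swap k.castSucc k.succ q := by
    rw [Equiv.symm_apply_eq, Equiv.Perm.mul_apply]; simp
  simp only [pt, h3, Equiv.symm_apply_apply]
  have hne : ((k.succ.castSucc.succAbove i : Fin 6) : ℕ) ≠ (k : ℕ) + 1 := by
    intro h
    have : (k.succ.castSucc.succAbove i : Fin 6) = k.succ.castSucc := Fin.ext (by simpa using h)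
    exact Fin.succAbove_ne _ _ this
  generalize ((k.succ.castSucc.succAbove i : Fin 6) : ℕ) = n at hne
  rcases eq_or_ne q k.castSucc with h | h
  · subst h
    rw [Equiv.swap_apply_left]
    have : ((k.succ : Fin 5) : ℕ) < n ↔ ((k.castSucc : Fin 5) : ℕ) < n := by
      simp; omega
    simp only [this]
  · rcases eq_or_ne q k.succ with h' | h'
    · subst h'
      rw [Equiv.swap_apply_right]
      have : ((k.castSucc : Fin 5) : ℕ) < n ↔ ((k.succ : Fin 5) : ℕ) < n := by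
        simp; omega
      simp only [this]
    · rw [Equiv.swap_apply_of_ne_of_ne h h']

lemma sum_P5_mid (L : (Fin 5 → ℕ) → Fin 6) (v : Fin 5 → ℕ) (k : Fin 4) :
    ∑ σ : Equiv.Perm (Fin 5), P5 L v σ k.succ.castSucc = 0 := by
  have hne : k.castSucc ≠ k.succ := by
    intro h
    have := congrArg Fin.val h
    simp at this
  refine Finset.sum_involution (fun σ _ => σ * Equiv.swap k.castSucc k.succ) ?_ ?_ ?_ ?_
  · intro σ _
    rw [P5_swap]
    exact CharTwo.add_self_eq_zero _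
  · intro σ _ _ h
    have h1 : Equiv.swap k.castSucc k.succ = 1 := by
      simpa using h
    rw [Equiv.swap_eq_one_iff] at h1
    exact hne h1
  · intro σ _
    exact Finset.mem_univ _
  · intro σ _
    simp [mul_assoc]

lemma telescope (m : ℕ) (j : Fin 5) (g : (Fin 5 → ℕ) → ZMod 2) :
    ∑ v : Fin 5 → Fin m, (g ((fun i => (v i : ℕ)) + Pi.single j 1) + g (fun i => (v i : ℕ))) =
      ∑ u : Fin 4 → Fin m, (g (Fin.insertNth j m (fun i => (u i : ℕ))) +
        g (Fin.insertNth j 0 (fun i => (u i : ℕ)))) := by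
  have h1 : ∀ (x : Fin m) (u : Fin 4 → Fin m),
      (fun i => ((Fin.insertNthEquiv (fun _ => Fin m) j (x, u)) i : ℕ)) =
        (Fin.insertNth j (x : ℕ) (fun i => (u i : ℕ)) : Fin 5 → ℕ) := by
    intro x u
    funext i
    refine Fin.succAboveCases j ?_ ?_ i
    · simp [Fin.insertNthEquiv]
    · intro i; simp [Fin.insertNthEquiv]
  have h2 : ∀ (x : ℕ) (u : Fin 4 → ℕ),
      (Fin.insertNth j x u : Fin 5 → ℕ) + Pi.single j 1 = Fin.insertNth j (x + 1) u := by
    intro x u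
    funext i
    refine Fin.succAboveCases j ?_ ?_ i
    · simp
    · intro i
      have := Fin.succAbove_ne j i
      simp [this]
  rw [← (Fin.insertNthEquiv (fun _ => Fin m) j).sum_comp, Fintype.sum_prod_type, Finset.sum_comm]
  refine Finset.sum_congr rfl fun u _ => ?_
  simp_rw [h1, h2]
  have h3 := Finset.sum_range_sub (fun x => g (Fin.insertNth j x (fun i => (u i : ℕ)))) m
  rw [Finset.sum_range] at h3
  simp only [CharTwo.sub_eq_add] at h3
  exact h3

lemma sum_mulRight (ρ : Equiv.Perm (Fin 5)) (g : Equiv.Perm (Fin 5) → ZMod 2) :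
    ∑ σ : Equiv.Perm (Fin 5), g (σ * ρ) = ∑ σ : Equiv.Perm (Fin 5), g σ :=
  Equiv.sum_comp (Equiv.mulRight ρ) g

lemma sum_P5_zero (L : (Fin 5 → ℕ) → Fin 6) (v : Fin 5 → ℕ) :
    ∑ σ : Equiv.Perm (Fin 5), P5 L v σ 0 = ∑ σ : Equiv.Perm (Fin 5), Gs L v σ := by
  rw [Finset.sum_congr rfl fun σ _ => P5_zero L v σ]
  exact sum_mulRight (finRotate 5) (Gs L v)

lemma sum_P5 (L : (Fin 5 → ℕ) → Fin 6) (v : Fin 5 → ℕ) :
    ∑ σ : Equiv.Perm (Fin 5), ∑ k : Fin 6, P5 L v σ k = ∑ σ : Equiv.Perm (Fin 5),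
        (Gs L v σ + G L σ v) := by
  have e1 : ∑ σ : Equiv.Perm (Fin 5), P5 L v σ 1 = 0 := sum_P5_mid L v 0
  have e2 : ∑ σ : Equiv.Perm (Fin 5), P5 L v σ 2 = 0 := sum_P5_mid L v 1
  have e3 : ∑ σ : Equiv.Perm (Fin 5), P5 L v σ 3 = 0 := sum_P5_mid L v 2
  have e4 : ∑ σ : Equiv.Perm (Fin 5), P5 L v σ 4 = 0 := sum_P5_mid L v 3
  have e5 : ∑ σ : Equiv.Perm (Fin 5), P5 L v σ 5 = ∑ σ : Equiv.Perm (Fin 5), G L σ v :=
    Finset.sum_congr rfl fun σ _ => P5_last _ _ _
  have h : ∀ σ : Equiv.Perm (Fin 5), ∑ k : Fin 6, P5 L v σ k =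
      P5 L v σ 0 + P5 L v σ 1 + P5 L v σ 2 + P5 L v σ 3 + P5 L v σ 4 + P5 L v σ 5 :=
    fun σ => Fin.sum_univ_six _
  rw [Finset.sum_congr rfl fun σ _ => h σ]
  rw [Finset.sum_add_distrib, Finset.sum_add_distrib, Finset.sum_add_distrib,
    Finset.sum_add_distrib, Finset.sum_add_distrib, Finset.sum_add_distrib, e1, e2, e3, e4, e5,
    sum_P5_zero, add_zero, add_zero, add_zero, add_zero]

/-- **Boundary identity.** -/
theorem boundary (m : ℕ) (L : (Fin 5 → ℕ) → Fin 6)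
    (hL : ∀ (v : Fin 5 → Fin m) (σ : Equiv.Perm (Fin 5)), ∃ c : Fin 6, ∀ k : Fin 6,
      L (pt (fun i => (v i : ℕ)) σ k) ≠ c) :
    ∑ σ : Equiv.Perm (Fin 5), ∑ u : Fin 4 → Fin m,
      (G L σ (Fin.insertNth (σ 4) m (fun i => (u i : ℕ))) +
        G L σ (Fin.insertNth (σ 4) 0 (fun i => (u i : ℕ)))) = 0 := by
  have h1 : ∑ v : Fin 5 → Fin m, ∑ σ : Equiv.Perm (Fin 5), ∑ k : Fin 6,
      P5 L (fun i => (v i : ℕ)) σ k = 0 := by
    refine Finset.sum_eq_zero fun v _ => Finset.sum_eq_zero fun σ _ => ?_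
    obtain ⟨c, hc⟩ := hL v σ
    exact parity (fun k => L (pt (fun i => (v i : ℕ)) σ k)) c hc
  rw [Finset.sum_congr rfl fun v _ => sum_P5 L (fun i => ((v : Fin 5 → Fin m) i : ℕ))] at h1
  rw [Finset.sum_comm] at h1
  rw [← h1]
  exact Finset.sum_congr rfl fun σ _ => (telescope m (σ 4) (G L σ)).symm

end Deg

end SelfCover
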