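import Pool.Agent.SelfCover.MBasic
import Pool.Agent.SelfCover.MDegreeComb

/-!
# A mod 2 degree for self-maps of `MSp`

Labels `lab : MSp → Fin 6` (`5` outside the open box `(1/4,3/4)^4`); the degree counts the
simplices of a fine Kuhn triangulation of the cube whose labels are exactly `0,…,4`.
-/

open scoped unitInterval Topology
open Set

noncomputable section

namespace SelfCover

namespace Deg

/-- the open box -/
def Bx (y : Fin 4 → I) : Prop := ∀ i, (1 / 4 : ℝ) < y i ∧ (y i : ℝ) < 3 / 4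

/-- label of a point of the box -/
def lb (y : Fin 4 → I) : Fin 6 :=
  open Classical in
  if (y 0 : ℝ) ≤ 1 / 2 then 0 else if (y 1 : ℝ) ≤ 1 / 2 then 1 else
    if (y 2 : ℝ) ≤ 1 / 2 then 2 else if (y 3 : ℝ) ≤ 1 / 2 then 3 else 4

/-- label of a point of `MSp` -/
def lab (x : MSp) : Fin 6 :=
  open Classical in
  if h : ∃ y, Bx y ∧ mproj y = x then lb h.choose else 5

/-- the closed box -/
def CB (y : Fin 4 → I) : Prop := ∀ i, (1 / 4 : ℝ) ≤ y i ∧ (y i : ℝ) ≤ 3 / 4

lemma Bx.cb {y : Fin 4 → I} (h : Bx y) : CB y := fun i => ⟨(h i).1.le, (h i).2.le⟩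

lemma CB.not_base {y : Fin 4 → I} (h : CB y) : ¬ IsBase y := by
  have h0 := h 0
  have h1 := h 1
  have h2 := h 2
  have h3 := h 3
  have z : ∀ u : I, ((1 / 4 : ℝ) ≤ u ∧ (u : ℝ) ≤ 3 / 4) → u ≠ 0 ∧ u ≠ 1 := by
    intro u hu
    constructor
    · rintro rfl
      have := hu.1
      norm_num at this
    · rintro rfl
      have := hu.2
      norm_num at this
  unfold IsBase
  have a0 := z _ h0
  have a1 := z _ h1
  have a2 := z _ h2
  have a3 := z _ h3
  tauto

lemma CB.inj {y y' : Fin 4 → I} (h : CB y) (he : mproj y = mproj y') : y = y' := by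
  rcases (mproj_eq_iff y y').mp he with h1 | h1 | h1
  · exact h1
  · exact absurd h1.1 h.not_base
  · exfalso
    have h3 := (h 3).1
    rw [h1.2.2.1] at h3
    norm_num at h3

lemma lab_mproj (y : Fin 4 → I) [Decidable (Bx y)] : lab (mproj y) = if Bx y then lb y else 5 := by
  classical
  unfold lab
  by_cases h : Bx y
  · have h' : ∃ y', Bx y' ∧ mproj y' = mproj y := ⟨y, h, rfl⟩
    rw [dif_pos h', if_pos h]
    have h2 := h'.choose_spec
    rw [← h.cb.inj h2.2.symm]
  · rw [if_neg h, dif_neg]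
    rintro ⟨y', h1, h2⟩
    exact h (h1.cb.inj h2 ▸ h1)

/-- conditions defining the closed sets containing the label classes -/
def cond (c : Fin 6) (y : Fin 4 → I) : Prop :=
  (c = 0 → (y 0 : ℝ) ≤ 1 / 2) ∧ (c = 1 → (y 1 : ℝ) ≤ 1 / 2) ∧ (c = 2 → (y 2 : ℝ) ≤ 1 / 2) ∧
    (c = 3 → (y 3 : ℝ) ≤ 1 / 2) ∧ (c = 4 → ∀ i, (1 / 2 : ℝ) ≤ y i)

lemma cont_coord (i : Fin 4) : Continuous fun y : Fin 4 → I => (y i : ℝ) := by fun_prop

lemma isClosed_CB : IsClosed {y : Fin 4 → I | CB y} := by
  have : {y : Fin 4 → I | CB y} = ⋂ i, ({y | (1 / 4 : ℝ) ≤ y i} ∩ {y | (y i : ℝ) ≤ 3 / 4}) := by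
    ext y; simp [CB]
  rw [this]
  exact isClosed_iInter fun i => (isClosed_le continuous_const (cont_coord i)).inter
      (isClosed_le (cont_coord i) continuous_const)

/-- closed sets containing the label classes -/
def K (c : Fin 6) : Set MSp :=
  if c = 5 then mproj '' {y | ¬ Bx y} else mproj '' {y | CB y ∧ cond c y}

lemma isClosed_K (c : Fin 6) : IsClosed (K c) := by
  unfold K
  split_ifs with h
  · apply isClosedMap_mproj
    have h2 : {y : Fin 4 → I | Bx y} = ⋂ i, ({y | (1 / 4 : ℝ) < y i} ∩ {y | (y i : ℝ) < 3 / 4}) := by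
      ext y; simp [Bx]
    have : IsOpen {y : Fin 4 → I | Bx y} := by
      rw [h2]
      exact isOpen_iInter_of_finite fun i =>
        (isOpen_lt continuous_const (cont_coord i)).inter (isOpen_lt (cont_coord i) continuous_const)
    exact this.isClosed_compl
  · apply isClosedMap_mproj
    have h1 := isClosed_CB
    have h2 : IsClosed {y : Fin 4 → I | cond c y} := by
      unfold cond
      have e : ∀ i : Fin 4, IsClosed {y : Fin 4 → I | (y i : ℝ) ≤ 1 / 2} := fun i =>
        isClosed_le (cont_coord i) continuous_const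
      have e' : IsClosed {y : Fin 4 → I | ∀ i, (1 / 2 : ℝ) ≤ y i} := by
        have : {y : Fin 4 → I | ∀ i, (1 / 2 : ℝ) ≤ y i} = ⋂ i, {y | (1 / 2 : ℝ) ≤ y i} := by
          ext y; simp
        rw [this]
        exact isClosed_iInter fun i => isClosed_le continuous_const (cont_coord i)
      have imp : ∀ (p : Prop) (q : (Fin 4 → I) → Prop), IsClosed {y | q y} →
          IsClosed {y | p → q y} := by
        intro p q hq
        by_cases hp : p
        · simpa [hp] using hq
        · simp [hp]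
      exact (imp _ _ (e 0)).inter ((imp _ _ (e 1)).inter ((imp _ _ (e 2)).inter
        ((imp _ _ (e 3)).inter (imp _ _ e'))))
    exact h1.inter h2

lemma mem_K (x : MSp) : x ∈ K (lab x) := by
  classical
  obtain ⟨y, rfl⟩ := mproj_surjective x
  rw [lab_mproj]
  by_cases h : Bx y
  · rw [if_pos h]
    have hne : lb y ≠ 5 := by
      unfold lb; split_ifs <;> decide
    unfold K
    rw [if_neg hne]
    refine ⟨y, ⟨h.cb, ?_⟩, rfl⟩
    unfold lb
    unfold cond
    split_ifs with h0 h1 h2 h3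
    · refine ⟨fun _ => h0, ?_, ?_, ?_, ?_⟩ <;> intro h' <;> exact absurd h' (by decide)
    · refine ⟨?_, fun _ => h1, ?_, ?_, ?_⟩ <;> intro h' <;> exact absurd h' (by decide)
    · refine ⟨?_, ?_, fun _ => h2, ?_, ?_⟩ <;> intro h' <;> exact absurd h' (by decide)
    · refine ⟨?_, ?_, ?_, fun _ => h3, ?_⟩ <;> intro h' <;> exact absurd h' (by decide)
    · refine ⟨?_, ?_, ?_, ?_, ?_⟩
      · intro h'; exact absurd h' (by decide)
      · intro h'; exact absurd h' (by decide)
      · intro h'; exact absurd h' (by decide)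
      · intro h'; exact absurd h' (by decide)
      · intro _ i
        push Not at h0 h1 h2 h3
        fin_cases i
        · exact h0.le
        · exact h1.le
        · exact h2.le
        · exact h3.le
  · rw [if_neg h]
    unfold K
    rw [if_pos rfl]
    exact ⟨y, h, rfl⟩

lemma exists_not_mem_K (x : MSp) : ∃ c, x ∉ K c := by
  by_contra hcon
  push Not at hcon
  have h5 := hcon 5
  unfold K at h5
  rw [if_pos rfl] at h5
  obtain ⟨y, hy, rfl⟩ := h5
  apply hy
  have key : ∀ c : Fin 6, c ≠ 5 → CB y ∧ cond c y := by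
    intro c hc
    have h := hcon c
    unfold K at h
    rw [if_neg hc] at h
    obtain ⟨y', hy', he⟩ := h
    rw [← hy'.1.inj he]
    exact hy'
  have k0 := (key 0 (by decide)).2.1 rfl
  have k1 := (key 1 (by decide)).2.2.1 rfl
  have k2 := (key 2 (by decide)).2.2.2.1 rfl
  have k3 := (key 3 (by decide)).2.2.2.2.1 rfl
  have k4 := (key 4 (by decide)).2.2.2.2.2 rfl
  intro i
  have h4 := k4 i
  have : (y i : ℝ) ≤ 1 / 2 := by
    fin_cases i
    · exact k0
    · exact k1
    · exact k2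
    · exact k3
  constructor <;> linarith

/-- near the base point all labels are `5` -/
lemma exists_ball : ∃ r > 0, ∀ x : MSp, dist x mpt < r → lab x = 5 := by
  classical
  have h1 : IsClosed (mproj '' {y | CB y}) := isClosedMap_mproj _ isClosed_CB
  have h2 : mpt ∈ (mproj '' {y | CB y})ᶜ := by
    rintro ⟨y, hy, he⟩
    exact hy.not_base ((mproj_eq_mpt_iff y).mp he)
  obtain ⟨r, hr, hb⟩ := Metric.isOpen_iff.mp h1.isOpen_compl mpt h2
  refine ⟨r, hr, fun x hx => ?_⟩
  have h3 := hb (Metric.mem_ball.mpr hx)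
  obtain ⟨y, rfl⟩ := mproj_surjective x
  rw [lab_mproj, if_neg]
  intro h
  exact h3 ⟨y, h.cb, rfl⟩

lemma lab_mpt : lab mpt = 5 := by
  obtain ⟨r, hr, h⟩ := exists_ball
  exact h mpt (by simpa using hr)

/-- coordinate of a grid point -/
def cr (m : ℕ) (n : ℕ) : I := Set.projIcc 0 1 zero_le_one ((n : ℝ) / m)

/-- the point of the cube of a grid point -/
def crd (m : ℕ) (w : Fin 5 → ℕ) : Fin 4 → I := fun i => cr m (w i.castSucc)

lemma cr_zero (m : ℕ) : cr m 0 = 0 := by
  unfold cr
  rw [Nat.cast_zero, zero_div]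
  exact Set.projIcc_left _

lemma cr_self (m : ℕ) (hm : 0 < m) : cr m m = 1 := by
  unfold cr
  have : (m : ℝ) ≠ 0 := by exact_mod_cast hm.ne'
  rw [div_self this]
  exact Set.projIcc_right _

lemma cr_val (m n : ℕ) (h : n ≤ m) : (cr m n : ℝ) = n / m := by
  unfold cr
  rw [Set.projIcc_of_mem]
  constructor
  · positivity
  · apply div_le_one_of_le₀
    · exact_mod_cast h
    · positivity

lemma dist_cr (m : ℕ) (hm : 0 < m) (a b : ℕ) (h : a ≤ b) (h' : b ≤ a + 1) :
    dist (cr m b) (cr m a) ≤ 1 / m := by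
  rw [Subtype.dist_eq, Real.dist_eq]
  unfold cr
  refine (Set.abs_projIcc_sub_projIcc _).trans ?_
  have hm' : (0 : ℝ) < m := by exact_mod_cast hm
  have h1 : (a : ℝ) ≤ b := by exact_mod_cast h
  have h2 : (b : ℝ) ≤ a + 1 := by exact_mod_cast h'
  rw [← sub_div, abs_of_nonneg (div_nonneg (by linarith) hm'.le)]
  gcongr
  linarith

lemma pt_ge (v : Fin 5 → ℕ) (p : Equiv.Perm (Fin 5)) (k : ℕ) (j : Fin 5) : v j ≤ pt v p k j := by
  unfold pt; omega

lemma pt_le (v : Fin 5 → ℕ) (p : Equiv.Perm (Fin 5)) (k : ℕ) (j : Fin 5) :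
    pt v p k j ≤ v j + 1 := by
  unfold pt; split_ifs <;> omega

/-- the labelling of the grid of a map -/
def Lf (m : ℕ) (f : C(MSp, MSp)) (w : Fin 5 → ℕ) : Fin 6 := lab (f (mproj (crd m w)))

/-- the labelled count -/
def S (m : ℕ) (f : C(MSp, MSp)) : ZMod 2 :=
  ∑ p ∈ Finset.univ.filter (fun p : Equiv.Perm (Fin 5) => p 4 = 4), ∑ u : Fin 4 → Fin m,
    G (Lf m f) p (Fin.insertNth 4 0 (fun i => (u i : ℕ)))

lemma ins_ne (j : Fin 5) (x x' : ℕ) (u : Fin 4 → ℕ) (i : Fin 5) (h : i ≠ j) :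
    (Fin.insertNth j x u : Fin 5 → ℕ) i = (Fin.insertNth j x' u : Fin 5 → ℕ) i := by
  obtain ⟨k, rfl⟩ := Fin.exists_succAbove_eq h
  simp

/-- the labelling of the grid of a family of maps -/
def Lh (m : ℕ) (Φ : C(I × MSp, MSp)) (w : Fin 5 → ℕ) : Fin 6 :=
  lab (Φ (cr m (w 4), mproj (crd m w)))

/-- fine grids have no simplex with all six labels -/
lemma fine (Φ : C(I × MSp, MSp)) : ∃ M : ℕ, ∀ m : ℕ, M ≤ m → 0 < m →
    ∀ (v : Fin 5 → Fin m) (p : Equiv.Perm (Fin 5)), ∃ c : Fin 6, ∀ k : Fin 6,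
      Lh m Φ (pt (fun i => (v i : ℕ)) p k) ≠ c := by
  let Ψ : I × (Fin 4 → I) → MSp := fun q => Φ (q.1, mproj q.2)
  have hΨ : Continuous Ψ := by fun_prop
  obtain ⟨δ, hδ, hleb⟩ := lebesgue_number_lemma_of_metric (s := (univ : Set (I × (Fin 4 → I))))
    (c := fun c : Fin 6 => Ψ ⁻¹' (K c)ᶜ) isCompact_univ
    (fun c => (isClosed_K c).isOpen_compl.preimage hΨ)
    (fun x _ => by
      obtain ⟨c, hc⟩ := exists_not_mem_K (Ψ x)
      exact mem_iUnion.mpr ⟨c, hc⟩)
  obtain ⟨M, hM⟩ := exists_nat_gt (1 / δ)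
  refine ⟨M, fun m hm hm0 v p => ?_⟩
  set v' : Fin 5 → ℕ := fun i => (v i : ℕ) with hv'
  obtain ⟨c, hc⟩ := hleb (cr m (v' 4), crd m v') (mem_univ _)
  refine ⟨c, fun k hk => ?_⟩
  have hm' : (0 : ℝ) < m := by exact_mod_cast hm0
  have h1 : (1 : ℝ) / m < δ := by
    rw [div_lt_iff₀ hm']
    rw [div_lt_iff₀ hδ] at hM
    have : (M : ℝ) ≤ m := by exact_mod_cast hm
    nlinarith
  have h2 : ((cr m (pt v' p k 4), crd m (pt v' p k)) : I × (Fin 4 → I)) ∈
      Metric.ball ((cr m (v' 4), crd m v') : I × (Fin 4 → I)) δ := by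
    rw [Metric.mem_ball, Prod.dist_eq]
    refine lt_of_le_of_lt (max_le ?_ ?_) h1
    · exact dist_cr m hm0 _ _ (pt_ge _ _ _ _) (pt_le _ _ _ _)
    · rw [dist_pi_le_iff (by positivity)]
      intro i
      exact dist_cr m hm0 _ _ (pt_ge _ _ _ _) (pt_le _ _ _ _)
  have h3 := hc h2
  apply h3
  show Ψ _ ∈ K c
  rw [← hk]
  exact mem_K _

lemma Lh_base (m : ℕ) (Φ : C(I × MSp, MSp)) (w : Fin 5 → ℕ) (h : IsBase (crd m w)) :
    Lh m Φ w = lab (Φ (cr m (w 4), mpt)) := by
  unfold Lh
  rw [(mproj_eq_mpt_iff _).mpr h]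

lemma pt_apply_of_last (v : Fin 5 → ℕ) (p : Equiv.Perm (Fin 5)) (k : Fin 5) :
    pt v p k (p 4) = v (p 4) := by
  unfold pt
  rw [Equiv.symm_apply_apply]
  have := k.2
  rw [if_neg]
  · rfl
  · show ¬ (4 < (k : ℕ))
    omega

/-- the shift by half a period -/
def shift (h : ℕ) (x : Fin (2 * h)) : Fin (2 * h) :=
  if hx : (x : ℕ) < h then ⟨x + h, by omega⟩ else ⟨x - h, by omega⟩

lemma shift_val (h : ℕ) (x : Fin (2 * h)) :
    ((shift h x : Fin (2 * h)) : ℕ) = if (x : ℕ) < h then (x : ℕ) + h else (x : ℕ) - h := by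
  unfold shift
  split_ifs <;> rfl

lemma shift_shift (h : ℕ) (x : Fin (2 * h)) : shift h (shift h x) = x := by
  apply Fin.ext
  have := x.2
  rw [shift_val, shift_val]
  split_ifs <;> omega

lemma shift_ne (h : ℕ) (x : Fin (2 * h)) : shift h x ≠ x := by
  intro hcon
  have h2 := congrArg Fin.val hcon
  have := x.2
  unfold shift at h2
  split_ifs at h2 <;> simp at h2 <;> omega

lemma half_aux (h : ℕ) (Φ : C(I × MSp, MSp)) (w w' : Fin 5 → ℕ) (h0 : w 0 = w' 0)
    (h1 : w 1 = w' 1) (h2 : w 2 + h = w' 2) (h2' : w' 2 ≤ 2 * h) (h3 : w 3 = 0) (h3' : w' 3 = 0)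
    (h4 : w 4 = w' 4) (hpos : 0 < h) : Lh (2 * h) Φ w = Lh (2 * h) Φ w' := by
  unfold Lh
  have e : mproj (crd (2 * h) w) = mproj (crd (2 * h) w') := by
    rw [mproj_eq_iff]
    right; right
    refine ⟨?_, ?_, ?_, ?_, ?_⟩
    · show cr (2 * h) (w 0) = cr (2 * h) (w' 0)
      rw [h0]
    · show cr (2 * h) (w 1) = cr (2 * h) (w' 1)
      rw [h1]
    · show cr (2 * h) (w 3) = 0
      rw [h3, cr_zero]
    · show cr (2 * h) (w' 3) = 0
      rw [h3', cr_zero]
    · show |(cr (2 * h) (w 2) : ℝ) - cr (2 * h) (w' 2)| = 1 / 2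
      rw [cr_val _ _ (by omega), cr_val _ _ h2', ← h2]
      have : (h : ℝ) ≠ 0 := by exact_mod_cast hpos.ne'
      push_cast
      rw [← sub_div]
      have e2 : (w 2 : ℝ) - ((w 2 : ℝ) + h) = -h := by ring
      rw [e2, neg_div, abs_neg, abs_of_nonneg (by positivity)]
      field_simp
  rw [e, h4]

lemma inner_zero (h : ℕ) (hpos : 0 < h) (Φ : C(I × MSp, MSp)) (p : Equiv.Perm (Fin 5))
    (hp : p 4 ≠ 4) : ∑ u : Fin 4 → Fin (2 * h),
      (G (Lh (2 * h) Φ) p (Fin.insertNth (p 4) (2 * h) (fun i => (u i : ℕ))) +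
        G (Lh (2 * h) Φ) p (Fin.insertNth (p 4) 0 (fun i => (u i : ℕ)))) = 0 := by
  have hm : 0 < 2 * h := by omega
  -- general fact: coordinate `4` does not see the inserted value
  have hw4 : ∀ (x x' : ℕ) (u : Fin 4 → ℕ) (k : Fin 5),
      pt (Fin.insertNth (p 4) x u) p k 4 = pt (Fin.insertNth (p 4) x' u) p k 4 := by
    intro x x' u k
    unfold pt
    rw [ins_ne (p 4) x x' u 4 (Ne.symm hp)]
  have hval : ∀ (x : ℕ) (u : Fin 4 → ℕ) (k : Fin 5),
      pt (Fin.insertNth (p 4) x u) p k (p 4) = x := by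
    intro x u k
    rw [pt_apply_of_last]
    simp
  by_cases h3 : p 4 = 3
  · -- the faces `t = 1` and `t = 0`
    rw [Finset.sum_add_distrib]
    have hA : ∑ u : Fin 4 → Fin (2 * h),
        G (Lh (2 * h) Φ) p (Fin.insertNth (p 4) (2 * h) (fun i => (u i : ℕ))) = 0 := by
      refine Finset.sum_eq_zero fun u _ => ?_
      have hb : ∀ k : Fin 5, Lh (2 * h) Φ (pt (Fin.insertNth (p 4) (2 * h) (fun i => (u i : ℕ))) p k)
          = lab (Φ (cr (2 * h) (pt (Fin.insertNth (p 4) (2 * h) (fun i => (u i : ℕ))) p k 4), mpt)) := by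
        intro k
        apply Lh_base
        have e := hval (2 * h) (fun i => (u i : ℕ)) k
        rw [h3] at e ⊢
        have : crd (2 * h) (pt (Fin.insertNth 3 (2 * h) (fun i => (u i : ℕ))) p k) 3 = 1 := by
          show cr (2 * h) (pt _ p k 3) = 1
          rw [e, cr_self _ hm]
        unfold IsBase
        tauto
      have hq : ((p.symm 4 : Fin 5) : ℕ) ≠ 4 := by
        intro hcon
        have : p.symm 4 = 4 := Fin.ext hcon
        rw [Equiv.symm_apply_eq] at this
        exact hp this.symm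
      by_cases hq0 : ((p.symm 4 : Fin 5) : ℕ) = 0
      · refine F_eq_zero_of_eq _ 1 2 (by decide) ?_
        show Lh _ _ _ = Lh _ _ _
        rw [hb 1, hb 2]
        unfold pt
        rw [hq0]
        simp
      · refine F_eq_zero_of_eq _ 0 1 (by decide) ?_
        show Lh _ _ _ = Lh _ _ _
        rw [hb 0, hb 1]
        unfold pt
        have a1 : ¬ (((p.symm 4 : Fin 5) : ℕ) < ((0 : Fin 5) : ℕ)) := by simp
        have a2 : ¬ (((p.symm 4 : Fin 5) : ℕ) < ((1 : Fin 5) : ℕ)) := by
          show ¬ (((p.symm 4 : Fin 5) : ℕ) < 1)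
          omega
        rw [if_neg a1, if_neg a2]
    have hB : ∑ u : Fin 4 → Fin (2 * h),
        G (Lh (2 * h) Φ) p (Fin.insertNth (p 4) 0 (fun i => (u i : ℕ))) = 0 := by
      rw [h3]
      have hs3 : p.symm 3 = 4 := by rw [Equiv.symm_apply_eq, h3]
      -- values of the inserted vector
      have i0 : ∀ u : Fin 4 → ℕ, (Fin.insertNth 3 0 u : Fin 5 → ℕ) 0 = u 0 := fun u => rfl
      have i1 : ∀ u : Fin 4 → ℕ, (Fin.insertNth 3 0 u : Fin 5 → ℕ) 1 = u 1 := fun u => rfl
      have i2 : ∀ u : Fin 4 → ℕ, (Fin.insertNth 3 0 u : Fin 5 → ℕ) 2 = u 2 := fun u => rfl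
      have i3 : ∀ u : Fin 4 → ℕ, (Fin.insertNth 3 0 u : Fin 5 → ℕ) 3 = 0 := fun u => rfl
      have i4 : ∀ u : Fin 4 → ℕ, (Fin.insertNth 3 0 u : Fin 5 → ℕ) 4 = u 3 := fun u => rfl
      have keyaux : ∀ u u' : Fin 4 → Fin (2 * h), u 0 = u' 0 → u 1 = u' 1 → u 3 = u' 3 →
          ((u 2 : ℕ) + h = u' 2) →
          G (Lh (2 * h) Φ) p (Fin.insertNth 3 0 (fun i => (u i : ℕ))) =
            G (Lh (2 * h) Φ) p (Fin.insertNth 3 0 (fun i => (u' i : ℕ))) := by
        intro u u' e0 e1 e3 e2
        unfold G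
        congr 1
        funext k
        have hk := k.2
        have hl := (u' 2).2
        apply half_aux h Φ _ _ _ _ _ _ _ _ _ hpos
        · unfold pt; rw [i0, i0, e0]
        · unfold pt; rw [i1, i1, e1]
        · unfold pt; rw [i2, i2]; omega
        · unfold pt; rw [i2]; split_ifs <;> omega
        · unfold pt
          rw [i3, hs3, if_neg]
          show ¬ (4 < (k : ℕ))
          omega
        · unfold pt
          rw [i3, hs3, if_neg]
          show ¬ (4 < (k : ℕ))
          omega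
        · unfold pt; rw [i4, i4, e3]
      refine Finset.sum_involution (fun u _ => Function.update u 2 (shift h (u 2))) ?_ ?_ ?_ ?_
      · intro u _
        have key : G (Lh (2 * h) Φ) p (Fin.insertNth 3 0 (fun i => (u i : ℕ))) =
            G (Lh (2 * h) Φ) p (Fin.insertNth 3 0
              (fun i => ((Function.update u 2 (shift h (u 2))) i : ℕ))) := by
          by_cases hlt : (u 2 : ℕ) < h
          · apply keyaux
            · simp
            · simp
            · simp
            · simp [shift, hlt]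
          · symm
            apply keyaux
            · simp
            · simp
            · simp
            · simp [shift, hlt]
              omega
        rw [← key]
        exact CharTwo.add_self_eq_zero _
      · intro u _ _ hcon
        have := congrFun hcon 2
        simp at this
        exact shift_ne h _ this
      · intro u _
        exact Finset.mem_univ _
      · intro u _
        funext i
        by_cases hi : i = 2
        · subst hi; simp [shift_shift]
        · simp [hi]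
    rw [hA, hB, add_zero]
  · -- the faces `u₀, u₁, s ∈ {0, 1}`
    refine Finset.sum_eq_zero fun u _ => ?_
    have hb : ∀ (x : ℕ), (x = 0 ∨ x = 2 * h) → ∀ k : Fin 5,
        Lh (2 * h) Φ (pt (Fin.insertNth (p 4) x (fun i => (u i : ℕ))) p k)
          = lab (Φ (cr (2 * h) (pt (Fin.insertNth (p 4) x (fun i => (u i : ℕ))) p k 4), mpt)) := by
      intro x hx k
      apply Lh_base
      have e := hval x (fun i => (u i : ℕ)) k
      have hx' : cr (2 * h) x = 0 ∨ cr (2 * h) x = 1 := by
        rcases hx with rfl | rfl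
        · left; exact cr_zero _
        · right; exact cr_self _ hm
      have hcases : p 4 = 0 ∨ p 4 = 1 ∨ p 4 = 2 := by
        generalize p 4 = j at h3 hp
        revert h3 hp
        fin_cases j <;> simp
      rcases hcases with hj | hj | hj
      · have e' : crd (2 * h) (pt (Fin.insertNth (p 4) x (fun i => (u i : ℕ))) p k) 0 = cr (2 * h) x := by
          show cr (2 * h) (pt _ p k 0) = _
          rw [← hj, e]
        unfold IsBase
        rw [e']
        tauto
      · have e' : crd (2 * h) (pt (Fin.insertNth (p 4) x (fun i => (u i : ℕ))) p k) 1 = cr (2 * h) x := by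
          show cr (2 * h) (pt _ p k 1) = _
          rw [← hj, e]
        unfold IsBase
        rw [e']
        tauto
      · have e' : crd (2 * h) (pt (Fin.insertNth (p 4) x (fun i => (u i : ℕ))) p k) 2 = cr (2 * h) x := by
          show cr (2 * h) (pt _ p k 2) = _
          rw [← hj, e]
        unfold IsBase
        rw [e']
        tauto
    have key : G (Lh (2 * h) Φ) p (Fin.insertNth (p 4) (2 * h) (fun i => (u i : ℕ))) =
        G (Lh (2 * h) Φ) p (Fin.insertNth (p 4) 0 (fun i => (u i : ℕ))) := by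
      unfold G
      congr 1
      funext k
      rw [hb (2 * h) (Or.inr rfl) k, hb 0 (Or.inl rfl) k, hw4 (2 * h) 0]
    rw [key]
    exact CharTwo.add_self_eq_zero _

lemma S_htpy {f g : C(MSp, MSp)} (H : f.Homotopy g) :
    ∃ M : ℕ, ∀ h : ℕ, M ≤ h → S (2 * h) f = S (2 * h) g := by
  obtain ⟨M, hM⟩ := fine H.toContinuousMap
  refine ⟨M + 1, fun h hh => ?_⟩
  have hpos : 0 < h := by omega
  have hb := boundary (2 * h) (Lh (2 * h) H.toContinuousMap)
    (hM (2 * h) (by omega) (by omega))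
  rw [← Finset.sum_filter_add_sum_filter_not Finset.univ
    (fun p : Equiv.Perm (Fin 5) => p 4 = 4)] at hb
  rw [Finset.sum_eq_zero (s := Finset.univ.filter (fun p : Equiv.Perm (Fin 5) => ¬ p 4 = 4))
    (fun p hp => inner_zero h hpos H.toContinuousMap p (Finset.mem_filter.mp hp).2), add_zero] at hb
  have h1 : ∀ p ∈ Finset.univ.filter (fun p : Equiv.Perm (Fin 5) => p 4 = 4),
      ∑ u : Fin 4 → Fin (2 * h),
      (G (Lh (2 * h) H.toContinuousMap) p (Fin.insertNth (p 4) (2 * h) (fun i => (u i : ℕ))) +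
        G (Lh (2 * h) H.toContinuousMap) p (Fin.insertNth (p 4) 0 (fun i => (u i : ℕ)))) =
      ∑ u : Fin 4 → Fin (2 * h), (G (Lf (2 * h) g) p (Fin.insertNth 4 0 (fun i => (u i : ℕ))) +
        G (Lf (2 * h) f) p (Fin.insertNth 4 0 (fun i => (u i : ℕ)))) := by
    intro p hp
    have hp4 := (Finset.mem_filter.mp hp).2
    refine Finset.sum_congr rfl fun u _ => ?_
    have hval : ∀ (x : ℕ) (k : Fin 5),
        pt (Fin.insertNth 4 x (fun i => (u i : ℕ))) p k 4 = x := by
      intro x k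
      have := pt_apply_of_last (Fin.insertNth 4 x (fun i => (u i : ℕ))) p k
      rw [hp4] at this
      rw [this]
      simp
    have hcrd : ∀ (x x' : ℕ) (k : Fin 5),
        crd (2 * h) (pt (Fin.insertNth 4 x (fun i => (u i : ℕ))) p k) =
          crd (2 * h) (pt (Fin.insertNth 4 x' (fun i => (u i : ℕ))) p k) := by
      intro x x' k
      funext i
      unfold crd pt
      rw [ins_ne 4 x x' _ i.castSucc]
      intro hcon
      have := congrArg Fin.val hcon
      have := i.2
      simp at *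
      omega
    rw [hp4]
    refine congrArg₂ (· + ·) ?_ ?_
    · unfold G
      congr 1
      funext k
      unfold Lh Lf
      rw [hval, cr_self _ (by omega), hcrd (2 * h) 0]
      congr 1
      exact H.apply_one _
    · unfold G
      congr 1
      funext k
      unfold Lh Lf
      rw [hval, cr_zero]
      congr 1
      exact H.apply_zero _
  rw [Finset.sum_congr rfl h1] at hb
  simp only [Finset.sum_add_distrib] at hb
  have h2 : S (2 * h) g + S (2 * h) f = 0 := hb
  exact (CharTwo.add_eq_zero.mp h2).symm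

lemma dist_cr' (m : ℕ) (hm : 0 < m) (a b n : ℕ) (h1 : n ≤ a) (h2 : a ≤ n + 1) (h3 : n ≤ b)
    (h4 : b ≤ n + 1) : dist (cr m a) (cr m b) ≤ 1 / m := by
  rcases le_total a b with h | h
  · rw [dist_comm]
    exact dist_cr m hm a b h (by omega)
  · exact dist_cr m hm b a h (by omega)

lemma dist_crd (m : ℕ) (hm : 0 < m) (v : Fin 5 → ℕ) (p : Equiv.Perm (Fin 5)) (k k' : ℕ) :
    dist (crd m (pt v p k)) (crd m (pt v p k')) ≤ 1 / m := by
  rw [dist_pi_le_iff (by positivity)]
  intro i
  exact dist_cr' m hm _ _ (v i.castSucc) (pt_ge _ _ _ _) (pt_le _ _ _ _) (pt_ge _ _ _ _)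
    (pt_le _ _ _ _)

lemma S_add (f g h : C(MSp, MSp))
    (hyp : ∀ x, (f x = g x ∧ h x = mpt) ∨ (f x = h x ∧ g x = mpt)) :
    ∃ M : ℕ, ∀ n : ℕ, M ≤ n → S (2 * n) f = S (2 * n) g + S (2 * n) h := by
  obtain ⟨r, hr, hball⟩ := exists_ball
  have hg : UniformContinuous (fun y : Fin 4 → I => g (mproj y)) :=
    CompactSpace.uniformContinuous_of_continuous (by fun_prop)
  have hh : UniformContinuous (fun y : Fin 4 → I => h (mproj y)) :=
    CompactSpace.uniformContinuous_of_continuous (by fun_prop)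
  rw [Metric.uniformContinuous_iff] at hg hh
  obtain ⟨δ1, hδ1, hg'⟩ := hg r hr
  obtain ⟨δ2, hδ2, hh'⟩ := hh r hr
  obtain ⟨M, hM⟩ := exists_nat_gt (1 / min δ1 δ2)
  have hδ : 0 < min δ1 δ2 := lt_min hδ1 hδ2
  refine ⟨M + 1, fun n hn => ?_⟩
  set m := 2 * n with hmdef
  have hm0 : 0 < m := by omega
  have hm' : (0 : ℝ) < m := by exact_mod_cast hm0
  have hlt : (1 : ℝ) / m < min δ1 δ2 := by
    rw [div_lt_iff₀ hm']
    rw [div_lt_iff₀ hδ] at hM
    have : (M : ℝ) ≤ m := by exact_mod_cast (by omega : M ≤ m)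
    nlinarith
  have hfg : ∀ x, h x = mpt → f x = g x := by
    intro x hx
    rcases hyp x with h1 | h1
    · exact h1.1
    · rw [h1.1, h1.2, hx]
  have hfh : ∀ x, g x = mpt → f x = h x := by
    intro x hx
    rcases hyp x with h1 | h1
    · rw [h1.1, h1.2, hx]
    · exact h1.1
  have hor : ∀ x, h x = mpt ∨ g x = mpt := by
    intro x
    rcases hyp x with h1 | h1
    · exact Or.inl h1.2
    · exact Or.inr h1.2
  unfold S
  rw [← Finset.sum_add_distrib]
  refine Finset.sum_congr rfl fun p _ => ?_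
  rw [← Finset.sum_add_distrib]
  refine Finset.sum_congr rfl fun u _ => ?_
  generalize (Fin.insertNth 4 0 (fun i => (u i : ℕ)) : Fin 5 → ℕ) = v
  set y : Fin 5 → (Fin 4 → I) := fun k => crd m (pt v p k) with hy
  have hdist : ∀ k k', dist (y k) (y k') < min δ1 δ2 := fun k k' =>
    lt_of_le_of_lt (dist_crd m hm0 v p k k') hlt
  by_cases hA : ∀ k, h (mproj (y k)) = mpt
  · have e1 : G (Lf m f) p v = G (Lf m g) p v := by
      unfold G
      congr 1
      funext k
      show lab (f (mproj (y k))) = lab (g (mproj (y k)))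
      rw [hfg _ (hA k)]
    have e2 : G (Lf m h) p v = 0 := by
      apply F_eq_zero_of_last _ 0
      show lab (h (mproj (y 0))) = 5
      rw [hA 0, lab_mpt]
    rw [e1, e2, add_zero]
  · by_cases hB : ∀ k, g (mproj (y k)) = mpt
    · have e1 : G (Lf m f) p v = G (Lf m h) p v := by
        unfold G
        congr 1
        funext k
        show lab (f (mproj (y k))) = lab (h (mproj (y k)))
        rw [hfh _ (hB k)]
      have e2 : G (Lf m g) p v = 0 := by
        apply F_eq_zero_of_last _ 0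
        show lab (g (mproj (y 0))) = 5
        rw [hB 0, lab_mpt]
      rw [e1, e2, zero_add]
    · push Not at hA hB
      obtain ⟨k1, hk1⟩ := hA
      obtain ⟨k2, hk2⟩ := hB
      have b1 : g (mproj (y k1)) = mpt := (hor _).resolve_left hk1
      have b2 : h (mproj (y k2)) = mpt := (hor _).resolve_right hk2
      have c1 : lab (g (mproj (y 0))) = 5 := by
        apply hball
        rw [← b1]
        exact hg' (lt_of_lt_of_le (hdist 0 k1) (min_le_left _ _))
      have c2 : lab (h (mproj (y 0))) = 5 := by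
        apply hball
        rw [← b2]
        exact hh' (lt_of_lt_of_le (hdist 0 k2) (min_le_right _ _))
      have c3 : lab (f (mproj (y 0))) = 5 := by
        rcases hor (mproj (y 0)) with h1 | h1
        · rw [hfg _ h1]; exact c1
        · rw [hfh _ h1]; exact c2
      have e1 : G (Lf m f) p v = 0 := F_eq_zero_of_last _ 0 c3
      have e2 : G (Lf m g) p v = 0 := F_eq_zero_of_last _ 0 c1
      have e3 : G (Lf m h) p v = 0 := F_eq_zero_of_last _ 0 c2
      rw [e1, e2, e3, add_zero]

lemma lb_mono (y y' : Fin 4 → I) (h : ∀ i, (y i : ℝ) ≤ y' i) : (lb y : ℕ) ≤ lb y' := by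
  have h0 := h 0
  have h1 := h 1
  have h2 := h 2
  have h3 := h 3
  unfold lb
  split_ifs <;> first | decide | (exfalso; linarith)

lemma lb_lt (y : Fin 4 → I) (j : Fin 4) (h : (j : ℕ) < lb y) : (1 / 2 : ℝ) < y j := by
  by_contra hcon
  push Not at hcon
  unfold lb at h
  have hj := j.2
  split_ifs at h with h0 h1 h2 h3
  · exact absurd h (by show ¬ ((j : ℕ) < 0); omega)
  · have : (j : ℕ) < 1 := h
    have e : j = 0 := Fin.ext (by show (j : ℕ) = 0; omega)
    subst e; exact h0 hcon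
  · have : (j : ℕ) < 2 := h
    have e : j = 0 ∨ j = 1 := by
      rcases (by omega : (j : ℕ) = 0 ∨ (j : ℕ) = 1) with e | e
      · exact Or.inl (Fin.ext e)
      · exact Or.inr (Fin.ext e)
    rcases e with rfl | rfl
    · exact h0 hcon
    · exact h1 hcon
  · have : (j : ℕ) < 3 := h
    have e : j = 0 ∨ j = 1 ∨ j = 2 := by
      rcases (by omega : (j : ℕ) = 0 ∨ (j : ℕ) = 1 ∨ (j : ℕ) = 2) with e | e | e
      · exact Or.inl (Fin.ext e)
      · exact Or.inr (Or.inl (Fin.ext e))
      · exact Or.inr (Or.inr (Fin.ext e))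
    rcases e with rfl | rfl | rfl
    · exact h0 hcon
    · exact h1 hcon
    · exact h2 hcon
  · have e : j = 0 ∨ j = 1 ∨ j = 2 ∨ j = 3 := by
      rcases (by omega : (j : ℕ) = 0 ∨ (j : ℕ) = 1 ∨ (j : ℕ) = 2 ∨ (j : ℕ) = 3) with e | e | e | e
      · exact Or.inl (Fin.ext e)
      · exact Or.inr (Or.inl (Fin.ext e))
      · exact Or.inr (Or.inr (Or.inl (Fin.ext e)))
      · exact Or.inr (Or.inr (Or.inr (Fin.ext e)))
    rcases e with rfl | rfl | rfl | rfl
    · exact h0 hcon
    · exact h1 hcon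
    · exact h2 hcon
    · exact h3 hcon

lemma lb_eq (y : Fin 4 → I) (j : Fin 4) (h : (lb y : ℕ) = j) : (y j : ℝ) ≤ 1 / 2 := by
  unfold lb at h
  split_ifs at h with h0 h1 h2 h3
  · have e : j = 0 := Fin.ext h.symm
    subst e; exact h0
  · have e : j = 1 := Fin.ext h.symm
    subst e; exact h1
  · have e : j = 2 := Fin.ext h.symm
    subst e; exact h2
  · have e : j = 3 := Fin.ext h.symm
    subst e; exact h3
  · have h4 : (4 : ℕ) = j := h
    have := j.2
    omega

lemma lb_of (y : Fin 4 → I) (k : Fin 5) (h1 : ∀ j : Fin 4, (j : ℕ) < k → (1 / 2 : ℝ) < y j)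
    (h2 : ∀ j : Fin 4, (j : ℕ) = k → (y j : ℝ) ≤ 1 / 2) : lb y = k.castSucc := by
  have hk : k = 0 ∨ k = 1 ∨ k = 2 ∨ k = 3 ∨ k = 4 := by
    clear h1 h2
    revert k; decide
  unfold lb
  rcases hk with rfl | rfl | rfl | rfl | rfl
  · rw [if_pos (h2 0 rfl)]; rfl
  · rw [if_neg (not_le.mpr (h1 0 (by decide))), if_pos (h2 1 rfl)]; rfl
  · rw [if_neg (not_le.mpr (h1 0 (by decide))), if_neg (not_le.mpr (h1 1 (by decide))),
      if_pos (h2 2 rfl)]; rfl
  · rw [if_neg (not_le.mpr (h1 0 (by decide))), if_neg (not_le.mpr (h1 1 (by decide))),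
      if_neg (not_le.mpr (h1 2 (by decide))), if_pos (h2 3 rfl)]; rfl
  · rw [if_neg (not_le.mpr (h1 0 (by decide))), if_neg (not_le.mpr (h1 1 (by decide))),
      if_neg (not_le.mpr (h1 2 (by decide))), if_neg (not_le.mpr (h1 3 (by decide)))]; rfl

lemma Lf_id (m : ℕ) (w : Fin 5 → ℕ) [Decidable (Bx (crd m w))] :
    Lf m (ContinuousMap.id MSp) w = if Bx (crd m w) then lb (crd m w) else 5 :=
  lab_mproj _

/-- the only fully labelled simplex of the identity -/
lemma G_id (h : ℕ) (hpos : 0 < h) (p : Equiv.Perm (Fin 5)) (hp : p 4 = 4) (u : Fin 4 → Fin (2 * h))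
    (hG : G (Lf (2 * h) (ContinuousMap.id MSp)) p (Fin.insertNth 4 0 (fun i => (u i : ℕ))) ≠ 0) :
    p = 1 ∧ ∀ i, (u i : ℕ) = h := by
  classical
  set v : Fin 5 → ℕ := Fin.insertNth 4 0 (fun i => (u i : ℕ)) with hv
  have hvi : ∀ i : Fin 4, v i.castSucc = u i := by
    intro i
    rw [hv]
    have e : i.castSucc = (4 : Fin 5).succAbove i := by
      revert i; decide
    rw [e, Fin.insertNth_apply_succAbove]
  set w : ℕ → Fin 5 → ℕ := fun k => pt v p k with hw
  set a : Fin 5 → Fin 6 := fun k => Lf (2 * h) (ContinuousMap.id MSp) (w k) with ha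
  have hinj : ∀ i j : Fin 5, i ≠ j → a i ≠ a j := by
    intro i j hij he
    exact hG (F_eq_zero_of_eq _ i j hij he)
  have hne5 : ∀ i, a i ≠ 5 := by
    intro i he
    exact hG (F_eq_zero_of_last _ i he)
  have hBx : ∀ k : Fin 5, Bx (crd (2 * h) (w k)) := by
    intro k
    by_contra hcon
    apply hne5 k
    show Lf _ _ _ = 5
    rw [Lf_id, if_neg hcon]
  have halb : ∀ k : Fin 5, a k = lb (crd (2 * h) (w k)) := by
    intro k
    show Lf _ _ _ = _
    rw [Lf_id, if_pos (hBx k)]
  have hle : ∀ k (j : Fin 4), w k j.castSucc ≤ 2 * h := by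
    intro k j
    have h1 := pt_le v p k j.castSucc
    have h2 := (u j).2
    rw [hvi] at h1
    show pt v p k j.castSucc ≤ 2 * h
    omega
  have hval : ∀ k (j : Fin 4), (crd (2 * h) (w k) j : ℝ) = (w k j.castSucc : ℝ) / (2 * h : ℕ) := by
    intro k j
    exact cr_val _ _ (hle k j)
  have hmono : ∀ k k' : Fin 5, k ≤ k' → (a k : ℕ) ≤ a k' := by
    intro k k' hkk
    rw [halb, halb]
    apply lb_mono
    intro i
    rw [hval, hval]
    have : w k i.castSucc ≤ w k' i.castSucc := by
      show pt v p k _ ≤ pt v p k' _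
      have : (k : ℕ) ≤ k' := hkk
      unfold pt
      split_ifs <;> omega
    have h2 : (w k i.castSucc : ℝ) ≤ w k' i.castSucc := by exact_mod_cast this
    gcongr
  have hstep : ∀ k k' : Fin 5, k < k' → (a k : ℕ) < a k' := by
    intro k k' hkk
    refine lt_of_le_of_ne (hmono k k' hkk.le) ?_
    intro he
    exact hinj k k' hkk.ne (Fin.ext he)
  have s0 := hstep 0 1 (by decide)
  have s1 := hstep 1 2 (by decide)
  have s2 := hstep 2 3 (by decide)
  have s3 := hstep 3 4 (by decide)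
  have s4 : (a 4 : ℕ) < 5 := by
    have h1 := (a 4).2
    have h2 : (a 4 : ℕ) ≠ 5 := fun he => hne5 4 (Fin.ext he)
    omega
  have hak : ∀ k : Fin 5, (a k : ℕ) = k := by
    intro k
    have hk : k = 0 ∨ k = 1 ∨ k = 2 ∨ k = 3 ∨ k = 4 := by
      revert k; decide
    rcases hk with rfl | rfl | rfl | rfl | rfl
    · show (a 0 : ℕ) = 0; omega
    · show (a 1 : ℕ) = 1; omega
    · show (a 2 : ℕ) = 2; omega
    · show (a 3 : ℕ) = 3; omega
    · show (a 4 : ℕ) = 4; omega
  have hmain : ∀ j : Fin 4, ((p.symm j.castSucc : Fin 5) : ℕ) = j ∧ (u j : ℕ) = h := by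
    intro j
    have e1 : (crd (2 * h) (w (j : ℕ)) j : ℝ) ≤ 1 / 2 := by
      apply lb_eq
      have := hak j.castSucc
      rw [halb] at this
      simpa using this
    have e2 : (1 / 2 : ℝ) < crd (2 * h) (w ((j : ℕ) + 1)) j := by
      apply lb_lt
      have := hak j.succ
      rw [halb] at this
      simp at this
      rw [this]
      omega
    rw [hval] at e1 e2
    have hp' : (0 : ℝ) < (2 * h : ℕ) := by
      have : 0 < 2 * h := by omega
      exact_mod_cast this
    rw [div_le_iff₀ hp'] at e1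
    rw [lt_div_iff₀ hp'] at e2
    have e1' : w (j : ℕ) j.castSucc ≤ h := by
      have : ((w (j : ℕ) j.castSucc : ℕ) : ℝ) ≤ h := by
        refine e1.trans (le_of_eq ?_)
        push_cast
        ring
      exact_mod_cast this
    have e2' : h < w ((j : ℕ) + 1) j.castSucc := by
      have : (h : ℝ) < ((w ((j : ℕ) + 1) j.castSucc : ℕ) : ℝ) := by
        refine lt_of_le_of_lt (le_of_eq ?_) e2
        push_cast
        ring
      exact_mod_cast this
    have e3 : w (j : ℕ) j.castSucc = v j.castSucc +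
      if ((p.symm j.castSucc : Fin 5) : ℕ) < (j : ℕ) then 1 else 0 := rfl
    have e4 : w ((j : ℕ) + 1) j.castSucc = v j.castSucc +
      if ((p.symm j.castSucc : Fin 5) : ℕ) < (j : ℕ) + 1 then 1 else 0 := rfl
    rw [hvi] at e3 e4
    rw [e3] at e1'
    rw [e4] at e2'
    split_ifs at e1' e2' <;> constructor <;> omega
  refine ⟨?_, fun i => (hmain i).2⟩
  have hs : p.symm = 1 := by
    ext j
    by_cases hj : j = 4
    · subst hj
      have : p.symm 4 = 4 := by rw [Equiv.symm_apply_eq, hp]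
      rw [this]; rfl
    · obtain ⟨i, rfl⟩ : ∃ i : Fin 4, i.castSucc = j := by
        have := j.2
        have h4 : (j : ℕ) ≠ 4 := fun he => hj (Fin.ext he)
        exact ⟨⟨j, by omega⟩, rfl⟩
      rw [(hmain i).1]
      simp
  rw [← Equiv.symm_symm p, hs]
  rfl

lemma G_id_one (h : ℕ) (hh : 3 ≤ h) (u : Fin 4 → Fin (2 * h)) (hu : ∀ i, (u i : ℕ) = h) :
    G (Lf (2 * h) (ContinuousMap.id MSp)) 1 (Fin.insertNth 4 0 (fun i => (u i : ℕ))) = 1 := by
  classical
  set v : Fin 5 → ℕ := Fin.insertNth 4 0 (fun i => (u i : ℕ)) with hv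
  have hvi : ∀ i : Fin 4, v i.castSucc = h := by
    intro i
    rw [hv]
    have e : i.castSucc = (4 : Fin 5).succAbove i := by
      revert i; decide
    rw [e, Fin.insertNth_apply_succAbove, hu]
  unfold G
  have key : (fun k : Fin 5 => Lf (2 * h) (ContinuousMap.id MSp) (pt v 1 k)) =
      fun k => k.castSucc := by
    funext k
    have hptv : ∀ j : Fin 4, pt v 1 k j.castSucc = h + if (j : ℕ) < k then 1 else 0 := by
      intro j
      unfold pt
      rw [hvi]
      rfl
    have hval : ∀ j : Fin 4, (crd (2 * h) (pt v 1 k) j : ℝ) =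
        ((h + if (j : ℕ) < k then 1 else 0 : ℕ) : ℝ) / (2 * h : ℕ) := by
      intro j
      have : pt v 1 k j.castSucc ≤ 2 * h := by
        rw [hptv]; split_ifs <;> omega
      have h2 := cr_val (2 * h) (pt v 1 k j.castSucc) this
      rw [hptv] at h2
      rw [← h2, ← hptv]
      rfl
    have h3 : (3 : ℝ) ≤ h := by exact_mod_cast hh
    have hp' : (0 : ℝ) < (2 * h : ℕ) := by
      have : 0 < 2 * h := by omega
      exact_mod_cast this
    have hB : Bx (crd (2 * h) (pt v 1 k)) := by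
      intro j
      rw [hval]
      constructor
      · rw [lt_div_iff₀ hp']
        split_ifs <;> push_cast <;> linarith
      · rw [div_lt_iff₀ hp']
        split_ifs <;> push_cast <;> linarith
    rw [Lf_id, if_pos hB]
    apply lb_of
    · intro j hj
      rw [hval, if_pos hj, lt_div_iff₀ hp']
      push_cast
      linarith
    · intro j hj
      rw [hval, if_neg (by omega), div_le_iff₀ hp']
      push_cast
      linarith
  rw [key]
  exact F_castSucc

lemma S_id (h : ℕ) (hh : 3 ≤ h) : S (2 * h) (ContinuousMap.id MSp) = 1 := by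
  unfold S
  rw [Finset.sum_eq_single (1 : Equiv.Perm (Fin 5))]
  · rw [Finset.sum_eq_single (fun _ : Fin 4 => (⟨h, by omega⟩ : Fin (2 * h)))]
    · exact G_id_one h hh _ (fun _ => rfl)
    · intro u _ hne
      by_contra hcon
      apply hne
      have := (G_id h (by omega) 1 rfl u hcon).2
      funext i
      exact Fin.ext (this i)
    · intro hcon
      exact absurd (Finset.mem_univ _) hcon
  · intro p hp hne
    refine Finset.sum_eq_zero fun u _ => ?_
    by_contra hcon
    exact hne (G_id h (by omega) p (Finset.mem_filter.mp hp).2 u hcon).1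
  · intro hcon
    exfalso
    apply hcon
    rw [Finset.mem_filter]
    exact ⟨Finset.mem_univ _, rfl⟩

/-- the degree -/
def D (f : C(MSp, MSp)) : ZMod 2 :=
  open Classical in if ∀ᶠ n in (Filter.hyperfilter ℕ : Filter ℕ), S (2 * n) f = 1 then 1 else 0

lemma zmod2_cases (x : ZMod 2) : x = 0 ∨ x = 1 := by
  revert x; decide

lemma D_spec (f : C(MSp, MSp)) : ∀ᶠ n in (Filter.hyperfilter ℕ : Filter ℕ), S (2 * n) f = D f := by
  classical
  unfold D
  split_ifs with h
  · exact h
  · have h2 : ∀ᶠ n in (Filter.hyperfilter ℕ : Filter ℕ), ¬ S (2 * n) f = 1 :=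
      Ultrafilter.eventually_not.mpr h
    exact h2.mono fun n hn => (zmod2_cases _).resolve_right hn

lemma eventually_of_le {P : ℕ → Prop} (M : ℕ) (h : ∀ n, M ≤ n → P n) :
    ∀ᶠ n in (Filter.hyperfilter ℕ : Filter ℕ), P n := by
  have h1 : ∀ᶠ n in Filter.atTop, P n := Filter.eventually_atTop.mpr ⟨M, h⟩
  exact Nat.hyperfilter_le_atTop h1

end Deg

open Deg in
/-- A mod 2 degree for self-maps of `MSp`. -/
theorem exists_degree : ∃ D : C(MSp, MSp) → ZMod 2,
    (∀ f g : C(MSp, MSp), f.Homotopic g → D f = D g) ∧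
    (∀ f g h : C(MSp, MSp), (∀ m, (f m = g m ∧ h m = mpt) ∨ (f m = h m ∧ g m = mpt)) →
      D f = D g + D h) ∧
    D (ContinuousMap.id MSp) = 1 := by
  refine ⟨Deg.D, ?_, ?_, ?_⟩
  · rintro f g ⟨H⟩
    obtain ⟨M, hM⟩ := S_htpy H
    obtain ⟨n, h1, h2, h3⟩ := ((D_spec f).and ((D_spec g).and (eventually_of_le M hM))).exists
    rw [← h1, ← h2, h3]
  · intro f g h hyp
    obtain ⟨M, hM⟩ := S_add f g h hyp
    obtain ⟨n, h1, h2, h3, h4⟩ := ((D_spec f).and ((D_spec g).and ((D_spec h).and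
      (eventually_of_le M hM)))).exists
    rw [← h1, ← h2, ← h3, h4]
  · obtain ⟨n, h1, h2⟩ := ((D_spec (ContinuousMap.id MSp)).and
      (eventually_of_le 3 S_id)).exists
    rw [← h1, h2]

end SelfCover
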