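import Pool.Agent.SelfCover.MBasic

/-!
# Pointed maps `MSp → B` up to homotopy form a commutative monoid killed by `4`
-/

open scoped unitInterval Topology Topology.Homotopy
open Set

noncomputable section

namespace SelfCover

variable {B : Type*} [TopologicalSpace B] {b : B}

/-- Build a pointed homotopy from a homotopy on the cube. -/
lemma PM.htpy_of_cube {f g : PM B b} (H : (Fin 4 → I) × I → B) (hc : Continuous H)
    (h0 : ∀ y, H (y, 0) = f.1 (mproj y)) (h1 : ∀ y, H (y, 1) = g.1 (mproj y))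
    (hb : ∀ y τ, IsBase y → H (y, τ) = b)
    (hh : ∀ y y' τ, IsHalf y y' → H (y, τ) = H (y', τ)) : PM.Htpy f g := by
  let K : MSp × I → B := fun p => H ((mproj_surjective p.1).choose, p.2)
  have hK : ∀ y τ, K (mproj y, τ) = H (y, τ) := by
    intro y τ
    show H ((mproj_surjective (mproj y)).choose, τ) = H (y, τ)
    have h := (mproj_surjective (mproj y)).choose_spec
    rcases (mproj_eq_iff _ _).mp h with h | ⟨h1, h2⟩ | h
    · rw [h]
    · rw [hb _ _ h1, hb _ _ h2]
    · exact hh _ _ _ h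
  have hKc : Continuous K := by
    rw [continuous_mprod_iff]
    simp only [hK]
    exact hc
  refine ⟨⟨⟨⟨fun p => K (p.2, p.1), by fun_prop⟩, ?_, ?_⟩, ?_⟩⟩
  · intro m
    obtain ⟨y, rfl⟩ := mproj_surjective m
    show K (mproj y, 0) = _
    rw [hK, h0]
  · intro m
    obtain ⟨y, rfl⟩ := mproj_surjective m
    show K (mproj y, 1) = _
    rw [hK, h1]
  · intro τ m hm
    rw [mem_singleton_iff] at hm
    subst hm
    show K (mproj 0, τ) = f.1 mpt
    rw [hK, hb _ _ isBase_zero, f.2]

/-- A pointed map from a map of the cube. -/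
def PM.ofCube (F : C(Fin 4 → I, B)) (hb : ∀ y, IsBase y → F y = b)
    (hh : ∀ y y', IsHalf y y' → F y = F y') : PM B b :=
  ⟨mlift F b hb hh, mlift_mpt F b hb hh⟩

@[simp] lemma PM.ofCube_mproj (F : C(Fin 4 → I, B)) (hb : ∀ y, IsBase y → F y = b)
    (hh : ∀ y y', IsHalf y y' → F y = F y') (y : Fin 4 → I) :
    (PM.ofCube F hb hh).1 (mproj y) = F y := mlift_mproj F b hb hh y

lemma PM.base (f : PM B b) {y : Fin 4 → I} (h : IsBase y) : f.1 (mproj y) = b := by
  rw [(mproj_eq_mpt_iff y).mpr h, f.2]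

lemma PM.half (f : PM B b) {y y' : Fin 4 → I} (h : IsHalf y y') :
    f.1 (mproj y) = f.1 (mproj y') := by
  rw [(mproj_eq_iff y y').mpr (Or.inr (Or.inr h))]

lemma dbl1_of_le {u : I} (h : (u : ℝ) ≤ 1 / 2) : (dbl1 u : ℝ) = 2 * u := by
  unfold dbl1
  rw [Set.projIcc_of_mem zero_le_one ⟨by linarith [u.2.1], by linarith⟩]

lemma dbl1_of_ge {u : I} (h : (1 / 2 : ℝ) ≤ u) : dbl1 u = 1 := by
  unfold dbl1
  rw [Set.projIcc_of_right_le]
  · rfl
  · linarith

lemma dbl2_of_le {u : I} (h : (u : ℝ) ≤ 1 / 2) : dbl2 u = 0 := by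
  unfold dbl2
  rw [Set.projIcc_of_le_left]
  · rfl
  · linarith

lemma dbl2_of_ge {u : I} (h : (1 / 2 : ℝ) ≤ u) : (dbl2 u : ℝ) = 2 * u - 1 := by
  unfold dbl2
  rw [Set.projIcc_of_mem zero_le_one ⟨by linarith [u.2.1], by linarith [u.2.2]⟩]

/-- The formula for the sum, on the cube. -/
lemma PM.add_mproj (f g : PM B b) (y : Fin 4 → I) : (PM.add f g).1 (mproj y) =
    if (y 0 : ℝ) ≤ 1 / 2 then f.1 (mproj (Function.update y 0 (dbl1 (y 0))))
    else g.1 (mproj (Function.update y 0 (dbl2 (y 0)))) := by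
  rw [PM.add_apply]
  split_ifs with h
  · rw [addFun_of_lam2, lam1_mproj]
    rw [lam2_mproj, mproj_eq_mpt_iff, dbl2_of_le h]
    left; simp
  · rw [addFun_of_lam1, lam2_mproj]
    · rw [lam1_mproj, mproj_eq_mpt_iff, dbl1_of_ge (not_le.mp h).le]
      right; left; simp
    · rw [f.2, g.2]

/-! ### The adjoint space -/

/-- Maps from the square with the boundary conditions defining the Moore space `S¹ ∪₂ e²`. -/
def AM (B : Type*) [TopologicalSpace B] (b : B) : Type _ :=
  {θ : C(I × I, B) // (∀ s t : I, (s = 0 ∨ s = 1 ∨ t = 1 ∨ (t = 0 ∧ (s : ℝ) = 1 / 2)) →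
    θ (s, t) = b) ∧ ∀ s s' : I, |(s : ℝ) - s'| = 1 / 2 → θ (s, 0) = θ (s', 0)}

instance : TopologicalSpace (AM B b) := inferInstanceAs (TopologicalSpace (Subtype _))

/-- The constant map. -/
def AM.const (B : Type*) [TopologicalSpace B] (b : B) : AM B b :=
  ⟨ContinuousMap.const _ b, fun _ _ _ => rfl, fun _ _ _ => rfl⟩

/-- The assembly map. -/
def vec4 (u : Fin 2 → I) (p : I × I) : Fin 4 → I := ![u 0, u 1, p.1, p.2]

@[fun_prop] lemma continuous_vec4 : Continuous fun q : (Fin 2 → I) × (I × I) => vec4 q.1 q.2 := by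
  refine continuous_pi fun j => ?_
  fin_cases j <;> simp [vec4] <;> fun_prop

lemma vec4_eta (y : Fin 4 → I) : vec4 ![y 0, y 1] (y 2, y 3) = y := by
  funext j
  fin_cases j <;> rfl

/-- Pointed maps out of `MSp` as `2`-dimensional loops in `AM`. -/
def PM.toGL (f : PM B b) : GenLoop (Fin 2) (AM B b) (AM.const B b) := 
  ⟨⟨fun u => ⟨⟨fun p => f.1 (mproj (vec4 u p)), by fun_prop⟩, by
      refine ⟨fun s t h => f.base ?_, fun s s' h => f.half ?_⟩
      · exact Or.inr (Or.inr (Or.inr (Or.inr h)))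
      · exact ⟨rfl, rfl, rfl, rfl, h⟩⟩,
    by
      refine Continuous.subtype_mk ?_ _
      refine ContinuousMap.continuous_of_continuous_uncurry _ ?_
      show Continuous fun q : (Fin 2 → I) × (I × I) => f.1 (mproj (vec4 q.1 q.2))
      fun_prop⟩, by
    rintro u ⟨i, hi⟩
    apply Subtype.ext
    apply ContinuousMap.ext
    intro p
    show f.1 (mproj (vec4 u p)) = b
    apply f.base
    unfold IsBase
    fin_cases i
    · simp [vec4]; simp at hi; tauto
    · simp [vec4]; simp at hi; tauto⟩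

lemma PM.toGL_apply (f : PM B b) (u : Fin 2 → I) (p : I × I) :
    (f.toGL u).1 p = f.1 (mproj (vec4 u p)) := rfl

lemma continuous_AM_eval : Continuous fun q : AM B b × (I × I) => q.1.1 q.2 := by
  have h : Continuous fun q : AM B b × (I × I) => q.1.1 :=
    continuous_subtype_val.comp continuous_fst
  exact h.eval continuous_snd

lemma PM.htpy_iff (f g : PM B b) : PM.Htpy f g ↔ GenLoop.Homotopic f.toGL g.toGL := by
  constructor
  · rintro ⟨H⟩
    refine ⟨⟨⟨⟨fun q => ⟨⟨fun p => H (q.1, mproj (vec4 q.2 p)), by fun_prop⟩, ?_⟩, ?_⟩, ?_, ?_⟩, ?_⟩⟩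
    · have hb : ∀ τ, H (τ, mpt) = b := fun τ => by
        rw [H.eq_fst τ (mem_singleton mpt), f.2]
      refine ⟨fun s t h => ?_, fun s s' h => ?_⟩
      · show H (q.1, mproj (vec4 q.2 (s, t))) = b
        rw [(mproj_eq_mpt_iff _).mpr, hb]
        exact Or.inr (Or.inr (Or.inr (Or.inr h)))
      · show H (q.1, mproj (vec4 q.2 (s, 0))) = H (q.1, mproj (vec4 q.2 (s', 0)))
        rw [(mproj_eq_iff (vec4 q.2 (s, 0)) (vec4 q.2 (s', 0))).mpr]
        exact Or.inr (Or.inr ⟨rfl, rfl, rfl, rfl, h⟩)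
    · refine Continuous.subtype_mk ?_ _
      refine ContinuousMap.continuous_of_continuous_uncurry _ ?_
      show Continuous fun q : (I × (Fin 2 → I)) × (I × I) => H (q.1.1, mproj (vec4 q.1.2 q.2))
      have : Continuous fun q : (I × (Fin 2 → I)) × (I × I) => vec4 q.1.2 q.2 :=
        continuous_vec4.comp (by fun_prop : Continuous fun q : (I × (Fin 2 → I)) × (I × I) =>
          (q.1.2, q.2))
      fun_prop
    · intro u
      apply Subtype.ext
      apply ContinuousMap.ext
      intro p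
      exact H.apply_zero _
    · intro u
      apply Subtype.ext
      apply ContinuousMap.ext
      intro p
      exact H.apply_one _
    · intro τ u hu
      apply Subtype.ext
      apply ContinuousMap.ext
      intro p
      have hm : mproj (vec4 u p) = mpt := by
        rw [mproj_eq_mpt_iff]
        obtain ⟨i, hi⟩ := hu
        unfold IsBase
        fin_cases i
        · simp [vec4]; simp at hi; tauto
        · simp [vec4]; simp at hi; tauto
      show H (τ, mproj (vec4 u p)) = f.1 (mproj (vec4 u p))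
      exact H.eq_fst τ (by rw [hm]; exact mem_singleton mpt)
  · rintro ⟨H⟩
    refine PM.htpy_of_cube (fun q => (H (q.2, ![q.1 0, q.1 1])).1 (q.1 2, q.1 3)) ?_ ?_ ?_ ?_ ?_
    · refine continuous_AM_eval.comp (?_ : Continuous fun q : (Fin 4 → I) × I =>
        (H (q.2, ![q.1 0, q.1 1]), (q.1 2, q.1 3)))
      have : Continuous fun q : (Fin 4 → I) × I => (![q.1 0, q.1 1] : Fin 2 → I) := by
        refine continuous_pi fun j => ?_
        fin_cases j <;> simp <;> fun_prop
      fun_prop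
    · intro y
      show (H (0, ![y 0, y 1])).1 (y 2, y 3) = f.1 (mproj y)
      rw [H.apply_zero]
      show f.1 (mproj (vec4 ![y 0, y 1] (y 2, y 3))) = f.1 (mproj y)
      rw [vec4_eta]
    · intro y
      show (H (1, ![y 0, y 1])).1 (y 2, y 3) = g.1 (mproj y)
      rw [H.apply_one]
      show g.1 (mproj (vec4 ![y 0, y 1] (y 2, y 3))) = g.1 (mproj y)
      rw [vec4_eta]
    · intro y τ hy
      show (H (τ, ![y 0, y 1])).1 (y 2, y 3) = b
      have hbd : ∀ u ∈ Cube.boundary (Fin 2), ∀ p, (H (τ, u)).1 p = b := by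
        intro u hu p
        rw [H.eq_fst τ hu]
        rw [f.toGL.2 u hu]
        rfl
      rcases hy with h | h | h | h | h
      · exact hbd _ ⟨0, Or.inl h⟩ _
      · exact hbd _ ⟨0, Or.inr h⟩ _
      · exact hbd _ ⟨1, Or.inl h⟩ _
      · exact hbd _ ⟨1, Or.inr h⟩ _
      · exact (H (τ, ![y 0, y 1])).2.1 _ _ h
    · rintro y y' τ ⟨h0, h1, h3, h3', h2⟩
      show (H (τ, ![y 0, y 1])).1 (y 2, y 3) = (H (τ, ![y' 0, y' 1])).1 (y' 2, y' 3)
      rw [h0, h1, h3, h3']
      exact (H (τ, ![y' 0, y' 1])).2.2 _ _ h2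

lemma PM.toGL_const : (PM.const b : PM B b).toGL = GenLoop.const := rfl

lemma PM.toGL_add (f g : PM B b) : (PM.add f g).toGL = GenLoop.transAt 0 f.toGL g.toGL := by
  apply GenLoop.ext
  intro u
  apply Subtype.ext
  apply ContinuousMap.ext
  intro p
  show (PM.add f g).1 (mproj (vec4 u p)) = _
  rw [PM.add_mproj]
  show _ = ((if (u 0 : ℝ) ≤ 1 / 2 then f.toGL (Function.update u 0 (dbl1 (u 0)))
    else g.toGL (Function.update u 0 (dbl2 (u 0)))) : AM B b).1 p
  have e : ∀ v : I, Function.update (vec4 u p) 0 v = vec4 (Function.update u 0 v) p := by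
    intro v
    funext j
    fin_cases j <;> simp [vec4]
  split_ifs with h1 h2 h2
  · rw [PM.toGL_apply, ← e]; rfl
  · exact absurd h1 h2
  · exact absurd h2 h1
  · rw [PM.toGL_apply, ← e]; rfl

/-- The class of a pointed map in the homotopy group of `AM`. -/
def PM.cls (f : PM B b) : HomotopyGroup (Fin 2) (AM B b) (AM.const B b) :=
  Quotient.mk (GenLoop.Homotopic.setoid (Fin 2) (AM.const B b)) f.toGL

lemma PM.htpy_iff_cls (f g : PM B b) : PM.Htpy f g ↔ f.cls = g.cls := by
  rw [PM.htpy_iff]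
  exact (Quotient.eq (r := GenLoop.Homotopic.setoid (Fin 2) (AM.const B b))).symm

lemma PM.cls_add (f g : PM B b) : (PM.add f g).cls = f.cls * g.cls := by
  rw [mul_comm f.cls g.cls]
  unfold PM.cls
  rw [PM.toGL_add]
  exact (HomotopyGroup.mul_spec (i := 0) (p := g.toGL) (q := f.toGL)).symm

lemma PM.cls_const : (PM.const b : PM B b).cls = 1 := rfl

theorem PM.add_assoc_htpy (f g h : PM B b) :
    PM.Htpy (PM.add (PM.add f g) h) (PM.add f (PM.add g h)) := by
  rw [PM.htpy_iff_cls]
  simp only [PM.cls_add, mul_assoc]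

theorem PM.add_comm_htpy (f g : PM B b) :
    PM.Htpy (PM.add f g) (PM.add g f) := by
  rw [PM.htpy_iff_cls, PM.cls_add, PM.cls_add, mul_comm]

theorem PM.const_add_htpy (f : PM B b) :
    PM.Htpy (PM.add (PM.const b) f) f := by
  rw [PM.htpy_iff_cls, PM.cls_add, PM.cls_const, one_mul]

theorem PM.add_congr {f f' g g' : PM B b} (hf : PM.Htpy f f') (hg : PM.Htpy g g') :
    PM.Htpy (PM.add f g) (PM.add f' g') := by
  rw [PM.htpy_iff_cls] at *
  rw [PM.cls_add, PM.cls_add, hf, hg]

/-! ### Doubling in the third coordinate -/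

set_option linter.unusedSectionVars false

/-- Run through `k` twice. -/
def dd (k : I → B) (s : I) : B := if (s : ℝ) ≤ 1 / 2 then k (dbl1 s) else k (dbl2 s)

lemma dd_zero (k : I → B) : dd k 0 = k 0 := by
  unfold dd
  rw [if_pos (by simp)]
  congr 1
  apply Subtype.ext
  rw [dbl1_of_le (by simp)]
  simp

lemma dd_one (k : I → B) : dd k 1 = k 1 := by
  unfold dd
  rw [if_neg (by norm_num)]
  congr 1
  apply Subtype.ext
  rw [dbl2_of_ge (by norm_num)]
  norm_num

lemma dd_half (k : I → B) {s : I} (hs : (s : ℝ) = 1 / 2) : dd k s = k 1 := by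
  unfold dd
  rw [if_pos hs.le, dbl1_of_ge hs.ge]

lemma dd_of_ge (k : I → B) (hk : k 0 = k 1) {s : I} (hs : (1 / 2 : ℝ) ≤ s) :
    dd k s = k (dbl2 s) := by
  unfold dd
  split_ifs with h
  · rw [dbl1_of_ge hs, dbl2_of_le h, hk]
  · rfl

lemma dd_of_le (k : I → B) {s : I} (hs : (s : ℝ) ≤ 1 / 2) :
    dd k s = k (dbl1 s) := by
  unfold dd
  rw [if_pos hs]

lemma dd_shift (k : I → B) (hk : k 0 = k 1) {s s' : I} (hs : |(s : ℝ) - s'| = 1 / 2) :
    dd k s = dd k s' := by
  have key : ∀ s s' : I, (s : ℝ) - s' = 1 / 2 → dd k s = dd k s' := by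
    intro s s' h
    have h1 := s'.2.1
    have h2 := s.2.2
    rw [dd_of_ge k hk (by linarith), dd_of_le k (by linarith)]
    congr 1
    apply Subtype.ext
    rw [dbl2_of_ge (by linarith), dbl1_of_le (by linarith)]
    linarith
  rcases (abs_eq (by norm_num)).mp hs with h | h
  · exact key s s' h
  · exact (key s' s (by linarith)).symm

lemma continuous_dd {Y : Type*} [TopologicalSpace Y] (k : Y × I → B) (hk : Continuous k)
    (h : ∀ y, k (y, 0) = k (y, 1)) (s : Y → I) (hs : Continuous s) :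
    Continuous fun y => dd (fun v => k (y, v)) (s y) := by
  unfold dd
  refine Continuous.if_le (by fun_prop) (by fun_prop) (by fun_prop) continuous_const ?_
  intro y hy
  rw [dbl1_of_ge hy.ge, dbl2_of_le hy.le]
  exact (h y).symm

/-! ### Four-dimensional loops as pointed maps -/

lemma isBase_mem_boundary {y : Fin 4 → I} (h : IsBase y) : y ∈ Cube.boundary (Fin 4) := by
  rcases h with h | h | h | h | h | h | h | h
  · exact ⟨0, Or.inl h⟩
  · exact ⟨0, Or.inr h⟩
  · exact ⟨1, Or.inl h⟩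
  · exact ⟨1, Or.inr h⟩
  · exact ⟨2, Or.inl h⟩
  · exact ⟨2, Or.inr h⟩
  · exact ⟨3, Or.inr h⟩
  · exact ⟨3, Or.inl h.1⟩

/-- A four-dimensional loop is a pointed map of `MSp`. -/
def PM.ofGL (P : GenLoop (Fin 4) B b) : PM B b :=
  PM.ofCube P.1 (fun y hy => P.2 y (isBase_mem_boundary hy))
    (fun y y' h => by
      rw [P.2 y ⟨3, Or.inl h.2.2.1⟩, P.2 y' ⟨3, Or.inl h.2.2.2.1⟩])

lemma PM.ofGL_mproj (P : GenLoop (Fin 4) B b) (y : Fin 4 → I) :
    (PM.ofGL P).1 (mproj y) = P y := PM.ofCube_mproj _ _ _ _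

lemma PM.ofGL_htpy {P Q : GenLoop (Fin 4) B b} (h : GenLoop.Homotopic P Q) :
    PM.Htpy (PM.ofGL P) (PM.ofGL Q) := by
  obtain ⟨H⟩ := h
  have hH : ∀ y τ, y ∈ Cube.boundary (Fin 4) → H (τ, y) = b := by
    intro y τ hy
    rw [H.eq_fst τ hy]
    exact P.2 y hy
  refine PM.htpy_of_cube (fun q => H (q.2, q.1)) (by fun_prop) ?_ ?_ ?_ ?_
  · intro y
    rw [PM.ofGL_mproj]
    exact H.apply_zero y
  · intro y
    rw [PM.ofGL_mproj]
    exact H.apply_one y
  · intro y τ hy
    exact hH y τ (isBase_mem_boundary hy)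
  · intro y y' τ h
    show H (τ, y) = H (τ, y')
    rw [hH y τ ⟨3, Or.inl h.2.2.1⟩, hH y' τ ⟨3, Or.inl h.2.2.2.1⟩]

lemma PM.ext_mproj {f g : PM B b} (h : ∀ y, f.1 (mproj y) = g.1 (mproj y)) : f = g := by
  apply Subtype.ext
  apply ContinuousMap.ext
  intro m
  obtain ⟨y, rfl⟩ := mproj_surjective m
  exact h y

lemma PM.ofGL_transAt (P Q : GenLoop (Fin 4) B b) :
    PM.ofGL (GenLoop.transAt 0 P Q) = PM.add (PM.ofGL P) (PM.ofGL Q) := by
  apply PM.ext_mproj
  intro y
  rw [PM.add_mproj, PM.ofGL_mproj, PM.ofGL_mproj, PM.ofGL_mproj]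
  rfl

lemma transAt_two_eq (P : GenLoop (Fin 4) B b) (y : Fin 4 → I) :
    GenLoop.transAt 2 P P y = dd (fun v => P (Function.update y 2 v)) (y 2) := rfl

/-- The homotopy `Γ`. -/
lemma PM.ofGL_double (P : GenLoop (Fin 4) B b) :
    PM.Htpy (PM.ofGL (GenLoop.transAt 2 P P)) (PM.const b) := by
  let c : I × I → I := fun q => Set.projIcc 0 1 zero_le_one ((q.1 : ℝ) + (1 - q.1) * q.2)
  have hc : Continuous c := by unfold c; fun_prop
  have hc0 : ∀ t, c (0, t) = t := by
    intro t
    apply Subtype.ext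
    show ((Set.projIcc 0 1 zero_le_one (((0 : I) : ℝ) + (1 - (0 : I)) * t) : I) : ℝ) = t
    rw [Set.projIcc_of_mem zero_le_one (by simp)]
    simp
  have hc1 : ∀ t, c (1, t) = 1 := by
    intro t
    apply Subtype.ext
    show ((Set.projIcc 0 1 zero_le_one (((1 : I) : ℝ) + (1 - (1 : I)) * t) : I) : ℝ) = 1
    simp
  have hc1' : ∀ τ, c (τ, 1) = 1 := by
    intro t
    apply Subtype.ext
    show ((Set.projIcc 0 1 zero_le_one ((t : ℝ) + (1 - t) * ((1 : I) : ℝ)) : I) : ℝ) = 1
    simp
  -- the base conditions of the slices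
  have hs : ∀ (y : Fin 4 → I) (τ : I), 
      P (Function.update (Function.update y 3 (c (τ, y 3))) 2 0) = b ∧
      P (Function.update (Function.update y 3 (c (τ, y 3))) 2 1) = b := by
    intro y τ
    exact ⟨P.2 _ ⟨2, Or.inl (by simp)⟩, P.2 _ ⟨2, Or.inr (by simp)⟩⟩
  refine PM.htpy_of_cube (fun q => dd (fun v => P (Function.update (Function.update q.1 3
    (c (q.2, q.1 3))) 2 v)) (q.1 2)) ?_ ?_ ?_ ?_ ?_
  · refine continuous_dd (fun q : ((Fin 4 → I) × I) × I =>
      P (Function.update (Function.update q.1.1 3 (c (q.1.2, q.1.1 3))) 2 q.2)) ?_ ?_ 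
      (fun q => q.1 2) (by fun_prop)
    · refine P.1.continuous.comp ?_
      refine Continuous.update (Continuous.update (by fun_prop) 3 (hc.comp (by fun_prop))) 2
        (by fun_prop)
    · intro q
      rw [(hs q.1 q.2).1, (hs q.1 q.2).2]
  · intro y
    rw [PM.ofGL_mproj, transAt_two_eq]
    simp only [hc0, Function.update_eq_self]
  · intro y
    show dd (fun v => P (Function.update (Function.update y 3 (c (1, y 3))) 2 v)) (y 2) = b
    have : ∀ v, P (Function.update (Function.update y 3 (c (1, y 3))) 2 v) = b := by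
      intro v
      refine P.2 _ ⟨3, Or.inr ?_⟩
      rw [Function.update_of_ne (by decide), Function.update_self, hc1]
    simp only [this, dd]
    simp
  · intro y τ hy
    show dd (fun v => P (Function.update (Function.update y 3 (c (τ, y 3))) 2 v)) (y 2) = b
    have hconst : ∀ (j : Fin 4) (hj : j ≠ 3) (hj2 : j ≠ 2) , y j = 0 ∨ y j = 1 → 
        dd (fun v => P (Function.update (Function.update y 3 (c (τ, y 3))) 2 v)) (y 2) = b := by
      intro j hj hj2 h
      have : ∀ v, P (Function.update (Function.update y 3 (c (τ, y 3))) 2 v) = b := by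
        intro v
        refine P.2 _ ⟨j, ?_⟩
        rw [Function.update_of_ne hj2, Function.update_of_ne hj]
        exact h
      simp only [this, dd]
      simp
    rcases hy with h | h | h | h | h | h | h | h
    · exact hconst 0 (by decide) (by decide) (Or.inl h)
    · exact hconst 0 (by decide) (by decide) (Or.inr h)
    · exact hconst 1 (by decide) (by decide) (Or.inl h)
    · exact hconst 1 (by decide) (by decide) (Or.inr h)
    · rw [h, dd_zero]; exact (hs y τ).1
    · rw [h, dd_one]; exact (hs y τ).2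
    · have : ∀ v, P (Function.update (Function.update y 3 (c (τ, y 3))) 2 v) = b := by
        intro v
        refine P.2 _ ⟨3, Or.inr ?_⟩
        rw [Function.update_of_ne (by decide), Function.update_self, h, hc1']
      simp only [this, dd]
      simp
    · rw [dd_half _ h.2]; exact (hs y τ).2
  · rintro y y' τ ⟨h0, h1, h3, h3', h2⟩
    show dd (fun v => P (Function.update (Function.update y 3 (c (τ, y 3))) 2 v)) (y 2) =
      dd (fun v => P (Function.update (Function.update y' 3 (c (τ, y' 3))) 2 v)) (y' 2)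
    have e : ∀ v, Function.update (Function.update y 3 (c (τ, y 3))) 2 v =
        Function.update (Function.update y' 3 (c (τ, y' 3))) 2 v := by
      intro v
      rw [h3, h3']
      funext j
      fin_cases j <;> simp [Function.update, h0, h1]
    simp only [e]
    exact dd_shift _ ((hs y' τ).1.trans (hs y' τ).2.symm) h2

/-! ### Step (a): the boundary class has order two -/

/-- `v ↦ v / 2`. -/
def hlf (v : I) : I := Set.projIcc 0 1 zero_le_one ((v : ℝ) / 2)

@[fun_prop] lemma continuous_hlf : Continuous hlf := by unfold hlf; fun_prop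

lemma hlf_val (v : I) : (hlf v : ℝ) = v / 2 := by
  unfold hlf
  rw [Set.projIcc_of_mem zero_le_one ⟨by linarith [v.2.1], by linarith [v.2.2]⟩]

/-- The point `(v₀, v₁, w, t)`. -/
def vec4' (v : Fin 3 → I) (w t : I) : Fin 4 → I := ![v 0, v 1, w, t]

lemma continuous_vec4' {Y : Type*} [TopologicalSpace Y] {v : Y → Fin 3 → I} {w t : Y → I}
    (hv : Continuous v) (hw : Continuous w) (ht : Continuous t) :
    Continuous fun y => vec4' (v y) (w y) (t y) := by
  refine continuous_pi fun j => ?_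
  fin_cases j <;> simp [vec4'] <;> fun_prop

/-- The restriction of a pointed map to the bottom sphere of `MSp`. -/
def PM.bot (f : PM B b) : GenLoop (Fin 3) B b :=
  ⟨⟨fun v => f.1 (mproj (vec4' v (hlf (v 2)) 0)), by
    have := continuous_vec4' (Y := Fin 3 → I) (v := fun v => v) (w := fun v => hlf (v 2))
      (t := fun _ => 0) continuous_id (by fun_prop) continuous_const
    fun_prop⟩, by
    rintro v ⟨i, hi⟩
    apply f.base
    fin_cases i
    · rcases hi with h | h
      · exact Or.inl h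
      · exact Or.inr (Or.inl h)
    · rcases hi with h | h
      · exact Or.inr (Or.inr (Or.inl h))
      · exact Or.inr (Or.inr (Or.inr (Or.inl h)))
    · have h2 : (v 2 : I) = 0 ∨ v 2 = 1 := hi
      rcases h2 with h | h
      · refine Or.inr (Or.inr (Or.inr (Or.inr (Or.inl ?_))))
        show hlf (v 2) = 0
        apply Subtype.ext
        rw [hlf_val, h]; simp
      · refine Or.inr (Or.inr (Or.inr (Or.inr (Or.inr (Or.inr (Or.inr ⟨rfl, ?_⟩))))))
        show (hlf (v 2) : ℝ) = 1 / 2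
        rw [hlf_val, h]; simp⟩

lemma PM.bot_apply (f : PM B b) (v : Fin 3 → I) :
    f.bot v = f.1 (mproj (vec4' v (hlf (v 2)) 0)) := rfl

lemma PM.bot_double (f : PM B b) (v : Fin 3 → I) :
    GenLoop.transAt 2 f.bot f.bot v = f.1 (mproj (vec4' v (v 2) 0)) := by
  show (if (v 2 : ℝ) ≤ 1 / 2 then f.bot (Function.update v 2 (dbl1 (v 2)))
    else f.bot (Function.update v 2 (dbl2 (v 2)))) = _
  split_ifs with h
  · rw [PM.bot_apply]
    congr 2
    funext j
    fin_cases j
    · simp [vec4']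
    · simp [vec4']
    · show hlf ((Function.update v 2 (dbl1 (v 2))) 2) = v 2
      rw [Function.update_self]
      apply Subtype.ext
      rw [hlf_val, dbl1_of_le h]; ring
    · rfl
  · rw [PM.bot_apply]
    apply f.half
    refine ⟨by simp [vec4'], by simp [vec4'], rfl, rfl, ?_⟩
    show |(hlf ((Function.update v 2 (dbl2 (v 2))) 2) : ℝ) - v 2| = 1 / 2
    rw [Function.update_self, hlf_val, dbl2_of_ge (not_le.mp h).le]
    rw [show (2 * (v 2 : ℝ) - 1) / 2 - v 2 = -(1 / 2) by ring, abs_neg]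
    norm_num

lemma PM.bot_add_bot (f : PM B b) :
    GenLoop.Homotopic (GenLoop.transAt 0 f.bot f.bot) GenLoop.const := by
  have h1 : GenLoop.Homotopic (GenLoop.transAt 2 f.bot f.bot) GenLoop.const := by
    refine ⟨⟨⟨⟨fun q => f.1 (mproj (vec4' q.2 (q.2 2) q.1)), ?_⟩, ?_, ?_⟩, ?_⟩⟩
    · have := continuous_vec4' (Y := I × (Fin 3 → I)) (v := fun q => q.2) (w := fun q => q.2 2)
        (t := fun q => q.1) (by fun_prop) (by fun_prop) (by fun_prop)
      fun_prop
    · intro v
      exact (f.bot_double v).symm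
    · intro v
      exact f.base (Or.inr (Or.inr (Or.inr (Or.inr (Or.inr (Or.inr (Or.inl rfl)))))))
    · intro τ v hv
      have e : (GenLoop.transAt 2 f.bot f.bot).1 v = b := (GenLoop.transAt 2 f.bot f.bot).2 v hv
      rw [e]
      apply f.base
      obtain ⟨i, hi⟩ := hv
      fin_cases i
      · rcases hi with h | h
        · exact Or.inl h
        · exact Or.inr (Or.inl h)
      · rcases hi with h | h
        · exact Or.inr (Or.inr (Or.inl h))
        · exact Or.inr (Or.inr (Or.inr (Or.inl h)))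
      · rcases hi with h | h
        · exact Or.inr (Or.inr (Or.inr (Or.inr (Or.inl h))))
        · exact Or.inr (Or.inr (Or.inr (Or.inr (Or.inr (Or.inl h)))))
  have h2 := HomotopyGroup.transAt_indep (i := (2 : Fin 3)) 0 f.bot f.bot
  have h3 : GenLoop.Homotopic (GenLoop.transAt 2 f.bot f.bot)
      (GenLoop.transAt 0 f.bot f.bot) :=
    (Quotient.eq (r := GenLoop.Homotopic.setoid (Fin 3) b)).mp h2
  exact h3.symm.trans h1

/-! ### Step (b): homotope `f + f` to a four-dimensional loop -/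

lemma PM.bot_dd (f : PM B b) (d e s : I) :
    dd (fun v => f.bot ![d, e, v]) s = f.1 (mproj ![d, e, s, 0]) := by
  have h := f.bot_double ![d, e, s]
  have e1 : GenLoop.transAt 2 f.bot f.bot ![d, e, s] =
      dd (fun v => f.bot (Function.update ![d, e, s] 2 v)) s := rfl
  have e2 : ∀ v : I, Function.update ![d, e, s] 2 v = ![d, e, v] := by
    intro v
    funext j
    fin_cases j <;> rfl
  simp only [e2] at e1
  rw [← e1, h]
  rfl

lemma PM.bot_add_apply (f : PM B b) (u e v : I) :
    GenLoop.transAt 0 f.bot f.bot ![u, e, v] =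
      if (u : ℝ) ≤ 1 / 2 then f.bot ![dbl1 u, e, v] else f.bot ![dbl2 u, e, v] := by
  have e2 : ∀ d : I, Function.update ![u, e, v] 0 d = ![d, e, v] := by
    intro d
    funext j
    fin_cases j <;> rfl
  show (if (u : ℝ) ≤ 1 / 2 then f.bot (Function.update ![u, e, v] 0 (dbl1 u))
    else f.bot (Function.update ![u, e, v] 0 (dbl2 u))) = _
  rw [e2, e2]

lemma PM.add_bot (f : PM B b) (u e s : I) :
    dd (fun v => GenLoop.transAt 0 f.bot f.bot ![u, e, v]) s =
      (PM.add f f).1 (mproj ![u, e, s, 0]) := by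
  rw [PM.add_mproj]
  simp only [PM.bot_add_apply]
  have e2 : ∀ d : I, Function.update ![u, e, s, 0] 0 d = ![d, e, s, 0] := by
    intro d
    funext j
    fin_cases j <;> rfl
  have e3 : (![u, e, s, 0] : Fin 4 → I) 0 = u := rfl
  rw [e2, e2, e3]
  by_cases h : (u : ℝ) ≤ 1 / 2
  · simp only [if_pos h]
    exact f.bot_dd _ _ _
  · simp only [if_neg h]
    exact f.bot_dd _ _ _

/-- The time-cut functions. -/
def cut1 (τ t : I) : I := Set.projIcc 0 1 zero_le_one ((τ : ℝ) - 2 * t)
def cut2 (τ t : I) : I := Set.projIcc 0 1 zero_le_one (((t : ℝ) - τ / 2) / (1 - τ / 2))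

lemma continuous_cut1 : Continuous fun q : I × I => cut1 q.1 q.2 := by unfold cut1; fun_prop

lemma continuous_cut2 : Continuous fun q : I × I => cut2 q.1 q.2 := by
  unfold cut2
  refine continuous_projIcc.comp ?_
  refine Continuous.div (by fun_prop) (by fun_prop) ?_
  intro q
  have := q.1.2.2
  linarith

lemma cut1_eq_zero {τ t : I} (h : (τ : ℝ) / 2 ≤ t) : cut1 τ t = 0 := by
  unfold cut1
  rw [Set.projIcc_of_le_left]
  · rfl
  · linarith

lemma cut2_eq_zero {τ t : I} (h : (t : ℝ) ≤ τ / 2) : cut2 τ t = 0 := by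
  unfold cut2
  rw [Set.projIcc_of_le_left]
  · rfl
  · have := τ.2.2
    exact div_nonpos_of_nonpos_of_nonneg (by linarith) (by linarith)

lemma cut1_one_zero : cut1 1 0 = 1 := by
  apply Subtype.ext
  unfold cut1
  simp

lemma cut2_zero (t : I) : cut2 0 t = t := by
  apply Subtype.ext
  unfold cut2
  simp

lemma cut2_one (τ : I) : cut2 τ 1 = 1 := by
  apply Subtype.ext
  unfold cut2
  have : (1 - (τ : ℝ) / 2) ≠ 0 := by
    have := τ.2.2
    intro h
    linarith
  simp [div_self this]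

/-- Step (b). -/
lemma PM.exists_ofGL (f : PM B b) : ∃ P : GenLoop (Fin 4) B b,
    PM.Htpy (PM.add f f) (PM.ofGL P) := by
  obtain ⟨K⟩ := f.bot_add_bot
  have hK : ∀ v τ, v ∈ Cube.boundary (Fin 3) → K (τ, v) = b := by
    intro v τ hv
    rw [K.eq_fst τ hv]
    exact (GenLoop.transAt 0 f.bot f.bot).2 v hv
  -- the doubled null-homotopy
  let Kd : I × (Fin 4 → I) → B := fun q => dd (fun v => K (q.1, ![q.2 0, q.2 1, v])) (q.2 2)
  have hKe : ∀ (τ u e : I), K (τ, ![u, e, 0]) = b ∧ K (τ, ![u, e, 1]) = b := fun τ u e =>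
    ⟨hK _ _ ⟨2, Or.inl rfl⟩, hK _ _ ⟨2, Or.inr rfl⟩⟩
  have hKdc : Continuous Kd := by
    refine continuous_dd (fun q : (I × (Fin 4 → I)) × I => K (q.1.1, ![q.1.2 0, q.1.2 1, q.2])) ?_
      ?_ (fun q => q.2 2) (by fun_prop)
    · have : Continuous fun q : (I × (Fin 4 → I)) × I => (![q.1.2 0, q.1.2 1, q.2] : Fin 3 → I) := by
        refine continuous_pi fun j => ?_
        fin_cases j <;> simp <;> fun_prop
      fun_prop
    · intro q
      rw [(hKe _ _ _).1, (hKe _ _ _).2]
  have hKd0 : ∀ y, Kd (0, y) = (PM.add f f).1 (mproj ![y 0, y 1, y 2, 0]) := by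
    intro y
    rw [← PM.add_bot]
    show dd (fun v => K (0, ![y 0, y 1, v])) (y 2) = _
    simp only [K.apply_zero]
    rfl
  have hKd1 : ∀ y, Kd (1, y) = b := by
    intro y
    show dd (fun v => K (1, ![y 0, y 1, v])) (y 2) = _
    simp only [K.apply_one]
    unfold dd
    split_ifs <;> rfl
  have hKdb : ∀ τ y, (y 0 = 0 ∨ y 0 = 1 ∨ y 1 = 0 ∨ y 1 = 1 ∨ y 2 = 0 ∨ y 2 = 1 ∨
      (y 2 : ℝ) = 1 / 2) → Kd (τ, y) = b := by
    intro τ y hy
    show dd (fun v => K (τ, ![y 0, y 1, v])) (y 2) = b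
    have hc : (∀ v, K (τ, ![y 0, y 1, v]) = b) → 
        dd (fun v => K (τ, ![y 0, y 1, v])) (y 2) = b := by
      intro h
      simp only [h]
      unfold dd
      split_ifs <;> rfl
    rcases hy with h | h | h | h | h | h | h
    · exact hc fun v => hK _ _ ⟨0, Or.inl h⟩
    · exact hc fun v => hK _ _ ⟨0, Or.inr h⟩
    · exact hc fun v => hK _ _ ⟨1, Or.inl h⟩
    · exact hc fun v => hK _ _ ⟨1, Or.inr h⟩
    · rw [h, dd_zero]; exact (hKe _ _ _).1
    · rw [h, dd_one]; exact (hKe _ _ _).2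
    · rw [dd_half _ h]; exact (hKe _ _ _).2
  have hKdh : ∀ τ (y y' : Fin 4 → I), y 0 = y' 0 → y 1 = y' 1 → |(y 2 : ℝ) - y' 2| = 1 / 2 →
      Kd (τ, y) = Kd (τ, y') := by
    intro τ y y' h0 h1 h2
    show dd (fun v => K (τ, ![y 0, y 1, v])) (y 2) = dd (fun v => K (τ, ![y' 0, y' 1, v])) (y' 2)
    rw [h0, h1]
    exact dd_shift _ ((hKe _ _ _).1.trans (hKe _ _ _).2.symm) h2
  -- the homotopy
  let H : (Fin 4 → I) × I → B := fun q =>
    if (q.1 3 : ℝ) ≤ (q.2 : ℝ) / 2 then Kd (cut1 q.2 (q.1 3), q.1)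
    else (PM.add f f).1 (mproj (Function.update q.1 3 (cut2 q.2 (q.1 3))))
  have hHc : Continuous H := by
    have c1 : Continuous fun q : (Fin 4 → I) × I => cut1 q.2 (q.1 3) :=
      continuous_cut1.comp (by fun_prop : Continuous fun q : (Fin 4 → I) × I => (q.2, q.1 3))
    have c2 : Continuous fun q : (Fin 4 → I) × I => cut2 q.2 (q.1 3) :=
      continuous_cut2.comp (by fun_prop : Continuous fun q : (Fin 4 → I) × I => (q.2, q.1 3))
    refine Continuous.if_le ?_ ?_ (by fun_prop) (by fun_prop) ?_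
    · exact hKdc.comp (c1.prodMk continuous_fst)
    · have : Continuous fun q : (Fin 4 → I) × I => Function.update q.1 3 (cut2 q.2 (q.1 3)) :=
        continuous_fst.update 3 c2
      fun_prop
    · intro q hq
      rw [cut1_eq_zero hq.ge, cut2_eq_zero hq.le, hKd0]
      have e : (![q.1 0, q.1 1, q.1 2, 0] : Fin 4 → I) = Function.update q.1 3 0 := by
        funext j
        fin_cases j <;> rfl
      rw [e]
  have hHb : ∀ y τ, IsBase y → H (y, τ) = b := by
    intro y τ hy
    show (if (y 3 : ℝ) ≤ (τ : ℝ) / 2 then Kd (cut1 τ (y 3), y)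
      else (PM.add f f).1 (mproj (Function.update y 3 (cut2 τ (y 3))))) = b
    have hp : ∀ y' : Fin 4 → I, (y' 0 = 0 ∨ y' 0 = 1 ∨ y' 1 = 0 ∨ y' 1 = 1 ∨ y' 2 = 0 ∨ y' 2 = 1) →
        IsBase y' := by
      intro y' h
      unfold IsBase
      tauto
    split_ifs with h
    · apply hKdb
      rcases hy with h' | h' | h' | h' | h' | h' | h' | h'
      · exact Or.inl h'
      · exact Or.inr (Or.inl h')
      · exact Or.inr (Or.inr (Or.inl h'))
      · exact Or.inr (Or.inr (Or.inr (Or.inl h')))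
      · exact Or.inr (Or.inr (Or.inr (Or.inr (Or.inl h'))))
      · exact Or.inr (Or.inr (Or.inr (Or.inr (Or.inr (Or.inl h')))))
      · exfalso
        rw [h'] at h
        have := τ.2.2
        have h1 : ((1 : I) : ℝ) = 1 := rfl
        rw [h1] at h
        linarith
      · exact Or.inr (Or.inr (Or.inr (Or.inr (Or.inr (Or.inr h'.2)))))
    · apply PM.base
      rcases hy with h' | h' | h' | h' | h' | h' | h' | h'
      · exact hp _ (Or.inl h')
      · exact hp _ (Or.inr (Or.inl h'))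
      · exact hp _ (Or.inr (Or.inr (Or.inl h')))
      · exact hp _ (Or.inr (Or.inr (Or.inr (Or.inl h'))))
      · exact hp _ (Or.inr (Or.inr (Or.inr (Or.inr (Or.inl h')))))
      · exact hp _ (Or.inr (Or.inr (Or.inr (Or.inr (Or.inr h')))))
      · refine Or.inr (Or.inr (Or.inr (Or.inr (Or.inr (Or.inr (Or.inl ?_))))))
        rw [Function.update_self, h', cut2_one]
      · exfalso
        apply h
        rw [h'.1]
        have := τ.2.1
        have h0 : ((0 : I) : ℝ) = 0 := rfl
        rw [h0]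
        linarith
  have hHh : ∀ y y' τ, IsHalf y y' → H (y, τ) = H (y', τ) := by
    rintro y y' τ ⟨h0, h1, h3, h3', h2⟩
    have hτ : ((0 : I) : ℝ) ≤ (τ : ℝ) / 2 := by
      have := τ.2.1
      have h0 : ((0 : I) : ℝ) = 0 := rfl
      rw [h0]
      linarith
    show (if (y 3 : ℝ) ≤ (τ : ℝ) / 2 then Kd (cut1 τ (y 3), y)
      else (PM.add f f).1 (mproj (Function.update y 3 (cut2 τ (y 3))))) =
      (if (y' 3 : ℝ) ≤ (τ : ℝ) / 2 then Kd (cut1 τ (y' 3), y')
      else (PM.add f f).1 (mproj (Function.update y' 3 (cut2 τ (y' 3)))))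
    rw [h3, h3', if_pos hτ, if_pos hτ]
    exact hKdh _ _ _ h0 h1 h2
  have hH0 : ∀ y, H (y, 0) = (PM.add f f).1 (mproj y) := by
    intro y
    show (if (y 3 : ℝ) ≤ ((0 : I) : ℝ) / 2 then Kd (cut1 0 (y 3), y)
      else (PM.add f f).1 (mproj (Function.update y 3 (cut2 0 (y 3))))) = _
    split_ifs with h
    · have h3 : y 3 = 0 := by
        apply Subtype.ext
        have := (y 3).2.1
        have h0 : ((0 : I) : ℝ) = 0 := rfl
        rw [h0] at h ⊢
        linarith
      rw [cut1_eq_zero (by rw [h3]; simp), hKd0]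
      have e : (![y 0, y 1, y 2, 0] : Fin 4 → I) = y := by
        funext j
        fin_cases j
        · rfl
        · rfl
        · rfl
        · exact h3.symm
      rw [e]
    · rw [cut2_zero, Function.update_eq_self]
  let P : GenLoop (Fin 4) B b := ⟨⟨fun y => H (y, 1), by fun_prop⟩, by
    intro y hy
    show H (y, 1) = b
    by_cases h3 : y 3 = 0
    · show (if (y 3 : ℝ) ≤ ((1 : I) : ℝ) / 2 then Kd (cut1 1 (y 3), y)
        else (PM.add f f).1 (mproj (Function.update y 3 (cut2 1 (y 3))))) = _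
      rw [h3, if_pos (by simp), cut1_one_zero, hKd1]
    · apply hHb
      obtain ⟨i, hi⟩ := hy
      fin_cases i
      · rcases hi with h | h
        · exact Or.inl h
        · exact Or.inr (Or.inl h)
      · rcases hi with h | h
        · exact Or.inr (Or.inr (Or.inl h))
        · exact Or.inr (Or.inr (Or.inr (Or.inl h)))
      · rcases hi with h | h
        · exact Or.inr (Or.inr (Or.inr (Or.inr (Or.inl h))))
        · exact Or.inr (Or.inr (Or.inr (Or.inr (Or.inr (Or.inl h)))))
      · rcases hi with h | h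
        · exact absurd h h3
        · exact Or.inr (Or.inr (Or.inr (Or.inr (Or.inr (Or.inr (Or.inl h)))))) ⟩
  refine ⟨P, PM.htpy_of_cube H hHc hH0 ?_ hHb hHh⟩
  intro y
  rw [PM.ofGL_mproj]
  rfl

theorem PM.four_htpy (f : PM B b) :
    PM.Htpy (PM.add (PM.add f f) (PM.add f f)) (PM.const b) := by
  obtain ⟨P, hP⟩ := f.exists_ofGL
  have h1 := PM.add_congr hP hP
  rw [← PM.ofGL_transAt] at h1
  have h2 := HomotopyGroup.transAt_indep (i := (0 : Fin 4)) 2 P P
  have h3 : GenLoop.Homotopic (GenLoop.transAt 0 P P) (GenLoop.transAt 2 P P) :=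
    (Quotient.eq (r := GenLoop.Homotopic.setoid (Fin 4) b)).mp h2
  exact (h1.trans (PM.ofGL_htpy h3)).trans (PM.ofGL_double P)

end SelfCover
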