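import Pool.Agent.SelfCover.Defs

open scoped unitInterval Topology
open Set

noncomputable section

namespace SelfCover

/-- The quotient of a compact Hausdorff space by a closed equivalence relation is Hausdorff. -/
theorem t2Space_quotient_of_isClosed {X : Type*} [TopologicalSpace X] [CompactSpace X]
    [T2Space X] (s : Setoid X) (h : IsClosed {p : X × X | s p.1 p.2}) : T2Space (Quotient s) := by
  let π : X → Quotient s := Quotient.mk s
  have hπ : Continuous π := continuous_quotient_mk'
  have hcl : ∀ C : Set X, IsClosed C → IsClosed (π '' C) := by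
    intro C hC
    rw [← (isQuotientMap_quotient_mk' (s := s)).isClosed_preimage]
    have : (π ⁻¹' (π '' C)) = Prod.snd '' ({p : X × X | s p.1 p.2} ∩ (C ×ˢ univ)) := by
      ext y
      constructor
      · rintro ⟨x, hx, hxy⟩
        exact ⟨(x, y), ⟨Quotient.exact hxy, ⟨hx, mem_univ _⟩⟩, rfl⟩
      · rintro ⟨⟨x, y'⟩, ⟨h1, ⟨hx, -⟩⟩, rfl⟩
        exact ⟨x, hx, Quotient.sound h1⟩
    change IsClosed (π ⁻¹' (π '' C))
    rw [this]
    have hc : IsCompact ({p : X × X | s p.1 p.2} ∩ (C ×ˢ univ)) :=
      (h.inter (hC.prod isClosed_univ)).isCompact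
    exact (hc.image continuous_snd).isClosed
  have hpt : ∀ a : Quotient s, IsClosed {a} := by
    intro a
    obtain ⟨x, rfl⟩ := Quotient.exists_rep a
    have := hcl {x} isClosed_singleton
    rwa [image_singleton] at this
  refine ⟨fun a b hab => ?_⟩
  have hFa : IsClosed (π ⁻¹' {a}) := (hpt a).preimage hπ
  have hFb : IsClosed (π ⁻¹' {b}) := (hpt b).preimage hπ
  have hd : Disjoint (π ⁻¹' {a}) (π ⁻¹' {b}) := by
    rw [Set.disjoint_left]
    intro x hx hx'
    exact hab (hx.symm.trans hx')
  obtain ⟨U, V, hU, hV, hFU, hFV, hUV⟩ := normal_separation hFa hFb hd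
  refine ⟨(π '' Uᶜ)ᶜ, (π '' Vᶜ)ᶜ, (hcl _ hU.isClosed_compl).isOpen_compl,
    (hcl _ hV.isClosed_compl).isOpen_compl, ?_, ?_, ?_⟩
  · rintro ⟨x, hx, hxa⟩
    exact hx (hFU hxa)
  · rintro ⟨x, hx, hxb⟩
    exact hx (hFV hxb)
  · rw [Set.disjoint_left]
    intro c hc hc'
    obtain ⟨x, rfl⟩ := Quotient.exists_rep c
    have h1 : x ∈ U := by
      by_contra hx
      exact hc ⟨x, hx, rfl⟩
    have h2 : x ∈ V := by
      by_contra hx
      exact hc' ⟨x, hx, rfl⟩
    exact Set.disjoint_left.mp hUV h1 h2

namespace MTorus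

variable {Z : Type*} [TopologicalSpace Z] (a : C(Z, Z))

@[simp] lemma _root_.SelfCover.nf_one (z : Z) : nf a (z, 1) = (a z, 0) := by
  unfold nf; simp

lemma _root_.SelfCover.nf_of_ne {p : Z × I} (h : p.2 ≠ 1) : nf a p = p := by
  unfold nf; simp [h]

@[simp] lemma _root_.SelfCover.nf_zero (z : Z) : nf a (z, 0) = (z, 0) :=
  nf_of_ne a (by simp)

lemma mk_eq_iff (p q : Z × I) : mk a p = mk a q ↔ nf a p = nf a q := by
  constructor
  · intro h
    exact Quotient.exact (s := mtSetoid a) h
  · intro h
    exact Quotient.sound (s := mtSetoid a) h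

lemma mk_one (z : Z) : mk a (z, 1) = mk a (a z, 0) := by
  rw [mk_eq_iff]; simp

lemma mk_surjective : Function.Surjective (mk a) := Quotient.mk_surjective

lemma mk_nf (p : Z × I) : mk a (nf a p) = mk a p := by
  by_cases h : p.2 = 1
  · obtain ⟨z, t⟩ := p
    simp only at h
    subst h
    rw [nf_one, mk_one]
  · rw [nf_of_ne a h]

lemma exists_rep_lt (y : MTorus a) : ∃ (z : Z) (t : I), t ≠ 1 ∧ y = mk a (z, t) := by
  obtain ⟨⟨z, t⟩, rfl⟩ := mk_surjective a y
  by_cases h : t = 1
  · subst h
    exact ⟨a z, 0, by simp, mk_one a z⟩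
  · exact ⟨z, t, h, rfl⟩

lemma isQuotientMap_mk : Topology.IsQuotientMap (mk a) := isQuotientMap_quotient_mk'

instance [CompactSpace Z] : CompactSpace (MTorus a) :=
  inferInstanceAs (CompactSpace (Quotient (mtSetoid a)))

instance [CompactSpace Z] [T2Space Z] : T2Space (MTorus a) := by
  refine t2Space_quotient_of_isClosed (mtSetoid a) ?_
  have : {p : (Z × I) × (Z × I) | mtSetoid a p.1 p.2} =
      {p | p.1 = p.2} ∪ {p | p.1.2 = 1 ∧ p.2.2 = 0 ∧ a p.1.1 = p.2.1} ∪
      {p | p.2.2 = 1 ∧ p.1.2 = 0 ∧ a p.2.1 = p.1.1} ∪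
      {p | p.1.2 = 1 ∧ p.2.2 = 1 ∧ a p.1.1 = a p.2.1} := by
    ext ⟨⟨z, t⟩, ⟨w, u⟩⟩
    show nf a (z, t) = nf a (w, u) ↔ _
    by_cases ht : t = 1 <;> by_cases hu : u = 1
    · subst ht; subst hu
      simp only [nf_one, Prod.mk.injEq, and_true, mem_union, mem_ofPred_eq, one_ne_zero,
        false_and, and_false, or_false, true_and]
      constructor
      · intro h; right; exact h
      · rintro (h | h)
        · rw [h]
        · exact h
    · subst ht
      rw [nf_one, nf_of_ne a (p := (w, u)) hu]
      simp only [Prod.mk.injEq, mem_union, mem_ofPred_eq, hu, false_and, and_false, or_false,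
        true_and]
      constructor
      · rintro ⟨h1, h2⟩; right; exact ⟨h2.symm, h1⟩
      · rintro (⟨h1, h2⟩ | ⟨h1, h2⟩)
        · exact absurd h2.symm hu
        · exact ⟨h2, h1.symm⟩
    · subst hu
      rw [nf_one, nf_of_ne a (p := (z, t)) ht]
      simp only [Prod.mk.injEq, mem_union, mem_ofPred_eq, ht, false_and, and_false, or_false,
        true_and, false_or]
      constructor
      · rintro ⟨h1, h2⟩; exact ⟨h2, h1.symm⟩
      · rintro ⟨h1, h2⟩; exact ⟨h2.symm, h1⟩
    · rw [nf_of_ne a (p := (z, t)) ht, nf_of_ne a (p := (w, u)) hu]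
      simp [ht, hu]
  rw [this]
  refine ((IsClosed.union ?_ ?_).union ?_).union ?_
  · exact isClosed_eq continuous_fst continuous_snd
  · exact (isClosed_eq (by fun_prop) continuous_const).inter
      ((isClosed_eq (by fun_prop) continuous_const).inter
        (isClosed_eq (by fun_prop) (by fun_prop)))
  · exact (isClosed_eq (by fun_prop) continuous_const).inter
      ((isClosed_eq (by fun_prop) continuous_const).inter
        (isClosed_eq (by fun_prop) (by fun_prop)))
  · exact (isClosed_eq (by fun_prop) continuous_const).inter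
      ((isClosed_eq (by fun_prop) continuous_const).inter
        (isClosed_eq (by fun_prop) (by fun_prop)))

/-- `MTorus.mk a × id` is a quotient map. -/
lemma isQuotientMap_mk_prod [CompactSpace Z] [T2Space Z] (Y : Type*) [TopologicalSpace Y] :
    Topology.IsQuotientMap (Prod.map (mk a) (id : Y → Y)) := by
  have hp : IsProperMap (mk a) := (mk a).continuous.isProperMap
  have hp2 : IsProperMap (Prod.map (mk a) (id : Y → Y)) := hp.prodMap isProperMap_id
  exact hp2.isClosedMap.isQuotientMap hp2.continuous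
    ((mk_surjective a).prodMap Function.surjective_id)

/-- Continuity of maps out of `MTorus a × Y` can be checked on `(Z × I) × Y`. -/
lemma continuous_prod_iff [CompactSpace Z] [T2Space Z] {Y B : Type*} [TopologicalSpace Y]
    [TopologicalSpace B] (f : MTorus a × Y → B) :
    Continuous f ↔ Continuous fun p : (Z × I) × Y => f (mk a p.1, p.2) :=
  (isQuotientMap_mk_prod a Y).continuous_iff

/-- Continuous maps out of the mapping torus. -/
def lift {B : Type*} [TopologicalSpace B] (ω : C(Z × I, B)) (h : ∀ z, ω (z, 1) = ω (a z, 0)) :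
    C(MTorus a, B) :=
  (isQuotientMap_mk a).lift ω (by
    intro p q hpq
    rw [mk_eq_iff] at hpq
    have key : ∀ p : Z × I, ω (nf a p) = ω p := by
      intro p
      by_cases hp : p.2 = 1
      · obtain ⟨z, t⟩ := p
        simp only at hp
        subst hp
        rw [nf_one, h]
      · rw [nf_of_ne a hp]
    rw [← key p, ← key q, hpq])

@[simp] lemma lift_mk {B : Type*} [TopologicalSpace B] (ω : C(Z × I, B))
    (h : ∀ z, ω (z, 1) = ω (a z, 0)) (p : Z × I) : lift a ω h (mk a p) = ω p := by
  have := Topology.IsQuotientMap.lift_comp (isQuotientMap_mk a) ω (by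
    intro p q hpq
    rw [mk_eq_iff] at hpq
    have key : ∀ p : Z × I, ω (nf a p) = ω p := by
      intro p
      by_cases hp : p.2 = 1
      · obtain ⟨z, t⟩ := p
        simp only at hp
        subst hp
        rw [nf_one, h]
      · rw [nf_of_ne a hp]
    rw [← key p, ← key q, hpq])
  exact congrArg (fun f : C(Z × I, B) => f p) this

/-- The projection of the mapping torus to the circle `ℝ/ℤ`. -/
def pr : C(MTorus a, UnitAddCircle) :=
  lift a ⟨fun p => ((p.2 : ℝ) : UnitAddCircle), by fun_prop⟩ (fun z => by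
    show (((1 : I) : ℝ) : UnitAddCircle) = (((0 : I) : ℝ) : UnitAddCircle)
    simp)

@[simp] lemma pr_mk (p : Z × I) : pr a (mk a p) = ((p.2 : ℝ) : UnitAddCircle) := by
  unfold pr; rw [lift_mk]; rfl

/-- The level-zero embedding `Z → MTorus a`. -/
def base : C(Z, MTorus a) := ⟨fun z => mk a (z, 0), by fun_prop⟩

lemma base_apply (z : Z) : base a z = mk a (z, 0) := rfl

@[simp] lemma pr_base (z : Z) : pr a (base a z) = 0 := by
  rw [base_apply, pr_mk]; simp

lemma base_injective : Function.Injective (base a) := by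
  intro z w h
  rw [base_apply, base_apply, mk_eq_iff] at h
  simpa using h

lemma exists_base_of_pr_eq_zero (y : MTorus a) (h : pr a y = 0) : ∃ z, y = base a z := by
  obtain ⟨z, t, ht, rfl⟩ := exists_rep_lt a y
  rw [pr_mk] at h
  refine ⟨z, ?_⟩
  rw [base_apply]
  congr 2
  have h1 : ((t : ℝ) : UnitAddCircle) = ((0 : ℝ) : UnitAddCircle) := by simpa using h
  rw [AddCircle.coe_eq_coe_iff_of_mem_Ico (a := 0)] at h1
  · exact Subtype.ext h1
  · refine ⟨t.2.1, ?_⟩
    rw [zero_add]
    exact lt_of_le_of_ne t.2.2 (fun h' => ht (Subtype.ext h'))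
  · simp

lemma isClosedEmbedding_base [CompactSpace Z] [T2Space Z] :
    Topology.IsClosedEmbedding (base a) :=
  Continuous.isClosedEmbedding (base a).continuous (base_injective a)

end MTorus

end SelfCover
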