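import Pool.Agent.SelfCover.MTFlow

open scoped unitInterval Topology NNReal ContinuousMap
open Set

noncomputable section

namespace SelfCover

namespace MTorus

variable {Z : Type*} [TopologicalSpace Z]

/-- Homotopies of maps out of a mapping torus, given by compatible families. -/
lemma homotopicRel_of_family [CompactSpace Z] [T2Space Z] {B : Type*} [TopologicalSpace B]
    (a : C(Z, Z)) (f g : C(MTorus a, B)) (ω : C((Z × I) × I, B))
    (h0 : ∀ p, ω (p, 0) = f (mk a p)) (h1 : ∀ p, ω (p, 1) = g (mk a p))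
    (hc : ∀ z l, ω ((z, 1), l) = ω ((a z, 0), l)) (S : Set (MTorus a))
    (hS : ∀ p l, mk a p ∈ S → ω (p, l) = f (mk a p)) : f.HomotopicRel g S := by
  have key : ∀ (p : Z × I) l, ω (nf a p, l) = ω (p, l) := by
    intro p l
    by_cases hp : p.2 = 1
    · obtain ⟨z, t⟩ := p
      simp only at hp
      subst hp
      rw [nf_one, hc]
    · rw [nf_of_ne a hp]
  let H : I × MTorus a → B := fun q => ω ((mk_surjective a q.2).choose, q.1)
  have hH : ∀ l p, H (l, mk a p) = ω (p, l) := by
    intro l p
    show ω ((mk_surjective a (mk a p)).choose, l) = _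
    have := (mk_surjective a (mk a p)).choose_spec
    rw [mk_eq_iff] at this
    rw [← key, this, key]
  have hcont : Continuous H := by
    have h' : Continuous (fun q : MTorus a × I => H (q.2, q.1)) := by
      rw [continuous_prod_iff]
      have : (fun p : (Z × I) × I => H (p.2, mk a p.1)) = fun p => ω p := by
        funext p; exact hH p.2 p.1
      rw [this]
      exact ω.continuous
    exact h'.comp continuous_swap
  refine ⟨⟨⟨⟨H, hcont⟩, ?_, ?_⟩, ?_⟩⟩
  · intro y
    obtain ⟨p, rfl⟩ := mk_surjective a y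
    exact (hH 0 p).trans (h0 p)
  · intro y
    obtain ⟨p, rfl⟩ := mk_surjective a y
    exact (hH 1 p).trans (h1 p)
  · intro l y hy
    obtain ⟨p, rfl⟩ := mk_surjective a y
    exact (hH l p).trans (hS p l hy)

variable [CompactSpace Z] [T2Space Z]

/-- A map out of the mapping torus from a path in the mapping space. -/
def ofPath {B : Type*} [TopologicalSpace B] (a : C(Z, Z)) {F₀ : C(Z, B)}
    (γ : Path F₀ (F₀.comp a)) : C(MTorus a, B) :=
  lift a ⟨fun p => γ p.2 p.1, by
    have : Continuous (fun p : Z × I => (γ p.2, p.1)) := by fun_prop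
    exact continuous_eval.comp this⟩ (fun z => by
    show γ 1 z = γ 0 (a z)
    rw [γ.target, γ.source]; rfl)

@[simp] lemma ofPath_mk {B : Type*} [TopologicalSpace B] (a : C(Z, Z)) {F₀ : C(Z, B)}
    (γ : Path F₀ (F₀.comp a)) (z : Z) (t : I) : ofPath a γ (mk a (z, t)) = γ t z := by
  unfold ofPath
  rw [lift_mk]
  rfl

lemma ofPath_base {B : Type*} [TopologicalSpace B] (a : C(Z, Z)) {F₀ : C(Z, B)}
    (γ : Path F₀ (F₀.comp a)) (z : Z) : ofPath a γ (base a z) = F₀ z := by
  rw [base_apply, ofPath_mk, γ.source]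

lemma ofPath_homotopic {B : Type*} [TopologicalSpace B] (a : C(Z, Z)) {F₀ : C(Z, B)}
    (γ γ' : Path F₀ (F₀.comp a)) (h : γ.Homotopic γ') :
    (ofPath a γ).HomotopicRel (ofPath a γ') (range (base a)) := by
  obtain ⟨H⟩ := h
  have hc : Continuous (fun p : (Z × I) × I => H (p.2, p.1.2) p.1.1) := by
    have h1 : Continuous (fun p : (Z × I) × I => (H (p.2, p.1.2), p.1.1)) := by fun_prop
    exact continuous_eval.comp h1
  refine homotopicRel_of_family a _ _ ⟨_, hc⟩ ?_ ?_ ?_ _ ?_
  · rintro ⟨z, t⟩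
    show H (0, t) z = _
    rw [H.apply_zero, ofPath_mk]
    rfl
  · rintro ⟨z, t⟩
    show H (1, t) z = _
    rw [H.apply_one, ofPath_mk]
    rfl
  · intro z l
    show H (l, 1) z = H (l, 0) (a z)
    rw [H.target, H.source]
    rfl
  · rintro ⟨z, t⟩ l ⟨w, hw⟩
    show H (l, t) z = _
    rw [ofPath_mk]
    rw [base_apply, mk_eq_iff, nf_zero] at hw
    by_cases ht : t = 1
    · subst ht
      rw [H.target, γ.target]
    · rw [nf_of_ne a (p := (z, t)) ht] at hw
      have : t = 0 := (congrArg Prod.snd hw).symm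
      subst this
      rw [H.source, γ.source]

/-- The tautological path from `base` to `base ∘ a`. -/
def flowPath (a : C(Z, Z)) : Path (base a) ((base a).comp a) where
  toFun t := ⟨fun z => mk a (z, t), by fun_prop⟩
  continuous_toFun := by
    apply ContinuousMap.continuous_of_continuous_uncurry
    show Continuous (fun p : I × Z => mk a (p.2, p.1))
    fun_prop
  source' := rfl
  target' := by
    ext z
    exact mk_one a z

@[simp] lemma flowPath_apply (a : C(Z, Z)) (t : I) (z : Z) : flowPath a t z = mk a (z, t) := rfl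

/-- The comparison map between the mapping tori of homotopic maps. -/
def compar {a a' : C(Z, Z)} (h : Path a a') : C(MTorus a', MTorus a) :=
  ofPath a' ((flowPath a).trans (h.map (ContinuousMap.continuous_postcomp (base a))))

lemma comp_ofPath {B W : Type*} [TopologicalSpace B] [TopologicalSpace W] (a : C(Z, Z))
    {F₀ : C(Z, B)} (γ : Path F₀ (F₀.comp a)) (g : C(B, W)) :
    g.comp (ofPath a γ) = ofPath a (F₀ := g.comp F₀)
      (γ.map (ContinuousMap.continuous_postcomp g)) := by
  ext y
  obtain ⟨⟨z, t⟩, rfl⟩ := mk_surjective a y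
  rw [ContinuousMap.comp_apply, ofPath_mk, ofPath_mk]
  rfl

lemma compar_base {a a' : C(Z, Z)} (h : Path a a') (z : Z) :
    compar h (base a' z) = base a z := ofPath_base _ _ _

lemma compar_comp {a a' : C(Z, Z)} (h : Path a a') :
    ((compar h).comp (compar h.symm)).Homotopic (ContinuousMap.id (MTorus a)) := by
  have e1 : (compar h).comp (compar h.symm) = ofPath a (F₀ := base a)
      (((flowPath a).trans (h.map (ContinuousMap.continuous_postcomp (base a)))).trans
        (h.map (ContinuousMap.continuous_postcomp (base a))).symm) := by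
    ext y
    obtain ⟨⟨z, t⟩, rfl⟩ := mk_surjective a y
    rw [ContinuousMap.comp_apply, ofPath_mk]
    unfold compar
    rw [ofPath_mk]
    rw [Path.trans_apply, Path.trans_apply]
    split_ifs with ht
    · rw [flowPath_apply, ofPath_mk]
    · exact ofPath_base _ _ _
  have e2 : ContinuousMap.id (MTorus a) = ofPath a (flowPath a) := by
    ext y
    obtain ⟨⟨z, t⟩, rfl⟩ := mk_surjective a y
    rw [ofPath_mk]
    rfl
  rw [e1, e2]
  have h3 : (((flowPath a).trans (h.map (ContinuousMap.continuous_postcomp (base a)))).trans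
        (h.map (ContinuousMap.continuous_postcomp (base a))).symm).Homotopic (flowPath a) := by
    have t1 := Path.Homotopic.trans
      ⟨Path.Homotopy.transAssoc (flowPath a)
        (h.map (ContinuousMap.continuous_postcomp (base a)))
        (h.map (ContinuousMap.continuous_postcomp (base a))).symm⟩
      (Path.Homotopic.hcomp (Path.Homotopic.refl (flowPath a))
        (Path.Homotopic.symm ⟨Path.Homotopy.reflTransSymm
          (h.map (ContinuousMap.continuous_postcomp (base a)))⟩))
    exact t1.trans ⟨Path.Homotopy.transRefl (flowPath a)⟩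
  obtain ⟨H⟩ := ofPath_homotopic a _ _ h3
  exact ⟨H.toHomotopy⟩

/-- Mapping tori of homotopic maps are homotopy equivalent. -/
def comparEquiv {a a' : C(Z, Z)} (h : Path a a') : MTorus a ≃ₕ MTorus a' where
  toFun := compar h.symm
  invFun := compar h
  left_inv := compar_comp h
  right_inv := by
    have := compar_comp h.symm
    rwa [Path.symm_symm] at this

/-- `compar` preserves the projection to the circle up to homotopy. -/
lemma pr_compar {a a' : C(Z, Z)} (h : Path a a') :
    ((pr a).comp (compar h)).HomotopicRel (pr a') (range (base a')) := by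
  have val : ∀ (z : Z) (t : I), (pr a).comp (compar h) (mk a' (z, t)) =
      ((min (2 * (t : ℝ)) 1 : ℝ) : UnitAddCircle) := by
    intro z t
    rw [ContinuousMap.comp_apply]
    unfold compar
    rw [ofPath_mk, Path.trans_apply]
    split_ifs with ht
    · rw [flowPath_apply, pr_mk, min_eq_left (by linarith)]
    · rw [min_eq_right (by linarith)]
      show pr a (base a (h _ z)) = _
      rw [pr_base]
      exact (AddCircle.coe_period (1 : ℝ)).symm
  refine homotopicRel_of_family a' _ _
    ⟨fun p => (((1 - (p.2 : ℝ)) * min (2 * (p.1.2 : ℝ)) 1 + p.2 * p.1.2 : ℝ) : UnitAddCircle),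
      by fun_prop⟩ ?_ ?_ ?_ _ ?_
  · rintro ⟨z, t⟩
    rw [val]
    show (((1 - ((0 : I) : ℝ)) * min (2 * (t : ℝ)) 1 + ((0 : I) : ℝ) * t : ℝ) : UnitAddCircle) = _
    simp
  · rintro ⟨z, t⟩
    rw [pr_mk]
    show (((1 - ((1 : I) : ℝ)) * min (2 * (t : ℝ)) 1 + ((1 : I) : ℝ) * t : ℝ) : UnitAddCircle) = _
    simp
  · intro z l
    show (((1 - (l : ℝ)) * min (2 * ((1 : I) : ℝ)) 1 + l * ((1 : I) : ℝ) : ℝ) : UnitAddCircle) =
      (((1 - (l : ℝ)) * min (2 * ((0 : I) : ℝ)) 1 + l * ((0 : I) : ℝ) : ℝ) : UnitAddCircle)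
    have e1 : (1 - (l : ℝ)) * min (2 * ((1 : I) : ℝ)) 1 + l * ((1 : I) : ℝ) = 1 := by
      have : min (2 * ((1 : I) : ℝ)) 1 = 1 := by simp
      rw [this]; simp
    have e2 : (1 - (l : ℝ)) * min (2 * ((0 : I) : ℝ)) 1 + l * ((0 : I) : ℝ) = 0 := by
      have : min (2 * ((0 : I) : ℝ)) 1 = 0 := by simp
      rw [this]; simp
    rw [e1, e2]
    simp
  · rintro ⟨z, t⟩ l ⟨w, hw⟩
    rw [val]
    show (((1 - (l : ℝ)) * min (2 * (t : ℝ)) 1 + l * t : ℝ) : UnitAddCircle) = _
    rw [base_apply, mk_eq_iff, nf_zero] at hw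
    by_cases ht : t = 1
    · subst ht
      have : min (2 * ((1 : I) : ℝ)) 1 = 1 := by simp
      rw [this]; simp
    · rw [nf_of_ne a' (p := (z, t)) ht] at hw
      have : t = 0 := (congrArg Prod.snd hw).symm
      subst this
      simp

/-- Flowing is homotopic to the identity. -/
lemma homotopic_flow (a : C(Z, Z)) {X : Type*} [TopologicalSpace X] (F : C(X, MTorus a))
    (s : C(X, ℝ≥0)) : F.Homotopic ((flow a).comp (F.prodMk s)) := by
  refine ⟨⟨⟨fun p => flow a (F p.2, toNN p.1 * s p.2), by fun_prop⟩, ?_, ?_⟩⟩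
  · intro x
    show flow a (F x, toNN 0 * s x) = F x
    simp
  · intro x
    show flow a (F x, toNN 1 * s x) = flow a (F x, s x)
    simp

section Cyclic

variable {Y : Type*} [TopologicalSpace Y] [CompactSpace Y] [T2Space Y]

/-- The comparison map `MTorus (g ∘ f) → MTorus (f ∘ g)`. -/
def cyc (f : C(Z, Y)) (g : C(Y, Z)) : C(MTorus (g.comp f), MTorus (f.comp g)) :=
  lift (g.comp f) ⟨fun p => mk (f.comp g) (f p.1, p.2), by fun_prop⟩ (fun z => by
    show mk (f.comp g) (f z, 1) = mk (f.comp g) (f (g (f z)), 0)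
    exact mk_one _ _)

@[simp] lemma cyc_mk (f : C(Z, Y)) (g : C(Y, Z)) (z : Z) (t : I) :
    cyc f g (mk (g.comp f) (z, t)) = mk (f.comp g) (f z, t) := by
  unfold cyc; rw [lift_mk]; rfl

lemma cyc_comp (f : C(Z, Y)) (g : C(Y, Z)) :
    ((cyc g f).comp (cyc f g)).Homotopic (ContinuousMap.id (MTorus (g.comp f))) := by
  have h := homotopic_flow (g.comp f) (ContinuousMap.id (MTorus (g.comp f)))
    (ContinuousMap.const _ 1)
  have e : (flow (g.comp f)).comp ((ContinuousMap.id (MTorus (g.comp f))).prodMk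
      (ContinuousMap.const _ 1)) = (cyc g f).comp (cyc f g) := by
    ext y
    obtain ⟨⟨z, t⟩, rfl⟩ := mk_surjective _ y
    rw [ContinuousMap.comp_apply, ContinuousMap.comp_apply, cyc_mk, cyc_mk]
    show flow (g.comp f) (mk (g.comp f) (z, t), 1) = _
    rw [flow_mk, ray_add_one, ray_toNN]
    rfl
  rw [← e]
  exact h.symm

/-- `MTorus (g ∘ f)` and `MTorus (f ∘ g)` are homotopy equivalent. -/
def cycEquiv (f : C(Z, Y)) (g : C(Y, Z)) : MTorus (g.comp f) ≃ₕ MTorus (f.comp g) where
  toFun := cyc f g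
  invFun := cyc g f
  left_inv := cyc_comp f g
  right_inv := cyc_comp g f

lemma pr_cyc (f : C(Z, Y)) (g : C(Y, Z)) : (pr (f.comp g)).comp (cyc f g) = pr (g.comp f) := by
  ext y
  obtain ⟨⟨z, t⟩, rfl⟩ := mk_surjective _ y
  simp

end Cyclic

end MTorus

end SelfCover
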