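import Mathlib

/-!
# Module Push, part A: compact sets meet finitely many cells, Lipschitz approximation
-/

open scoped unitInterval Topology ENNReal NNReal
open Set

namespace SelfCover

section finite_cells

open Topology

variable {W : Type*} [TopologicalSpace W] [T2Space W] [CWComplex (univ : Set W)]

/-- A compact set meets only finitely many open cells. -/
theorem finite_cells_of_compact {C : Set W} (hC : IsCompact C) :
    {c : Σ n, RelCWComplex.cell (univ : Set W) n |
      (RelCWComplex.openCell c.1 c.2 ∩ C).Nonempty}.Finite := by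
  classical
  set T : Set (Σ n, RelCWComplex.cell (univ : Set W) n) :=
    {c | (RelCWComplex.openCell c.1 c.2 ∩ C).Nonempty} with hT
  choose x hx using fun c : T => c.2
  have hinj : Function.Injective x := by
    intro c c' h
    by_contra hne
    have hne' : (⟨c.1.1, c.1.2⟩ : Σ n, RelCWComplex.cell (univ : Set W) n) ≠ ⟨c'.1.1, c'.1.2⟩ := by
      intro h
      exact hne (Subtype.ext h)
    have hd := RelCWComplex.disjoint_openCell_of_ne hne'
    exact Set.disjoint_left.1 hd (hx c).1 (h ▸ (hx c').1)
  have hcl : ∀ A ⊆ range x, IsClosed A := by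
    intro A hA
    apply CWComplex.isClosed_of_isClosed_inter_openCell_or_isClosed_inter_closedCell
      (subset_univ A)
    intro n _ j
    left
    have hsub : (A ∩ RelCWComplex.openCell n j).Subsingleton := by
      rintro a ⟨ha, haj⟩ b ⟨hb, hbj⟩
      obtain ⟨c, rfl⟩ := hA ha
      obtain ⟨c', rfl⟩ := hA hb
      have key : ∀ d : T, x d ∈ RelCWComplex.openCell n j → d.1 = ⟨n, j⟩ := by
        intro d hd
        by_contra hne
        have hne' : (⟨d.1.1, d.1.2⟩ : Σ n, RelCWComplex.cell (univ : Set W) n) ≠ ⟨n, j⟩ := hne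
        exact Set.disjoint_left.1 (RelCWComplex.disjoint_openCell_of_ne hne') (hx d).1 hd
      have h1 := key c haj
      have h2 := key c' hbj
      have h3 : c = c' := Subtype.ext (h1.trans h2.symm)
      rw [h3]
    exact hsub.isClosed
  have hSc : IsCompact (range x) := by
    apply hC.of_isClosed_subset (hcl _ subset_rfl)
    rintro _ ⟨c, rfl⟩
    exact (hx c).2
  have hdisc : IsDiscrete (range x) := by
    rw [isDiscrete_iff_forall_mem_exists_isOpen]
    intro y hy
    refine ⟨(range x \ {y})ᶜ, (hcl _ sdiff_subset).isOpen_compl, ?_⟩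
    ext z
    simp only [mem_inter_iff, mem_compl_iff, mem_sdiff, mem_singleton_iff, not_and, not_not]
    constructor
    · rintro ⟨h1, h2⟩
      exact h1 h2
    · rintro rfl
      exact ⟨fun _ => rfl, hy⟩
  have hfin := hSc.finite hdisc
  have : Finite T := by
    have h1 : Finite (range x) := hfin
    exact Finite.of_injective (fun c : T => (⟨x c, c, rfl⟩ : range x)) (by
      intro c c' h
      exact hinj (congrArg Subtype.val h))
  exact Set.toFinite T

end finite_cells

section lip

variable {K : Type*} [MetricSpace K] [CompactSpace K]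

lemma exists_lipschitz_real (g : C(K, ℝ)) {ε : ℝ} (hε : 0 < ε) :
    ∃ (L : ℝ≥0) (G : K → ℝ), LipschitzWith L G ∧ ∀ x, |G x - g x| < ε := by
  rcases isEmpty_or_nonempty K with hK | hK
  · exact ⟨0, fun _ => 0, LipschitzWith.of_dist_le_mul (fun x => (hK.false x).elim),
      fun x => (hK.false x).elim⟩
  -- bound
  obtain ⟨M, hM⟩ : ∃ M : ℝ, ∀ x, |g x| ≤ M := by
    obtain ⟨M, hM⟩ := (isCompact_range g.continuous).isBounded.exists_norm_le
    exact ⟨M, fun x => hM _ ⟨x, rfl⟩⟩
  have hM0 : 0 ≤ M := (abs_nonneg _).trans (hM (Classical.arbitrary K))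
  -- uniform continuity
  have huc := CompactSpace.uniformContinuous_of_continuous g.continuous
  obtain ⟨δ, hδ, hδg⟩ := Metric.uniformContinuous_iff.1 huc (ε / 2) (by linarith)
  set L : ℝ := 2 * M / δ with hL
  have hL0 : 0 ≤ L := by positivity
  have hbdd : ∀ x, BddBelow (range fun y => g y + L * dist x y) := by
    intro x
    refine ⟨-M, ?_⟩
    rintro _ ⟨y, rfl⟩
    have h1 := (abs_le.1 (hM y)).1
    have h2 : 0 ≤ L * dist x y := by positivity
    simp only
    linarith
  refine ⟨⟨L, hL0⟩, fun x => ⨅ y, (g y + L * dist x y), ?_, ?_⟩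
  · apply LipschitzWith.of_le_add_mul
    intro x x'
    -- inf_y (g y + L d(x,y)) ≤ inf_y (g y + L d(x',y)) + L d(x,x')
    rw [← sub_le_iff_le_add]
    apply le_ciInf
    intro y
    rw [sub_le_iff_le_add]
    refine (ciInf_le (hbdd x) y).trans ?_
    have h1 : dist x y ≤ dist x x' + dist x' y := dist_triangle _ _ _
    have h2 := mul_le_mul_of_nonneg_left h1 hL0
    change g y + L * dist x y ≤ g y + L * dist x' y + L * dist x x'
    linarith
  · intro x
    have h1 : (⨅ y, (g y + L * dist x y)) ≤ g x := by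
      refine (ciInf_le (hbdd x) x).trans ?_
      simp
    have h2 : g x - ε / 2 ≤ ⨅ y, (g y + L * dist x y) := by
      apply le_ciInf
      intro y
      by_cases hxy : dist x y < δ
      · have h3 := hδg hxy
        rw [Real.dist_eq] at h3
        have h4 := (abs_lt.1 h3).2
        have h5 : 0 ≤ L * dist x y := by positivity
        linarith
      · push Not at hxy
        have h3 : L * δ = 2 * M := by rw [hL]; field_simp
        have h4 : L * δ ≤ L * dist x y := mul_le_mul_of_nonneg_left hxy hL0
        have h5 := (abs_le.1 (hM y)).1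
        have h6 := (abs_le.1 (hM x)).2
        linarith
    rw [abs_lt]
    constructor <;> linarith

lemma exists_lipschitz_pi {k : ℕ} (g : C(K, Fin k → ℝ)) {ε : ℝ} (hε : 0 < ε) :
    ∃ (L : ℝ≥0) (G : K → (Fin k → ℝ)), LipschitzWith L G ∧ ∀ x, ‖G x - g x‖ < ε := by
  have h : ∀ i : Fin k, ∃ (L : ℝ≥0) (G : K → ℝ), LipschitzWith L G ∧ ∀ x, |G x - g x i| < ε := by
    intro i
    exact exists_lipschitz_real ⟨fun x => g x i, by fun_prop⟩ hε
  choose L G hL hG using h
  refine ⟨∑ i, L i, fun x i => G i x, ?_, ?_⟩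
  · apply LipschitzWith.of_dist_le_mul
    intro x y
    rw [dist_pi_le_iff (by positivity)]
    intro i
    refine ((hL i).dist_le_mul x y).trans ?_
    apply mul_le_mul_of_nonneg_right _ dist_nonneg
    rw [NNReal.coe_sum]
    exact Finset.single_le_sum (f := fun i => ((L i : ℝ≥0) : ℝ)) (fun _ _ => NNReal.coe_nonneg _)
      (Finset.mem_univ i)
  · intro x
    rw [pi_norm_lt_iff hε]
    intro i
    exact hG i x

/-- Approximation missing a point close to `0`. -/
lemma exists_approx_missing {k : ℕ} (hk : dimH (univ : Set K) < k) (g : C(K, Fin k → ℝ))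
    {ε : ℝ} (hε : 0 < ε) :
    ∃ (G : C(K, Fin k → ℝ)) (q : Fin k → ℝ), (∀ x, ‖G x - g x‖ < ε) ∧ ‖q‖ < ε ∧ ∀ x, G x ≠ q := by
  obtain ⟨L, G, hL, hG⟩ := exists_lipschitz_pi g hε
  have h1 : dimH (range G) < Module.finrank ℝ (Fin k → ℝ) := by
    rw [Module.finrank_fin_fun]
    exact hL.dimH_range_le.trans_lt hk
  have h2 := dense_compl_of_dimH_lt_finrank h1
  obtain ⟨q, hq, hq2⟩ := h2.exists_dist_lt (0 : Fin k → ℝ) hε
  refine ⟨⟨G, hL.continuous⟩, q, hG, by simpa [dist_comm] using hq2, fun x hx => hq ⟨x, hx⟩⟩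

end lip

end SelfCover
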