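import Pool.Agent.SelfCover.MGroup
import Pool.Agent.SelfCover.Space

/-!
The action of paths on pointed maps out of `MSp`.
-/

open scoped unitInterval Topology
open Set unitInterval

noncomputable section

namespace SelfCover

variable {B : Type*} [TopologicalSpace B] {b b' b'' : B}

lemma PM.htpy_mk {f g : PM B b} (H : MSp × I → B) (hc : Continuous H)
    (h0 : ∀ m, H (m, 0) = f.1 m) (h1 : ∀ m, H (m, 1) = g.1 m) (hb : ∀ τ, H (mpt, τ) = b) :
    PM.Htpy f g := by
  refine ⟨⟨⟨⟨fun p => H (p.2, p.1), by fun_prop⟩, h0, h1⟩, ?_⟩⟩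
  intro τ m hm
  rw [mem_singleton_iff] at hm
  subst hm
  show H (mpt, τ) = f.1 mpt
  rw [hb, f.2]

lemma PM.Htpy.refl (f : PM B b) : PM.Htpy f f := ContinuousMap.HomotopicRel.refl _
lemma PM.Htpy.symm {f g : PM B b} (h : PM.Htpy f g) : PM.Htpy g f :=
  ContinuousMap.HomotopicRel.symm h
lemma PM.Htpy.trans {f g k : PM B b} (h : PM.Htpy f g) (h' : PM.Htpy g k) : PM.Htpy f k :=
  ContinuousMap.HomotopicRel.trans h h'

variable (N : NDR)

/-- A whisker `γ` followed by `f`. -/
def whFun {B : Type*} (f : MSp → B) (γ : I → B) (m : MSp) : B :=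
  open Classical in if N.ρ m = 0 then f (N.δ (m, 0)) else γ (σ (N.ρ m))

lemma continuous_whFun {T : Type*} [TopologicalSpace T] (f : MSp × T → B) (γ : I × T → B)
    (hf : Continuous f) (hγ : Continuous γ) (h : ∀ τ, f (mpt, τ) = γ (1, τ)) :
    Continuous fun p : MSp × T => whFun N (fun m => f (m, p.2)) (fun t => γ (t, p.2)) p.1 := by
  have hF : Continuous (fun p : MSp × T => f (N.δ (p.1, 0), p.2)) := by fun_prop
  have hG : Continuous (fun p : MSp × T => γ (σ (N.ρ p.1), p.2)) := by fun_prop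
  have c2 : IsClosed {p : MSp × T | N.δ (p.1, 0) = mpt} :=
    isClosed_eq (by fun_prop) continuous_const
  have c1 : IsClosed {p : MSp × T | N.ρ p.1 = 0} :=
    isClosed_eq (by fun_prop) continuous_const
  rw [← continuousOn_univ]
  have hu : (univ : Set (MSp × T)) = {p | N.ρ p.1 = 0} ∪ {p | N.δ (p.1, 0) = mpt} := by
    ext p
    rcases N.ρ_or p.1 with h | h <;> simp [h]
  rw [hu]
  refine ContinuousOn.union_of_isClosed ?_ ?_ c1 c2
  · refine hF.continuousOn.congr fun p hp => ?_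
    unfold whFun
    rw [if_pos (show N.ρ p.1 = 0 from hp)]
  · refine hG.continuousOn.congr fun p hp => ?_
    have hp' : N.δ (p.1, 0) = mpt := hp
    unfold whFun
    split_ifs with h2
    · show f (N.δ (p.1, 0), p.2) = γ (σ (N.ρ p.1), p.2)
      rw [hp', h, h2, unitInterval.symm_zero]
    · rfl

lemma continuous_whFun' (f : MSp → B) (γ : I → B) (hf : Continuous f) (hγ : Continuous γ)
    (h : f mpt = γ 1) : Continuous (whFun N f γ) := by
  have h1 := continuous_whFun N (T := Unit) (fun p => f p.1) (fun p => γ p.1)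
      (hf.comp continuous_fst) (hγ.comp continuous_fst) (fun _ => h)
  have h2 : Continuous fun m : MSp => (m, ()) := by fun_prop
  have h3 := h1.comp h2
  simpa only [Function.comp_def] using h3

lemma whFun_mpt {B : Type*} (f : MSp → B) (γ : I → B) : whFun N f γ mpt = γ 0 := by
  unfold whFun
  rw [N.ρ_pt, if_neg (by simp), unitInterval.symm_one]

lemma whFun_const {B : Type*} (f : MSp → B) (m : MSp) (γ : I → B) (h : ∀ t, γ t = f mpt) :
    whFun N f γ m = f (N.δ (m, 0)) := by
  unfold whFun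
  split_ifs with h1
  · rfl
  · rw [h]
    rcases N.ρ_or m with h2 | h2
    · exact absurd h2 h1
    · rw [h2]

/-- The action `γ # f` of a path `γ` from `b` to `b'` on a pointed map `f : MSp → (B, b')`. -/
def PM.wh (γ : Path b b') (f : PM B b') : PM B b :=
  ⟨⟨whFun N f.1 γ, continuous_whFun' N _ _ f.1.continuous γ.continuous
    (by rw [f.2, γ.target])⟩, by
    show whFun N f.1 γ mpt = b
    rw [whFun_mpt, γ.source]⟩

/-- `f` is freely homotopic to `g` along the path `γ`. -/
def FH (f : PM B b) (γ : Path b b') (g : PM B b') : Prop :=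
  ∃ K : ContinuousMap.Homotopy f.1 g.1, ∀ τ, K (τ, mpt) = γ τ

lemma FH.trans {f : PM B b} {γ : Path b b'} {g : PM B b'} {γ' : Path b' b''} {k : PM B b''}
    (h : FH f γ g) (h' : FH g γ' k) : FH f (γ.trans γ') k := by
  obtain ⟨K, hK⟩ := h
  obtain ⟨K', hK'⟩ := h'
  refine ⟨K.trans K', fun τ => ?_⟩
  rw [ContinuousMap.Homotopy.trans_apply, Path.trans_apply]
  split_ifs
  · exact hK _
  · exact hK' _

lemma FH.of_htpy {f g : PM B b} (h : PM.Htpy f g) : FH f (Path.refl b) g := by
  obtain ⟨K⟩ := h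
  refine ⟨K.toHomotopy, fun τ => ?_⟩
  have := K.eq_fst τ (mem_singleton mpt)
  show K (τ, mpt) = b
  rw [this, f.2]

/-- the self-map `δ₀` precomposed -/
def PM.del (f : PM B b) : PM B b :=
  ⟨⟨fun m => f.1 (N.δ (m, 0)), by fun_prop⟩, by
    show f.1 (N.δ (mpt, 0)) = b
    rw [N.δ_pt, f.2]⟩

lemma PM.del_htpy (f : PM B b) : PM.Htpy (PM.del N f) f :=
  PM.htpy_mk (fun p => f.1 (N.δ p)) (by fun_prop) (fun m => rfl)
    (fun m => by rw [N.δ_one]) (fun τ => by rw [N.δ_pt, f.2])

/-- Key lemma: a free homotopy along `γ` gives a pointed homotopy to the `γ`-translate. -/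
lemma FH.htpy_wh {f : PM B b} {γ : Path b b'} {g : PM B b'} (h : FH f γ g) :
    PM.Htpy f (PM.wh N γ g) := by
  obtain ⟨K, hK⟩ := h
  refine (PM.del_htpy N f).symm.trans ?_
  refine PM.htpy_mk (fun p => whFun N (fun m => K (p.2, m)) (fun t => γ (t * p.2)) p.1) ?_ ?_ ?_ ?_
  · exact continuous_whFun N (fun p => K (p.2, p.1)) (fun p => γ (p.1 * p.2)) (by fun_prop)
      (by fun_prop) (fun τ => by rw [hK, one_mul])
  · intro m
    show whFun N (fun m => K (0, m)) (fun t => γ (t * 0)) m = f.1 (N.δ (m, 0))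
    rw [whFun_const N _ _ _ (fun t => by rw [mul_zero]; exact (hK 0).symm), K.apply_zero]
  · intro m
    show whFun N (fun m => K (1, m)) (fun t => γ (t * 1)) m = whFun N g.1 γ m
    simp only [K.apply_one, mul_one]
  · intro τ
    show whFun N _ _ mpt = b
    rw [whFun_mpt, zero_mul, γ.source]

/-- The translate `γ # g` is freely homotopic to `g` along `γ · c`. -/
lemma FH.wh (γ : Path b b') (g : PM B b') : FH (PM.wh N γ g) (γ.trans (Path.refl b')) g := by
  refine FH.trans ?_ (FH.of_htpy (PM.del_htpy N g))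
  have hc : Continuous fun p : MSp × I =>
      whFun N (fun m => g.1 m) (fun t => γ (σ (σ t * σ p.2))) p.1 :=
    continuous_whFun N (fun p => g.1 p.1) (fun p => γ (σ (σ p.1 * σ p.2))) (by fun_prop)
      (by fun_prop) (fun τ => by
        rw [unitInterval.symm_one, zero_mul, unitInterval.symm_zero, γ.target, g.2])
  refine ⟨⟨⟨fun p => whFun N (fun m => g.1 m) (fun t => γ (σ (σ t * σ p.1))) p.2,
    hc.comp continuous_swap⟩, ?_, ?_⟩, ?_⟩
  · intro m
    show whFun N (fun m => g.1 m) (fun t => γ (σ (σ t * σ 0))) m = whFun N g.1 γ m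
    simp only [unitInterval.symm_zero, mul_one, unitInterval.symm_symm]
  · intro m
    show whFun N (fun m => g.1 m) (fun t => γ (σ (σ t * σ 1))) m = g.1 (N.δ (m, 0))
    rw [whFun_const]
    intro t
    rw [unitInterval.symm_one, mul_zero, unitInterval.symm_zero, γ.target, g.2]
  · intro τ
    show whFun N (fun m => g.1 m) (fun t => γ (σ (σ t * σ τ))) mpt = γ τ
    rw [whFun_mpt, unitInterval.symm_zero, one_mul, unitInterval.symm_symm]

lemma PM.wh_congr_path {γ γ' : Path b b'} (h : γ.Homotopic γ') (f : PM B b') :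
    PM.Htpy (PM.wh N γ f) (PM.wh N γ' f) := by
  obtain ⟨H⟩ := h
  refine PM.htpy_mk (fun p => whFun N (fun m => f.1 m) (fun t => H (p.2, t)) p.1) ?_ ?_ ?_ ?_
  · exact continuous_whFun N (fun p => f.1 p.1) (fun p => H (p.2, p.1)) (by fun_prop)
      (by fun_prop) (fun τ => by rw [f.2, H.target])
  · intro m
    show whFun N (fun m => f.1 m) (fun t => H (0, t)) m = whFun N f.1 γ m
    simp only [H.apply_zero]
    rfl
  · intro m
    show whFun N (fun m => f.1 m) (fun t => H (1, t)) m = whFun N f.1 γ' m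
    simp only [H.apply_one]
    rfl
  · intro τ
    show whFun N _ _ mpt = b
    rw [whFun_mpt, H.source]

lemma PM.wh_congr {f g : PM B b'} (γ : Path b b') (h : PM.Htpy f g) :
    PM.Htpy (PM.wh N γ f) (PM.wh N γ g) := by
  have h1 := ((FH.wh N γ f).trans (FH.of_htpy h)).htpy_wh N
  refine h1.trans (PM.wh_congr_path N ?_ g)
  have e1 : (γ.trans (Path.refl b')).Homotopic γ := ⟨Path.Homotopy.transRefl γ⟩
  exact (Path.Homotopic.hcomp e1 (Path.Homotopic.refl _)).trans e1

lemma PM.wh_refl (f : PM B b) : PM.Htpy (PM.wh N (Path.refl b) f) f :=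
  ((FH.of_htpy (PM.Htpy.refl f)).htpy_wh N).symm

lemma PM.wh_wh (γ : Path b b') (γ' : Path b' b'') (f : PM B b'') :
    PM.Htpy (PM.wh N γ (PM.wh N γ' f)) (PM.wh N (γ.trans γ') f) := by
  have h1 := ((FH.wh N γ (PM.wh N γ' f)).trans (FH.wh N γ' f)).htpy_wh N
  refine h1.trans (PM.wh_congr_path N ?_ f)
  exact Path.Homotopic.hcomp ⟨Path.Homotopy.transRefl γ⟩ ⟨Path.Homotopy.transRefl γ'⟩

lemma PM.wh_add (γ : Path b b') (f g : PM B b') :
    PM.Htpy (PM.wh N γ (PM.add f g)) (PM.add (PM.wh N γ f) (PM.wh N γ g)) := by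
  obtain ⟨K, hK⟩ := FH.wh N γ f
  obtain ⟨K', hK'⟩ := FH.wh N γ g
  have k1 : Continuous fun p : MSp × I => K (p.2, p.1) := by fun_prop
  have k2 : Continuous fun p : MSp × I => K' (p.2, p.1) := by fun_prop
  have k3 : ∀ τ, K (τ, mpt) = K' (τ, mpt) := fun τ => by rw [hK, hK']
  have hc : Continuous fun p : MSp × I =>
      addFun (fun m => K (p.2, m)) (fun m => K' (p.2, m)) p.1 := continuous_addFun _ _ k1 k2 k3
  obtain ⟨G, hG⟩ : ∃ G : C(MSp × I, B), ∀ m τ,
      G (m, τ) = addFun (fun m => K (τ, m)) (fun m => K' (τ, m)) m := ⟨⟨_, hc⟩, fun _ _ => rfl⟩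
  have h : FH (PM.add (PM.wh N γ f) (PM.wh N γ g)) (γ.trans (Path.refl b')) (PM.add f g) := by
    refine ⟨⟨⟨fun p => G (p.2, p.1), by fun_prop⟩, ?_, ?_⟩, ?_⟩
    · intro m
      show G (m, 0) = addFun (PM.wh N γ f).1 (PM.wh N γ g).1 m
      rw [hG]
      simp only [K.apply_zero, K'.apply_zero]
    · intro m
      show G (m, 1) = addFun f.1 g.1 m
      rw [hG]
      simp only [K.apply_one, K'.apply_one]
    · intro τ
      show G (mpt, τ) = _
      rw [hG, addFun_of_lam2 _ _ _ lam2_mpt, lam1_mpt, hK]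
  have h1 := h.htpy_wh N
  refine (h1.trans (PM.wh_congr_path N ?_ _)).symm
  exact ⟨Path.Homotopy.transRefl γ⟩

end SelfCover
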